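import Mathlib
import Pool.Agent.Lib.MP_44a246_ntSH.SV2

/-!
# Sharp Vojta inequality with a boundary: step 0, a copy of `ntSH/SV2` with large `R`

As `VB1`; some of the forms may not vanish at the point, and the number `∑ᶠ ε` of the places of
contact is treated like the ramification `R`: only `R + ∑ᶠ ε ≤ q H` and
`R + ∑ᶠ ε ≤ (∑ d j - n - 1) H` are known. `pairHyp_datCL` (SV1) with `k = ∑ d j - n - 2` has the
error `((n + 1) ^ 2 + p) Δ + (R + ∑ᶠ ε)`, and `k H - (R + ∑ᶠ ε) ≥ - H`: so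
`PairHyp κ x d p n p 0 (H + ((n + 1) ^ 2 + p) Δ)` holds. The extra `H` does not matter: in
`lemmaP_steepPL` (SV2) the cost is at least `36 H - (H + E) = 35 H - E`, which is exactly what
`block_abs` needs, and `numUL` (SV2) has a lot of room. The curve is then improved in the block `j`
of MAXIMAL degree (`X.pt` does not depend on the block) by `smallI_block` with `E₀ = 0` and this
`q`.
-/

namespace Pool.Agent.Lib.MP_44a246_ntVT

open Pool.Agent.Lib.MP_44a246_nt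
open Pool.Agent.Lib.MP_44a246_ntL
open Pool.Agent.Lib.MP_44a246_ntS
open Pool.Agent.Lib.MP_44a246_ntX
open Pool.Agent.Lib.MP_44a246_ntG
open Pool.Agent.Lib.MP_44a246_ntK
open Pool.Agent.Lib.MP_44a246_ntF
open Pool.Agent.Lib.MP_44a246_ntA
open Pool.Agent.Lib.MP_44a246_ntC
open Pool.Agent.Lib.MP_44a246_ntI
open Pool.Agent.Lib.MP_44a246_ntSH
open Pool.Agent.Lib.MP_44a246_ntO (PairHyp one_le_finrank_aux exists_slope cost_le_aux block_abs)
open Pool.Agent.Lib.MP_44a246_ntD (RB)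
open Pool.Agent.Lib.MP_e52354_nt
open WithZero Module

/-- **Lemma P from a steep subspace**, with the error `H + E`. Proof: `lemmaP_steepPL` (SV2). -/
theorem lemmaP_steepVL {κ K : Type*} [Field κ] [IsAlgClosed κ] [CharZero κ] [Field K] [Algebra κ K]
    {n : ℕ} (h : IsFF κ K) (hn : 2 ≤ n) {x : Fin n → K} (hx : x ≠ 0) {p : ℕ}
    {d : Fin p → ℕ} {ρ r c : ℕ} (hρ : 1 ≤ ρ) {E : ℝ} (hE : 0 ≤ E)
    (hP : PairHyp κ x d ρ r c 0 (height κ x + E))
    {C₀ : ℕ} (hC : 360 * ρ + 10 + 5 * c ≤ C₀) {E₁ : Submodule K (Fin n → K)} (hxE : x ∈ E₁)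
    (hE2 : 2 ≤ finrank K E₁)
    (hsl : (C₀ : ℝ) * height κ x * ((finrank K E₁ : ℝ) - 1) ≤ r * ((height κ x : ℝ) - ht κ E₁))
    (hEH : n * E ≤ height κ x) (hH : 0 < height κ x) :
    ∃ P : Submodule K (Fin n → K), x ∈ P ∧ 20 * ht κ P ≤ height κ x ∧
      9 * (C₀ : ℝ) * ((finrank K P : ℝ) - 1) ≤ 20 * r := by
  obtain ⟨E', M, hxE', hE2', hEM, hM⟩ := exists_slope h hx (by rw [Fintype.card_fin]; exact hn)
  have hHR : (0 : ℝ) < height κ x := by exact_mod_cast hH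
  have hr0 : (0 : ℝ) ≤ r := Nat.cast_nonneg r
  have hc0 : (0 : ℝ) ≤ c := Nat.cast_nonneg c
  have hρR : (1 : ℝ) ≤ ρ := by exact_mod_cast hρ
  have hCR : 360 * (ρ : ℝ) + 10 + 5 * c ≤ C₀ := by exact_mod_cast hC
  have hE2R : (2 : ℝ) ≤ finrank K E₁ := by exact_mod_cast hE2
  have hE2R' : (2 : ℝ) ≤ finrank K E' := by exact_mod_cast hE2'
  have hE1ht : (0 : ℝ) ≤ ht κ E' := by exact_mod_cast ht_nonneg h E'
  have hnR : (2 : ℝ) ≤ n := by exact_mod_cast hn
  have hEH1 : E ≤ height κ x / 2 := by nlinarith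
  -- `r M ≥ C₀ H`
  have hrM : (C₀ : ℝ) * height κ x ≤ r * M := by
    have h1 := hM E₁ hxE
    have h2 : (C₀ : ℝ) * height κ x * ((finrank K E₁ : ℝ) - 1) ≤
        r * M * ((finrank K E₁ : ℝ) - 1) := by
      refine hsl.trans ((mul_le_mul_of_nonneg_left h1 hr0).trans (le_of_eq ?_))
      ring
    exact le_of_mul_le_mul_right h2 (by linarith)
  have hC10 : (0 : ℝ) < C₀ := by linarith
  have hCH : 0 < (C₀ : ℝ) * height κ x := mul_pos hC10 hHR
  have hM0 : 0 < M := by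
    by_contra hM0
    have h1 : (r : ℝ) * M ≤ 0 := mul_nonpos_of_nonneg_of_nonpos hr0 (not_lt.1 hM0)
    linarith
  have hMH : M ≤ height κ x := by
    have h1 : M * 1 ≤ M * ((finrank K E' : ℝ) - 1) :=
      mul_le_mul_of_nonneg_left (by linarith) hM0.le
    linarith
  obtain ⟨j, U, hU, hle⟩ := hP E' hxE' (9 / 20 * M) (by linarith)
  have hU0 : (0 : ℝ) ≤ ht κ U := by exact_mod_cast ht_nonneg h U
  have hU1 : (1 : ℝ) ≤ finrank K U := by
    exact_mod_cast one_le_finrank_aux (xm_ne_zero hx) hU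
  have hcost' : 35 * (height κ x : ℝ) - E ≤
      (d j : ℝ) * height κ x - ht κ U - 9 / 20 * M * ((finrank K U : ℝ) - 1) := by
    have h2 : 0 ≤ ((finrank K E' : ℝ) - 2) * (M * r) :=
      mul_nonneg (by linarith) (mul_nonneg hM0.le hr0)
    have hcM : (c : ℝ) * M ≤ c * height κ x := mul_le_mul_of_nonneg_left hMH hc0
    have h3 : 36 * ρ * (height κ x : ℝ) + height κ x + c * height κ x / 2 ≤ r * M / 10 := by
      have h4 : (360 * ρ + 10 + 5 * c) * (height κ x : ℝ) ≤ C₀ * height κ x :=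
        mul_le_mul_of_nonneg_right hCR hHR.le
      linarith
    have hcH : 0 ≤ (c : ℝ) * height κ x := mul_nonneg hc0 hHR.le
    have h30 : 0 ≤ 36 * ρ * (height κ x : ℝ) := by positivity
    have h4 : 0 ≤ ((finrank K E' : ℝ) - 2) * (r * M / 10 - height κ x) :=
      mul_nonneg (by linarith) (by linarith)
    generalize (d j : ℝ) * height κ x - ht κ U - 9 / 20 * M * ((finrank K U : ℝ) - 1) = cc at hle ⊢
    have h5 : (ρ : ℝ) * (35 * height κ x - E) ≤ ρ * cc := by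
      have h6 : 36 * ρ * (height κ x : ℝ) - (height κ x + E) ≤ ρ * cc := by
        push_cast at hle
        nlinarith
      have h7 : E ≤ ρ * E := by nlinarith
      have h8 : (height κ x : ℝ) ≤ ρ * height κ x := by nlinarith
      nlinarith
    exact le_of_mul_le_mul_left h5 (by linarith)
  have h3 : 0 ≤ 9 / 20 * M * ((finrank K U : ℝ) - 1) := mul_nonneg (by linarith) (by linarith)
  have hD : 36 ≤ d j := by
    by_contra hcon
    have hd1 : 1 ≤ d j := by
      by_contra hcon1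
      have h1 : d j = 0 := by omega
      have h2 : (d j : ℝ) * height κ x = 0 := by rw [h1]; simp
      rw [h2] at hcost'
      linarith
    have h1 : (d j : ℝ) ≤ 35 := by
      have : d j ≤ 35 := by omega
      exact_mod_cast this
    have h2 : (d j : ℝ) * height κ x ≤ 35 * height κ x := mul_le_mul_of_nonneg_right h1 hHR.le
    have h4 := cost_le_aux h hx hM hd1 hU
    have h5 : 9 / 20 * M * ((finrank K U : ℝ) - 1) = 9 / 20 * (M * ((finrank K U : ℝ) - 1)) := by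
      ring
    rw [h5] at hcost'
    linarith
  obtain ⟨P, hxP, hP1, hP2⟩ := block_abs h hx hM0 hMH hM hD hU hE hEH hcost'
  refine ⟨P, hxP, hP1, ?_⟩
  have hP3 : (1 : ℝ) ≤ finrank K P := by exact_mod_cast one_le_finrank_aux hx hxP
  have h3 : (r : ℝ) * (9 / 20 * M * ((finrank K P : ℝ) - 1)) ≤ r * height κ x :=
    mul_le_mul_of_nonneg_left hP2 hr0
  have h4 : (C₀ : ℝ) * height κ x * ((finrank K P : ℝ) - 1) ≤ r * M * ((finrank K P : ℝ) - 1) :=
    mul_le_mul_of_nonneg_right hrM (by linarith)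
  have h5 : (9 * (C₀ : ℝ) * ((finrank K P : ℝ) - 1)) * height κ x ≤ (20 * r) * height κ x := by
    nlinarith
  exact le_of_mul_le_mul_right h5 hHR

/-- The sum of the degrees, if all the slopes are small. -/
private theorem sum_le_of_slopeVL {κ K : Type*} [Field κ] [IsAlgClosed κ] [CharZero κ] [Field K]
    [Algebra κ K] {n : ℕ} (h : IsFF κ K) (hn : 1 ≤ n) {x : Fin n → K} (hx : x ≠ 0) {p : ℕ}
    {d : Fin p → ℕ} (hd : ∀ j, 1 ≤ d j) {ρ r c k q : ℕ} {E F : ℝ} (hE : 0 ≤ E)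
    (hF : F ≤ q * height κ x) (hP : PairHyp κ x d ρ r c k (E + F)) {C₀ : ℕ}
    (hsl : ∀ E₁ : Submodule K (Fin n → K), x ∈ E₁ →
      r * ((height κ x : ℝ) - ht κ E₁) ≤ C₀ * height κ x * ((finrank K E₁ : ℝ) - 1))
    (hEH : n * E < height κ x) (hr : 1 ≤ r) (hcr : c * C₀ ≤ r) : k ≤ C₀ + q + 1 := by
  have hE' : 0 ≤ (n : ℝ) * E := mul_nonneg (Nat.cast_nonneg _) hE
  have hHR : (0 : ℝ) < height κ x := lt_of_le_of_lt hE' hEH
  have hrR : (1 : ℝ) ≤ r := by exact_mod_cast hr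
  have hr0 : (0 : ℝ) < r := by linarith
  have hnR : (1 : ℝ) ≤ n := by exact_mod_cast hn
  have hEH1 : E < height κ x := by nlinarith
  obtain ⟨M, hM⟩ : ∃ M : ℝ, M = C₀ * height κ x / r := ⟨_, rfl⟩
  have hM0 : 0 ≤ M := by rw [hM]; positivity
  have hMr : M * r = C₀ * height κ x := by rw [hM]; field_simp
  have hcM : M * c ≤ height κ x := by
    have h1 : (c : ℝ) * C₀ ≤ r := by exact_mod_cast hcr
    have h2 : (M * c) * r ≤ height κ x * r := by
      have h3 : (M * c) * r = (c * C₀) * height κ x := by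
        have : (M * c) * r = c * (M * r) := by ring
        rw [this, hMr]
        ring
      rw [h3, mul_comm (height κ x : ℝ)]
      exact mul_le_mul_of_nonneg_right h1 hHR.le
    exact le_of_mul_le_mul_right h2 hr0
  have hslM : ∀ E₁ : Submodule K (Fin n → K), x ∈ E₁ →
      (height κ x : ℝ) - ht κ E₁ ≤ M * ((finrank K E₁ : ℝ) - 1) := by
    intro E₁ hE₁
    have h1 := hsl E₁ hE₁
    refine le_of_mul_le_mul_left (h1.trans (le_of_eq ?_)) hr0
    rw [← hMr]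
    ring
  obtain ⟨j, U, hU, hle⟩ := hP (K ∙ x) (Submodule.mem_span_singleton_self x) M hM0
  rw [finrank_span_singleton hx, ht_single h hx] at hle
  have h1 := cost_le_aux h hx hslM (hd j) hU
  have h2 : (ρ : ℝ) * ((d j : ℝ) * height κ x - ht κ U - M * ((finrank K U : ℝ) - 1)) ≤ 0 :=
    mul_nonpos_of_nonneg_of_nonpos (Nat.cast_nonneg _) (by linarith)
  have h3 : (k : ℝ) * height κ x < (C₀ + q + 2) * height κ x := by
    push_cast at hle
    nlinarith
  have h4 : (k : ℝ) < C₀ + q + 2 := lt_of_mul_lt_mul_right h3 hHR.le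
  have h5 : k < C₀ + q + 2 := by exact_mod_cast h4
  omega

/-- the numerical contradiction -/
private theorem numVL {H y E z l : ℝ} {n ρ b m C₀ c : ℕ} (hH : 0 < H) (hE : E < 2 * H)
    (hρ : 1 ≤ ρ) (hc : c ≤ ρ)
    (hb : 6 ≤ b) (hm : 1 ≤ m) (hbn : 400 * ρ * (b * m) ≤ n) (hC : 0 < C₀)
    (hbC : 42 * (20 * n + 9 * C₀) ≤ 180 * (C₀ * b)) (hy : 20 * y ≤ H)
    (hl : 9 * (C₀ : ℝ) * (l - 1) ≤ 20 * n)
    (h1 : (0 - (l - 1)) * H + n * (H - y) - 21 * H / (20 * b) * (l * n + c) - E ≤ ρ * z)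
    (h2 : 4 * (ρ * z) ≤ n * H ∨ z ≤ (12 * (b * m) + 2 * b - 1) * H + 21 * H / (20 * b)) :
    False := by
  have hC0 : (0 : ℝ) < C₀ := by exact_mod_cast hC
  have hbCR : 42 * (20 * (n : ℝ) + 9 * C₀) ≤ 180 * (C₀ * b) := by exact_mod_cast hbC
  have hb6 : (6 : ℝ) ≤ b := by exact_mod_cast hb
  have hbr : (0 : ℝ) < b := by linarith
  have hρR : (1 : ℝ) ≤ ρ := by exact_mod_cast hρ
  have hcR : (c : ℝ) ≤ ρ := by exact_mod_cast hc
  have hmR : (1 : ℝ) ≤ m := by exact_mod_cast hm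
  have hbnR : 400 * (ρ : ℝ) * (b * m) ≤ n := by exact_mod_cast hbn
  have hn0 : (0 : ℝ) ≤ n := Nat.cast_nonneg n
  -- `42 l ≤ 20 b`
  have hl42 : 42 * l ≤ 20 * b := by
    have h3 : (9 * (C₀ : ℝ)) * (42 * l) ≤ (9 * C₀) * (20 * b) := by nlinarith
    exact le_of_mul_le_mul_left h3 (by linarith)
  set q : ℝ := 21 * H / (20 * b) with hq
  have hqb : q * b = 21 * H / 20 := by
    rw [hq]
    field_simp
  have hq0 : 0 ≤ q := by positivity
  have hql : q * l ≤ H / 2 := by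
    have h3 := mul_le_mul_of_nonneg_left hl42 hq0
    nlinarith
  have hqln : q * (l * n) ≤ H / 2 * n := by
    have := mul_le_mul_of_nonneg_right hql hn0
    linarith
  have hq1 : q ≤ 21 * H / 120 := by
    have h3 : q * 6 ≤ q * b := mul_le_mul_of_nonneg_left hb6 hq0
    linarith
  have hqc : q * c ≤ 21 * H / 120 * ρ :=
    (mul_le_mul_of_nonneg_left hcR hq0).trans (mul_le_mul_of_nonneg_right hq1 (by linarith))
  have hny : (n : ℝ) * (19 * H) ≤ 20 * (n * (H - y)) := by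
    have := mul_le_mul_of_nonneg_left (by linarith : 19 * H ≤ 20 * (H - y)) hn0
    linarith
  have hlH : l * H ≤ 20 * b / 42 * H := mul_le_mul_of_nonneg_right (by linarith) hH.le
  have hbm : (b : ℝ) ≤ b * m := le_mul_of_one_le_right hbr.le hmR
  have hbmρ : (b : ℝ) * m ≤ ρ * (b * m) := le_mul_of_one_le_left (by positivity) hρR
  have hbH : 400 * (b * H) ≤ n * H := by
    have : 400 * (b : ℝ) ≤ n := by linarith
    have h3 := mul_le_mul_of_nonneg_right this hH.le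
    linarith
  have hb6H : 6 * H ≤ b * H := mul_le_mul_of_nonneg_right hb6 hH.le
  have hρH : 2400 * (ρ * H) ≤ n * H := by
    have h3 : (6 : ℝ) ≤ b * m := by linarith
    have h4 : 400 * (ρ : ℝ) * 6 ≤ 400 * ρ * (b * m) :=
      mul_le_mul_of_nonneg_left h3 (by linarith)
    have h5 : 2400 * (ρ : ℝ) ≤ n := by linarith
    have h6 := mul_le_mul_of_nonneg_right h5 hH.le
    linarith
  have hlow : (n : ℝ) * H < 4 * (ρ * z) := by
    have h3 : (n : ℝ) * (H - y) - q * (l * n) - q * c - (l - 1) * H - 2 * H < ρ * z := by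
      have h4 : q * (l * n + c) = q * (l * n) + q * c := by ring
      rw [h4] at h1
      linarith
    nlinarith
  rcases h2 with h2 | h2
  · linarith
  · have h3 : (ρ : ℝ) * z ≤ ρ * ((12 * (b * m) + 2 * b - 1) * H + q) :=
      mul_le_mul_of_nonneg_left h2 (by linarith)
    have h4 : (12 * (b * m) + 2 * b - 1) * H + q ≤ 14 * (b * m) * H := by
      have h5 : (b : ℝ) * H ≤ b * m * H := mul_le_mul_of_nonneg_right hbm hH.le
      nlinarith
    have h5 : (ρ : ℝ) * ((12 * (b * m) + 2 * b - 1) * H + q) ≤ ρ * (14 * (b * m) * H) :=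
      mul_le_mul_of_nonneg_left h4 (by linarith)
    have h6 : 400 * (ρ : ℝ) * (b * m) * H ≤ n * H := mul_le_mul_of_nonneg_right hbnR hH.le
    have h7 : (0 : ℝ) ≤ ρ * (b * m) * H := by positivity
    nlinarith

/-- **The curve**, from a subspace of small height and small dimension. Proof: `curve_steepPL`
(SV2), the numerical lemma `numUL` there has to be copied with `E < 2 H`. -/
theorem curve_steepVL {κ L : Type*} [Field κ] [IsAlgClosed κ] [CharZero κ] [Field L] [CharZero L]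
    [Algebra κ L] (h : IsFF κ L) {n p ρ b m C₀ c : ℕ} {d : Fin p → ℕ} (X : DatC κ (L := L) n d)
    (hρ : 1 ≤ ρ) (hc : c ≤ ρ) (hb : 6 ≤ b) (hm : 1 ≤ m) (hbn : 400 * ρ * (b * m) ≤ n)
    (hC : 0 < C₀) (hbC : 42 * (20 * n + 9 * C₀) ≤ 180 * (C₀ * b))
    (hH : 0 < height κ X.x) {E : ℝ} (hE : E < 2 * height κ X.x)
    (hP : PairHyp κ X.x d ρ n c 0 E)
    {P : Submodule L (Fin (n + 1) → L)} (hxP : X.x ∈ P) (hPH : 20 * ht κ P ≤ height κ X.x)
    (hPd : 9 * (C₀ : ℝ) * ((finrank L P : ℝ) - 1) ≤ 20 * n) :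
    ∃ (j : Fin p) (a : ℕ) (A : MvPolynomial (Fin 3) L), n ≤ 4 * ρ * d j ∧ a ≤ b ∧ A ≠ 0 ∧
      A.IsHomogeneous a ∧ MvPolynomial.eval X.pt A = 0 ∧
      21 * (a * (m * polyHeight κ A)) ≤ height κ X.x := by
  have hHr : (0 : ℝ) < (height κ X.x : ℝ) := by exact_mod_cast hH
  have hb6 : (6 : ℝ) ≤ b := by exact_mod_cast hb
  have hbr : (0 : ℝ) < b := by linarith
  have hx0 : X.x ≠ 0 := by
    intro h1
    have h2 := X.h0
    rw [h1] at h2
    simp at h2
  obtain ⟨j, U, hU, h1⟩ := hP P hxP (21 * height κ X.x / (20 * b)) (by positivity)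
  have hy : 20 * (ht κ P : ℝ) ≤ (height κ X.x : ℝ) := by exact_mod_cast hPH
  have h1' : (0 - ((finrank L P : ℝ) - 1)) * height κ X.x + n * ((height κ X.x : ℝ) - ht κ P) -
      21 * height κ X.x / (20 * b) * ((finrank L P : ℝ) * n + c) - E ≤
      ρ * ((d j : ℝ) * height κ X.x - ht κ U -
        21 * height κ X.x / (20 * b) * ((finrank L U : ℝ) - 1)) := by
    push_cast at h1
    exact h1
  rcases Nat.lt_or_ge (4 * ρ * d j) n with hj | hj
  · exfalso
    refine numVL hHr hE hρ hc hb hm hbn hC hbC hy hPd h1' (Or.inl ?_)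
    have hU0 : (0 : ℝ) ≤ ht κ U := by exact_mod_cast ht_nonneg h U
    have hU1 : (1 : ℝ) ≤ finrank L U := by
      exact_mod_cast one_le_finrank_aux (xm_ne_zero hx0) hU
    have h3 : 0 ≤ 21 * (height κ X.x : ℝ) / (20 * b) * ((finrank L U : ℝ) - 1) :=
      mul_nonneg (by positivity) (by linarith)
    have h4 : 4 * (ρ : ℝ) * d j ≤ n := by exact_mod_cast hj.le
    have h5 := mul_le_mul_of_nonneg_right h4 hHr.le
    have h6 : (ρ : ℝ) * ((d j : ℝ) * height κ X.x - ht κ U -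
        21 * height κ X.x / (20 * b) * ((finrank L U : ℝ) - 1)) ≤ ρ * (d j * height κ X.x) :=
      mul_le_mul_of_nonneg_left (by linarith) (Nat.cast_nonneg _)
    linarith
  · have hdj : 14 * (b * m) ≤ d j := by
      have h2 : 4 * ρ * (100 * (b * m)) ≤ 4 * ρ * d j := by
        refine le_trans (le_of_eq ?_) (hbn.trans hj)
        ring
      have h3 : 100 * (b * m) ≤ d j := Nat.le_of_mul_le_mul_left h2 (by omega)
      omega
    rcases plane_block4 h (X.blk j) (by omega) hm hdj hH (U := U) hU with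
      ⟨a, A, g1, g2, g3, g4, g5⟩ | h2
    · exact ⟨j, a, A, hj, g1, g2, g3, g4, g5⟩
    · exact (numVL hHr hE hρ hc hb hm hbn hC hbC hy hPd h1' (Or.inr h2)).elim

/-- **Step 0 with a boundary.** Proof: `step0PL` (SV2). For the sum of the degrees:
`sum_le_of_slopeL` (SV2) with the error `((n + 1) ^ 2 + p) Δ + (R + ∑ᶠ ε) ≤ .. + q H` (copy its
proof: `k < C₀ + q + 2` for `k = ∑ d j - n - 2`). For the curve: `lemmaP_steepVL`,
`curve_steepVL` with `m = 4 p + 1`, then `j` of maximal degree (`n ≤ 4 p d j` remains true),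
`smallI_block` with `q`, `E₀ = 0`: `100 (b (4 p + 1)) (q + 3) ≤ d j` by `hbn`. -/
theorem step0VL {κ L : Type*} [Field κ] [IsAlgClosed κ] [CharZero κ] [Field L] [CharZero L]
    [Algebra κ L] (h : IsFF κ L) {n p b C₀ q : ℕ} {d : Fin p → ℕ} (X : DatC κ (L := L) n d)
    {ε : Place κ L → ℕ} (hε : (Function.support ε).Finite)
    (hvε : ∀ w : Place κ L, (∀ j, X.v j ≠ 0 → w.1 (X.v j) = vmax w.1 X.x ^ d j) ∨ 1 ≤ ε w)
    (hn : 1 ≤ n) (hd1 : ∀ j, 1 ≤ d j) (hd : n + 2 ≤ ∑ j, d j) (hb : 6 ≤ b)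
    (hbn : 400 * p * (b * (4 * p + 1)) * (q + 3) ≤ n)
    (hC : 365 * p + 10 ≤ C₀) (hpC : p * C₀ ≤ n)
    (hbC : 42 * (20 * n + 9 * C₀) ≤ 180 * (C₀ * b))
    (hRq : X.R + ∑ᶠ w, (ε w : ℤ) ≤ q * height κ X.x)
    (hRk : X.R + ∑ᶠ w, (ε w : ℤ) ≤ ((∑ j, (d j : ℤ)) - n - 1) * height κ X.x)
    (hbig : (27 * ((∑ j, d j : ℕ) : ℤ) ^ 2 + (n + 1) * ((n + 1) * (n + 1) + p + 1)) * X.Δ <
      height κ X.x) :
    (∑ j, d j ≤ n + C₀ + q + 3 ∧ ∀ E₁ : Submodule L (Fin (n + 1) → L), X.x ∈ E₁ →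
      n * ((height κ X.x : ℝ) - ht κ E₁) ≤ C₀ * height κ X.x * ((finrank L E₁ : ℝ) - 1)) ∨
    ∃ j, (∀ i, d i ≤ d j) ∧ n ≤ 4 * p * d j ∧ SmallI (X.blk j) b q := by
  classical
  have hp : 1 ≤ p := by
    by_contra hcon
    have h1 : p = 0 := by omega
    subst h1
    rw [Finset.univ_eq_empty, Finset.sum_empty] at hd
    omega
  have hΔ := X.Δ_nonneg
  have hR := X.R_nonneg
  obtain ⟨N, hN⟩ : ∃ N : ℤ, N = ∑ᶠ w, (ε w : ℤ) := ⟨_, rfl⟩
  have hN0 : 0 ≤ N := by
    rw [hN]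
    exact finsum_nonneg fun w => Int.natCast_nonneg _
  rw [← hN] at hRq hRk
  have hH : 0 < height κ X.x := lt_of_le_of_lt (mul_nonneg (by positivity) hΔ) hbig
  have hHr : (0 : ℝ) < height κ X.x := by exact_mod_cast hH
  have hx0 : X.x ≠ 0 := by
    intro h1
    have h2 := X.h0
    rw [h1] at h2
    simp at h2
  obtain ⟨E, hE⟩ : ∃ E : ℝ, E = (((((n + 1) * (n + 1) + p : ℕ) : ℤ) * X.Δ : ℤ) : ℝ) := ⟨_, rfl⟩
  have hE0 : 0 ≤ E := by
    rw [hE]
    exact_mod_cast mul_nonneg (Int.natCast_nonneg _) hΔ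
  have hEH : ((n + 1 : ℕ) : ℝ) * E < height κ X.x := by
    have h1 : ((n + 1 : ℕ) : ℤ) * ((((n + 1) * (n + 1) + p : ℕ) : ℤ) * X.Δ) <
        height κ X.x := by
      have h2 : ((n + 1 : ℕ) : ℤ) * ((((n + 1) * (n + 1) + p : ℕ) : ℤ) * X.Δ) ≤
          ((n : ℤ) + 1) * ((n + 1) * (n + 1) + p + 1) * X.Δ := by
        push_cast
        have h3 : 0 ≤ (n : ℤ) + 1 := by positivity
        have h4 : 0 ≤ ((n : ℤ) + 1) * X.Δ := mul_nonneg h3 hΔ
        nlinarith
      have h3 : 0 ≤ 27 * ((∑ j, d j : ℕ) : ℤ) ^ 2 * X.Δ := mul_nonneg (by positivity) hΔ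
      nlinarith
    rw [hE]
    exact_mod_cast h1
  have hn1 : (1 : ℝ) ≤ n := by exact_mod_cast hn
  have hEH' : E < height κ X.x := by
    have h1 : E ≤ ((n + 1 : ℕ) : ℝ) * E := by
      push_cast
      nlinarith
    linarith
  obtain ⟨k, hk⟩ : ∃ k, k + n + 2 = ∑ j, d j := ⟨∑ j, d j - (n + 2), by omega⟩
  have hP := pairHyp_datCL h X hp hk.le hε hvε
  have hEE : ((((((n + 1) * (n + 1) + p : ℕ) : ℤ) * X.Δ + (X.R + ∑ᶠ w, (ε w : ℤ)) : ℤ)) : ℝ) =
      E + (((X.R + N : ℤ)) : ℝ) := by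
    rw [hE, ← hN, Int.cast_add]
  rw [hEE] at hP
  by_cases hall : ∀ E₁ : Submodule L (Fin (n + 1) → L), X.x ∈ E₁ →
      n * ((height κ X.x : ℝ) - ht κ E₁) ≤ C₀ * height κ X.x * ((finrank L E₁ : ℝ) - 1)
  · refine Or.inl ⟨?_, hall⟩
    have h1 := sum_le_of_slopeVL h (n := n + 1) (by omega) hx0 hd1 (q := q) hE0
      (by exact_mod_cast hRq) hP hall hEH hn hpC
    omega
  right
  obtain ⟨E₁, hE₁⟩ := not_forall.1 hall
  obtain ⟨hxE, hsl⟩ := Classical.not_imp.1 hE₁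
  rw [not_le] at hsl
  -- the dimension of the steep space
  have hE2 : 2 ≤ finrank L E₁ := by
    have h1 := one_le_finrank_aux hx0 hxE
    by_contra hcon
    have h2 : finrank L E₁ = 1 := by omega
    have h3 : E₁ = L ∙ X.x := by
      symm
      refine Submodule.eq_of_le_of_finrank_eq
        ((Submodule.span_singleton_le_iff_mem _ _).2 hxE) ?_
      rw [finrank_span_singleton hx0, h2]
    rw [h3, finrank_span_singleton hx0, ht_single h hx0] at hsl
    simp at hsl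
  -- the pair hypothesis for `k = 0`
  have hkH : (((X.R + N : ℤ)) : ℝ) ≤ (k + 1) * height κ X.x := by
    have h1 : (∑ j, (d j : ℤ)) = ((∑ j, d j : ℕ) : ℤ) := by push_cast; rfl
    have h2 : X.R + N ≤ ((k : ℤ) + 1) * height κ X.x := by
      rw [h1, ← hk] at hRk
      push_cast at hRk
      have h3 : ((k : ℤ) + n + 2 - n - 1) = k + 1 := by ring
      rwa [h3] at hRk
    exact_mod_cast h2
  have hP0 : PairHyp κ X.x d p n p 0 (height κ X.x + E) := by
    intro Λ hΛ t ht0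
    obtain ⟨j, U, hU, hle⟩ := hP Λ hΛ t ht0
    refine ⟨j, U, hU, le_trans ?_ hle⟩
    have h1 : (((0 : ℕ) : ℝ) - ((finrank L Λ : ℝ) - 1)) * height κ X.x =
        ((k : ℝ) - ((finrank L Λ : ℝ) - 1)) * height κ X.x - k * height κ X.x := by
      push_cast
      ring
    rw [h1]
    linarith
  obtain ⟨P, hxP, hPH, hPd⟩ := lemmaP_steepVL h (n := n + 1) (by omega) hx0 (d := d) (r := n)
    (c := p) hp hE0 hP0 (by omega) hxE hE2 hsl.le hEH.le hH
  have hbn1 : 400 * p * (b * (4 * p + 1)) ≤ n :=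
    (Nat.le_mul_of_pos_right _ (by omega)).trans hbn
  obtain ⟨j₀, a, A, hj₀, h1, h2, h3, h4, h5⟩ := curve_steepVL h X (b := b) (C₀ := C₀) hp le_rfl hb
    (by omega) hbn1 (by omega) hbC hH (E := height κ X.x + E) (by linarith) hP0 hxP hPH hPd
  obtain ⟨j, -, hjmax⟩ := Finset.exists_max_image (Finset.univ : Finset (Fin p)) d
    ⟨j₀, Finset.mem_univ _⟩
  have hjm : ∀ i, d i ≤ d j := fun i => hjmax i (Finset.mem_univ i)
  have hj : n ≤ 4 * p * d j := hj₀.trans (Nat.mul_le_mul_left _ (hjm j₀))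
  refine ⟨j, hjm, hj, ?_⟩
  have hdq : 100 * (b * (4 * p + 1) * (q + 3)) ≤ d j := by
    have h6 : 4 * p * (100 * (b * (4 * p + 1) * (q + 3))) ≤ 4 * p * d j := by
      refine le_trans (le_of_eq ?_) (hbn.trans hj)
      ring
    exact Nat.le_of_mul_le_mul_left h6 (by omega)
  have hdj : 100 * (b * (4 * p + 1)) ≤ d j := by
    have h6 : b * (4 * p + 1) ≤ b * (4 * p + 1) * (q + 3) := Nat.le_mul_of_pos_right _ (by omega)
    omega
  have hbd : 100 * b + p + 1 ≤ d j := by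
    have h6 : b * (4 * p + 1) = b * (4 * p) + b := by ring
    have h7 : 6 * (4 * p) ≤ b * (4 * p) := Nat.mul_le_mul_right _ hb
    omega
  have hnd : n + 1 + p ≤ (4 * p + 1) * d j := by
    have h6 : (4 * p + 1) * d j = 4 * p * d j + d j := by ring
    omega
  have hcardΛ : Fintype.card {j : Fin p // X.v j ≠ 0} ≤ p := by
    have h1 := Fintype.card_subtype_le (fun j : Fin p => X.v j ≠ 0)
    rwa [Fintype.card_fin] at h1
  have hdpb : 50 * (b * (q + 3)) + 5 * Fintype.card {j : Fin p // X.v j ≠ 0} ≤ 2 * d j := by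
    have h6 : b * (4 * p + 1) * (q + 3) = (4 * p) * (b * (q + 3)) + b * (q + 3) := by ring
    have h7 : (4 * p) * 18 ≤ (4 * p) * (b * (q + 3)) :=
      Nat.mul_le_mul_left _ (Nat.mul_le_mul hb (by omega : 3 ≤ q + 3))
    omega
  obtain ⟨η, hη⟩ : ∃ η : {j : Fin p // X.v j ≠ 0} → L, ∀ j, η j = X.v j.1 := ⟨_, fun _ => rfl⟩
  have hr₀ : finrank L (X.blk j).Ux ≤ n + 1 := by
    refine (finrank_range_le_card (R := L)
      (fun i : Fin (n + 1) => (X.blk j).row ((X.blk j).x i))).trans ?_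
    rw [Fintype.card_fin]
  have hvrow : (X.blk j).row (X.blk j).v ∈ (X.blk j).Ux ⊔
      (RB (X.blk j) (Fin.elim0 : Fin 0 → L) ⊔ LB (X.blk j) η) := by
    have hvj : (X.blk j).v = X.v j := rfl
    by_cases hv : X.v j = 0
    · have hrow0 : (X.blk j).row (X.blk j).v = 0 := by
        rw [hvj, hv]
        funext K
        exact map_zero _
      rw [hrow0]
      exact Submodule.zero_mem _
    · have h6 : (X.blk j).row (X.blk j).v = X.v j • (X.blk j).lrow (η ⟨j, hv⟩) := by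
        rw [hvj, hη, DatG.lrow, smul_smul, mul_inv_cancel₀ hv, one_smul]
      rw [h6]
      exact Submodule.mem_sup_right (Submodule.mem_sup_right (Submodule.smul_mem _ _
        (Submodule.subset_span ⟨⟨j, hv⟩, rfl⟩)))
  refine smallI_block h (m := 4 * p + 1) (r := n + 1 + p) (r₀ := n + 1) (q := q)
    (Λ := {j : Fin p // X.v j ≠ 0})
    (γ := Fin 0) (by omega) hb hdj hdpb hnd (X.blk j)
    (finVJ h (X.blk j))
    (β := Fin.elim0) (fun t => t.elim0) (η := η) (fun t => by rw [hη]; exact t.2)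
    (t := fun t => d t.1)
    (ε := ε) hε (fun w => by
      rcases hvε w with h1 | h1
      · exact Or.inl fun t => by rw [hη]; exact h1 t.1 t.2
      · exact Or.inr h1)
    hvrow hr₀
    (by rw [Fintype.card_fin]; omega) (E₀ := 0) le_rfl ?_
    ⟨a, A, h1, h2, h3, h4, h5⟩ ?_
  · have h6 : (X.blk j).R = X.R := rfl
    have h11 : height κ (X.blk j).x = height κ X.x := rfl
    rw [h6, h11, ← hN, add_zero]
    exact hRq
  have h6 : 0 ≤ ((n : ℤ) + 1) * ((n + 1) * (n + 1) + p + 1) * X.Δ :=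
    mul_nonneg (by positivity) hΔ
  have h7 : (d j : ℤ) ≤ ((∑ j, d j : ℕ) : ℤ) := by
    exact_mod_cast Finset.single_le_sum (f := d) (fun _ _ => Nat.zero_le _) (Finset.mem_univ j)
  have h8 : (d j : ℤ) ^ 2 ≤ ((∑ j, d j : ℕ) : ℤ) ^ 2 :=
    pow_le_pow_left₀ (Int.natCast_nonneg _) h7 2
  have h9 : 27 * (d j : ℤ) ^ 2 * X.Δ ≤
      27 * ((∑ j, d j : ℕ) : ℤ) ^ 2 * X.Δ :=
    mul_le_mul_of_nonneg_right (by linarith) hΔ
  have h10 : (X.blk j).Δ = X.Δ := rfl
  have h11 : height κ (X.blk j).x = height κ X.x := rfl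
  rw [h10, h11, add_zero]
  linarith

end Pool.Agent.Lib.MP_44a246_ntVT
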