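import Mathlib
import Pool.Agent.Lib.MP_44a246_ntSH.BA00
import Pool.Agent.Lib.MP_44a246_ntSH.AB1

/-!
# Sharp Vojta inequality: interfaces

As `BA00`, with the gain `(∑ d j - n - 1) H` of the rows replaced by `G` (in the application
`G = (∑ d j - n - 1) H - R`, `R` the ramification, and `G ≥ ε H`).
-/

namespace Pool.Agent.Lib.MP_44a246_ntVT

open Pool.Agent.Lib.MP_44a246_nt
open Pool.Agent.Lib.MP_44a246_ntL
open Pool.Agent.Lib.MP_44a246_ntS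
open Pool.Agent.Lib.MP_44a246_ntF
open Pool.Agent.Lib.MP_44a246_ntO
open Pool.Agent.Lib.MP_44a246_ntX
open Pool.Agent.Lib.MP_44a246_ntSH
open Pool.Agent.Lib.MP_e52354_nt
open WithZero Module

/-- The rows for `p` blocks with the gain `G` (`RowsP` is the case `G = (∑ d j - n - 1) H`). -/
def RowsG (κ : Type*) {L : Type*} [Field κ] [Field L] [Algebra κ L] {n p : ℕ} (x : Fin (n + 1) → L)
    (d : Fin p → ℕ) (c : ℕ) (G E : ℝ) : Prop :=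
  ∀ (Λ Λ' : Submodule L (EX (n + 1) 2 → L)) (t t' : ℝ), 0 ≤ t' → t' ≤ t →
    HasSl κ t (xm 2 x) Λ → Λ ≤ Λ' →
    (∀ Γ, Λ' ≤ Γ → (ht κ Λ' : ℝ) - ht κ Γ ≤ t' * ((finrank L Γ : ℝ) - finrank L Λ')) →
    ∃ (ν : ℕ) (W : (j : Fin p) → Submodule L (EX (n + 1) (d j) → L)),
      (∀ j, xm (d j) x ∈ W j) ∧ ∑ j, finrank L (W j) ≤ n + ν + c ∧
      G + (t - t') * ν - E ≤ ∑ j, (d j * (height κ x : ℝ) - ht κ (W j)) ∧
      ∀ q ∈ Λ, (finrank L (lam 1 (L ∙ q)) : ℝ) * (n + 1) -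
        (finrank L (lam 1 (L ∙ q)) : ℝ) * ((finrank L (lam 1 (L ∙ q)) : ℝ) - 1) / 2 ≤
          ν + finrank L Λ' + n + c

/-- The hypotheses on the point for `p` blocks; the gain of the rows is at least `ε H`. -/
structure HypG (κ : Type*) {L : Type*} [Field κ] [Field L] [Algebra κ L] {n p : ℕ}
    (x : Fin (n + 1) → L) (d : Fin p → ℕ) (c : ℕ) (C₀ M E ε : ℝ) : Prop where
  ne : x ≠ 0
  slope : ∀ Q : Submodule L (Fin (n + 1) → L), x ∈ Q →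
    (height κ x : ℝ) - ht κ Q ≤ M * ((finrank L Q : ℝ) - 1)
  pos : 0 ≤ M
  small : M * n ≤ C₀ * height κ x
  hd : n + 2 ≤ ∑ j, d j
  hd2 : ∀ j, 2 ≤ d j
  rows : RowsG κ x d c (ε * height κ x) E
  hE : 0 < E
  big : E * ((n : ℝ) + 2) ^ 20 ≤ height κ x
  hε : 0 < ε
  hε1 : ε ≤ 1

section

variable {κ L : Type*} [Field κ] [Field L] [Algebra κ L] {n p : ℕ} {x : Fin (n + 1) → L}
  {d : Fin p → ℕ} {c : ℕ} {C₀ C₁ M E E' G G' ε : ℝ}

theorem RowsG.mono (h : RowsG κ x d c G E) (hE : E ≤ E') (hG : G' ≤ G) :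
    RowsG κ x d c G' E' := by
  intro Λ Λ' t t' h1 h2 h3 h4 h5
  obtain ⟨ν, W, h6, h7, h8, h9⟩ := h Λ Λ' t t' h1 h2 h3 h4 h5
  exact ⟨ν, W, h6, h7, by linarith, h9⟩

theorem HypG.toL (hyp : HypG κ x d c C₀ M E ε) : HypL κ x C₀ M E :=
  ⟨hyp.ne, hyp.slope, hyp.pos, hyp.small, hyp.hE, hyp.big⟩

theorem HypG.cb_big (hyp : HypG κ x d c C₀ M E ε) {b : ℝ} (hb : b ≤ ((n : ℝ) + 2) ^ 20) :
    b * E ≤ height κ x := hyp.toL.le hb

theorem HypG.cb_pos (hyp : HypG κ x d c C₀ M E ε) : (0 : ℝ) < height κ x := hyp.toL.H_pos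

theorem HypG.cb_p (hyp : HypG κ x d c C₀ M E ε) : 1 ≤ p := by
  by_contra h0
  have h1 : p = 0 := by omega
  subst h1
  have := hyp.hd
  simp at this

/-- the error is small compared with `ε H` -/
theorem HypG.cb_eps (hyp : HypG κ x d c C₀ M E ε) (hn : 1 ≤ ε * n) {b : ℝ}
    (hb : b ≤ ((n : ℝ) + 2) ^ 19) : b * E ≤ ε * height κ x := by
  have hε := hyp.hε
  have hE := hyp.hE
  have hn0 : (0 : ℝ) ≤ n := Nat.cast_nonneg _
  have h1 : b * E ≤ ((n : ℝ) + 2) ^ 19 * E := mul_le_mul_of_nonneg_right hb hE.le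
  have h2 : ((n : ℝ) + 2) ^ 19 * E ≤ ε * (E * ((n : ℝ) + 2) ^ 20) := by
    have h3 : 1 ≤ ε * ((n : ℝ) + 2) := by nlinarith
    have h4 : 0 ≤ ((n : ℝ) + 2) ^ 19 * E := by positivity
    have h5 : ((n : ℝ) + 2) ^ 19 * E * 1 ≤ ((n : ℝ) + 2) ^ 19 * E * (ε * ((n : ℝ) + 2)) :=
      mul_le_mul_of_nonneg_left h3 h4
    have h6 : ((n : ℝ) + 2) ^ 19 * E * (ε * ((n : ℝ) + 2)) = ε * (E * ((n : ℝ) + 2) ^ 20) := by
      ring
    linarith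
  have h3 : ε * (E * ((n : ℝ) + 2) ^ 20) ≤ ε * height κ x :=
    mul_le_mul_of_nonneg_left hyp.big hε.le
  linarith

end

end Pool.Agent.Lib.MP_44a246_ntVT
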