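import Mathlib
import Pool.Agent.Lib.MP_44a246_ntVT.VA1
import Pool.Agent.Lib.MP_44a246_ntSH.AB2

/-!
# Sharp Vojta inequality: (B4), a copy of `ntSH/AB2` with `ε`
-/

namespace Pool.Agent.Lib.MP_44a246_ntVT

open Pool.Agent.Lib.MP_44a246_nt
open Pool.Agent.Lib.MP_44a246_ntL
open Pool.Agent.Lib.MP_44a246_ntS
open Pool.Agent.Lib.MP_44a246_ntF
open Pool.Agent.Lib.MP_44a246_ntO
open Pool.Agent.Lib.MP_44a246_ntX
open Pool.Agent.Lib.MP_44a246_ntSH
open Pool.Agent.Lib.MP_e52354_nt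
open WithZero Module

universe u

variable {κ : Type*} {K : Type u} [Field κ] [IsAlgClosed κ] [CharZero κ] [Field K] [Algebra κ K]
  {n p : ℕ} {x : Fin (n + 1) → K} {d : Fin p → ℕ} {c : ℕ} {C₀ M E ε : ℝ}

/-- in some block the maximiser at `ε H / 2 n` has cost at least `ε H / 4 p`. Proof:
`cba_cost_half` (AB2) from `cbg_U` (VA1); `16 E ≤ ε H` by `HypG.cb_eps`. -/
theorem cbg_cost_half (h : IsFF κ K) (hyp : HypG κ x d c C₀ M E ε) (hn1 : 1 ≤ ε * n)
    (hcn : 4 * c ≤ n) :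
    ∃ (j : Fin p) (W : Submodule K (EX (n + 1) (d j) → K)),
      IsSl κ (ε / 2 * height κ x / n) (xm (d j) x) W ∧
      ε * height κ x / (4 * p) ≤ d j * (height κ x : ℝ) - ht κ W := by
  obtain ⟨U, h1, h2, h3⟩ := cbg_U h hyp
  choose W hW using fun j => exists_isSl h (ε / 2 * height κ x / n) (xm (d j) x)
  have hH0 := hyp.cb_pos
  have hε0 := hyp.hε
  have hε1 := hyp.hε1
  have hn0 : (0 : ℝ) ≤ n := Nat.cast_nonneg _
  have hn1' : (1 : ℝ) ≤ n := by nlinarith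
  have hnpos : (0 : ℝ) < n := by linarith
  have hp1 : (1 : ℝ) ≤ p := by exact_mod_cast hyp.cb_p
  have hp0 : (0 : ℝ) < p := by linarith
  have hcn' : 4 * (c : ℝ) ≤ n := by exact_mod_cast hcn
  by_contra hcon
  push Not at hcon
  have h4 : ∀ j, d j * (height κ x : ℝ) - ht κ (U j) ≤
      ε * height κ x / (4 * p) + ε / 2 * height κ x / n * ((finrank K (U j) : ℝ) - 1) := by
    intro j
    have h5 := hcon j (W j) (hW j)
    have h6 := cb_max h (hW j) (h1 j)
    have h7 := cb_one_le hyp.ne (hW j).mem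
    have h8 : 0 ≤ ε / 2 * (height κ x : ℝ) / n := by positivity
    nlinarith
  have h5 := cbp_sum (κ := κ) (H := (height κ x : ℝ)) (W := U) h4
  have h6 : (p : ℝ) * (ε * height κ x / (4 * p)) = ε * height κ x / 4 := by field_simp
  rw [h6] at h5
  have h7 : (∑ j, (finrank K (U j) : ℝ)) ≤ n + c := by exact_mod_cast h2
  have h8 : ε / 2 * (height κ x : ℝ) / n * (∑ j, (finrank K (U j) : ℝ) - p) ≤
      ε / 2 * (height κ x : ℝ) / n * (n + n / 4) :=
    mul_le_mul_of_nonneg_left (by linarith) (by positivity)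
  have h9 : ε / 2 * (height κ x : ℝ) / n * (n + n / 4) = 5 / 8 * (ε * height κ x) := by
    field_simp
    ring
  have hE : 16 * E ≤ ε * height κ x := hyp.cb_eps hn1 (by
    have e1 : (2 : ℝ) ^ 19 ≤ ((n : ℝ) + 2) ^ 19 := by gcongr; linarith
    norm_num at e1
    linarith)
  have hεH : 0 < ε * (height κ x : ℝ) := mul_pos hε0 hH0
  linarith

/-- (B4): the dimension of `lam 1 W`. Proof: `cba_dim_one` (AB2); the hypothesis `hcon` of the
proof by contradiction is `D * (4 p M) ≤ ε H ≤ H`. -/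
theorem cbg_dim_one (h : IsFF κ K) (hyp : HypG κ x d c C₀ M E ε) (hn1 : 1 ≤ n) {j₀ : Fin p}
    {W : Submodule K (EX (n + 1) (d j₀) → K)}
    (hW : IsSl κ (ε / 2 * height κ x / n) (xm (d j₀) x) W)
    (hc : ε * height κ x / (4 * p) ≤ d j₀ * (height κ x : ℝ) - ht κ W) :
    ε * (height κ x : ℝ) < finrank K (lam 1 W) * (4 * p * M) := by
  by_contra hcon
  push Not at hcon
  have hH0 := hyp.cb_pos
  have hε0 := hyp.hε
  have hε1 := hyp.hε1
  have hεH : 0 < ε * (height κ x : ℝ) := mul_pos hε0 hH0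
  have hεH1 : ε * (height κ x : ℝ) ≤ height κ x := by nlinarith
  have hnpos : (0 : ℝ) < n := by exact_mod_cast hn1
  have hp1 : (1 : ℝ) ≤ p := by exact_mod_cast hyp.cb_p
  have hp0 : (0 : ℝ) < p := by linarith
  have hd1 : 1 ≤ d j₀ := by have := hyp.hd2 j₀; omega
  have hxm : xm 1 x ∈ lam 1 W := xm_mem_lam hd1 hyp.ne hW.mem
  have hs := cb_slope_one h hyp.ne hyp.slope hxm
  have h1 := cb_one_le hyp.ne hxm
  have hM := hyp.pos
  obtain ⟨D, hD⟩ : ∃ D : ℝ, D = (finrank K (lam 1 W) : ℝ) := ⟨_, rfl⟩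
  rw [← hD] at hs h1 hcon
  have hne : lam 1 W ≠ ⊥ := by
    intro h0
    rw [hD, h0, finrank_bot] at h1
    norm_num at h1
  have hD0 : 0 ≤ D := by linarith
  have hMD : 0 ≤ M * D := mul_nonneg hM hD0
  -- `4 M D ≤ 4 p M D ≤ H`
  have hcon2 : 4 * (M * D) ≤ height κ x := by
    have h2 : 4 * (M * D) ≤ 4 * p * (M * D) := mul_le_mul_of_nonneg_right (by linarith) hMD
    have h3 : 4 * p * (M * D) = D * (4 * p * M) := by ring
    linarith
  have hsz : M * finrank K (lam 1 W) < ht κ (lam 1 W) := by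
    rw [← hD]
    have h2 : M * (D - 1) ≤ M * D := by nlinarith
    linarith
  obtain ⟨L, _, _, _, _, _, _, l, τ, b, hτ, hsum, hb, hl, hm⟩ := absolute_siegel h hne hsz
  have hL : IsFF κ L := h.of_finite
  have hN : (0 : ℝ) < finrank K L := by exact_mod_cast finrank_pos
  have hyp' := hyp.toL.ext (L := L) h
  obtain ⟨x', hx'⟩ : ∃ x' : Fin (n + 1) → L, x' = fun k => algebraMap K L (x k) := ⟨_, rfl⟩
  rw [← hx'] at hyp'
  have hH' : (height κ x' : ℝ) = finrank K L * height κ x := by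
    rw [hx']
    exact_mod_cast hL.height_ext (K := K) hyp.ne
  obtain ⟨W', hW'⟩ : ∃ W' : Submodule L (EX (n + 1) (d j₀) → L), W' = bc L W := ⟨_, rfl⟩
  have ht0 : 0 < ε / 2 * (height κ x : ℝ) / n := by positivity
  have hHas : HasSl κ (finrank K L * (ε / 2 * (height κ x : ℝ) / n)) (xm (d j₀) x') W' := by
    rw [hx', hW', xm_am]
    exact HasSl_bc h (cb_hasSl hW)
  have hlam : lam 1 W' = bc L (lam 1 W) := by rw [hW', lam_bc]
  have hf : Fnl κ (lam 1 W') b (pf l) τ := by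
    rw [hlam]
    exact fnl_of_row hτ hsum hl hm
  have hNt : 0 < (finrank K L : ℝ) * (ε / 2 * (height κ x : ℝ) / n) := mul_pos hN ht0
  have hNM : 0 ≤ (finrank K L : ℝ) * M := mul_nonneg hN.le hM
  obtain ⟨R, hRW, hxR, hdim, hcost⟩ := p3b hL hyp'.ne hyp'.slope (i := 1) (k := 1) (by omega) le_rfl
    hHas (by linarith) (by push_cast; linarith) hf
  push_cast at hcost
  have hR0 : (0 : ℝ) ≤ ht κ R := by exact_mod_cast ht_nonneg hL R
  obtain ⟨Q, hQ1, hQ2, hQ3⟩ := contact hL hyp'.ne hd1 hRW hHas.mem hxR hdim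
  have hQs := cb_slope_one hL hyp'.ne hyp'.slope hQ2
  have hcW : (finrank K L : ℝ) * (ε * height κ x / (4 * p)) ≤
      d j₀ * (height κ x' : ℝ) - ht κ W' := by
    rw [hH', hW', ht_bc h]
    push_cast
    have h2 := mul_le_mul_of_nonneg_left hc hN.le
    linarith
  have hQc : (finrank K L : ℝ) * (ε * height κ x / (4 * p)) ≤ (height κ x' : ℝ) - ht κ Q := by
    rcases hQ3 with hQ3 | hQ3
    · linarith
    · have : (ht κ Q : ℝ) ≤ ht κ R := by exact_mod_cast hQ3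
      linarith
  have h4 : (finrank L Q : ℝ) ≤ D := by
    have h5 := Submodule.finrank_mono hQ1
    rw [hlam, finrank_bc] at h5
    rw [hD]
    exact_mod_cast h5
  have h5 : (finrank K L : ℝ) * M * ((finrank L Q : ℝ) - 1) ≤ finrank K L * M * (D - 1) :=
    mul_le_mul_of_nonneg_left (by linarith) hNM
  have h6 : (finrank K L : ℝ) * (ε * height κ x / (4 * p)) ≤ finrank K L * (M * (D - 1)) := by
    linarith
  have h7 := le_of_mul_le_mul_left h6 hN
  rw [div_le_iff₀ (by positivity)] at h7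
  -- `ε H ≤ 4 p M (D - 1)`, so `M > 0` and the inequality is strict
  have h8 : D * (4 * p * M) = M * (D - 1) * (4 * p) + 4 * p * M := by ring
  rcases hM.eq_or_lt with h9 | h9
  · rw [← h9] at h7
    linarith
  · have : 0 < 4 * p * M := by positivity
    linarith

/-- (B4): the cost of `lam 2 W`. Proof: `cba_cost_two` (AB2). `cb_lam_sum` needs a natural number as
bound of the ranks: take `ρ₀ = ⌊30 p / ε⌋₊`. With `B = 30 p (4 p C₀ + 1)`, `D = dim (lam 2 W)`: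
`ε H < D ρ₀ 4 p M`, `4 p M n ≤ (4 p C₀ + 1) H`, so `ε ^ 2 n < D B`, and
`ε / 2 * H / n * (D - 1) ≥ ε ^ 3 / (4 B) * H` since `2 B ≤ ε ^ 2 n`. -/
theorem cbg_cost_two (h : IsFF κ K) (hyp : HypG κ x d c C₀ M E ε) (hC : 1000 ≤ C₀)
    (hn : 70 * (132 * C₀) ≤ ε * n) (hcn : c ≤ n) (hnp : 60 * p * (4 * p * C₀ + 1) ≤ ε ^ 2 * n)
    (hA : ¬ CaseAP κ x d (ε / (132 * p * C₀)) (ε / 32)) {j₀ : Fin p}
    {W : Submodule K (EX (n + 1) (d j₀) → K)}
    (hW : IsSl κ (ε / 2 * height κ x / n) (xm (d j₀) x) W)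
    (hc : ε * height κ x / (4 * p) ≤ d j₀ * (height κ x : ℝ) - ht κ W) :
    ε ^ 3 / (120 * p * (4 * p * C₀ + 1)) * height κ x ≤
      2 * (height κ x : ℝ) - ht κ (lam 2 W) := by
  have hε0 := hyp.hε
  have hε1 := hyp.hε1
  have hn0 : (0 : ℝ) ≤ n := Nat.cast_nonneg _
  have hn' : (1000 : ℝ) ≤ n := by nlinarith
  have hn1 : 1 ≤ n := by
    have : (1 : ℝ) ≤ n := by linarith
    exact_mod_cast this
  have hH0 := hyp.cb_pos
  have hnpos : (0 : ℝ) < n := by linarith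
  have hp1 : (1 : ℝ) ≤ p := by exact_mod_cast hyp.cb_p
  have hp0 : (0 : ℝ) < p := by linarith
  have hC0 : 0 < C₀ := by linarith
  have hHas := cb_hasSl hW
  have hΛ := hasSl_lam h hyp.ne (hyp.hd2 j₀) hHas
  have hrank := cbg_rank_two h hyp hC hn hcn hA hHas
  have h1 := cbg_dim_one h hyp hn1 hW hc
  obtain ⟨ρ₀, hρ₀⟩ : ∃ ρ₀ : ℕ, ρ₀ = ⌊30 * (p : ℝ) / ε⌋₊ := ⟨_, rfl⟩
  have hρ1 : (ρ₀ : ℝ) ≤ 30 * p / ε := by
    rw [hρ₀]
    exact Nat.floor_le (by positivity)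
  have h2 : finrank K (lam 1 W) ≤ finrank K (lam 2 W) * ρ₀ := by
    rw [← lam_lam (i := 1) (i' := 2) (by norm_num) (hyp.hd2 j₀)]
    refine cb_lam_sum _ ?_
    intro q hq
    rw [hρ₀]
    exact Nat.le_floor (hrank q hq)
  have h3 := cost_ge h hyp.ne hΛ
  have h4' : (finrank K (lam 1 W) : ℝ) ≤ finrank K (lam 2 W) * ρ₀ := by exact_mod_cast h2
  have h4 : (finrank K (lam 1 W) : ℝ) ≤ finrank K (lam 2 W) * (30 * p / ε) :=
    h4'.trans (mul_le_mul_of_nonneg_left hρ1 (Nat.cast_nonneg _))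
  have hM := hyp.pos
  have h5 : 4 * p * M * n ≤ (4 * p * C₀ + 1) * height κ x := by
    have h6 := hyp.small
    have h7 : 4 * p * (M * n) ≤ 4 * p * (C₀ * height κ x) :=
      mul_le_mul_of_nonneg_left h6 (by positivity)
    nlinarith
  obtain ⟨D, hD⟩ : ∃ D : ℝ, D = (finrank K (lam 2 W) : ℝ) := ⟨_, rfl⟩
  rw [← hD] at h3 h4
  have hD0 : 0 ≤ D := by rw [hD]; exact Nat.cast_nonneg _
  obtain ⟨B, hB⟩ : ∃ B : ℝ, B = 30 * p * (4 * p * C₀ + 1) := ⟨_, rfl⟩
  have hB0 : 0 < B := by rw [hB]; positivity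
  -- `ε ^ 2 n < 30 p D (4 p C₀ + 1)`
  have h6 : (height κ x : ℝ) * (ε ^ 2 * n) < height κ x * (D * B) := by
    have h7 : ε * (height κ x : ℝ) < D * (30 * p / ε) * (4 * p * M) := by
      refine h1.trans_le ?_
      exact mul_le_mul_of_nonneg_right h4 (by positivity)
    calc (height κ x : ℝ) * (ε ^ 2 * n) = ε * height κ x * (ε * n) := by ring
      _ < D * (30 * p / ε) * (4 * p * M) * (ε * n) :=
          mul_lt_mul_of_pos_right h7 (by positivity)
      _ = D * (30 * p) * (4 * p * M * n) := by field_simp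
      _ ≤ D * (30 * p) * ((4 * p * C₀ + 1) * height κ x) := by
          apply mul_le_mul_of_nonneg_left h5
          positivity
      _ = height κ x * (D * B) := by rw [hB]; ring
  have h7 : ε ^ 2 * (n : ℝ) < D * B := lt_of_mul_lt_mul_left h6 hH0.le
  have h8 : ε ^ 3 / (120 * p * (4 * p * C₀ + 1)) * height κ x ≤
      ε / 2 * (height κ x : ℝ) / n * (D - 1) := by
    have e1 : ε / 2 * (height κ x : ℝ) / n * (D - 1) = ε * (D - 1) / (2 * n) * height κ x := by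
      field_simp
    have e2 : 120 * (p : ℝ) * (4 * p * C₀ + 1) = 4 * B := by rw [hB]; ring
    rw [e1, e2]
    apply mul_le_mul_of_nonneg_right _ hH0.le
    rw [div_le_div_iff₀ (by positivity) (by positivity)]
    have h9 : 2 * B ≤ ε ^ 2 * n := by rw [hB]; linarith
    have h10 : ε ^ 2 * (2 * n) ≤ (D - 1) * (4 * B) := by nlinarith
    calc ε ^ 3 * (2 * n) = ε * (ε ^ 2 * (2 * n)) := by ring
      _ ≤ ε * ((D - 1) * (4 * B)) := mul_le_mul_of_nonneg_left h10 hε0.le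
      _ = ε * (D - 1) * (4 * B) := by ring
  push_cast at h3
  linarith

end Pool.Agent.Lib.MP_44a246_ntVT
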