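import Mathlib
import Pool.Agent.Lib.MP_44a246_ntVT.VA2
import Pool.Agent.Lib.MP_44a246_ntSH.AB3

/-!
# Sharp Vojta inequality: (B5) and the theorem of case B, a copy of the end of `ntSH/AB3` with `ε`
-/

namespace Pool.Agent.Lib.MP_44a246_ntVT

open Pool.Agent.Lib.MP_44a246_nt
open Pool.Agent.Lib.MP_44a246_ntL
open Pool.Agent.Lib.MP_44a246_ntS
open Pool.Agent.Lib.MP_44a246_ntF
open Pool.Agent.Lib.MP_44a246_ntO
open Pool.Agent.Lib.MP_44a246_ntX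
open Pool.Agent.Lib.MP_44a246_ntSH
open Pool.Agent.Lib.MP_e52354_nt
open WithZero Module

universe u v

section

variable {κ : Type*} {K : Type u} [Field κ] [IsAlgClosed κ] [CharZero κ] [Field K] [Algebra κ K]
  {n : ℕ} {x : Fin (n + 1) → K} {C₀ M E : ℝ}

/-- **(B5)** with an arbitrary slope `t > 0`. Proof: `cba_five` (AB3) with `cba_hyper` for
`ε := min (t / 2) (H / 4)`; `ht κ Λ ≤ 2 H` because the slopes are positive. `cba_five_aux` (AB3) is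
used without change. -/
theorem cbg_five (h : IsFF κ K) (hyp : HypL κ x C₀ M E) (hn1 : 1 ≤ n) {ρ : ℕ} (hρ : 1 ≤ ρ)
    {c : ℝ} (hc : 0 < c) (hc1 : c ≤ 1) {N : ℕ} (hN : 25 * ρ ≤ c * N)
    (hnC : 2 * ρ * C₀ ≤ n) (hnc : (2 * ρ + (ρ + 1) * 2 ^ N) * C₀ * 8 ≤ c * n) {t : ℝ} (ht0 : 0 < t)
    {Λ : Submodule K (EX (n + 1) 2 → K)} (hΛ : HasSl κ t (xm 2 x) Λ)
    (hrank : ∀ q ∈ Λ, finrank K (lam 1 (K ∙ q)) ≤ ρ) :
    2 * (height κ x : ℝ) - ht κ Λ < c * height κ x := by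
  have hH0 := hyp.H_pos
  have hcΛ := cb_dim h hyp.ne hΛ
  push_cast at hcΛ
  have hΛ1 := cb_one_le hyp.ne hΛ.mem
  have hhtΛ : (ht κ Λ : ℝ) ≤ 2 * height κ x := by nlinarith
  obtain ⟨e, he⟩ : ∃ e : ℝ, e = min (t / 2) (height κ x / 4) := ⟨_, rfl⟩
  have hε : 0 < e := by rw [he]; exact lt_min (by linarith) (by linarith)
  have hεt : e < t := by
    have : e ≤ t / 2 := by rw [he]; exact min_le_left _ _
    linarith
  have hε1 : e ≤ height κ x / 4 := by rw [he]; exact min_le_right _ _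
  obtain ⟨L, _, _, _, _, _, _, R, hRΛ, hxR, hdim, hht⟩ := cba_hyper h hyp.ne hε hεt hΛ
  have hL : IsFF κ L := h.of_finite
  have hNL : (0 : ℝ) < finrank K L := by exact_mod_cast finrank_pos
  have hyp' := hyp.ext (L := L) h
  obtain ⟨x', hx'⟩ : ∃ x' : Fin (n + 1) → L, x' = fun k => algebraMap K L (x k) := ⟨_, rfl⟩
  rw [← hx'] at hyp' hxR
  have hH' : (height κ x' : ℝ) = finrank K L * height κ x := by
    rw [hx']
    exact_mod_cast hL.height_ext (K := K) hyp.ne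
  have hxm : (xm 2 x' : EX (n + 1) 2 → L) = fun I => algebraMap K L (xm 2 x I) := by
    rw [hx', xm_am]
  have hinf : Infinite K := Infinite.of_injective _ (algebraMap κ K).injective
  have key := cba_five_aux hL hyp' hn1 hρ hc hc1 hN hnC hnc (Λ := bc L Λ) (R := R)
    (by rw [hxm]; exact am_mem_bc hΛ.mem) (fun q hq => rank_bc_le hrank hq) hRΛ hxR hdim (by
      rw [hH']
      refine hht.trans ?_
      have h1 : (finrank K L : ℝ) * (ht κ Λ + e) ≤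
          finrank K L * (5 / 2 * height κ x) := mul_le_mul_of_nonneg_left (by linarith) hNL.le
      linarith)
  rw [hH', ht_bc h] at key
  push_cast at key
  have h1 : (finrank K L : ℝ) * (2 * (height κ x : ℝ) - ht κ Λ) <
      finrank K L * (c * height κ x) := by linarith
  exact lt_of_mul_lt_mul_left h1 hNL.le

end

/-- **Case B is impossible.** Proof: `caseBPL` (AB3) with `c₁ = ε ^ 3 / (120 p (4 p C₀ + 1))`,
`ρ = ⌊30 p / ε⌋₊ ≥ 1`, and `n₀ ≥ (70 (132 C₀) + 60 p (4 p C₀ + 1) + 1) / ε ^ 2 + 4 c + 2 ρ C₀ +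
(2 ρ + (ρ + 1) 2 ^ N) C₀ 8 / c₁`. -/
theorem caseBG (p c : ℕ) (C₀ ε : ℝ) (hC : 1000 ≤ C₀) (hε : 0 < ε) (hε1 : ε ≤ 1) :
    ∃ n₀ : ℕ, ∀ (n : ℕ) (d : Fin p → ℕ), n₀ ≤ n →
    ∀ (κ : Type u) (K : Type v) [Field κ] [IsAlgClosed κ] [CharZero κ] [Field K] [Algebra κ K]
      (_ : IsFF κ K) (x : Fin (n + 1) → K) (M E : ℝ), HypG κ x d c C₀ M E ε →
      CaseAP κ x d (ε / (132 * p * C₀)) (ε / 32) := by
  rcases Nat.eq_zero_or_pos p with hp0 | hp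
  · subst hp0
    refine ⟨0, fun n d _ κ K _ _ _ _ _ h x M E hyp => ?_⟩
    exact absurd hyp.cb_p (by norm_num)
  have hp1 : (1 : ℝ) ≤ p := by exact_mod_cast hp
  obtain ⟨ρ, hρd⟩ : ∃ ρ : ℕ, ρ = ⌊30 * p / ε⌋₊ := ⟨_, rfl⟩
  have hquot : (1 : ℝ) ≤ 30 * p / ε := by
    rw [le_div_iff₀ hε]
    nlinarith
  have hρ1 : 1 ≤ ρ := by
    rw [hρd]
    exact Nat.le_floor (by exact_mod_cast hquot)
  obtain ⟨c₁, hcd⟩ : ∃ c₁ : ℝ, c₁ = ε ^ 3 / (120 * p * (4 * p * C₀ + 1)) := ⟨_, rfl⟩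
  have hc : 0 < c₁ := by rw [hcd]; positivity
  have hc1 : c₁ ≤ 1 := by
    rw [hcd, div_le_one (by positivity)]
    have h1 : (1 : ℝ) ≤ 4 * p * C₀ + 1 := by
      have : 0 ≤ 4 * (p : ℝ) * C₀ := by positivity
      linarith
    have h2 : ε ^ 3 ≤ 1 := pow_le_one₀ hε.le hε1
    exact h2.trans (one_le_mul_of_one_le_of_one_le (by linarith) h1)
  obtain ⟨N, hN⟩ : ∃ N : ℕ, 25 * (ρ : ℝ) / c₁ ≤ N := exists_nat_ge _
  have hN' : 25 * (ρ : ℝ) ≤ c₁ * N := by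
    rw [div_le_iff₀ hc] at hN
    linarith
  obtain ⟨n₀, hn₀⟩ := exists_nat_ge ((70 * (132 * C₀) + 60 * p * (4 * p * C₀ + 1) + 1) / ε ^ 2 +
    4 * c + 2 * (ρ : ℝ) * C₀ + (2 * (ρ : ℝ) + ((ρ : ℝ) + 1) * 2 ^ N) * C₀ * 8 / c₁)
  have h1 : 0 ≤ (2 * (ρ : ℝ) + ((ρ : ℝ) + 1) * 2 ^ N) * C₀ * 8 / c₁ := by positivity
  have h4 : (0 : ℝ) ≤ c := Nat.cast_nonneg _
  have h5 : 0 ≤ 60 * p * (4 * p * C₀ + 1) := by positivity
  have h6 : 0 ≤ 2 * (ρ : ℝ) * C₀ := by positivity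
  have hε2 : 0 < ε ^ 2 := by positivity
  have hε21 : ε ^ 2 ≤ ε := by nlinarith
  have h7 : 0 ≤ (70 * (132 * C₀) + 60 * p * (4 * p * C₀ + 1) + 1) / ε ^ 2 := by positivity
  refine ⟨n₀, fun n d hn κ K _ _ _ _ _ h x M E hyp => ?_⟩
  have hn' : (n₀ : ℝ) ≤ n := by exact_mod_cast hn
  by_contra hA
  have hq : (70 * (132 * C₀) + 60 * p * (4 * p * C₀ + 1) + 1) / ε ^ 2 ≤ n := by linarith
  rw [div_le_iff₀ hε2] at hq
  have hn0 : (0 : ℝ) ≤ n := Nat.cast_nonneg _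
  have hq2 : (n : ℝ) * ε ^ 2 ≤ ε * n := by nlinarith
  have hn1 : 70 * (132 * C₀) ≤ ε * n := by linarith
  have hcn4 : 4 * c ≤ n := by
    have : (4 : ℝ) * c ≤ n := by linarith
    exact_mod_cast this
  have hcn : c ≤ n := by omega
  have hnp : 60 * p * (4 * p * C₀ + 1) ≤ ε ^ 2 * n := by linarith
  have hnC : 2 * (ρ : ℝ) * C₀ ≤ n := by linarith
  have hnc : (2 * (ρ : ℝ) + ((ρ : ℝ) + 1) * 2 ^ N) * C₀ * 8 ≤ c₁ * n := by
    have h7 : (2 * (ρ : ℝ) + ((ρ : ℝ) + 1) * 2 ^ N) * C₀ * 8 / c₁ ≤ n := by linarith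
    rw [div_le_iff₀ hc] at h7
    linarith
  have hn3 : 1 ≤ ε * (n : ℝ) := by linarith
  have hn2 : 1 ≤ n := by
    have : (1 : ℝ) ≤ n := by nlinarith
    exact_mod_cast this
  obtain ⟨j, W, hW, hc4⟩ := cbg_cost_half h hyp hn3 hcn4
  have h8 := cbg_cost_two h hyp hC hn1 hcn hnp hA hW hc4
  have hH0 := hyp.cb_pos
  have hnpos : (0 : ℝ) < n := by exact_mod_cast hn2
  have ht0 : 0 < ε / 2 * (height κ x : ℝ) / n := by positivity
  have h9 := cbg_five h hyp.toL hn2 (ρ := ρ) hρ1 hc hc1 hN' hnC hnc ht0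
    (hasSl_lam h hyp.ne (hyp.hd2 j) (cb_hasSl hW))
    (fun q hq => by
      rw [hρd]
      exact Nat.le_floor (cbg_rank_two h hyp hC hn1 hcn hA (cb_hasSl hW) q hq))
  rw [← hcd] at h8
  linarith

end Pool.Agent.Lib.MP_44a246_ntVT
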