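import Mathlib
import Pool.Agent.Lib.MP_44a246_ntVT.VT00
import Pool.Agent.Lib.MP_44a246_ntSH.AA1

/-!
# Sharp Vojta inequality: (A3), a copy of a part of `ntSH/AA1` with `ε`

`stepA1L`, `fnl_le_A1`, `sat_bc` of `ntSH/AA1` do not change.
-/

namespace Pool.Agent.Lib.MP_44a246_ntVT

open Pool.Agent.Lib.MP_44a246_nt
open Pool.Agent.Lib.MP_44a246_ntL
open Pool.Agent.Lib.MP_44a246_ntS
open Pool.Agent.Lib.MP_44a246_ntF
open Pool.Agent.Lib.MP_44a246_ntO
open Pool.Agent.Lib.MP_44a246_ntX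
open Pool.Agent.Lib.MP_44a246_ntSH
open Pool.Agent.Lib.MP_e52354_nt
open WithZero Module

universe u v

section

variable {κ K : Type*} [Field κ] [IsAlgClosed κ] [CharZero κ] [Field K] [Algebra κ K] {n : ℕ}
  {x : Fin (n + 1) → K} {C₀ M E ε : ℝ}

/-- (A3), first part. Proof: `stepA3L` (AA1); the old hypotheses `1 / 64 ≤ s - τ` and
`e ≤ n / (6000 C₀)` are used only for `e ≤ (s - τ) (1 / (5 C₀)) n / 16`. -/
theorem stepA3G (h : IsFF κ K) (hyp : HypL κ x C₀ M E) (hC : 1 ≤ C₀) (hε : 0 < ε) {s τ η : ℝ}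
    (hτ : 0 < τ) (hsτ : ε / 64 ≤ s - τ) (hsC : s ≤ C₀) (hη : 0 ≤ η)
    (hηs : η * (1 + (s + τ / 4) / τ) < (s - τ) * (1 / (5 * C₀)) / 4) (hn : 1 ≤ n) {d : ℕ}
    {W : Submodule K (EX (n + 1) d → K)} (hW : HasSl κ ((s - τ) * height κ x / n) (xm d x) W)
    (hc : (s - τ) * (1 / (5 * C₀)) * n * height κ x / 2 ≤ d * (height κ x : ℝ) - ht κ W)
    (hsat : ∀ r : ℕ, d ≤ 2 * r → r ≤ d → ∀ V : Submodule K (EX (n + 1) r → K), xm r x ∈ V →
      r * (height κ x : ℝ) - ht κ V - (s + τ / 4) * height κ x / n * ((finrank K V : ℝ) - 1) ≤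
        η * n * height κ x)
    {e : ℕ} (he : 1 ≤ e) (hen : (e : ℝ) ≤ ε * n / (6000 * C₀))
    {f : MvPolynomial (Fin (n + 1)) K}
    {υ : Place κ K → ℤ} {a : ℤ} (hf : Fnl κ (lam e W) a f υ) :
    (a : ℝ) ≤ 16 * τ * e * height κ x / ((s - τ) * (1 / (5 * C₀)) * (n : ℝ) ^ 2) := by
  have hx := hyp.ne
  set H : ℝ := (height κ x : ℝ) with hH
  have hHpos : 0 < H := hyp.H_pos
  have hn0 : (1 : ℝ) ≤ n := by exact_mod_cast hn
  have hnpos : (0 : ℝ) < n := by linarith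
  have he0 : (1 : ℝ) ≤ e := by exact_mod_cast he
  have hepos : (0 : ℝ) < e := by linarith
  set c₂ : ℝ := 1 / (5 * C₀) with hc₂
  have hc₂pos : 0 < c₂ := by positivity
  set σ : ℝ := s - τ with hσ
  have hσpos : 0 < σ := by linarith
  set α : ℝ := 16 * τ * e * H / (σ * c₂ * (n : ℝ) ^ 2) with hα
  have hαpos : 0 < α := by positivity
  by_contra hlt
  push Not at hlt
  have ha0 : (0 : ℝ) < a := hαpos.trans hlt
  have ha0' : 0 ≤ a := by
    have : (0 : ℤ) < a := by exact_mod_cast ha0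
    exact this.le
  set y : ℝ := 3 * τ * H / (n * a) with hy
  have hypos : 0 < y := by positivity
  set j : ℕ := ⌈y⌉₊ with hj
  have hj1 : 1 ≤ j := Nat.one_le_iff_ne_zero.2 (Nat.ceil_pos.2 hypos).ne'
  have hyj : y ≤ j := Nat.le_ceil y
  have hjy : (j : ℝ) ≤ y + 1 := (Nat.ceil_lt_add_one hypos.le).le
  have hye : y * e ≤ 3 * σ * c₂ * n / 16 := by
    have h1 : y ≤ 3 * τ * H / (n * α) := by
      rw [hy]
      gcongr
    have h2 : 3 * τ * H / (n * α) * e = 3 * σ * c₂ * n / 16 := by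
      rw [hα]
      field_simp
    rw [← h2]
    exact mul_le_mul_of_nonneg_right h1 hepos.le
  have he2 : (e : ℝ) ≤ σ * c₂ * n / 16 := by
    refine hen.trans ?_
    have h1 : ε * n / (6000 * C₀) = ε / 6000 * (n / C₀) := by field_simp
    have h2 : σ * c₂ * n / 16 = σ / 80 * (n / C₀) := by
      rw [hc₂]
      field_simp
      norm_num
    rw [h1, h2]
    exact mul_le_mul_of_nonneg_right (by linarith) (by positivity)
  have hje : (j : ℝ) * e ≤ σ * c₂ * n / 4 := by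
    have h1 : (j : ℝ) * e ≤ (y + 1) * e := mul_le_mul_of_nonneg_right hjy hepos.le
    linarith
  have hdn : σ * c₂ * n / 2 ≤ d := by
    have h1 : (0 : ℝ) ≤ ht κ W := by exact_mod_cast ht_nonneg h W
    have h2 : σ * c₂ * n / 2 * H ≤ d * H := by
      have e1 : σ * c₂ * n / 2 * H = σ * c₂ * n * H / 2 := by ring
      rw [e1]
      linarith
    exact le_of_mul_le_mul_right h2 hHpos
  have hjd : 2 * (j * e) ≤ d := by
    have h2 : (2 : ℝ) * (j * e) ≤ d := by linarith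
    exact_mod_cast h2
  obtain ⟨r, hr⟩ : ∃ r, r + j * e = d := ⟨d - j * e, by omega⟩
  have hja : 3 * τ * H / n ≤ j * a := by
    have h1 : y * a = 3 * τ * H / n := by
      rw [hy]
      field_simp
    rw [← h1]
    exact mul_le_mul_of_nonneg_right hyj ha0.le
  have e1 : σ * H / n = s * H / n - τ * H / n := by rw [hσ]; ring
  have e2 : (s + τ / 4) * H / n = s * H / n + τ * H / n / 4 := by ring
  have e3 : 3 * τ * H / n = 3 * (τ * H / n) := by ring
  have hτH : 0 < τ * H / n := by positivity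
  have hs0 : 0 < s := by linarith
  have key := p3c h hx (t := σ * H / n) (t₂ := (s + τ / 4) * H / n) (δ := τ * H / n)
    (K := η * n * H) hr hj1 hτH (by positivity)
    (hsat r (by omega) (by omega)) hW (by positivity) (by
      rw [e1, e2]
      rw [e3] at hja
      linarith) ha0' hf
  have h1 : (s + τ / 4) * H / n / (τ * H / n) = (s + τ / 4) / τ := by
    field_simp
  rw [h1] at key
  have h2 : (j : ℝ) * (e * H - a) ≤ σ * c₂ * n / 4 * H := by
    have h3 : (j : ℝ) * (e * H - a) = j * e * H - j * a := by ring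
    have h4 : (0 : ℝ) ≤ j * a := by positivity
    have h5 : (j : ℝ) * e * H ≤ σ * c₂ * n / 4 * H := mul_le_mul_of_nonneg_right hje hHpos.le
    linarith
  have h3 : η * n * H * (1 + (s + τ / 4) / τ) = η * (1 + (s + τ / 4) / τ) * (n * H) := by ring
  have h4 : η * (1 + (s + τ / 4) / τ) * (n * H) < σ * c₂ / 4 * (n * H) :=
    mul_lt_mul_of_pos_right hηs (by positivity)
  have h5 : σ * c₂ * n * H / 2 = σ * c₂ * n / 4 * H + σ * c₂ / 4 * (n * H) := by ring
  rw [h3] at key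
  rw [h5] at hc
  linarith

/-- (A3), end. Proof: `stepA3bL` (AA1), `1 / σ ≤ 64 / ε`. -/
theorem stepA3bG (h : IsFF κ K) (hyp : HypL κ x C₀ M E) (hC : 1 ≤ C₀) (hε : 0 < ε) {σ τ θ : ℝ}
    (hτ : 0 < τ) (hσ : ε / 64 ≤ σ) (hσC : σ ≤ C₀) (hθ : τ * (400000 * C₀) ≤ ε ^ 2 * θ)
    (hn : 1 ≤ n) (hnC : 16 * C₀ ≤ n) {d : ℕ}
    {W : Submodule K (EX (n + 1) d → K)} (hW : HasSl κ (σ * height κ x / n) (xm d x) W)
    {e : ℕ} (he : 1 ≤ e) (hed : e ≤ d)
    (hQ : QS κ (lam e W) (16 * τ * e * height κ x / (σ * (1 / (5 * C₀)) * (n : ℝ) ^ 2))) :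
    (ht κ (lam e W) : ℝ) ≤ θ * e ^ 2 * height κ x / n ∧
      (finrank K (lam e W) : ℝ) ≤ 1 + e * n / σ := by
  have hx := hyp.ne
  set H : ℝ := (height κ x : ℝ) with hH
  have hHpos : 0 < H := hyp.H_pos
  have hn0 : (1 : ℝ) ≤ n := by exact_mod_cast hn
  have hnpos : (0 : ℝ) < n := by linarith
  have he0 : (1 : ℝ) ≤ e := by exact_mod_cast he
  have hepos : (0 : ℝ) < e := by linarith
  set c₂ : ℝ := 1 / (5 * C₀) with hc₂
  have hc₂pos : 0 < c₂ := by positivity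
  have hσpos : 0 < σ := by linarith
  set α : ℝ := 16 * τ * e * H / (σ * c₂ * (n : ℝ) ^ 2) with hα
  have hαpos : 0 < α := by positivity
  have hΛ : HasSl κ (σ * H / n) (xm e x) (lam e W) := hasSl_lam h hx hed hW
  have hdim : (finrank K (lam e W) : ℝ) ≤ 1 + e * n / σ := by
    have h1 := cost_ge h hx hΛ
    have h2 : (0 : ℝ) ≤ ht κ (lam e W) := by exact_mod_cast ht_nonneg h _
    have h3 : σ * H / n * ((finrank K (lam e W) : ℝ) - 1) ≤ σ * H / n * (e * n / σ) := by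
      have e1 : σ * H / n * (e * n / σ) = e * H := by field_simp
      rw [e1]
      linarith
    have h4 := le_of_mul_le_mul_left h3 (by positivity)
    linarith
  refine ⟨?_, hdim⟩
  have h2 := hQ ⊥ bot_le
  rw [ht_bot h, finrank_bot] at h2
  push_cast at h2
  have hen : (1 : ℝ) ≤ 1 / 16 * (e * n / σ) := by
    have h4 : 16 * C₀ / C₀ ≤ e * n / σ := by
      apply div_le_div₀ (by positivity) _ hσpos hσC
      nlinarith
    have h5 : 16 * C₀ / C₀ = 16 := by field_simp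
    linarith
  have h4 : (ht κ (lam e W) : ℝ) ≤ (17 / 16 * (e * n / σ)) * α := by
    have h5 : α * (finrank K (lam e W) : ℝ) ≤ α * (17 / 16 * (e * n / σ)) :=
      mul_le_mul_of_nonneg_left (by linarith) hαpos.le
    linarith
  refine h4.trans ?_
  have h5 : (17 / 16 * (e * n / σ)) * α =
      (85 * C₀ * τ * (1 / σ) ^ 2) * (e ^ 2 * H / n) := by
    rw [hα, hc₂]
    field_simp
    norm_num
  have h6 : θ * e ^ 2 * H / n = θ * (e ^ 2 * H / n) := by ring
  rw [h5, h6]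
  refine mul_le_mul_of_nonneg_right ?_ (by positivity)
  have h7 : 1 / σ ≤ 64 / ε := by
    rw [div_le_div_iff₀ hσpos hε]
    linarith
  have h8 : (1 / σ) ^ 2 ≤ (64 / ε) ^ 2 := pow_le_pow_left₀ (by positivity) h7 2
  have h9 : 85 * C₀ * τ * (1 / σ) ^ 2 ≤ 85 * C₀ * τ * (64 / ε) ^ 2 :=
    mul_le_mul_of_nonneg_left h8 (by positivity)
  have h10 : 0 ≤ C₀ * τ := by positivity
  refine h9.trans ?_
  have h11 : 85 * C₀ * τ * (64 / ε) ^ 2 = 348160 * (C₀ * τ) / ε ^ 2 := by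
    field_simp
    norm_num
  rw [h11, div_le_iff₀ (by positivity)]
  nlinarith

end

section

variable {κ : Type*} {K : Type u} [Field κ] [IsAlgClosed κ] [CharZero κ] [Field K] [Algebra κ K]
  {n : ℕ} {x : Fin (n + 1) → K} {C₀ M E ε : ℝ}

/-- (A3), second part. Proof: `qs_A3` (AA1). -/
theorem qs_A3G (h : IsFF κ K) (hyp : HypL κ x C₀ M E) (hC : 1 ≤ C₀) (hε : 0 < ε) {s τ η : ℝ}
    (hτ : 0 < τ) (hsτ : ε / 64 ≤ s - τ) (hsC : s ≤ C₀) (hη : 0 ≤ η)
    (hηs : η * (1 + (s + τ / 4) / τ) < (s - τ) * (1 / (5 * C₀)) / 4) (hn : 1 ≤ n) {d : ℕ}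
    {W : Submodule K (EX (n + 1) d → K)} (hW : HasSl κ ((s - τ) * height κ x / n) (xm d x) W)
    (hc : (s - τ) * (1 / (5 * C₀)) * n * height κ x / 2 ≤ d * (height κ x : ℝ) - ht κ W)
    (hsat : ∀ r : ℕ, d ≤ 2 * r → r ≤ d → ∀ V : Submodule K (EX (n + 1) r → K), xm r x ∈ V →
      r * (height κ x : ℝ) - ht κ V - (s + τ / 4) * height κ x / n * ((finrank K V : ℝ) - 1) ≤
        η * n * height κ x)
    {e : ℕ} (he : 1 ≤ e) (hen : (e : ℝ) ≤ ε * n / (6000 * C₀)) :
    QS κ (lam e W) (16 * τ * e * height κ x / ((s - τ) * (1 / (5 * C₀)) * (n : ℝ) ^ 2)) := by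
  by_contra hQ
  obtain ⟨L, _, _, _, _, _, _, l, υ, b, hυ, hsum, hb, hl, hm⟩ := exists_fnl_of_not_qs h hQ
  have hL : IsFF κ L := h.of_finite
  have hN : (0 : ℝ) < finrank K L := by exact_mod_cast finrank_pos
  have hyp' := hyp.ext (L := L) h
  obtain ⟨H, hH⟩ : ∃ H : ℝ, H = (height κ x : ℝ) := ⟨_, rfl⟩
  have hH' : (height κ (fun k => algebraMap K L (x k)) : ℝ) = finrank K L * H := by
    rw [hH]
    exact_mod_cast hL.height_ext (K := K) hyp.ne
  have hf : Fnl κ (lam e (bc L W)) b (pf l) υ := by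
    rw [lam_bc]
    exact fnl_of_row hυ hsum hl hm
  rw [← hH] at hW hc hsat hb
  have hW' : HasSl κ ((s - τ) * height κ (fun k => algebraMap K L (x k)) / n)
      (xm d fun k => algebraMap K L (x k)) (bc L W) := by
    rw [xm_am, hH']
    have h1 := HasSl_bc (L := L) h hW
    have h2 : (s - τ) * (finrank K L * H) / n = finrank K L * ((s - τ) * H / n) := by ring
    rw [h2]
    exact h1
  have hb' := stepA3G hL hyp' hC hε hτ hsτ hsC hη hηs hn hW' (by
    rw [hH', ht_bc h]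
    push_cast
    have := mul_le_mul_of_nonneg_left hc hN.le
    linarith) (fun r hr1 hr2 V hV => by
      rw [hH']
      have hξ : (fun k => algebraMap K L (xm r x k)) ∈ V := by
        rw [xm_am] at hV
        exact hV
      have h1 := sat_bc h (hsat r hr1 hr2) hξ
      have e1 : (s + τ / 4) * (finrank K L * H) / n = finrank K L * ((s + τ / 4) * H / n) := by
        ring
      rw [e1]
      linarith) he hen hf
  rw [hH'] at hb'
  have h1 : 16 * τ * e * (finrank K L * H) / ((s - τ) * (1 / (5 * C₀)) * (n : ℝ) ^ 2) =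
      finrank K L * (16 * τ * e * H / ((s - τ) * (1 / (5 * C₀)) * (n : ℝ) ^ 2)) := by
    ring
  rw [h1] at hb'
  linarith

end

end Pool.Agent.Lib.MP_44a246_ntVT
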