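import Mathlib
import Pool.Agent.Lib.MP_44a246_ntVT.VA3
import Pool.Agent.Lib.MP_44a246_ntVT.VA5
import Pool.Agent.Lib.MP_44a246_ntSH.AC06

/-!
# Sharp Vojta inequality: (A4)-(A6), a copy of `ntSH/AC06` with `ε`
-/

namespace Pool.Agent.Lib.MP_44a246_ntVT

open Pool.Agent.Lib.MP_44a246_nt
open Pool.Agent.Lib.MP_44a246_ntL
open Pool.Agent.Lib.MP_44a246_ntS
open Pool.Agent.Lib.MP_44a246_ntF
open Pool.Agent.Lib.MP_44a246_ntO
open Pool.Agent.Lib.MP_44a246_ntA
open Pool.Agent.Lib.MP_44a246_ntX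
open Pool.Agent.Lib.MP_44a246_ntSH
open Pool.Agent.Lib.MP_e52354_nt
open WithZero Module

universe u v

section

variable {κ : Type*} {K : Type u} [Field κ] [IsAlgClosed κ] [CharZero κ] [Field K] [CharZero K]
  [Algebra κ K]

/-- the plane curve. Proof: `plane_auxL` (AC06) with `q ≤ 64 n / ε` (so `16 q ≤ 1024 n / ε`,
`26 q ≤ 1664 n / ε`), `P ≤ ε H / n / 1000000`. -/
theorem plane_auxG (h : IsFF κ K) {n d : ℕ} (X : DatP κ (L := K) n) {M θ s E N q ε : ℝ}
    (hε : 0 < ε) (hε1 : ε ≤ 1)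
    (hne : X.x ≠ 0) (hn1 : 1 ≤ n)
    (hslope : ∀ Q : Submodule K (Fin (n + 1) → K), X.x ∈ Q →
      (height κ X.x : ℝ) - ht κ Q ≤ M * ((finrank K Q : ℝ) - 1)) (hM : 0 ≤ M)
    {W : Submodule K (EX (n + 1) d → K)} (hW : HasSl κ (s * height κ X.x / n) (xm d X.x) W)
    (hq : q = n / s) (hs : ε / 64 ≤ s) (hq60 : 60 ≤ q) (hEd : E ≤ d)
    (hE2 : 3328 * (n : ℝ) / ε ≤ E ^ 2) (hE0 : 0 < E) (hH : 0 < height κ X.x) (hθ0 : 0 < θ)
    (hθ : θ ≤ ε / 1000000)
    (hN : ∀ b : ℕ, (b : ℝ) * E ≤ 1024 * n / ε → (Fintype.card (EX 4 b) : ℝ) ≤ N) (hN1 : 1 ≤ N)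
    (hMN : M * N ≤ height κ X.x / 4)
    (hN1 : N ^ 2 * (height κ X.x / n) ≤ height κ X.x / 8) (hN2 : N * X.Δ ≤ height κ X.x / 8)
    (hbd : ∀ e : ℕ, 1 ≤ e → (e : ℝ) ≤ E →
          (ht κ (lam e W) : ℝ) ≤ θ * e ^ 2 * height κ X.x / n ∧
          (finrank K (lam e W) : ℝ) ≤ 1 + e * n / s) :
    ∃ (a : ℕ) (A : MvPolynomial (Fin 3) K), (a : ℝ) ≤ 1664 * n / ε ∧ A ≠ 0 ∧ A.IsHomogeneous a ∧
        MvPolynomial.eval X.p A = 0 ∧ (polyHeight κ A : ℝ) ≤ 53 * (θ * height κ X.x / n) := by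
  have hn : (1 : ℝ) ≤ n := by exact_mod_cast hn1
  have hn0 : (0 : ℝ) < n := by linarith
  have hs0 : 0 < s := by linarith
  have hHr : (0 : ℝ) < height κ X.x := by exact_mod_cast hH
  obtain ⟨H, hHdef⟩ : ∃ H : ℝ, H = (height κ X.x : ℝ) := ⟨_, rfl⟩
  rw [← hHdef] at hHr hN1 hN2 hMN
  obtain ⟨P, hP⟩ : ∃ P : ℝ, P = θ * H / n := ⟨_, rfl⟩
  have hP0 : 0 < P := by rw [hP]; positivity
  have hq64 : q ≤ 64 * n / ε := by
    rw [hq, div_le_iff₀ hs0, div_mul_eq_mul_div, le_div_iff₀ hε]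
    nlinarith only [hs]
  have hht1 : ∀ e : ℕ, 1 ≤ e → (e : ℝ) ≤ E → (ht κ (lam e W) : ℝ) ≤ P * e ^ 2 :=
    fun e he1 he => by
      refine ((hbd e he1 he).1).trans (le_of_eq ?_)
      rw [hP, hHdef]; ring
  have hdim1 : ∀ e : ℕ, 1 ≤ e → (e : ℝ) ≤ E → (finrank K (lam e W) : ℝ) ≤ 1 + e * q :=
    fun e he1 he => by
      refine ((hbd e he1 he).2).trans (le_of_eq ?_)
      rw [hq]; ring
  have hSp := sp_of_proj (P := P) (q := q) h hne hW X.l4 hEd hht1 hdim1
  rw [X.lx_l4] at hSp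
  obtain ⟨S₁, h12, h13, hS13⟩ := exists_S1 hq60
  have hS13r : (13 : ℝ) ≤ S₁ := by exact_mod_cast hS13
  have hSpos : (0 : ℝ) < S₁ := by linarith
  have hSq : (S₁ : ℝ) ≤ q := by nlinarith only [h13, hS13r]
  have hS2E : 2 * (S₁ : ℝ) ≤ E := by
    have h1 : (2 * (S₁ : ℝ)) ^ 2 ≤ E ^ 2 := by
      have h3 : 3328 * (n : ℝ) / ε = 52 * (64 * n / ε) := by ring
      nlinarith only [hE2, hq64, h13, h3]
    exact (sq_le_sq₀ (by positivity) hE0.le).1 h1
  -- the first form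
  have hcard := numP1 (e := S₁) (q := q) h12
  have hdim := hSp.dim S₁ (by omega) (by linarith)
  have hhtS := hSp.ht S₁ (by omega) (by linarith)
  obtain ⟨σ, hσ⟩ : ∃ σ : ℝ, σ = 13 * P / S₁ := ⟨_, rfl⟩
  have hσS : σ * S₁ = 13 * P := by rw [hσ]; field_simp
  have hσP : σ ≤ P := by
    rw [hσ, div_le_iff₀ hSpos]
    nlinarith only [hε1, hP0, hq60, hθ0, hθ, h12]
  have hF : FormS κ X.p4 σ S₁ := by
    obtain ⟨L, fL, aκL, aKL, tL, dL, f, hf, hf0, hfA, hfh⟩ := exists_form_top_abs h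
      (A := Lm X.l4 W S₁) (ν := (S₁ : ℝ) ^ 3 / 12) (c := 12 * P / S₁) (ε := P / S₁)
      (by positivity) (by linarith) (by
        refine hhtS.trans (le_of_eq ?_)
        field_simp) (by positivity) (by positivity)
    refine ⟨L, fL, aκL, aKL, tL, dL, f, hf, hf0, ?_, ?_⟩
    · rw [← pr_xm _ hf, xm_am]
      exact hfA _ (am_mem_bc (hSp.mem S₁ (by omega) (by linarith)))
    · refine hfh.trans (le_of_eq ?_)
      rw [hσ]
      ring
  -- the form of minimal degree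
  obtain ⟨b, hb1, hbS, hFb, hmin⟩ := hF.exists_min
  have hPHε : P ≤ ε * (H / n / 1000000) := by
    rw [hP]
    have h1 : θ * H / n = θ * (H / n) := by ring
    have h3 : ε * (H / n / 1000000) = ε / 1000000 * (H / n) := by ring
    rw [h1, h3]
    exact mul_le_mul_of_nonneg_right hθ (by positivity)
  have hPH : P ≤ H / n / 1000000 := by
    refine hPHε.trans ?_
    have h2 : 0 ≤ H / n / 1000000 := by positivity
    nlinarith only [hε, hε1, hP0, hPHε]
  have hHn0 : 0 < H / n := by positivity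
  have hHn : H / n ≤ H := div_le_self hHr.le hn
  have hbE : 16 * q ≤ E * b := by
    by_contra hcon
    push Not at hcon
    have hbE' : (b : ℝ) * E ≤ 1024 * n / ε := by
      have h3 : 1024 * (n : ℝ) / ε = 16 * (64 * n / ε) := by ring
      linarith
    have hNb := hN b hbE'
    obtain ⟨f, hf, hf0, hfp, hfh⟩ := hFb.exists_rational h (μ := 2 * P) (by linarith only [hP0,
        hσP])
      (by positivity)
    have hfN : (polyHeight κ f : ℝ) ≤ 2 * N * P := by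
      refine hfh.trans ?_
      have h1 := mul_le_mul_of_nonneg_right hNb (by positivity : 0 ≤ 2 * P)
      linarith only [h1]
    obtain ⟨b', B, hb1', hbb', hB, hirr, hBp, hBσ, hminB⟩ := exists_min_form h hf hf0 hfp hfN
    have hbb'r : (b' : ℝ) ≤ b := by exact_mod_cast hbb'
    have hNb' := hN b' ((mul_le_mul_of_nonneg_right hbb'r hE0.le).trans hbE')
    have hN0 : 0 ≤ N := by linarith
    have hNN : N ≤ N ^ 2 := by nlinarith
    have hα0 : (0 : ℝ) ≤ polyHeight κ B := by exact_mod_cast polyHeight_nonneg h hirr.ne_zero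
    have hNP : N ^ 2 * P ≤ H / 8000000 := by
      have h1 := mul_le_mul_of_nonneg_left hPH (by positivity : 0 ≤ N ^ 2)
      linarith
    have hNP' : N * P ≤ N ^ 2 * P := mul_le_mul_of_nonneg_right hNN hP0.le
    obtain ⟨Q, hxQ, hQd, hQh⟩ := X.a5 h hB hirr.ne_zero hBp hminB (by
      have h1 : (polyHeight κ B : ℝ) < H := by linarith
      rw [hHdef] at h1
      exact_mod_cast h1)
    have h1 := hslope Q hxQ
    rw [← hHdef] at h1
    have h2 : (finrank K Q : ℝ) ≤ N := by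
      have : (finrank K Q : ℝ) ≤ Fintype.card (EX 4 b') := by exact_mod_cast hQd
      linarith
    have h3 : M * ((finrank K Q : ℝ) - 1) ≤ M * N := by
      refine mul_le_mul_of_nonneg_left ?_ hM
      linarith
    have h4 : (ht κ Q : ℝ) ≤ Fintype.card (EX 4 b') * (2 * polyHeight κ B + X.Δ) := by
      exact_mod_cast hQh
    have hΔ : (0 : ℝ) ≤ X.Δ := by
      have : (0 : ℤ) ≤ X.Δ := finsum_nonneg fun w => Int.natCast_nonneg _
      exact_mod_cast this
    have h5 : (Fintype.card (EX 4 b') : ℝ) * (2 * polyHeight κ B + X.Δ) ≤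
        4 * (N ^ 2 * P) + N * X.Δ := by
      have h6 : (Fintype.card (EX 4 b') : ℝ) * (2 * polyHeight κ B + X.Δ) ≤
          N * (2 * polyHeight κ B + X.Δ) :=
        mul_le_mul_of_nonneg_right hNb' (by linarith)
      have h7 : N * (2 * (polyHeight κ B : ℝ)) ≤ N * (2 * (2 * N * P)) :=
        mul_le_mul_of_nonneg_left (by linarith) hN0
      nlinarith only [hMN, hN2, hP0, hPH, hHn, hNP, h1, h3, h4, h6, h7]
    linarith only [hMN, hN2, hP0, hPH, hHn, hNP, h1, h3, h4, h5]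
  -- the form over a Galois extension
  obtain ⟨L, fL, aκL, aKL, tL, dL, gL, B, hB, hB0, hBp, hBσ⟩ := hFb.galois h
  have hL : IsFF κ L := h.of_finite
  have hNL : (0 : ℝ) < finrank K L := by exact_mod_cast Module.finrank_pos (R := K) (M := L)
  have hirr : Irreducible B := FormS.irreducible h hmin hB hB0 hBp hBσ
  have hxL : (fun k => algebraMap K L (X.x k)) ≠ 0 := by
    intro h0
    apply hne
    funext i
    have h1 := congrFun h0 i
    exact (map_eq_zero_iff _ (algebraMap K L).injective).1 h1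
  have hWL := HasSl_bc (L := L) h hW
  rw [← xm_am] at hWL
  have hSpL := sp_of_proj (P := finrank K L * P) (q := q) (E := E) hL hxL hWL X.l4 hEd
    (fun e he1 he => by
      have hed : e ≤ d := by exact_mod_cast he.trans hEd
      rw [lam_bcE hed, ht_bc h]
      have h1 := mul_le_mul_of_nonneg_left (hht1 e he1 he) hNL.le
      push_cast
      linarith) (fun e he1 he => by
      have hed : e ≤ d := by exact_mod_cast he.trans hEd
      rw [lam_bcE hed, finrank_bc]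
      exact hdim1 e he1 he)
  rw [lx_am, X.lx_l4] at hSpL
  have hBP : (polyHeight κ B : ℝ) ≤ finrank K L * P :=
    hBσ.trans (mul_le_mul_of_nonneg_left hσP hNL.le)
  obtain ⟨M', fM, aκM, aLM, tM, dM, r, R, hr, hR0, hR, hRp, hRh⟩ := curve_form_abs hL hSpL h12 h13
    (by omega) hS2E hSq (by positivity) (fun M _ _ _ =>
      FormS.irreducible_ext h hmin hB hB0 hBp hBσ) hb1 hbS hB hirr hBp (by
      have h1 := mul_le_mul_of_nonneg_right hBσ hSpos.le
      refine h1.trans (le_of_eq ?_)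
      rw [mul_assoc, hσS]
      ring) (by
      refine lt_of_le_of_lt hBP (mul_lt_mul_of_pos_left ?_ hNL)
      have h1 : P < s * (H / n) := by
        have h3 : ε * (H / n / 1000000) < ε / 64 * (H / n) := by
          have h4 : ε * (H / n / 1000000) = ε / 64 * (H / n) * (64 / 1000000) := by ring
          have h5 : 0 < ε / 64 * (H / n) := by positivity
          rw [h4]
          linarith
        have h6 : ε / 64 * (H / n) ≤ s * (H / n) := mul_le_mul_of_nonneg_right hs hHn0.le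
        linarith
      have h2 : s * height κ X.x / n = s * (H / n) := by rw [hHdef]; ring
      rw [h2]
      linarith) hbE
  -- descent
  let aKM : Algebra K M' := ((algebraMap L M').comp (algebraMap K L)).toAlgebra
  have t2 : IsScalarTower K L M' := IsScalarTower.of_algebraMap_eq fun _ => rfl
  have t3 : IsScalarTower κ K M' := IsScalarTower.of_algebraMap_eq fun x => by
    rw [IsScalarTower.algebraMap_apply κ L M', IsScalarTower.algebraMap_apply κ K L,
      ← IsScalarTower.algebraMap_apply K L M']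
  have d1 : FiniteDimensional K M' := FiniteDimensional.trans K L M'
  have hfr : (finrank K M' : ℝ) = finrank K L * finrank L M' := by
    rw [← Module.finrank_mul_finrank K L M']
    push_cast
    ring
  have hp3 : (fun k => algebraMap K M' (X.p k)) =
      fun j : Fin 3 => algebraMap L M' (algebraMap K L (X.p4 j.succ)) := by
    funext j
    rw [← IsScalarTower.algebraMap_apply K L M']
    rfl
  have hrn : (r : ℝ) ≤ 1664 * n / ε := by
    have h3 : 1664 * (n : ℝ) / ε = 26 * (64 * n / ε) := by ring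
    linarith
  obtain ⟨a, A, ha, hA0, hA, hAp, hAh⟩ := plane_descent (σ := 53 * P) h (y₁ := X.p 1) (y := X.p 2)
    hR hR0 (by
      have h1 : (![1, X.p 1, X.p 2] : Fin 3 → K) = X.p := by
        funext j
        fin_cases j <;> rfl
      rw [h1, hp3]
      exact hRp) (by
      rw [hfr]
      refine hRh.trans (le_of_eq ?_)
      ring) (by
      have h1 : height κ ![1, X.p 1] = height κ X.x := X.height_y₁
      rw [h1, ← hHdef]
      have h2 : 2 * (r : ℝ) * (53 * P) ≤ 2 * (1664 * n / ε) * (53 * P) :=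
        mul_le_mul_of_nonneg_right (by linarith) (by positivity)
      have h3 : 2 * (1664 * (n : ℝ) / ε) * (53 * P) = 176384 * (n * P / ε) := by ring
      have h4 : n * P / ε ≤ H / 1000000 := by
        rw [div_le_iff₀ hε]
        have h5 := mul_le_mul_of_nonneg_left hPHε hn0.le
        have h6 : (n : ℝ) * (ε * (H / n / 1000000)) = H / 1000000 * ε := by field_simp
        linarith
      linarith)
  refine ⟨a, A, ?_, hA0, hA, ?_, ?_⟩
  · have h1 : (a : ℝ) ≤ r := by exact_mod_cast ha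
    linarith
  · have h1 : (![1, X.p 1, X.p 2] : Fin 3 → K) = X.p := by
      funext j
      fin_cases j <;> rfl
    rw [← h1]
    exact hAp
  · rw [← hHdef, ← hP]
    exact hAh

end

/-- **The plane curve.** Proof: `planeCurvePL` (AC06) with `E = ε n / (6000 C₀)`,
`N = (6144000 C₀ / ε ^ 2 + 3) ^ 3` and `Y` at least
`60 C₀ + 3328 (6000 C₀) ^ 2 / ε ^ 3 + 8 C₀ N + 8 N ^ 2`. -/
theorem planeCurveG (C₀ ε : ℝ) (hC : 1000 ≤ C₀) (hε : 0 < ε) (hε1 : ε ≤ 1) : ∃ Y : ℝ, 0 < Y ∧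
    ∀ (n d : ℕ) (θ : ℝ), Y ≤ n → 0 < θ → θ ≤ ε / 1000000 →
    ∀ (κ : Type u) (L : Type v) [Field κ] [IsAlgClosed κ] [CharZero κ] [Field L] [CharZero L]
      [Algebra κ L] (_ : IsFF κ L) (X : DatP κ (L := L) n) (M E : ℝ), HypL κ X.x C₀ M E →
      (X.Δ : ℝ) ≤ E → ε * (n : ℝ) / (6000 * C₀) ≤ d →
      ∀ (s : ℝ) (W : Submodule L (EX (n + 1) d → L)), ε / 64 ≤ s → s ≤ C₀ →
        HasSl κ (s * height κ X.x / n) (xm d X.x) W →
        (∀ e : ℕ, 1 ≤ e → (e : ℝ) ≤ ε * n / (6000 * C₀) →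
          (ht κ (lam e W) : ℝ) ≤ θ * e ^ 2 * height κ X.x / n ∧
          (finrank L (lam e W) : ℝ) ≤ 1 + e * n / s) →
      ∃ (a : ℕ) (A : MvPolynomial (Fin 3) L), (a : ℝ) ≤ 1664 * n / ε ∧ A ≠ 0 ∧
        A.IsHomogeneous a ∧
        MvPolynomial.eval X.p A = 0 ∧ (polyHeight κ A : ℝ) * n ≤ 53 * θ * height κ X.x := by
  obtain ⟨N, hN⟩ : ∃ N : ℝ, N = (6144000 * C₀ / ε ^ 2 + 3) ^ 3 := ⟨_, rfl⟩
  have hC0 : 0 < C₀ := by linarith
  have hCε : 0 < 6144000 * C₀ / ε ^ 2 := by positivity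
  have hN0 : 0 < N := by rw [hN]; positivity
  obtain ⟨Y, hY⟩ : ∃ Y : ℝ, Y = 60 * C₀ + 3328 * (6000 * C₀) ^ 2 / ε ^ 3 +
      8 * C₀ * N + 8 * N ^ 2 :=
    ⟨_, rfl⟩
  have t1 : 0 < 60 * C₀ := by positivity
  have t2 : 0 < 3328 * (6000 * C₀) ^ 2 / ε ^ 3 := by positivity
  have t4 : 0 < 8 * C₀ * N := by positivity
  have t5 : 0 < 8 * N ^ 2 := by positivity
  have hN1 : 1 ≤ N := by
    rw [hN]
    exact one_le_pow₀ (by linarith)
  refine ⟨Y, by rw [hY]; positivity, ?_⟩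
  intro n d θ hnY hθ0 hθ1 κ L _ _ _ _ _ _ h X M E' hyp hΔE hd s W hs hsC hW hbd
  have hn60 : 60 * C₀ ≤ n := by linarith
  have hn2 : 3328 * (6000 * C₀) ^ 2 / ε ^ 3 ≤ n := by linarith
  have hn4 : 8 * C₀ * N ≤ n := by linarith
  have hn5 : 8 * N ^ 2 ≤ n := by linarith
  have hNN : N ≤ N ^ 2 := by nlinarith only [hN0, hN1]
  have hn1 : (1 : ℝ) ≤ n := by linarith
  have hn0 : (0 : ℝ) < n := by linarith
  have hn1' : 1 ≤ n := by exact_mod_cast hn1
  have hs0 : 0 < s := by linarith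
  have hpow : (n : ℝ) ^ 3 ≤ ((n : ℝ) + 2) ^ 20 :=
    (pow_le_pow_left₀ hn0.le (by linarith) 3).trans (pow_le_pow_right₀ (by linarith) (by norm_num))
  have hpow1 : (n : ℝ) ≤ ((n : ℝ) + 2) ^ 20 := by
    refine le_trans ?_ hpow
    calc (n : ℝ) = n ^ 1 := (pow_one _).symm
      _ ≤ n ^ 3 := pow_le_pow_right₀ hn1 (by norm_num)
  have hbig := hyp.big
  have hE'0 := hyp.hE
  have hHpos : (0 : ℝ) < height κ X.x := hyp.H_pos
  have hH : 0 < height κ X.x := by exact_mod_cast hHpos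
  obtain ⟨a, A, ha, hA0, hA, hAp, hAh⟩ := plane_auxG h X (M := M) (θ := θ) (s := s)
    (E := ε * n / (6000 * C₀)) (N := N) (q := n / s) hε hε1 hyp.ne hn1' hyp.slope
    hyp.pos hW rfl hs (by
      rw [le_div_iff₀ hs0]
      nlinarith only [hε1, hY, t2, t4, hN1, hnY, hθ0, hθ1, hsC, hNN]) hd (by
      rw [div_le_iff₀ (by positivity)] at hn2
      rw [div_pow, div_le_div_iff₀ hε (by positivity)]
      have h2 := mul_le_mul_of_nonneg_left hn2 hn0.le
      have h3 : (ε * (n : ℝ)) ^ 2 * ε = n * (n * ε ^ 3) := by ring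
      rw [h3]
      linarith) (by positivity) hH hθ0 hθ1 (by
      intro b hb
      have h1 : (b : ℝ) ≤ 6144000 * C₀ / ε ^ 2 := by
        rw [← mul_div_assoc, div_le_div_iff₀ (by positivity) hε] at hb
        rw [le_div_iff₀ (by positivity)]
        have h2 : n * ((b : ℝ) * ε ^ 2) ≤ n * (6144000 * C₀) := by linarith
        exact le_of_mul_le_mul_left h2 hn0
      rw [card_EX4_real, hN]
      have hb0 : (0 : ℝ) ≤ b := Nat.cast_nonneg _
      have h2 : ((b : ℝ) + 1) * (b + 2) * (b + 3) ≤ (b + 3) ^ 3 := by nlinarith only [hε1, hθ0, hθ1]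
      have h3 : ((b : ℝ) + 3) ^ 3 ≤ (6144000 * C₀ / ε ^ 2 + 3) ^ 3 :=
        pow_le_pow_left₀ (by linarith) (by linarith) 3
      have h4 : (0 : ℝ) ≤ ((b : ℝ) + 1) * (b + 2) * (b + 3) := by positivity
      linarith) hN1 (by
      have h1 := hyp.small
      have h2 : M * (8 * C₀ * N) ≤ M * n := mul_le_mul_of_nonneg_left hn4 hyp.pos
      have h3 : C₀ * (8 * (M * N)) ≤ C₀ * height κ X.x := by linarith
      have h4 := le_of_mul_le_mul_left h3 hC0
      linarith) (by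
      have h1 : N ^ 2 * (height κ X.x / n) = N ^ 2 * height κ X.x / n := by ring
      rw [h1, div_le_iff₀ hn0]
      nlinarith only [hHpos, hC, hY, t2, t4, hnY]) (by
      have hΔ : (0 : ℝ) ≤ X.Δ := by
        have : (0 : ℤ) ≤ X.Δ := finsum_nonneg fun w => Int.natCast_nonneg _
        exact_mod_cast this
      have h1 : E' * ((n : ℝ) + 2) ^ 20 ≤ height κ X.x := hbig
      have h2 : N * X.Δ ≤ n / 8 * E' := by
        have h3 : N ≤ n / 8 := by linarith
        exact mul_le_mul h3 hΔE hΔ (by positivity)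
      have h3 : (n : ℝ) / 8 * E' ≤ ((n : ℝ) + 2) ^ 20 / 8 * E' :=
        mul_le_mul_of_nonneg_right (by linarith) hE'0.le
      linarith) hbd
  refine ⟨a, A, ha, hA0, hA, hAp, ?_⟩
  have h1 : (polyHeight κ A : ℝ) * n ≤ 53 * (θ * height κ X.x / n) * n :=
    mul_le_mul_of_nonneg_right hAh hn0.le
  refine h1.trans (le_of_eq ?_)
  field_simp

/-- **The plane curve of small height.** Proof: `plane_of_hypPL` (AC06), `θ = T / n` with `T ≥ C₇`,
`n ≥ 1000000 T / ε`. -/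
theorem plane_of_hypG (p c : ℕ) (C₀ ε : ℝ) (hC : 1000 ≤ C₀) (hε : 0 < ε) (hε1 : ε ≤ 1) :
    ∃ C₈ : ℝ, 0 < C₈ ∧
    ∀ (n : ℕ) (d : Fin p → ℕ), C₈ ≤ n →
    ∀ (κ : Type u) (L : Type v) [Field κ] [IsAlgClosed κ] [CharZero κ] [Field L] [CharZero L]
      [Algebra κ L] (_ : IsFF κ L) (X : DatP κ (L := L) n) (M E : ℝ),
      HypG κ X.x d c C₀ M E ε → (X.Δ : ℝ) ≤ E →
      ∃ (a : ℕ) (A : MvPolynomial (Fin 3) L), (a : ℝ) ≤ 1664 * n / ε ∧ A ≠ 0 ∧
        A.IsHomogeneous a ∧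
        MvPolynomial.eval X.p A = 0 ∧ (polyHeight κ A : ℝ) * n ^ 2 ≤ C₈ * height κ X.x := by
  rcases Nat.eq_zero_or_pos p with hp0 | hp
  · subst hp0
    refine ⟨1, one_pos, fun n d _ κ L _ _ _ _ _ _ h X M E hyp _ => ?_⟩
    exact absurd hyp.cb_p (by norm_num)
  have hp1 : (1 : ℝ) ≤ p := by exact_mod_cast hp
  have hC0 : (0 : ℝ) < C₀ := by linarith
  have hKC : C₀ ≤ p * C₀ := by nlinarith
  obtain ⟨C₇, h7, hA⟩ := caseAPsG.{u, v} p c C₀ ε hC hε hε1
  obtain ⟨n₁, hB⟩ := caseBG.{u, v} p c C₀ ε hC hε hε1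
  obtain ⟨Y, hY, hP⟩ := planeCurveG.{u, v} (p * C₀) ε (by linarith) hε hε1
  obtain ⟨T, hT⟩ : ∃ T : ℝ, T = C₇ + 64 := ⟨_, rfl⟩
  have hT0 : 0 < T := by rw [hT]; positivity
  have hn₁ : (0 : ℝ) ≤ n₁ := Nat.cast_nonneg _
  have hTε : 1000000 * T ≤ 1000000 * T / ε := by
    rw [le_div_iff₀ hε]
    nlinarith
  refine ⟨Y + n₁ + 1000000 * T / ε, by positivity,
    fun n d hn κ L _ _ _ _ _ _ h X M E hyp hΔ => ?_⟩
  have hnT : 1000000 * T / ε ≤ n := by linarith
  have hn1 : n₁ ≤ n := by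
    have : (n₁ : ℝ) ≤ n := by linarith
    exact_mod_cast this
  have hnpos : (0 : ℝ) < n := by linarith
  have hH := hyp.toL.H_pos
  have hθn : T / n * n = T := by field_simp
  have hcase := hB n d hn1 κ L h X.x M E hyp
  obtain ⟨j, s, W, hs1, hs2, hW, hdj, hW2⟩ := hA n d (T / n) (by linarith) (by positivity)
    (by rw [hθn]; linarith) κ L h X.x M E hyp hcase
  obtain ⟨a, A, ha, hA0, hA1, hA2, hA3⟩ := hP n (d j) (T / n) (by linarith)
    (by positivity) (by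
      rw [div_le_iff₀ hε] at hnT
      rw [div_le_iff₀ hnpos]
      linarith) κ L h X M E
    (hyp.toL.mono hKC) hΔ hdj s W hs1 (hs2.trans hKC) hW hW2
  refine ⟨a, A, ha, hA0, hA1, hA2, ?_⟩
  have h1 : (polyHeight κ A : ℝ) * n ^ 2 = (polyHeight κ A : ℝ) * n * n := by ring
  rw [h1]
  have h2 : (polyHeight κ A : ℝ) * n * n ≤ 53 * (T / n) * height κ X.x * n :=
    mul_le_mul_of_nonneg_right hA3 hnpos.le
  refine h2.trans ?_
  have h3 : 53 * (T / n) * (height κ X.x : ℝ) * n = 53 * T * height κ X.x := by field_simp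
  rw [h3]
  exact mul_le_mul_of_nonneg_right (by linarith) hH.le

end Pool.Agent.Lib.MP_44a246_ntVT
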