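import Mathlib
import Pool.Agent.Lib.MP_44a246_ntO.OS1
import Pool.Agent.Lib.MP_44a246_ntSH.RW1
import Pool.Agent.Lib.MP_44a246_ntSH.RL1

/-!
# The slope inequality for a functional over a finite extension

As `RL2`; the local operators agree with the global ones only for the functionals which vanish
on `U`.
-/

namespace Pool.Agent.Lib.MP_44a246_ntVT

open Pool.Agent.Lib.MP_44a246_nt
open Pool.Agent.Lib.MP_44a246_ntL
open Pool.Agent.Lib.MP_44a246_ntS
open Pool.Agent.Lib.MP_44a246_ntF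
open Pool.Agent.Lib.MP_44a246_ntO
open Pool.Agent.Lib.MP_44a246_ntA
open Pool.Agent.Lib.MP_44a246_ntSH
open Pool.Agent.Lib.MP_e52354_nt
open WithZero Module

variable {κ K L : Type*} [Field κ] [IsAlgClosed κ] [CharZero κ] [Field K] [Algebra κ K]
  [Field L] [Algebra κ L] [Algebra K L] [IsScalarTower κ K L] [FiniteDimensional K L]
  {σ E : Type*} [Fintype σ] [Fintype E]

omit [IsAlgClosed κ] [CharZero κ] [IsScalarTower κ K L] [FiniteDimensional K L] [Algebra κ K]
  [Algebra κ L] [Field κ] in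
/-- the rows of the linear data, over the extension -/
private theorem sum_row {T : σ → Matrix E E K} (F : σ → L) (q : E → K) (G : E → K) :
    ∑ s, F s * algebraMap K L (∑ J, G J * (T s).mulVec q J) =
      ∑ J, algebraMap K L (G J) * (∑ s, F s • (T s).map (algebraMap K L)).mulVec
        (fun k => algebraMap K L (q k)) J := by
  have h1 : ∀ J, (∑ s, F s • (T s).map (algebraMap K L)).mulVec
      (fun k => algebraMap K L (q k)) J = ∑ s, F s * algebraMap K L ((T s).mulVec q J) := by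
    intro J
    rw [Matrix.sum_mulVec, Finset.sum_apply]
    refine Finset.sum_congr rfl fun s _ => ?_
    rw [Matrix.smul_mulVec, Pi.smul_apply, smul_eq_mul, RingHom.map_mulVec]
    rfl
  simp only [h1, map_sum, map_mul, Finset.mul_sum]
  rw [Finset.sum_comm]
  exact Finset.sum_congr rfl fun J _ => Finset.sum_congr rfl fun s _ => by ring

variable [IsGalois K L]

/-- **The slope inequality for a functional `F` over a finite Galois extension.** -/
theorem slope_abs_of (h : IsFF κ K) {T : σ → Matrix E E K}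
    {Λ Λ' : Submodule K (E → K)} {U W : Submodule K (σ → K)}
    (hW : W = U ⊔ Submodule.span K
      {u | ∃ q ∈ Λ, ∃ G ∈ orth Λ', u = fun s => ∑ J, G J * (T s).mulVec q J})
    {ξ : E → K} {t t' : ℝ} (hΛ : HasSl κ t ξ Λ)
    (hΛ' : ∀ Γ, Λ' ≤ Γ → (ht κ Λ' : ℝ) - ht κ Γ ≤ t' * ((finrank K Γ : ℝ) - finrank K Λ'))
    (hξ : ∀ F ∈ orth U, (∑ s, F s • T s).mulVec ξ ∈ Λ')
    {δ : Place κ K → ℤ} (hδ : (Function.support δ).Finite)
    (hloc : ∀ v : Place κ K, ∃ Tv : σ → Matrix E E K,
      (∀ s J J', v.1 (Tv s J J') ≤ exp (δ v)) ∧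
        ∀ m ∈ orth U, ∀ b ∈ Λ, (∑ s, m s • (Tv s - T s)).mulVec b ∈ Λ')
    {F : σ → L} (hF0 : ∀ u ∈ bc L U, ∑ s, F s * u s = 0)
    (hF : ∃ u ∈ bc L W, ∑ s, F s * u s ≠ 0) {τ : Place κ L → ℤ}
    (hτ : (Function.support τ).Finite)
    (hm : ∀ w : Place κ L, ∃ m : σ → L, (∀ s, w.1 (m s) ≤ exp (τ w)) ∧
      ∀ u ∈ bc L W, ∑ s, m s * u s = ∑ s, F s * u s) :
    finrank K L * (t - t') ≤ ((∑ᶠ w, τ w : ℤ) : ℝ) + finrank K L * ((∑ᶠ v, δ v : ℤ) : ℝ) := by
  classical
  have hL : IsFF κ L := h.of_finite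
  obtain ⟨am, ham⟩ : ∃ am : K →+* L, am = algebraMap K L := ⟨_, rfl⟩
  -- the operator
  obtain ⟨op, hop⟩ : ∃ op : (σ → L) → Matrix E E L, ∀ G, op G = ∑ s, G s • (T s).map am :=
    ⟨_, fun _ => rfl⟩
  obtain ⟨ξ', hξ'⟩ : ∃ ξ' : E → L, ξ' = fun k => algebraMap K L (ξ k) := ⟨_, rfl⟩
  -- the functionals vanishing on `W`
  have hWT : ∀ H ∈ orth W, ∀ b ∈ Λ, (∑ s, H s • T s).mulVec b ∈ Λ' := by
    intro H hH b hb
    rw [← orth_orth Λ', mem_orth]
    intro G hG
    have h1 : (fun s => ∑ J, G J * (T s).mulVec b J) ∈ W := by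
      rw [hW]
      exact Submodule.mem_sup_right (Submodule.subset_span ⟨b, hb, G, hG, rfl⟩)
    have h2 := hH _ h1
    rw [← h2, Matrix.sum_mulVec]
    simp only [Finset.sum_apply, Matrix.smul_mulVec, Pi.smul_apply, smul_eq_mul, Finset.sum_mul,
      Finset.mul_sum]
    rw [Finset.sum_comm]
    exact Finset.sum_congr rfl fun J _ => Finset.sum_congr rfl fun s _ => by ring
  have hop1 : ∀ H ∈ orth (bc L W), ∀ b ∈ bc L Λ, (op H).mulVec b ∈ bc L Λ' := by
    intro H hH b hb
    rw [orth_bc] at hH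
    rw [hop, ham]
    exact bc_bilin hWT hH hb
  have hop2 : (op F).mulVec ξ' ∈ bc L Λ' := by
    have h1 : F ∈ bc L (orth U) := by
      rw [← orth_bc]
      exact hF0
    have h2 : ∀ H ∈ orth U, ∀ b ∈ Submodule.span K {ξ}, (∑ s, H s • T s).mulVec b ∈ Λ' := by
      intro H hH b hb
      obtain ⟨c, rfl⟩ := Submodule.mem_span_singleton.1 hb
      rw [Matrix.mulVec_smul]
      exact Submodule.smul_mem _ _ (hξ H hH)
    rw [hop, ham, hξ']
    exact bc_bilin h2 h1 (am_mem_bc (Submodule.mem_span_singleton_self ξ))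
  -- the kernel
  obtain ⟨A, hAdef⟩ : ∃ A : Submodule L (E → L),
      A = bc L Λ ⊓ (bc L Λ').comap (op F).mulVecLin := ⟨_, rfl⟩
  have hAΛ : A ≤ bc L Λ := by rw [hAdef]; exact inf_le_left
  have hξA : ξ' ∈ A := by
    rw [hAdef]
    refine ⟨?_, ?_⟩
    · rw [hξ']
      exact am_mem_bc hΛ.mem
    · exact hop2
  have hAT : A.map (op F).mulVecLin ≤ bc L Λ' := by
    rintro y ⟨a, ha, rfl⟩
    rw [hAdef] at ha
    exact ha.2
  have hinj : ∀ b ∈ bc L Λ, (op F).mulVecLin b ∈ bc L Λ' → b ∈ A := by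
    intro b hb hb'
    rw [hAdef]
    exact ⟨hb, hb'⟩
  -- the local operators
  choose Tv hTv1 hTv2 using hloc
  choose m hm1 hm2 using hm
  obtain ⟨Tw, hTw⟩ : ∃ Tw : Place κ L → Matrix E E L,
      ∀ w, Tw w = ∑ s, m w s • (Tv (below K w) s).map am := ⟨_, fun _ => rfl⟩
  have hTw1 : ∀ (w : Place κ L) J J', w.1 (Tw w J J') ≤
      exp (τ w + (ramIdx K w.1 : ℤ) * δ (below K w)) := by
    intro w J J'
    rw [hTw, Matrix.sum_apply]
    refine w.1.map_sum_le fun s _ => ?_
    rw [Matrix.smul_apply, Matrix.map_apply, smul_eq_mul, map_mul, exp_add]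
    refine mul_le_mul' (hm1 w s) ?_
    rw [ham, below_pow]
    calc (below K w).1 (Tv (below K w) s J J') ^ ramIdx K w.1
        ≤ exp (δ (below K w)) ^ ramIdx K w.1 := pow_le_pow_left' (hTv1 _ s J J') _
      _ = exp ((ramIdx K w.1 : ℤ) * δ (below K w)) := by
        rw [← exp_nsmul, nsmul_eq_mul]
  have hTw2 : ∀ w : Place κ L, ∀ b ∈ bc L Λ, (Tw w).mulVec b - (op F).mulVecLin b ∈ bc L Λ' := by
    intro w b hb
    have h1 : (Tw w).mulVec b - (op (m w)).mulVec b ∈ bc L Λ' := by
      have h2 : ∀ H ∈ orth U, ∀ b ∈ Λ,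
          (∑ s, H s • (Tv (below K w) s - T s)).mulVec b ∈ Λ' := fun H hH b hb =>
        hTv2 (below K w) H hH b hb
      have h3 := bc_bilin (L := L) h2 (F := m w) (by
        rw [← orth_bc]
        intro u hu
        have h5 : u ∈ bc L W := by
          rw [hW]
          exact bc_mono le_sup_left hu
        rw [hm2 w u h5]
        exact hF0 u hu) hb
      rw [← Matrix.sub_mulVec, hTw, hop, ← Finset.sum_sub_distrib]
      have h4 : ∑ s, m w s • (Tv (below K w) s - T s).map (algebraMap K L) =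
          ∑ s, (m w s • (Tv (below K w) s).map am - m w s • (T s).map am) := by
        refine Finset.sum_congr rfl fun s _ => ?_
        rw [ham, ← smul_sub]
        congr 1
        ext i j
        simp
      rw [← h4]
      exact h3
    have h2 : (op (m w)).mulVec b - (op F).mulVec b ∈ bc L Λ' := by
      have h3 : op (m w) - op F = op (m w - F) := by
        rw [hop, hop, hop, ← Finset.sum_sub_distrib]
        exact Finset.sum_congr rfl fun s _ => by rw [Pi.sub_apply, sub_smul]
      rw [← Matrix.sub_mulVec, h3]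
      refine hop1 _ (fun u hu => ?_) b hb
      have h4 := hm2 w u hu
      rw [← sub_eq_zero, ← Finset.sum_sub_distrib] at h4
      rw [← h4]
      exact Finset.sum_congr rfl fun s _ => by rw [Pi.sub_apply, sub_mul]
    have h3 : (Tw w).mulVec b - (op F).mulVecLin b =
        ((Tw w).mulVec b - (op (m w)).mulVec b) + ((op (m w)).mulVec b - (op F).mulVec b) := by
      rw [Matrix.mulVecLin_apply]
      abel
    rw [h3]
    exact Submodule.add_mem _ h1 h2
  obtain ⟨hfin, hsum⟩ := finsum_below (L := L) h hδ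
  have hτ' : (Function.support fun w : Place κ L =>
      τ w + (ramIdx K w.1 : ℤ) * δ (below K w)).Finite :=
    (hτ.union hfin).subset (Function.support_add _ _)
  have h5 := ht_mapw_mod hL (op F).mulVecLin Tw hτ' hTw1 hTw2 hAΛ hAT hinj
  have h6 := finrank_sup_map hAΛ (op F).mulVecLin hAT hinj
  have h7 : finrank L A < finrank L (bc L Λ) := by
    refine lt_of_le_of_ne (Submodule.finrank_mono hAΛ) fun h8 => ?_
    have h9 : A = bc L Λ := Submodule.eq_of_le_of_finrank_eq hAΛ h8
    obtain ⟨u, hu, hu0⟩ := hF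
    apply hu0
    have h13 : bc L W ≤ orth (Submodule.span L {F}) := by
      rw [hW, bc_sup, bc_span]
      refine sup_le ?_ (Submodule.span_le.2 ?_)
      · intro y hy
        rw [mem_orth_single, ← hF0 y hy]
        exact Finset.sum_congr rfl fun I _ => mul_comm _ _
      · rintro _ ⟨_, ⟨q, hq, G, hG, rfl⟩, rfl⟩
        show (fun s => algebraMap K L (∑ J, G J * (T s).mulVec q J)) ∈ orth (Submodule.span L {F})
        rw [mem_orth_single]
        have h14 : ∑ s, algebraMap K L (∑ J, G J * (T s).mulVec q J) * F s =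
            ∑ s, F s * algebraMap K L (∑ J, G J * (T s).mulVec q J) :=
          Finset.sum_congr rfl fun s _ => mul_comm _ _
        rw [h14, sum_row]
        have h15 : (fun k => algebraMap K L (q k)) ∈ A := by
          rw [h9]
          exact am_mem_bc hq
        rw [hAdef] at h15
        have h16 : (op F).mulVec (fun k => algebraMap K L (q k)) ∈ bc L Λ' := h15.2
        have h17 : (fun k => algebraMap K L (G k)) ∈ orth (bc L Λ') := by
          rw [orth_bc]
          exact am_mem_bc hG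
        have h18 := h17 _ h16
        rw [hop, ham] at h18
        exact h18
    have h15 := mem_orth_single.1 (h13 hu)
    rw [← h15]
    exact Finset.sum_congr rfl fun I _ => mul_comm _ _
  have h8 := (HasSl_bc (L := L) h hΛ).le A hAΛ (by rw [← hξ']; exact hξA)
  have h9 := slope_up_bc (L := L) h hΛ' (Γ := bc L Λ' ⊔ (bc L Λ).map (op F).mulVecLin) le_sup_left
  rw [finsum_add_distrib hτ hfin, hsum] at h5
  have h10 : (0 : ℝ) < (finrank L (bc L Λ) : ℝ) - finrank L A := by
    have : (finrank L A : ℝ) < finrank L (bc L Λ) := by exact_mod_cast h7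
    linarith
  have h11 : ((finrank L (bc L Λ' ⊔ (bc L Λ).map (op F).mulVecLin : Submodule L (E → L)) : ℝ)) +
      finrank L A = (finrank L (bc L Λ') : ℝ) + finrank L (bc L Λ) := by exact_mod_cast h6
  have h12 : ((ht κ (bc L Λ' ⊔ (bc L Λ).map (op F).mulVecLin) : ℤ) : ℝ) + ht κ A ≤
      (ht κ (bc L Λ) : ℝ) + ht κ (bc L Λ') +
      (((∑ᶠ w, τ w : ℤ) : ℝ) + finrank K L * ((∑ᶠ v, δ v : ℤ) : ℝ)) *
        ((finrank L (bc L Λ) : ℝ) - finrank L A) := by
    exact_mod_cast h5
  have h13 : (finrank K L * (t - t')) * ((finrank L (bc L Λ) : ℝ) - finrank L A) ≤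
      (((∑ᶠ w, τ w : ℤ) : ℝ) + finrank K L * ((∑ᶠ v, δ v : ℤ) : ℝ)) *
        ((finrank L (bc L Λ) : ℝ) - finrank L A) := by
    have h14 : (finrank L (bc L Λ' ⊔ (bc L Λ).map (op F).mulVecLin : Submodule L (E → L)) : ℝ) -
        finrank L (bc L Λ') = (finrank L (bc L Λ) : ℝ) - finrank L A := by linarith
    rw [h14] at h9
    have h15 : (finrank K L * (t - t')) * ((finrank L (bc L Λ) : ℝ) - finrank L A) =
      finrank K L * t * ((finrank L (bc L Λ) : ℝ) - finrank L A) -
        finrank K L * t' * ((finrank L (bc L Λ) : ℝ) - finrank L A) := by ring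
    rw [h15]
    linarith
  exact le_of_mul_le_mul_right h13 h10

end Pool.Agent.Lib.MP_44a246_ntVT
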