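import Mathlib
import Pool.Agent.Lib.MP_44a246_ntSH.RL1
import Pool.Agent.Lib.MP_44a246_ntS.SB2c

/-!
# Hat spaces

`S` a finite set of places, with a vector `c s` and a function `f s` for every `s : S`. The space
`hat c f B` in the coordinates `σ ⊕ S` is spanned by `(u, 0)`, `u ∈ B`, and by the vectors
`(- c s, f s e_s)`. A functional on `σ ⊕ S` which vanishes on these vectors satisfies
`l s (f s) = l (c s)`.
-/

namespace Pool.Agent.Lib.MP_44a246_ntVT

open Pool.Agent.Lib.MP_44a246_nt
open Pool.Agent.Lib.MP_44a246_ntL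
open Pool.Agent.Lib.MP_44a246_ntS
open Pool.Agent.Lib.MP_44a246_ntO
open Pool.Agent.Lib.MP_44a246_ntSH
open Pool.Agent.Lib.MP_e52354_nt
open WithZero Module

section

variable {K : Type*} [Field K] {σ S : Type*} [DecidableEq S]

/-- the vector `(- c s, f s e_s)` -/
def hv (c : S → σ → K) (f : S → K) (s : S) : σ ⊕ S → K :=
  Sum.elim (fun i => - c s i) (Pi.single s (f s))

/-- the inclusion `u ↦ (u, 0)` -/
def jh (K : Type*) [Field K] (σ S : Type*) : (σ → K) →ₗ[K] (σ ⊕ S → K) where
  toFun u := Sum.elim u 0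
  map_add' u v := by
    funext i
    rcases i with i | i <;> simp
  map_smul' a u := by
    funext i
    rcases i with i | i <;> simp

omit [DecidableEq S] in
@[simp] theorem jh_inl (u : σ → K) (i : σ) : jh K σ S u (Sum.inl i) = u i := rfl

omit [DecidableEq S] in
@[simp] theorem jh_inr (u : σ → K) (s : S) : jh K σ S u (Sum.inr s) = 0 := rfl

@[simp] theorem hv_inl (c : S → σ → K) (f : S → K) (s : S) (i : σ) :
    hv c f s (Sum.inl i) = - c s i := rfl

@[simp] theorem hv_inr (c : S → σ → K) (f : S → K) (s t : S) :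
    hv c f s (Sum.inr t) = (Pi.single s (f s) : S → K) t := rfl

/-- the span of the vectors `hv` -/
def V0 (c : S → σ → K) (f : S → K) : Submodule K (σ ⊕ S → K) :=
  Submodule.span K (Set.range (hv c f))

/-- the hat space -/
def hat (c : S → σ → K) (f : S → K) (B : Submodule K (σ → K)) : Submodule K (σ ⊕ S → K) :=
  V0 c f ⊔ B.map (jh K σ S)

theorem V0_le_hat (c : S → σ → K) (f : S → K) (B : Submodule K (σ → K)) : V0 c f ≤ hat c f B :=
  le_sup_left

theorem jh_mem_hat (c : S → σ → K) (f : S → K) {B : Submodule K (σ → K)} {u : σ → K}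
    (hu : u ∈ B) : jh K σ S u ∈ hat c f B :=
  Submodule.mem_sup_right ⟨u, hu, rfl⟩

theorem hat_mono (c : S → σ → K) (f : S → K) {A B : Submodule K (σ → K)} (h : A ≤ B) :
    hat c f A ≤ hat c f B := sup_le_sup_left (Submodule.map_mono h) _

/-- functionals which vanish on `V0` -/
theorem sum_hv [Fintype σ] [Fintype S] {c : S → σ → K} {f : S → K} {m : σ ⊕ S → K}
    (hm : ∀ u ∈ V0 c f, ∑ i, m i * u i = 0) (s : S) :
    m (Sum.inr s) * f s = ∑ i, m (Sum.inl i) * c s i := by
  have h1 := hm (hv c f s) (Submodule.subset_span ⟨s, rfl⟩)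
  rw [Fintype.sum_sum_type] at h1
  simp only [hv_inl, hv_inr, mul_neg, Finset.sum_neg_distrib] at h1
  rw [Finset.sum_eq_single s] at h1
  · rw [Pi.single_eq_same] at h1
    linear_combination h1
  · intro t _ ht
    rw [Pi.single_eq_of_ne ht, mul_zero]
  · intro h
    exact absurd (Finset.mem_univ _) h

/-- the basis of the hat space -/
theorem hat_basis [Fintype S] {c : S → σ → K} {f : S → K} (hf : ∀ s, f s ≠ 0) {ρ : Type*}
    {b : ρ → σ → K} (hb : LinearIndependent K b) :
    LinearIndependent K (Sum.elim (fun i => jh K σ S (b i)) (hv c f)) ∧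
      Submodule.span K (Set.range (Sum.elim (fun i => jh K σ S (b i)) (hv c f))) =
        hat c f (Submodule.span K (Set.range b)) := by
  classical
  constructor
  · have h1 : LinearIndependent K (fun i => jh K σ S (b i)) := by
      refine hb.map' (jh K σ S) (LinearMap.ker_eq_bot.2 fun u v huv => ?_)
      funext i
      exact congrFun huv (Sum.inl i)
    have key : ∀ (g : S → K) (u : σ → K), ∑ s, g s • hv c f s = jh K σ S u → g = 0 := by
      intro g u hgu
      funext t
      have h2 := congrFun hgu (Sum.inr t)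
      rw [jh_inr, Finset.sum_apply] at h2
      simp only [Pi.smul_apply, smul_eq_mul, hv_inr] at h2
      rw [Finset.sum_eq_single t] at h2
      · rw [Pi.single_eq_same] at h2
        exact (mul_eq_zero.1 h2).resolve_right (hf t)
      · intro s _ hs
        rw [Pi.single_eq_of_ne (Ne.symm hs), mul_zero]
      · intro h
        exact absurd (Finset.mem_univ _) h
    have h2 : LinearIndependent K (hv c f) := by
      rw [Fintype.linearIndependent_iff]
      intro g hg
      have h3 := key g 0 (by rw [hg, map_zero])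
      intro s
      rw [h3]
      rfl
    refine h1.sum_type h2 ?_
    rw [Submodule.disjoint_def]
    intro y hy1 hy2
    have h3 : y ∈ (⊤ : Submodule K (σ → K)).map (jh K σ S) := by
      refine (Submodule.span_le.2 ?_) hy1
      rintro _ ⟨i, rfl⟩
      exact ⟨b i, Submodule.mem_top, rfl⟩
    obtain ⟨u, -, rfl⟩ := h3
    obtain ⟨g, hg⟩ := (Submodule.mem_span_range_iff_exists_fun K).1 hy2
    have h4 := key g u hg
    rw [← hg, h4]
    simp
  · rw [Set.Sum.elim_range, Submodule.span_union, sup_comm, hat, V0, Submodule.map_span,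
      ← Set.range_comp]
    rfl

theorem finrank_hat [Fintype σ] [Fintype S] {c : S → σ → K} {f : S → K} (hf : ∀ s, f s ≠ 0)
    (B : Submodule K (σ → K)) : finrank K (hat c f B) = finrank K B + Fintype.card S := by
  obtain ⟨b, hb, hbs⟩ := SB2b_basis B
  obtain ⟨h1, h2⟩ := hat_basis (c := c) hf hb
  rw [hbs] at h2
  rw [← h2, finrank_span_eq_card h1, Fintype.card_sum, Fintype.card_fin]

end

section

variable {K L : Type*} [Field K] [Field L] [Algebra K L] {σ S : Type*} [DecidableEq S]

/-- extension of scalars of the hat spaces -/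
theorem hat_bc [Fintype σ] [Fintype S] (c : S → σ → K) (f : S → K) (B : Submodule K (σ → K)) :
    bc L (hat c f B) =
      hat (fun s i => algebraMap K L (c s i)) (fun s => algebraMap K L (f s)) (bc L B) := by
  have h1 : ∀ s, (fun k => algebraMap K L (hv c f s k)) =
      hv (fun s i => algebraMap K L (c s i)) (fun s => algebraMap K L (f s)) s := by
    intro s
    funext k
    rcases k with i | t
    · simp
    · simp only [hv_inr]
      by_cases h : t = s
      · subst h
        rw [Pi.single_eq_same, Pi.single_eq_same]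
      · rw [Pi.single_eq_of_ne h, Pi.single_eq_of_ne h, map_zero]
  have h2 : ∀ u : σ → K, (fun k => algebraMap K L (jh K σ S u k)) =
      jh L σ S (fun k => algebraMap K L (u k)) := by
    intro u
    funext k
    rcases k with i | t
    · simp
    · simp
  unfold hat V0
  rw [bc_sup, bc_span]
  congr 1
  · rw [← Set.range_comp]
    congr 1
    congr 1
    funext s
    exact h1 s
  · apply le_antisymm
    · refine bc_le ?_
      rintro _ ⟨u, hu, rfl⟩
      rw [h2]
      exact ⟨_, am_mem_bc hu, rfl⟩
    · rw [Submodule.map_le_iff_le_comap]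
      refine bc_le fun u hu => ?_
      rw [Submodule.mem_comap, ← h2]
      exact am_mem_bc ⟨u, hu, rfl⟩

end

section

variable {κ K : Type*} [Field κ] [IsAlgClosed κ] [CharZero κ] [Field K] [Algebra κ K]
  {σ S : Type*} [Fintype σ] [Fintype S] [DecidableEq S]

/-- the local heights of the hat space -/
theorem pl_hat_le (v : Valuation K ℤᵐ⁰) (c : S → σ → K) (f : S → K) {ρ : Type*} [Fintype ρ]
    [DecidableEq ρ] (b : ρ → σ → K) :
    pl v b * v (∏ s, f s) ≤ pl v (Sum.elim (fun i => jh K σ S (b i)) (hv c f)) := by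
  have hdet : ∀ e : ρ → σ,
      (Matrix.of fun i j => Sum.elim (fun i => jh K σ S (b i)) (hv c f) i
        (Sum.map e id j)).det = (Matrix.of fun i j => b i (e j)).det * ∏ s, f s := by
    intro e
    have h1 : (Matrix.of fun i j => Sum.elim (fun i => jh K σ S (b i)) (hv c f) i
        (Sum.map e id j)) = Matrix.fromBlocks (Matrix.of fun i j => b i (e j)) 0
          (Matrix.of fun s j => - c s (e j)) (Matrix.diagonal f) := by
      ext i j
      rcases i with i | s <;> rcases j with j | t
      · rw [Matrix.fromBlocks_apply₁₁]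
        rfl
      · rw [Matrix.fromBlocks_apply₁₂]
        rfl
      · rw [Matrix.fromBlocks_apply₂₁]
        rfl
      · simp only [Matrix.of_apply, Sum.elim_inr, Sum.map_inr, id, hv_inr,
          Matrix.fromBlocks_apply₂₂, Matrix.diagonal_apply]
        by_cases h : s = t
        · subst h
          rw [Pi.single_eq_same, if_pos rfl]
        · rw [Pi.single_eq_of_ne (Ne.symm h), if_neg h]
    rw [h1, Matrix.det_fromBlocks_zero₁₂, Matrix.det_diagonal]
  by_cases hp : v (∏ s, f s) = 0
  · rw [hp, mul_zero]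
    exact zero_le
  have h2 : pl v b ≤ pl v (Sum.elim (fun i => jh K σ S (b i)) (hv c f)) * (v (∏ s, f s))⁻¹ := by
    unfold pl
    refine vmax_le v fun e => ?_
    have h3 := le_vmax v (fun e : ρ ⊕ S → σ ⊕ S =>
      (Matrix.of fun i j => Sum.elim (fun i => jh K σ S (b i)) (hv c f) i (e j)).det)
      (Sum.map e id)
    rw [hdet, map_mul] at h3
    calc v (Matrix.of fun i j => b i (e j)).det =
        v (Matrix.of fun i j => b i (e j)).det * v (∏ s, f s) * (v (∏ s, f s))⁻¹ := by
          rw [mul_assoc, mul_inv_cancel₀ hp, mul_one]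
      _ ≤ _ := mul_le_mul_left h3 _
  calc pl v b * v (∏ s, f s) ≤ pl v (Sum.elim (fun i => jh K σ S (b i)) (hv c f)) *
      (v (∏ s, f s))⁻¹ * v (∏ s, f s) := mul_le_mul_left h2 _
    _ = _ := by rw [mul_assoc, inv_mul_cancel₀ hp, mul_one]

/-- **The height does not decrease.** -/
theorem ht_le_hat (h : IsFF κ K) (c : S → σ → K) {f : S → K} (hf : ∀ s, f s ≠ 0)
    (B : Submodule K (σ → K)) : ht κ B ≤ ht κ (hat c f B) := by
  classical
  obtain ⟨b, hb, hbs⟩ := SB2b_basis B
  obtain ⟨h1, h2⟩ := hat_basis (c := c) hf hb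
  rw [hbs] at h2
  have hF : (∏ s, f s) ≠ 0 := Finset.prod_ne_zero_iff.2 fun s _ => hf s
  have h3 : ht κ B = ∑ᶠ w : Place κ K, (log (pl w.1 b) + log (w.1 (∏ s, f s))) := by
    rw [finsum_add_distrib (pl_support h hb) (h.place_support hF), h.product_formula hF,
      add_zero, ← ht_span h hb, hbs]
  rw [h3, ← h2, ht_span h h1]
  refine finsum_mono (((pl_support h hb).union (h.place_support hF)).subset
    (Function.support_add _ _)) (pl_support h h1) fun w => ?_
  have hF' : w.1 (∏ s, f s) ≠ 0 := (Valuation.ne_zero_iff _).2 hF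
  have h4 := pl_hat_le w.1 c f b
  have h5 : pl w.1 b * w.1 (∏ s, f s) ≠ 0 := mul_ne_zero (pl_ne_zero w.1 hb) hF'
  have h6 := (log_le_log h5 (pl_ne_zero w.1 h1)).2 h4
  rwa [log_mul (pl_ne_zero w.1 hb) hF'] at h6

/-- the height of `V0` -/
theorem ht_V0_le (h : IsFF κ K) (c : S → σ → κ) {f : S → K} (hf : ∀ s, f s ≠ 0)
    {r : S → ℤ} (hr : ∀ s, height κ ![1, f s] ≤ r s) :
    ht κ (V0 (fun s i => algebraMap κ K (c s i)) f) ≤ ∑ s, r s := by
  have h1 : V0 (fun s i => algebraMap κ K (c s i)) f = (Finset.univ : Finset S).sup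
      (fun s => Submodule.span K {hv (fun s i => algebraMap κ K (c s i)) f s}) := by
    unfold V0
    rw [Finset.sup_univ_eq_iSup, Submodule.span_range_eq_iSup]
  rw [h1]
  refine (ht_finset_sup_le h _ _).trans (Finset.sum_le_sum fun s _ => ?_)
  have hne : hv (fun s i => algebraMap κ K (c s i)) f s ≠ 0 := by
    intro h0
    have h2 := congrFun h0 (Sum.inr s)
    rw [hv_inr, Pi.single_eq_same] at h2
    exact hf s h2
  have hne1 : (![1, f s] : Fin 2 → K) ≠ 0 := by
    intro h0
    have h2 := congrFun h0 0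
    simp at h2
  rw [ht_single h hne]
  refine le_trans ?_ (hr s)
  unfold height
  refine finsum_mono (h.vmax_support hne) (h.vmax_support hne1) fun w => ?_
  refine (log_le_log (fun h0 => hne ((vmax_eq_zero_iff w.1).1 h0))
    (fun h0 => hne1 ((vmax_eq_zero_iff w.1).1 h0))).2 ?_
  have h3 : (1 : ℤᵐ⁰) ≤ vmax w.1 (![1, f s] : Fin 2 → K) := by
    have := le_vmax w.1 (![1, f s] : Fin 2 → K) 0
    simpa using this
  refine vmax_le w.1 fun k => ?_
  rcases k with i | t
  · rw [hv_inl, Valuation.map_neg]
    refine le_trans ?_ h3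
    by_cases h4 : c s i = 0
    · rw [h4, map_zero, map_zero]
      exact zero_le
    · exact (w.2.2 _ h4).le
  · rw [hv_inr]
    by_cases h4 : t = s
    · subst h4
      rw [Pi.single_eq_same]
      have := le_vmax w.1 (![1, f t] : Fin 2 → K) 1
      simpa using this
    · rw [Pi.single_eq_of_ne h4, map_zero]
      exact zero_le

end

end Pool.Agent.Lib.MP_44a246_ntVT
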