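import Mathlib
import Pool.Agent.Lib.MP_44a246_ntL.LRoot
import Pool.Agent.Lib.MP_44a246_ntR.GR4
import Pool.Agent.Lib.MP_44a246_ntSH.BA03

/-!
# Functions with small values at a place and small height, over a finite extension

For a place `s` and a natural number `r` there are, by the theorem of Riemann, functions `g` with
`|g|_s ≤ exp (- N r)` and height at most `N r + genus`; their `N`-th roots `f` satisfy
`|f| ≤ exp (- e r)` at the places above `s` and have relative height at most `r + genus / N`.
-/

namespace Pool.Agent.Lib.MP_44a246_ntVT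

open Pool.Agent.Lib.MP_44a246_nt
open Pool.Agent.Lib.MP_44a246_ntL
open Pool.Agent.Lib.MP_44a246_ntS
open Pool.Agent.Lib.MP_44a246_ntO
open Pool.Agent.Lib.MP_44a246_ntSH
open Pool.Agent.Lib.MP_44a246_ntR (rr divDeg genus genus_spec)
open Pool.Agent.Lib.MP_e52354_nt
open WithZero Module

universe u

/-- there are at least two places -/
private theorem vc3_other {κ K : Type*} [Field κ] [IsAlgClosed κ] [CharZero κ] [Field K]
    [Algebra κ K] (h : IsFF κ K) (s : Place κ K) : ∃ t : Place κ K, t ≠ s := by
  obtain ⟨f, hf⟩ := s.2.1 (exp (-1 : ℤ))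
  have hf0 : f ≠ 0 := by
    rintro rfl
    rw [map_zero] at hf
    exact exp_ne_zero hf.symm
  by_contra hcon
  push Not at hcon
  have h1 := h.product_formula hf0
  rw [finsum_eq_single _ s (fun t ht => absurd (hcon t) ht), hf, log_exp] at h1
  omega

/-- a function with a zero of order at least `m` at `s` and height at most `m + genus`

Proof. `m = 0`: `g = 1`. There is a place `t ≠ s` (a non-constant function has a zero and a pole:
`IsFF`, product formula). `D = - m [s] + (m + genus) [t]`: `divDeg D = genus`, so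
`finrank (rr D) ≥ 1` (`genus_spec`) and there is `g ≠ 0` in `rr D`. Only `t` can be a pole, so
`height ![1, g] = ∑ max 0 (log |g|_w) ≤ m + genus`. -/
theorem exists_zero {κ K : Type*} [Field κ] [IsAlgClosed κ] [CharZero κ] [Field K] [Algebra κ K]
    (h : IsFF κ K) (s : Place κ K) (m : ℕ) :
    ∃ g : K, g ≠ 0 ∧ s.1 g ≤ exp (-(m : ℤ)) ∧ height κ ![1, g] ≤ m + genus κ K := by
  classical
  obtain ⟨t, ht⟩ := vc3_other h s
  let D : Place κ K →₀ ℤ := Finsupp.single s (-(m : ℤ)) + Finsupp.single t ((m : ℤ) + genus κ K)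
  have hD : divDeg D = genus κ K := by
    change divDeg (Finsupp.single s (-(m : ℤ)) + Finsupp.single t ((m : ℤ) + genus κ K)) = _
    rw [Pool.Agent.Lib.MP_44a246_ntR.divDeg_add, Pool.Agent.Lib.MP_44a246_ntR.divDeg_single,
      Pool.Agent.Lib.MP_44a246_ntR.divDeg_single]
    ring
  have hD0 : ∀ v, D v ≤ if v = t then (m : ℤ) + genus κ K else 0 := by
    intro v
    change (Finsupp.single s (-(m : ℤ)) + Finsupp.single t ((m : ℤ) + genus κ K) :
      Place κ K →₀ ℤ) v ≤ _
    rw [Finsupp.add_apply, Finsupp.single_apply, Finsupp.single_apply]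
    have h0 : (0 : ℤ) ≤ m := Int.natCast_nonneg _
    split_ifs <;> first | omega | (subst_vars; simp_all)
  have hDs : D s = -(m : ℤ) := by
    change (Finsupp.single s (-(m : ℤ)) + Finsupp.single t ((m : ℤ) + genus κ K) :
      Place κ K →₀ ℤ) s = _
    rw [Finsupp.add_apply, Finsupp.single_eq_same, Finsupp.single_apply, if_neg ht, add_zero]
  have h1 := genus_spec h D
  rw [hD] at h1
  have h2 : 0 < finrank κ (rr D) := by omega
  obtain ⟨g, hg, hg0⟩ : ∃ g ∈ rr D, g ≠ 0 := by
    have hn : Nontrivial (rr D) := nontrivial_of_finrank_pos h2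
    obtain ⟨g, hg⟩ := exists_ne (0 : rr D)
    exact ⟨g.1, g.2, fun h => hg (Subtype.ext h)⟩
  refine ⟨g, hg0, by have h3 := hg s; rwa [hDs] at h3, ?_⟩
  have hx : (![1, g] : Fin 2 → K) ≠ 0 := pair_ne_zero g
  have h0 : (0 : ℤ) ≤ (m : ℤ) + genus κ K := by positivity
  have h3 : ∀ v : Place κ K, log (vmax v.1 ![1, g]) ≤ if v = t then (m : ℤ) + genus κ K else 0 := by
    intro v
    have h5 : (0 : ℤ) ≤ if v = t then (m : ℤ) + genus κ K else 0 := by
      split_ifs
      · exact h0
      · exact le_rfl
    rw [Pool.Agent.Lib.MP_44a246_ntL.vmax_pair, log_le_iff_le_exp (by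
      exact (lt_of_lt_of_le zero_lt_one (le_max_left _ _)).ne')]
    refine max_le ?_ ((hg v).trans (exp_le_exp.mpr (hD0 v)))
    rw [← exp_zero]
    exact exp_le_exp.mpr h5
  have h4 : (Function.support fun v : Place κ K => if v = t then (m : ℤ) + genus κ K else 0).Finite := by
    refine (Set.finite_singleton t).subset fun v hv => ?_
    by_contra hcon
    exact hv (if_neg hcon)
  refine (finsum_mono (h.vmax_support hx) h4 h3).trans (le_of_eq ?_)
  rw [finsum_eq_single _ t (fun v hv => if_neg hv), if_pos rfl]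

/-- roots of finitely many elements in a finite Galois extension -/
private theorem vc3_split {K : Type u} [Field K] [CharZero K] {ι : Type*} (S : Finset ι)
    (g : ι → K) {N : ℕ} (hN : 1 ≤ N) :
    ∃ (M : Type u) (_ : Field M) (_ : Algebra K M) (_ : FiniteDimensional K M),
      IsGalois K M ∧ ∃ f : S → M, ∀ s : S, f s ^ N = algebraMap K M (g s.1) := by
  classical
  let P : Polynomial K := ∏ s ∈ S, (Polynomial.X ^ N - Polynomial.C (g s))
  have hdeg : ∀ s, (Polynomial.X ^ N - Polynomial.C (g s) : Polynomial K).degree = N := fun s =>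
    Polynomial.degree_X_pow_sub_C (by omega) _
  have h0 : ∀ s, (Polynomial.X ^ N - Polynomial.C (g s) : Polynomial K) ≠ 0 := by
    intro s h
    have h1 := hdeg s
    rw [h, Polynomial.degree_zero] at h1
    exact WithBot.bot_ne_coe h1
  have hP : P ≠ 0 := Finset.prod_ne_zero_iff.mpr fun s _ => h0 s
  have hn : Normal K P.SplittingField := Normal.of_isSplittingField P
  have hs : Algebra.IsSeparable K P.SplittingField := inferInstance
  have hg : IsGalois K P.SplittingField := ⟨⟩
  have key : ∀ s : S, ∃ f : P.SplittingField, f ^ N = algebraMap K P.SplittingField (g s.1) := by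
    intro s
    have h1 : (Polynomial.X ^ N - Polynomial.C (g s.1) : Polynomial K) ∣ P :=
      Finset.dvd_prod_of_mem (fun s => (Polynomial.X ^ N - Polynomial.C (g s) : Polynomial K)) s.2
    have h2 : ((Polynomial.X ^ N - Polynomial.C (g s.1) : Polynomial K).map
        (algebraMap K P.SplittingField)).Splits :=
      (Polynomial.SplittingField.splits P).of_dvd
        (Polynomial.map_ne_zero hP) (Polynomial.map_dvd _ h1)
    obtain ⟨x, hx⟩ := h2.exists_eval_eq_zero (by
      rw [Polynomial.degree_map, hdeg]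
      exact_mod_cast (show N ≠ 0 by omega))
    refine ⟨x, ?_⟩
    rw [Polynomial.eval_map_algebraMap, map_sub, map_pow, Polynomial.aeval_X,
      Polynomial.aeval_C, sub_eq_zero] at hx
    exact hx
  choose f hf using key
  exact ⟨P.SplittingField, inferInstance, inferInstance, inferInstance, hg, f, hf⟩

/-- the height of a power -/
private theorem vc3_pow {κ L : Type*} [Field κ] [Field L] [Algebra κ L] (f : L) (e : ℕ) :
    height κ ![1, f ^ e] = e * height κ ![1, f] := by
  unfold height
  rw [← smul_eq_mul, smul_finsum]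
  refine finsum_congr fun v => ?_
  have h1 : vmax v.1 ![1, f ^ e] = vmax v.1 ![1, f] ^ e := by
    rw [Pool.Agent.Lib.MP_44a246_ntL.vmax_pair, Pool.Agent.Lib.MP_44a246_ntL.vmax_pair, map_pow]
    rcases le_total (v.1 f) 1 with h | h
    · rw [max_eq_left h, max_eq_left (pow_le_one' h e), one_pow]
    · rw [max_eq_right h, max_eq_right (one_le_pow_of_one_le' h e)]
  rw [h1, log_pow]
  simp

/-- **Functions with small values and small height over a finite Galois extension.**

Proof. Let `N` be a natural number with `genus / N ≤ ε`, `g s` as in `exists_zero` for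
`m = N * ρ s`, `M` a splitting field of `∏ s, (X ^ N - g s)` (Galois because the characteristic is
zero, see `exists_galois_over'`), `f s` with `f s ^ N = g s`. Then `N * height ![1, f s] =
height ![1, g s]` over `M`, which is `finrank K M` times the height over `K`. For `w` above `s`:
`|f|_w ^ N = |g|_w = |g|_s ^ e` (`below_pow`). -/
theorem exists_roots {κ : Type*} {K : Type u} [Field κ] [IsAlgClosed κ] [CharZero κ] [Field K]
    [Algebra κ K] (h : IsFF κ K) (S : Finset (Place κ K)) (ρ : Place κ K → ℕ) {ε : ℝ}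
    (hε : 0 < ε) :
    ∃ (M : Type u) (_ : Field M) (_ : Algebra κ M) (_ : Algebra K M) (_ : IsScalarTower κ K M)
      (_ : FiniteDimensional K M) (_ : IsGalois K M) (f : S → M), (∀ s, f s ≠ 0) ∧
      (∀ (s : S) (w : Place κ M), below K w = s.1 →
        w.1 (f s) ≤ exp (-((ramIdx K w.1 : ℤ) * ρ s.1))) ∧
      ∀ s, (height κ ![1, f s] : ℝ) ≤ finrank K M * (ρ s.1 + ε) := by
  classical
  have hch : CharZero K := charZero_of_injective_algebraMap (algebraMap κ K).injective
  obtain ⟨N, hN1, hN⟩ : ∃ N : ℕ, 1 ≤ N ∧ (genus κ K : ℝ) ≤ N * ε := by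
    obtain ⟨N, hN⟩ := exists_nat_ge ((genus κ K : ℝ) / ε)
    refine ⟨N + 1, by omega, ?_⟩
    rw [div_le_iff₀ hε] at hN
    push_cast
    nlinarith
  choose g hg0 hgs hgh using fun s : Place κ K => exists_zero h s (N * ρ s)
  obtain ⟨M, fM, aKM, dM, gM, f, hf⟩ := vc3_split S g hN1
  let aκM : Algebra κ M := ((algebraMap K M).comp (algebraMap κ K)).toAlgebra
  have tM : IsScalarTower κ K M := IsScalarTower.of_algebraMap_eq fun _ => rfl
  have hM : IsFF κ M := h.of_finite
  refine ⟨M, fM, aκM, aKM, tM, dM, gM, f, ?_, ?_, ?_⟩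
  · intro s h0
    have h1 := hf s
    rw [h0, zero_pow (by omega)] at h1
    exact hg0 s.1 ((map_eq_zero _).mp h1.symm)
  · intro s w hw
    have h1 : w.1 (f s) ^ N ≤ exp (-((ramIdx K w.1 : ℤ) * ρ s.1)) ^ N := by
      rw [← map_pow, hf s, below_pow, hw]
      have h2 : s.1.1 (g s.1) ^ ramIdx K w.1 ≤ exp (-((N * ρ s.1 : ℕ) : ℤ)) ^ ramIdx K w.1 :=
        pow_le_pow_left' (hgs s.1) _
      refine h2.trans (le_of_eq ?_)
      rw [← exp_nsmul, ← exp_nsmul]
      congr 1
      push_cast
      simp only [nsmul_eq_mul]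
      ring
    exact (pow_le_pow_iff_left₀ zero_le zero_le (by omega)).mp h1
  · intro s
    have h1 : (N : ℤ) * height κ ![1, f s] = finrank K M * height κ ![1, g s.1] := by
      rw [← vc3_pow, hf s, ← hM.height_ext (K := K) (L := M) (pair_ne_zero (g s.1))]
      congr 1
      funext i
      fin_cases i
      · simp
      · simp
    have h2 : ((N : ℤ) : ℝ) * (height κ ![1, f s] : ℝ) = finrank K M * (height κ ![1, g s.1] : ℝ) := by
      exact_mod_cast h1
    have h3 : (height κ ![1, g s.1] : ℝ) ≤ N * ρ s.1 + genus κ K := by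
      exact_mod_cast hgh s.1
    have hN0 : (0 : ℝ) < N := by exact_mod_cast hN1
    have h4 : (0 : ℝ) ≤ finrank K M := Nat.cast_nonneg _
    have h5 : (N : ℝ) * (height κ ![1, f s] : ℝ) ≤ N * (finrank K M * (ρ s.1 + ε)) := by
      have h6 : ((N : ℤ) : ℝ) = (N : ℝ) := by norm_cast
      rw [h6] at h2
      rw [h2]
      calc (finrank K M : ℝ) * (height κ ![1, g s.1] : ℝ)
          ≤ finrank K M * (N * ρ s.1 + N * ε) := by
            apply mul_le_mul_of_nonneg_left _ h4
            linarith
        _ = N * (finrank K M * (ρ s.1 + ε)) := by ring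
    exact le_of_mul_le_mul_left h5 hN0

end Pool.Agent.Lib.MP_44a246_ntVT
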