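import Mathlib
import Pool.Agent.Lib.MP_44a246_ntVT.VC1
import Pool.Agent.Lib.MP_44a246_ntVT.VC2
import Pool.Agent.Lib.MP_44a246_ntVT.VC3

/-!
# The linear data of the rows over an extension, in the hat spaces
-/

namespace Pool.Agent.Lib.MP_44a246_ntVT

open Pool.Agent.Lib.MP_44a246_nt
open Pool.Agent.Lib.MP_44a246_ntL
open Pool.Agent.Lib.MP_44a246_ntS
open Pool.Agent.Lib.MP_44a246_ntF
open Pool.Agent.Lib.MP_44a246_ntO
open Pool.Agent.Lib.MP_44a246_ntA
open Pool.Agent.Lib.MP_44a246_ntSH
open Pool.Agent.Lib.MP_e52354_nt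
open WithZero Module

section

variable {K M : Type*} [Field K] [Field M] [Algebra K M]

/-- matrices and extension of scalars -/
theorem map_mulVec_am {σ E : Type*} [Fintype E] (G : Matrix σ E K) (y : E → K) :
    (G.map (algebraMap K M)).mulVec (fun k => algebraMap K M (y k)) =
      fun s => algebraMap K M (G.mulVec y s) := by
  funext s
  rw [RingHom.map_mulVec]
  rfl

/-- images and extension of scalars -/
theorem bc_map {σ E : Type*} [Fintype E] (G : Matrix σ E K) (B : Submodule K (E → K)) :
    bc M (B.map G.mulVecLin) = (bc M B).map (G.map (algebraMap K M)).mulVecLin := by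
  apply le_antisymm
  · refine bc_le ?_
    rintro _ ⟨b, hb, rfl⟩
    refine ⟨_, am_mem_bc hb, ?_⟩
    rw [Matrix.mulVecLin_apply, map_mulVec_am]
    rfl
  · rw [Submodule.map_le_iff_le_comap]
    refine bc_le fun b hb => ?_
    rw [Submodule.mem_comap, Matrix.mulVecLin_apply, map_mulVec_am]
    exact am_mem_bc ⟨b, hb, rfl⟩

/-- linear identities which hold on `B` hold on the extension of `B` -/
theorem bc_identity {σ E : Type*} [Fintype E] {B : Submodule K (E → K)} {G G' : Matrix σ E K}
    {c : σ → K} {α : E → K}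
    (h : ∀ b ∈ B, ∀ s, G'.mulVec b s + c s * ∑ i, α i * b i = G.mulVec b s) {b : E → M}
    (hb : b ∈ bc M B) (s : σ) :
    (G'.map (algebraMap K M)).mulVec b s +
      algebraMap K M (c s) * ∑ i, algebraMap K M (α i) * b i =
        (G.map (algebraMap K M)).mulVec b s := by
  have h1 : bc M B ≤ LinearMap.ker (((LinearMap.proj s).comp (G'.map (algebraMap K M)).mulVecLin +
      algebraMap K M (c s) • ((∑ i, algebraMap K M (α i) • LinearMap.proj i) :
        (E → M) →ₗ[M] M) - (LinearMap.proj s).comp (G.map (algebraMap K M)).mulVecLin) :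
      (E → M) →ₗ[M] M) := by
    refine bc_le fun y hy => ?_
    rw [LinearMap.mem_ker]
    simp only [LinearMap.sub_apply, LinearMap.add_apply, LinearMap.comp_apply,
      Matrix.mulVecLin_apply, map_mulVec_am, LinearMap.proj_apply, LinearMap.smul_apply,
      LinearMap.sum_apply, smul_eq_mul]
    rw [← h y hy s, map_add, map_mul, map_sum]
    simp only [map_mul]
    ring
  have h2 := h1 hb
  rw [LinearMap.mem_ker] at h2
  simp only [LinearMap.sub_apply, LinearMap.add_apply, LinearMap.comp_apply,
    Matrix.mulVecLin_apply, LinearMap.proj_apply, LinearMap.smul_apply,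
    LinearMap.sum_apply, smul_eq_mul] at h2
  exact sub_eq_zero.1 h2

/-- the rows of the linear data over the extension -/
theorem bc_rows {σ E : Type*} [Fintype σ] [Fintype E] {T : σ → Matrix E E K}
    {Λ Λ' : Submodule K (E → K)} {U W : Submodule K (σ → K)}
    (hW : W = U ⊔ Submodule.span K
      {u | ∃ q ∈ Λ, ∃ G ∈ orth Λ', u = fun s => ∑ J, G J * (T s).mulVec q J}) :
    bc M W = bc M U ⊔ Submodule.span M {u | ∃ q ∈ bc M Λ, ∃ G ∈ orth (bc M Λ'),
      u = fun s => ∑ J, G J * ((T s).map (algebraMap K M)).mulVec q J} := by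
  apply le_antisymm
  · rw [hW, bc_sup, bc_span]
    refine sup_le_sup_left (Submodule.span_le.2 ?_) _
    rintro _ ⟨_, ⟨q, hq, G, hG, rfl⟩, rfl⟩
    refine Submodule.subset_span ⟨_, am_mem_bc hq, fun J => algebraMap K M (G J), ?_, ?_⟩
    · rw [orth_bc]
      exact am_mem_bc hG
    · funext s
      rw [map_mulVec_am]
      show algebraMap K M (∑ J, G J * (T s).mulVec q J) =
        ∑ J, algebraMap K M (G J) * algebraMap K M ((T s).mulVec q J)
      rw [map_sum]
      exact Finset.sum_congr rfl fun J _ => map_mul _ _ _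
  · refine sup_le (bc_mono (by rw [hW]; exact le_sup_left)) (Submodule.span_le.2 ?_)
    rintro _ ⟨q, hq, G, hG, rfl⟩
    have hWT : ∀ H ∈ orth W, ∀ b ∈ Λ, (∑ s, H s • T s).mulVec b ∈ Λ' := by
      intro H hH b hb
      rw [← orth_orth Λ', mem_orth]
      intro G hG
      have h1 : (fun s => ∑ J, G J * (T s).mulVec b J) ∈ W := by
        rw [hW]
        exact Submodule.mem_sup_right (Submodule.subset_span ⟨b, hb, G, hG, rfl⟩)
      have h2 := hH _ h1
      rw [← h2, Matrix.sum_mulVec]
      simp only [Finset.sum_apply, Matrix.smul_mulVec, Pi.smul_apply, smul_eq_mul, Finset.sum_mul,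
        Finset.mul_sum]
      rw [Finset.sum_comm]
      exact Finset.sum_congr rfl fun J _ => Finset.sum_congr rfl fun s _ => by ring
    rw [← orth_orth (bc M W), SetLike.mem_coe, mem_orth]
    intro H hH
    rw [orth_bc] at hH
    have h1 := bc_bilin (L := M) hWT hH hq
    have h2 := hG _ h1
    rw [Matrix.sum_mulVec] at h2
    rw [← h2]
    simp only [Finset.sum_apply, Matrix.smul_mulVec, Pi.smul_apply, smul_eq_mul, Finset.sum_mul,
      Finset.mul_sum]
    rw [Finset.sum_comm]
    exact Finset.sum_congr rfl fun J _ => Finset.sum_congr rfl fun s _ => by ring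

end

section

variable {M : Type*} [Field M] {σ S E : Type*} [DecidableEq S] [Fintype E]

/-- the rows of the linear data in the hat spaces -/
theorem hat_rows (c : S → σ → M) (f : S → M) {T : σ → Matrix E E M}
    {Λ Λ' : Submodule M (E → M)} {U W : Submodule M (σ → M)}
    (hW : W = U ⊔ Submodule.span M
      {u | ∃ q ∈ Λ, ∃ G ∈ orth Λ', u = fun s => ∑ J, G J * (T s).mulVec q J}) :
    hat c f W = hat c f U ⊔ Submodule.span M {u | ∃ q ∈ Λ, ∃ G ∈ orth Λ',
      u = fun s => ∑ J, G J *
        ((Sum.elim T (fun _ => 0) : σ ⊕ S → Matrix E E M) s).mulVec q J} := by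
  have h1 : ∀ q G : E → M, (fun s => ∑ J, G J *
      ((Sum.elim T (fun _ => 0) : σ ⊕ S → Matrix E E M) s).mulVec q J) =
        jh M σ S (fun s => ∑ J, G J * (T s).mulVec q J) := by
    intro q G
    funext s
    rcases s with s | s
    · rfl
    · rw [jh_inr]
      refine Finset.sum_eq_zero fun J _ => ?_
      simp [Matrix.zero_mulVec]
  unfold hat
  rw [hW, Submodule.map_sup, Submodule.map_span, sup_assoc]
  congr 3
  ext u
  constructor
  · rintro ⟨_, ⟨q, hq, G, hG, rfl⟩, rfl⟩
    exact ⟨q, hq, G, hG, (h1 q G).symm⟩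
  · rintro ⟨q, hq, G, hG, rfl⟩
    exact ⟨_, ⟨q, hq, G, hG, rfl⟩, (h1 q G).symm⟩

/-- `V0` meets the vectors `(u, 0)` only in zero -/
theorem jh_mem_V0 [Fintype S] {c : S → σ → M} {f : S → M} (hf : ∀ s, f s ≠ 0) {u : σ → M}
    (hu : jh M σ S u ∈ V0 c f) : u = 0 := by
  obtain ⟨g, hg⟩ := (Submodule.mem_span_range_iff_exists_fun M).1 hu
  have h1 : g = 0 := by
    funext t
    have h2 := congrFun hg (Sum.inr t)
    rw [jh_inr, Finset.sum_apply] at h2
    simp only [Pi.smul_apply, smul_eq_mul, hv_inr] at h2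
    rw [Finset.sum_eq_single t] at h2
    · rw [Pi.single_eq_same] at h2
      exact (mul_eq_zero.1 h2).resolve_right (hf t)
    · intro s _ hs
      rw [Pi.single_eq_of_ne (Ne.symm hs), mul_zero]
    · intro h
      exact absurd (Finset.mem_univ _) h
  funext i
  have h2 := congrFun hg (Sum.inl i)
  rw [h1] at h2
  simp only [Pi.zero_apply, zero_smul, Finset.sum_const_zero, jh_inl] at h2
  exact h2.symm

theorem finrank_V0 [Fintype σ] [Fintype S] {c : S → σ → M} {f : S → M} (hf : ∀ s, f s ≠ 0) :
    finrank M (V0 c f) = Fintype.card S := by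
  have h1 := finrank_hat (c := c) hf (⊥ : Submodule M (σ → M))
  unfold hat at h1
  rw [Submodule.map_bot, sup_bot_eq, finrank_bot, zero_add] at h1
  exact h1

end

end Pool.Agent.Lib.MP_44a246_ntVT
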