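import Mathlib
import Pool.Agent.Lib.MP_44a246_ntVT.VC4a

/-!
# The height of the hat space of `U`, and the slopes above it
-/

namespace Pool.Agent.Lib.MP_44a246_ntVT

open Pool.Agent.Lib.MP_44a246_nt
open Pool.Agent.Lib.MP_44a246_ntL
open Pool.Agent.Lib.MP_44a246_ntS
open Pool.Agent.Lib.MP_44a246_ntF
open Pool.Agent.Lib.MP_44a246_ntO
open Pool.Agent.Lib.MP_44a246_ntA
open Pool.Agent.Lib.MP_44a246_ntSH
open Pool.Agent.Lib.MP_e52354_nt
open WithZero Module

universe u

section

variable {κ K M : Type*} [Field κ] [IsAlgClosed κ] [CharZero κ] [Field K] [Algebra κ K]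
  [Field M] [Algebra κ M] [Algebra K M] [IsScalarTower κ K M] [FiniteDimensional K M]

omit [IsAlgClosed κ] [CharZero κ] in
/-- a bound at a place below -/
theorem below_le {w : Place κ M} {y : K} {m : ℤ} (h : (below K w).1 y ≤ exp m) :
    w.1 (algebraMap K M y) ≤ exp ((ramIdx K w.1 : ℤ) * m) := by
  rw [below_pow]
  calc (below K w).1 y ^ ramIdx K w.1 ≤ exp m ^ ramIdx K w.1 := pow_le_pow_left' h _
    _ = exp ((ramIdx K w.1 : ℤ) * m) := by rw [← exp_nsmul, nsmul_eq_mul]

open Classical in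
/-- **The height of the hat space of `U`.** -/
theorem ht_hat_U (h : IsFF κ K) {σ E₁ : Type*} [Fintype σ] [Fintype E₁]
    {S : Finset (Place κ K)} {ρ : Place κ K → ℕ} {cc : Place κ K → σ → κ}
    (hcc : ∀ v ∉ S, cc v = 0) {f : S → M} (hf : ∀ s, f s ≠ 0)
    (hfw : ∀ (s : S) (w : Place κ M), below K w = s.1 →
      w.1 (f s) ≤ exp (-((ramIdx K w.1 : ℤ) * ρ s.1)))
    {G : Matrix σ E₁ K} {B : Submodule K (E₁ → K)} {U : Submodule K (σ → K)}
    (hU : U = B.map G.mulVecLin) {μ : Place κ K → ℤ} (hμ : (Function.support μ).Finite)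
    (hG : ∀ v : Place κ K, ∃ (Gv : Matrix σ E₁ K) (α : E₁ → K),
      (∀ s i, v.1 (Gv s i) ≤ exp (μ v)) ∧ (v ∈ S → ∀ i, v.1 (α i) ≤ exp (μ v + ρ v)) ∧
        ∀ b ∈ B, ∀ s, Gv.mulVec b s + algebraMap κ K (cc v s) * ∑ i, α i * b i =
          G.mulVec b s) :
    ht κ (hat (fun (s : S) i => algebraMap κ M (cc s.1 i)) f (bc M U)) ≤
      finrank K M * ht κ B + ∑ s, height κ ![1, f s] +
        finrank K U * (finrank K M * ∑ᶠ v, μ v) := by
  classical
  have hM : IsFF κ M := h.of_finite
  obtain ⟨c, hc⟩ : ∃ c : S → σ → M, c = fun s i => algebraMap κ M (cc s.1 i) := ⟨_, rfl⟩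
  rw [← hc]
  choose Gv α hG1 hG2 hG3 using hG
  obtain ⟨T, hT⟩ : ∃ T : (E₁ → M) →ₗ[M] (σ ⊕ S → M),
      T = (jh M σ S).comp (G.map (algebraMap K M)).mulVecLin := ⟨_, rfl⟩
  have hTb : ∀ b, T b = jh M σ S ((G.map (algebraMap K M)).mulVec b) := fun b => by
    rw [hT, LinearMap.comp_apply, Matrix.mulVecLin_apply]
  obtain ⟨Tw, hTw⟩ : ∃ Tw : Place κ M → Matrix (σ ⊕ S) E₁ M, Tw = fun w =>
      Matrix.of (Sum.elim (fun s i => algebraMap K M (Gv (below K w) s i))
        (fun (s : S) i => if s.1 = below K w then f s * algebraMap K M (α (below K w) i)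
          else 0)) := ⟨_, rfl⟩
  have hTwb : ∀ w b, (Tw w).mulVec b = Sum.elim
      (((Gv (below K w)).map (algebraMap K M)).mulVec b)
      (fun s : S => if s.1 = below K w then
        f s * ∑ i, algebraMap K M (α (below K w) i) * b i else 0) := by
    intro w b
    funext s
    rw [hTw]
    rcases s with s | s
    · rfl
    · show ∑ i, (if s.1 = below K w then f s * algebraMap K M (α (below K w) i) else 0) * b i =
        if s.1 = below K w then f s * ∑ i, algebraMap K M (α (below K w) i) * b i else 0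
      split_ifs
      · rw [Finset.mul_sum]
        exact Finset.sum_congr rfl fun i _ => by ring
      · exact Finset.sum_eq_zero fun i _ => zero_mul _
  obtain ⟨hfin, hsum⟩ := finsum_below (L := M) h hμ
  have hTw1 : ∀ (w : Place κ M) k m, w.1 (Tw w k m) ≤
      exp ((ramIdx K w.1 : ℤ) * μ (below K w)) := by
    intro w k m
    rw [hTw]
    rcases k with s | s
    · exact below_le (hG1 _ s m)
    · show w.1 (if s.1 = below K w then f s * algebraMap K M (α (below K w) m) else 0) ≤ _
      split_ifs with hs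
      · rw [map_mul]
        have h1 := hfw s w hs.symm
        have h2 : w.1 (algebraMap K M (α (below K w) m)) ≤
            exp ((ramIdx K w.1 : ℤ) * (μ (below K w) + ρ (below K w))) :=
          below_le (hG2 _ (by rw [← hs]; exact s.2) m)
        refine (mul_le_mul' h1 h2).trans (le_of_eq ?_)
        rw [← exp_add, hs]
        congr 1
        ring
      · rw [map_zero]
        exact zero_le
  have hTw2 : ∀ w, ∀ b ∈ bc M B, (Tw w).mulVec b - T b ∈ V0 c f := by
    intro w b hb
    have h1 := fun s => bc_identity (M := M) (c := fun s => algebraMap κ K (cc (below K w) s))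
      (hG3 (below K w)) hb s
    by_cases hw : below K w ∈ S
    · have h2 : (Tw w).mulVec b - T b =
          (∑ i, algebraMap K M (α (below K w) i) * b i) • hv c f ⟨below K w, hw⟩ := by
        rw [hTwb, hTb]
        funext s
        rcases s with s | s
        · simp only [Pi.sub_apply, Sum.elim_inl, jh_inl, Pi.smul_apply, hv_inl, smul_eq_mul]
          rw [← h1 s, hc]
          simp only
          rw [← IsScalarTower.algebraMap_apply]
          ring
        · simp only [Pi.sub_apply, Sum.elim_inr, jh_inr, Pi.smul_apply, hv_inr, smul_eq_mul]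
          by_cases hs : s.1 = below K w
          · have hs' : s = ⟨below K w, hw⟩ := Subtype.ext hs
            subst hs'
            rw [if_pos rfl, Pi.single_eq_same, sub_zero, mul_comm]
          · rw [if_neg hs, Pi.single_eq_of_ne (fun h0 => hs (by rw [h0])), mul_zero, sub_zero]
      rw [h2]
      exact Submodule.smul_mem _ _ (Submodule.subset_span ⟨_, rfl⟩)
    · have h2 : (Tw w).mulVec b - T b = 0 := by
        rw [hTwb, hTb]
        funext s
        rcases s with s | s
        · simp only [Pi.sub_apply, Sum.elim_inl, jh_inl, Pi.zero_apply]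
          rw [← h1 s, hcc _ hw]
          simp
        · simp only [Pi.sub_apply, Sum.elim_inr, jh_inr, Pi.zero_apply]
          rw [if_neg (fun h0 => hw (by rw [← h0]; exact s.2)), sub_zero]
      rw [h2]
      exact Submodule.zero_mem _
  obtain ⟨A, hA⟩ : ∃ A : Submodule M (E₁ → M),
      A = bc M B ⊓ LinearMap.ker (G.map (algebraMap K M)).mulVecLin := ⟨_, rfl⟩
  have hAB : A ≤ bc M B := by rw [hA]; exact inf_le_left
  have hAT : A.map T ≤ V0 c f := by
    rintro _ ⟨a, ha, rfl⟩
    rw [hA] at ha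
    have h1 : (G.map (algebraMap K M)).mulVec a = 0 := ha.2
    rw [hTb, h1, map_zero]
    exact Submodule.zero_mem _
  have hinj : ∀ b ∈ bc M B, T b ∈ V0 c f → b ∈ A := by
    intro b hb hb'
    rw [hTb] at hb'
    rw [hA]
    exact ⟨hb, jh_mem_V0 hf hb'⟩
  have h1 := ht_mapw_mod hM T Tw hfin hTw1 hTw2 hAB hAT hinj
  have h2 := finrank_sup_map hAB T hAT hinj
  have h3 : V0 c f ⊔ (bc M B).map T = hat c f (bc M U) := by
    unfold hat
    rw [hU, bc_map, hT, Submodule.map_comp]
  rw [h3] at h1 h2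
  rw [finrank_V0 hf, finrank_hat hf, finrank_bc] at h2
  have h4 : ((finrank M (bc M B) : ℤ) - finrank M A) = finrank K U := by omega
  rw [h4, hsum, ht_bc h] at h1
  have h5 := ht_nonneg hM A
  have h6 : ht κ (V0 c f) ≤ ∑ s, height κ ![1, f s] := by
    rw [hc]
    exact ht_V0_le hM _ hf fun s => le_rfl
  have h7 : (finrank K M : ℤ) * (∑ᶠ v, μ v) * (finrank K U : ℤ) =
      finrank K U * (finrank K M * ∑ᶠ v, μ v) := by ring
  linarith

end

section

variable {κ : Type*} {K M : Type u} [Field κ] [IsAlgClosed κ] [CharZero κ] [Field K]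
  [Algebra κ K] [Field M] [Algebra κ M] [Algebra K M] [IsScalarTower κ K M]
  [FiniteDimensional K M] [IsGalois K M]

open Classical in
/-- **The slopes above the hat space of `U`.** -/
theorem ht_hat_W (h : IsFF κ K) {σ E : Type*} [Fintype σ] [Fintype E]
    {S : Finset (Place κ K)} {ρ : Place κ K → ℕ} {cc : Place κ K → σ → κ}
    (hcc : ∀ v ∉ S, cc v = 0) {f : S → M} (hf : ∀ s, f s ≠ 0)
    (hfw : ∀ (s : S) (w : Place κ M), below K w = s.1 →
      w.1 (f s) ≤ exp (-((ramIdx K w.1 : ℤ) * ρ s.1)))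
    {U W : Submodule K (σ → K)}
    {T : σ → Matrix E E K} {Λ Λ' : Submodule K (E → K)}
    (hW : W = U ⊔ Submodule.span K
      {u | ∃ q ∈ Λ, ∃ G ∈ orth Λ', u = fun s => ∑ J, G J * (T s).mulVec q J})
    {ξ : E → K} {t t' : ℝ} (hΛ : HasSl κ t ξ Λ)
    (hΛ' : ∀ Γ, Λ' ≤ Γ → (ht κ Λ' : ℝ) - ht κ Γ ≤ t' * ((finrank K Γ : ℝ) - finrank K Λ'))
    (hξ : ∀ F ∈ orth U, (∑ s, F s • T s).mulVec ξ ∈ Λ')
    {δ : Place κ K → ℤ} (hδ : (Function.support δ).Finite)
    (hT : ∀ v : Place κ K, ∃ (Tv : σ → Matrix E E K) (T0 : Matrix E E K),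
      (∀ s J J', v.1 (Tv s J J') ≤ exp (δ v)) ∧
      (v ∈ S → ∀ J J', v.1 (T0 J J') ≤ exp (δ v + ρ v)) ∧
        ∀ s, ∀ b ∈ Λ, (Tv s).mulVec b + algebraMap κ K (cc v s) • T0.mulVec b -
          (T s).mulVec b ∈ Λ') :
    (ht κ (hat (fun (s : S) i => algebraMap κ M (cc s.1 i)) f (bc M W)) : ℝ) ≤
      ht κ (hat (fun (s : S) i => algebraMap κ M (cc s.1 i)) f (bc M U)) +
        ((finrank K W : ℝ) - finrank K U) *
          (finrank K M * (((∑ᶠ v, δ v : ℤ) : ℝ) - (t - t'))) := by
  classical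
  have hM : IsFF κ M := h.of_finite
  have hUW : U ≤ W := by rw [hW]; exact le_sup_left
  obtain ⟨c, hc⟩ : ∃ c : S → σ → M, c = fun s i => algebraMap κ M (cc s.1 i) := ⟨_, rfl⟩
  rw [← hc]
  by_cases hne : U = W
  · rw [hne, sub_self, zero_mul, add_zero]
  have hlt : finrank K U < finrank K W :=
    lt_of_le_of_ne (Submodule.finrank_mono hUW) fun h0 =>
      hne (Submodule.eq_of_le_of_finrank_eq hUW h0)
  obtain ⟨Û, hÛ⟩ : ∃ Û : Submodule M (σ ⊕ S → M), Û = hat c f (bc M U) := ⟨_, rfl⟩
  obtain ⟨Ŵ, hŴ⟩ : ∃ Ŵ : Submodule M (σ ⊕ S → M), Ŵ = hat c f (bc M W) := ⟨_, rfl⟩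
  rw [← hÛ, ← hŴ]
  have hfU : finrank M Û = finrank K U + Fintype.card S := by
    rw [hÛ, finrank_hat hf, finrank_bc]
  have hfW : finrank M Ŵ = finrank K W + Fintype.card S := by
    rw [hŴ, finrank_hat hf, finrank_bc]
  have hUŴ : Û ≤ Ŵ := by
    rw [hÛ, hŴ]
    exact hat_mono c f (bc_mono hUW)
  have hneŴ : Û ≠ Ŵ := by
    intro h0
    rw [h0] at hfU
    omega
  obtain ⟨T', hT'⟩ : ∃ T' : σ ⊕ S → Matrix E E M,
      T' = Sum.elim (fun s => (T s).map (algebraMap K M)) (fun _ => 0) := ⟨_, rfl⟩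
  have hW' : Ŵ = Û ⊔ Submodule.span M {u | ∃ q ∈ bc M Λ, ∃ G ∈ orth (bc M Λ'),
      u = fun s => ∑ J, G J * (T' s).mulVec q J} := by
    rw [hÛ, hŴ, hT']
    exact hat_rows c f (bc_rows hW)
  have hsl := HasSl_bc (L := M) h hΛ
  have hup : ∀ Γ, bc M Λ' ≤ Γ → (ht κ (bc M Λ') : ℝ) - ht κ Γ ≤
      (finrank K M * t') * ((finrank M Γ : ℝ) - finrank M (bc M Λ')) :=
    fun Γ hΓ => slope_up_bc (L := M) h hΛ' hΓ
  have hsumT : ∀ m : σ ⊕ S → M, ∑ s, m s • T' s =
      ∑ s : σ, m (Sum.inl s) • (T s).map (algebraMap K M) := by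
    intro m
    rw [Fintype.sum_sum_type, hT']
    simp
  have horthU : ∀ m ∈ orth Û, (fun s => m (Sum.inl s)) ∈ bc M (orth U) := by
    intro m hm
    rw [← orth_bc, mem_orth]
    intro u hu
    have h1 := hm (jh M σ S u) (by rw [hÛ]; exact jh_mem_hat c f hu)
    rw [Fintype.sum_sum_type] at h1
    simp only [jh_inl, jh_inr, mul_zero, Finset.sum_const_zero, add_zero] at h1
    exact h1
  have hξ' : ∀ F ∈ orth Û, (∑ s, F s • T' s).mulVec (fun k => algebraMap K M (ξ k)) ∈
      bc M Λ' := by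
    intro F hF
    rw [hsumT]
    have h2 : ∀ H ∈ orth U, ∀ b ∈ Submodule.span K {ξ}, (∑ s, H s • T s).mulVec b ∈ Λ' := by
      intro H hH b hb
      obtain ⟨c, rfl⟩ := Submodule.mem_span_singleton.1 hb
      rw [Matrix.mulVec_smul]
      exact Submodule.smul_mem _ _ (hξ H hH)
    exact bc_bilin h2 (horthU F hF) (am_mem_bc (Submodule.mem_span_singleton_self ξ))
  choose Tv T0 hT1 hT2 hT3 using hT
  obtain ⟨hfin, hsum⟩ := finsum_below (L := M) h hδ
  have hloc : ∀ w : Place κ M, ∃ Tw : σ ⊕ S → Matrix E E M,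
      (∀ s J J', w.1 (Tw s J J') ≤ exp ((ramIdx K w.1 : ℤ) * δ (below K w))) ∧
        ∀ m ∈ orth Û, ∀ b ∈ bc M Λ, (∑ s, m s • (Tw s - T' s)).mulVec b ∈ bc M Λ' := by
    intro w
    refine ⟨Sum.elim (fun s => (Tv (below K w) s).map (algebraMap K M))
      (fun s : S => if s.1 = below K w then f s • (T0 (below K w)).map (algebraMap K M)
        else 0), ?_, ?_⟩
    · intro s J J'
      rcases s with s | s
      · exact below_le (hT1 _ s J J')
      · show w.1 ((if s.1 = below K w then f s • (T0 (below K w)).map (algebraMap K M)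
          else 0 : Matrix E E M) J J') ≤ _
        split_ifs with hs
        · rw [Matrix.smul_apply, Matrix.map_apply, smul_eq_mul, map_mul]
          have h1 := hfw s w hs.symm
          have h2 : w.1 (algebraMap K M (T0 (below K w) J J')) ≤
              exp ((ramIdx K w.1 : ℤ) * (δ (below K w) + ρ (below K w))) :=
            below_le (hT2 _ (by rw [← hs]; exact s.2) J J')
          refine (mul_le_mul' h1 h2).trans (le_of_eq ?_)
          rw [← exp_add, hs]
          congr 1
          ring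
        · rw [Matrix.zero_apply, map_zero]
          exact zero_le
    · intro m hm b hb
      have hmV : ∀ u ∈ V0 c f, ∑ i, m i * u i = 0 := fun u hu =>
        hm u (by rw [hÛ]; exact V0_le_hat c f _ hu)
      -- the combination over `K`
      have h2 : ∀ H ∈ (⊤ : Submodule K (σ → K)), ∀ b ∈ Λ,
          (∑ s, H s • (Tv (below K w) s + algebraMap κ K (cc (below K w) s) • T0 (below K w) -
            T s)).mulVec b ∈ Λ' := by
        intro H _ b hb
        rw [Matrix.sum_mulVec]
        refine Submodule.sum_mem _ fun s _ => ?_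
        rw [Matrix.smul_mulVec, Matrix.sub_mulVec, Matrix.add_mulVec, Matrix.smul_mulVec]
        exact Submodule.smul_mem _ _ (hT3 _ s b hb)
      have h3 := bc_bilin (L := M) h2 (F := fun s => m (Sum.inl s))
        (by rw [bc_top]; exact Submodule.mem_top) hb
      have h4 : ∑ s : σ, m (Sum.inl s) • (Tv (below K w) s +
          algebraMap κ K (cc (below K w) s) • T0 (below K w) - T s).map (algebraMap K M) =
          ∑ s, m s • ((Sum.elim (fun s => (Tv (below K w) s).map (algebraMap K M))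
            (fun s : S => if s.1 = below K w then f s • (T0 (below K w)).map (algebraMap K M)
              else 0) : σ ⊕ S → Matrix E E M) s - T' s) := by
        rw [Fintype.sum_sum_type, hT']
        simp only [Sum.elim_inl, Sum.elim_inr, sub_zero]
        have h5 : ∑ s : S, m (Sum.inr s) • (if s.1 = below K w then
            f s • (T0 (below K w)).map (algebraMap K M) else 0 : Matrix E E M) =
            (∑ s : σ, m (Sum.inl s) * algebraMap κ M (cc (below K w) s)) •
              (T0 (below K w)).map (algebraMap K M) := by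
          by_cases hw : below K w ∈ S
          · rw [Finset.sum_eq_single (⟨below K w, hw⟩ : S)]
            · rw [if_pos rfl, smul_smul, sum_hv hmV, hc]
            · intro s _ hs
              rw [if_neg (fun h0 => hs (Subtype.ext h0)), smul_zero]
            · intro h0
              exact absurd (Finset.mem_univ _) h0
          · rw [Finset.sum_eq_zero, hcc _ hw]
            · simp
            · intro s _
              rw [if_neg (fun h0 => hw (by rw [← h0]; exact s.2)), smul_zero]
        rw [h5, Finset.sum_smul, ← Finset.sum_add_distrib]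
        refine Finset.sum_congr rfl fun s _ => ?_
        rw [← smul_smul, ← smul_add]
        congr 1
        ext i j
        simp only [Matrix.map_apply, Matrix.sub_apply, Matrix.add_apply, Matrix.smul_apply,
          smul_eq_mul, map_sub, map_add, map_mul]
        rw [← IsScalarTower.algebraMap_apply]
        ring
      rw [← h4]
      exact h3
  -- all smaller slopes
  obtain ⟨ν, hν⟩ : ∃ ν : ℝ, ν = (finrank K W : ℝ) - finrank K U := ⟨_, rfl⟩
  have hν0 : 0 < ν := by
    have : (finrank K U : ℝ) < finrank K W := by exact_mod_cast hlt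
    rw [hν]
    linarith
  have hνM : (finrank M Ŵ : ℝ) - finrank M Û = ν := by
    rw [hfU, hfW, hν]
    push_cast
    ring
  obtain ⟨N, hN⟩ : ∃ N : ℝ, N = finrank K M := ⟨_, rfl⟩
  rw [← hν, ← hN]
  obtain ⟨Δ, hΔ⟩ : ∃ Δ : ℝ, Δ = ((∑ᶠ v, δ v : ℤ) : ℝ) := ⟨_, rfl⟩
  rw [← hΔ]
  have key : ∀ a : ℝ, a * ν < (ht κ Ŵ : ℝ) - ht κ Û → a ≤ N * (Δ - (t - t')) := by
    intro a ha
    rw [← hνM] at ha
    obtain ⟨L, iF, iA, iB, iS, iD, iG, l, τ, b, hτ, hsumτ, hb, hl0, hl, hm⟩ :=
      siegel_rel_abs hM hUŴ hneŴ ha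
    have h3 := slope_abs_of hM hW' hsl hup hξ' hfin hloc hl0 hl hτ hm
    rw [hsumτ, hsum, ← hN] at h3
    have hL0 : (0 : ℝ) < finrank M L := by exact_mod_cast Module.finrank_pos (R := M) (M := L)
    have h4 : (finrank M L : ℝ) * a ≤ finrank M L * (N * (Δ - (t - t'))) := by
      push_cast at h3
      rw [← hN, ← hΔ] at h3
      linarith
    exact le_of_mul_le_mul_left h4 hL0
  by_contra hcon
  rw [not_le] at hcon
  have h1 : (N * (Δ - (t - t'))) * ν < (ht κ Ŵ : ℝ) - ht κ Û := by linarith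
  obtain ⟨a, ha1, ha2⟩ := _root_.exists_between h1
  have h2 := key (a / ν) (by rw [div_mul_cancel₀ _ hν0.ne']; exact ha2)
  rw [div_le_iff₀ hν0] at h2
  linarith

end

end Pool.Agent.Lib.MP_44a246_ntVT
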