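import Mathlib
import Pool.Agent.Lib.MP_44a246_ntSH.RV2
import Pool.Agent.Lib.MP_44a246_ntVT.VC4b

/-!
# The height of the hat space of `U`, with additional rows
-/

namespace Pool.Agent.Lib.MP_44a246_ntVT

open Pool.Agent.Lib.MP_44a246_nt
open Pool.Agent.Lib.MP_44a246_ntL
open Pool.Agent.Lib.MP_44a246_ntS
open Pool.Agent.Lib.MP_44a246_ntF
open Pool.Agent.Lib.MP_44a246_ntO
open Pool.Agent.Lib.MP_44a246_ntA
open Pool.Agent.Lib.MP_44a246_ntSH
open Pool.Agent.Lib.MP_e52354_nt
open WithZero Module

section

variable {κ K M : Type*} [Field κ] [IsAlgClosed κ] [CharZero κ] [Field K] [Algebra κ K]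
  [Field M] [Algebra κ M] [Algebra K M] [IsScalarTower κ K M] [FiniteDimensional K M]

open Classical in
/-- **Additional rows in the hat space.** -/
theorem ht_hat_rows (h : IsFF κ K) {σ : Type*} [Fintype σ] {k : ℕ}
    {S : Finset (Place κ K)} {ρ : Place κ K → ℕ} {cc : Place κ K → σ → κ}
    (hcc : ∀ v ∉ S, cc v = 0) {f : S → M}
    (hfw : ∀ (s : S) (w : Place κ M), below K w = s.1 →
      w.1 (f s) ≤ exp (-((ramIdx K w.1 : ℤ) * ρ s.1)))
    {U₁ : Submodule K (σ → K)} {r : Fin k → σ → K} {δ : Place κ K → ℕ}
    (hδ : (Function.support δ).Finite)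
    (hr : ∀ (v : Place κ K) i, ∃ u ∈ U₁, ∃ β : K,
      (∀ s, v.1 (r i s - u s - algebraMap κ K (cc v s) * β) ≤ exp (δ v : ℤ)) ∧
        (v ∈ S → v.1 β ≤ exp ((δ v : ℤ) + ρ v))) :
    ht κ (hat (fun (s : S) i => algebraMap κ M (cc s.1 i)) f
      (bc M (U₁ ⊔ Submodule.span K (Set.range r)))) ≤
      ht κ (hat (fun (s : S) i => algebraMap κ M (cc s.1 i)) f (bc M U₁)) +
        k * (finrank K M * ∑ᶠ v, (δ v : ℤ)) := by
  classical
  have hM : IsFF κ M := h.of_finite
  obtain ⟨c, hc⟩ : ∃ c : S → σ → M, c = fun s i => algebraMap κ M (cc s.1 i) := ⟨_, rfl⟩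
  rw [← hc]
  have hδ' : (Function.support fun v => (δ v : ℤ)).Finite :=
    hδ.subset fun v hv => by
      rw [Function.mem_support] at hv ⊢
      exact fun h0 => hv (by rw [h0, Nat.cast_zero])
  obtain ⟨hfin, hsum⟩ := finsum_below (L := M) h hδ'
  obtain ⟨r', hr'⟩ : ∃ r' : Fin k → σ ⊕ S → M,
      r' = fun i => jh M σ S (fun s => algebraMap K M (r i s)) := ⟨_, rfl⟩
  have h1 : hat c f (bc M (U₁ ⊔ Submodule.span K (Set.range r))) =
      hat c f (bc M U₁) ⊔ Submodule.span M (Set.range r') := by
    unfold hat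
    rw [bc_sup, bc_span, Submodule.map_sup, Submodule.map_span, sup_assoc, ← Set.range_comp,
      ← Set.range_comp, hr']
    rfl
  rw [h1]
  have hfin' : (Function.support fun w : Place κ M => ramIdx K w.1 * δ (below K w)).Finite := by
    refine hfin.subset fun w hw => ?_
    rw [Function.mem_support] at hw ⊢
    exact_mod_cast hw
  refine (ht_sup_rows_le hM (τ := fun w : Place κ M => ramIdx K w.1 * δ (below K w)) hfin'
    fun w i => ?_).trans (le_of_eq ?_)
  · obtain ⟨u, hu, β, h2, h3⟩ := hr (below K w) i
    by_cases hw : below K w ∈ S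
    · refine ⟨jh M σ S (fun s => algebraMap K M (u s)) -
        algebraMap K M β • hv c f ⟨below K w, hw⟩,
        Submodule.sub_mem _ (jh_mem_hat c f (am_mem_bc hu))
          (Submodule.smul_mem _ _ (V0_le_hat c f _ (Submodule.subset_span ⟨_, rfl⟩))),
        fun s => ?_⟩
      rcases s with s | s
      · have h4 : r' i (Sum.inl s) - (jh M σ S (fun s => algebraMap K M (u s)) -
            algebraMap K M β • hv c f ⟨below K w, hw⟩) (Sum.inl s) =
            algebraMap K M (r i s - u s - algebraMap κ K (cc (below K w) s) * β) := by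
          rw [hr', hc]
          simp only [Pi.sub_apply, jh_inl, Pi.smul_apply, hv_inl, smul_eq_mul, map_sub, map_mul]
          rw [← IsScalarTower.algebraMap_apply]
          ring
        rw [h4]
        refine (below_le (h2 s)).trans (le_of_eq ?_)
        push_cast
        rfl
      · have h4 : r' i (Sum.inr s) - (jh M σ S (fun s => algebraMap K M (u s)) -
            algebraMap K M β • hv c f ⟨below K w, hw⟩) (Sum.inr s) =
            algebraMap K M β * (Pi.single ⟨below K w, hw⟩ (f ⟨below K w, hw⟩) : S → M) s := by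
          rw [hr']
          simp only [Pi.sub_apply, jh_inr, Pi.smul_apply, hv_inr, smul_eq_mul]
          ring
        rw [h4]
        by_cases hs : s = ⟨below K w, hw⟩
        · subst hs
          rw [Pi.single_eq_same, map_mul]
          have h5 := hfw ⟨below K w, hw⟩ w rfl
          have h6 : w.1 (algebraMap K M β) ≤
              exp ((ramIdx K w.1 : ℤ) * ((δ (below K w) : ℤ) + ρ (below K w))) :=
            below_le (h3 hw)
          refine (mul_le_mul' h6 h5).trans (le_of_eq ?_)
          rw [← exp_add]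
          congr 1
          push_cast
          ring
        · rw [Pi.single_eq_of_ne hs, mul_zero, map_zero]
          exact zero_le
    · refine ⟨jh M σ S (fun s => algebraMap K M (u s)), jh_mem_hat c f (am_mem_bc hu),
        fun s => ?_⟩
      rcases s with s | s
      · have h4 : r' i (Sum.inl s) - jh M σ S (fun s => algebraMap K M (u s)) (Sum.inl s) =
            algebraMap K M (r i s - u s - algebraMap κ K (cc (below K w) s) * β) := by
          rw [hr', hcc _ hw]
          simp
        rw [h4]
        refine (below_le (h2 s)).trans (le_of_eq ?_)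
        push_cast
        rfl
      · rw [hr']
        simp only [jh_inr, sub_zero, map_zero]
        exact zero_le
  · have h2 : ∑ᶠ w : Place κ M, ((ramIdx K w.1 * δ (below K w) : ℕ) : ℤ) =
        finrank K M * ∑ᶠ v, (δ v : ℤ) := by
      rw [← hsum]
      exact finsum_congr fun w => by push_cast; rfl
    rw [h2]

end

end Pool.Agent.Lib.MP_44a246_ntVT
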