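import Mathlib
import Pool.Agent.Lib.MP_44a246_ntVT.VC4c

/-!
# The slope inequality with constant vectors modulo the ramification

`G` a matrix, `B` a space, `U₁ = G B`, `U = U₁ + additional rows`; `T s` matrices, `W = U + rows of T`.
At the places of a finite set `S` the matrices and rows are bounded only modulo the constant vector
`cc v`: the total cost of the ramification `ρ` is `∑ v ∈ S, ρ v` (and not
`finrank W * ∑ v ∈ S, ρ v`).
-/

namespace Pool.Agent.Lib.MP_44a246_ntVT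

open Pool.Agent.Lib.MP_44a246_nt
open Pool.Agent.Lib.MP_44a246_ntL
open Pool.Agent.Lib.MP_44a246_ntS
open Pool.Agent.Lib.MP_44a246_ntF
open Pool.Agent.Lib.MP_44a246_ntO
open Pool.Agent.Lib.MP_44a246_ntA
open Pool.Agent.Lib.MP_44a246_ntSH
open Pool.Agent.Lib.MP_e52354_nt
open WithZero Module

universe u

/-- **The slope inequality with constant vectors modulo the ramification.** -/
theorem ht_W_hat {κ : Type*} {K : Type u} [Field κ] [IsAlgClosed κ] [CharZero κ] [Field K]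
    [Algebra κ K] (h : IsFF κ K) {σ E E₁ : Type*} [Fintype σ] [Fintype E] [Fintype E₁]
    (S : Finset (Place κ K)) (ρ : Place κ K → ℕ) (cc : Place κ K → σ → κ)
    (hcc : ∀ v ∉ S, cc v = 0)
    {G : Matrix σ E₁ K} {B : Submodule K (E₁ → K)} {U₁ U W : Submodule K (σ → K)}
    (hU₁ : U₁ = B.map G.mulVecLin) {k : ℕ} {r : Fin k → σ → K}
    (hU : U = U₁ ⊔ Submodule.span K (Set.range r))
    {T : σ → Matrix E E K} {Λ Λ' : Submodule K (E → K)}
    (hW : W = U ⊔ Submodule.span K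
      {u | ∃ q ∈ Λ, ∃ G ∈ orth Λ', u = fun s => ∑ J, G J * (T s).mulVec q J})
    {ξ : E → K} {t t' : ℝ} (hΛ : HasSl κ t ξ Λ)
    (hΛ' : ∀ Γ, Λ' ≤ Γ → (ht κ Λ' : ℝ) - ht κ Γ ≤ t' * ((finrank K Γ : ℝ) - finrank K Λ'))
    (hξ : ∀ F ∈ orth U, (∑ s, F s • T s).mulVec ξ ∈ Λ')
    {μ : Place κ K → ℤ} {δ : Place κ K → ℕ} (hμ : (Function.support μ).Finite)
    (hδ : (Function.support δ).Finite)
    (hG : ∀ v : Place κ K, ∃ (Gv : Matrix σ E₁ K) (α : E₁ → K),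
      (∀ s i, v.1 (Gv s i) ≤ exp (μ v)) ∧ (v ∈ S → ∀ i, v.1 (α i) ≤ exp (μ v + ρ v)) ∧
        ∀ b ∈ B, ∀ s, Gv.mulVec b s + algebraMap κ K (cc v s) * ∑ i, α i * b i = G.mulVec b s)
    (hr : ∀ (v : Place κ K) i, ∃ u ∈ U₁, ∃ β : K,
      (∀ s, v.1 (r i s - u s - algebraMap κ K (cc v s) * β) ≤ exp (δ v : ℤ)) ∧
        (v ∈ S → v.1 β ≤ exp ((δ v : ℤ) + ρ v)))
    (hT : ∀ v : Place κ K, ∃ (Tv : σ → Matrix E E K) (T0 : Matrix E E K),
      (∀ s J J', v.1 (Tv s J J') ≤ exp (δ v : ℤ)) ∧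
      (v ∈ S → ∀ J J', v.1 (T0 J J') ≤ exp ((δ v : ℤ) + ρ v)) ∧
        ∀ s, ∀ b ∈ Λ, (Tv s).mulVec b + algebraMap κ K (cc v s) • T0.mulVec b -
          (T s).mulVec b ∈ Λ') :
    (ht κ W : ℝ) + (t - t') * ((finrank K W : ℝ) - finrank K U) ≤
      ht κ B + finrank K U₁ * ((∑ᶠ v, μ v : ℤ) : ℝ) + k * ((∑ᶠ v, (δ v : ℤ) : ℤ) : ℝ) +
        ∑ v ∈ S, (ρ v : ℝ) +
        ((finrank K W : ℝ) - finrank K U) * ((∑ᶠ v, (δ v : ℤ) : ℤ) : ℝ) := by
  classical
  have hδ' : (Function.support fun v => (δ v : ℤ)).Finite :=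
    hδ.subset fun v hv => by
      rw [Function.mem_support] at hv ⊢
      exact fun h0 => hv (by rw [h0, Nat.cast_zero])
  obtain ⟨X, hX⟩ : ∃ X : ℝ, X = (ht κ W : ℝ) + (t - t') * ((finrank K W : ℝ) - finrank K U) :=
    ⟨_, rfl⟩
  obtain ⟨Y, hY⟩ : ∃ Y : ℝ, Y = ht κ B + finrank K U₁ * ((∑ᶠ v, μ v : ℤ) : ℝ) +
      k * ((∑ᶠ v, (δ v : ℤ) : ℤ) : ℝ) + ∑ v ∈ S, (ρ v : ℝ) +
      ((finrank K W : ℝ) - finrank K U) * ((∑ᶠ v, (δ v : ℤ) : ℤ) : ℝ) := ⟨_, rfl⟩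
  rw [← hX, ← hY]
  -- with an error `card S * ε`
  have key : ∀ ε : ℝ, 0 < ε → X ≤ Y + S.card * ε := by
    intro ε hε
    obtain ⟨M, iF, iA, iB, iS, iD, iG, f, hf, hfw, hfh⟩ := exists_roots h S ρ hε
    have hM : IsFF κ M := h.of_finite
    have h1 := ht_hat_U h hcc hf hfw hU₁ hμ hG
    have h1' := ht_hat_rows (M := M) h hcc hfw hδ hr
    rw [← hU] at h1'
    have h2 := ht_hat_W h hcc hf hfw hW hΛ hΛ' hξ hδ' hT
    have h3 := ht_le_hat hM (fun (s : S) i => algebraMap κ M (cc s.1 i)) hf (bc M W)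
    rw [ht_bc h] at h3
    have hN : (0 : ℝ) < finrank K M := by exact_mod_cast Module.finrank_pos (R := K) (M := M)
    have h4 : ((∑ s, height κ ![1, f s] : ℤ) : ℝ) ≤
        finrank K M * (∑ v ∈ S, (ρ v : ℝ) + S.card * ε) := by
      push_cast
      calc ∑ s, (height κ ![1, f s] : ℝ) ≤ ∑ s : S, (finrank K M : ℝ) * (ρ s.1 + ε) :=
            Finset.sum_le_sum fun s _ => hfh s
        _ = finrank K M * (∑ v ∈ S, (ρ v : ℝ) + S.card * ε) := by
          rw [← Finset.mul_sum, Finset.sum_add_distrib, Finset.sum_const, Finset.card_univ,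
            Fintype.card_coe, nsmul_eq_mul, Finset.sum_coe_sort S fun v => (ρ v : ℝ)]
    have h1R : (ht κ (hat (fun (s : S) i => algebraMap κ M (cc s.1 i)) f (bc M U)) : ℝ) ≤
        finrank K M * ht κ B + ((∑ s, height κ ![1, f s] : ℤ) : ℝ) +
          finrank K U₁ * (finrank K M * ((∑ᶠ v, μ v : ℤ) : ℝ)) +
          k * (finrank K M * ((∑ᶠ v, (δ v : ℤ) : ℤ) : ℝ)) := by
      exact_mod_cast h1'.trans (add_le_add_left h1 _)
    have h3R : (finrank K M : ℝ) * ht κ W ≤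
        ht κ (hat (fun (s : S) i => algebraMap κ M (cc s.1 i)) f (bc M W)) := by
      exact_mod_cast h3
    have h5 : (finrank K M : ℝ) * X ≤ finrank K M * (Y + S.card * ε) := by
      rw [hX, hY]
      have h6 : (finrank K M : ℝ) * (ht κ B + finrank K U₁ * ((∑ᶠ v, μ v : ℤ) : ℝ) +
          k * ((∑ᶠ v, (δ v : ℤ) : ℤ) : ℝ) + ∑ v ∈ S, (ρ v : ℝ) +
          ((finrank K W : ℝ) - finrank K U) * ((∑ᶠ v, (δ v : ℤ) : ℤ) : ℝ) +
            S.card * ε) = finrank K M * ht κ B +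
          finrank K M * (∑ v ∈ S, (ρ v : ℝ) + S.card * ε) +
          finrank K U₁ * (finrank K M * ((∑ᶠ v, μ v : ℤ) : ℝ)) +
          k * (finrank K M * ((∑ᶠ v, (δ v : ℤ) : ℤ) : ℝ)) +
          ((finrank K W : ℝ) - finrank K U) *
            (finrank K M * ((∑ᶠ v, (δ v : ℤ) : ℤ) : ℝ)) := by ring
      rw [h6]
      have h7 : ((finrank K W : ℝ) - finrank K U) *
          (finrank K M * (((∑ᶠ v, (δ v : ℤ) : ℤ) : ℝ) - (t - t'))) =
          ((finrank K W : ℝ) - finrank K U) * (finrank K M * ((∑ᶠ v, (δ v : ℤ) : ℤ) : ℝ)) -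
            finrank K M * ((t - t') * ((finrank K W : ℝ) - finrank K U)) := by ring
      rw [h7] at h2
      rw [mul_add]
      linarith
    exact le_of_mul_le_mul_left h5 hN
  refine le_of_forall_pos_le_add fun ε hε => ?_
  have h1 := key (ε / (S.card + 1)) (by positivity)
  refine h1.trans (add_le_add_right ?_ Y)
  rw [mul_div_assoc', div_le_iff₀ (by positivity)]
  have : (0 : ℝ) ≤ S.card := Nat.cast_nonneg _
  nlinarith

end Pool.Agent.Lib.MP_44a246_ntVT
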