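import Mathlib
import Pool.Agent.Lib.MP_44a246_ntSH.RL3
import Pool.Agent.Lib.MP_44a246_ntSH.RV2
import Pool.Agent.Lib.MP_44a246_ntVT.VT00

/-!
# The linear data of the rows modulo the constant vectors
-/

namespace Pool.Agent.Lib.MP_44a246_ntVT

open Pool.Agent.Lib.MP_44a246_nt
open Pool.Agent.Lib.MP_44a246_ntL
open Pool.Agent.Lib.MP_44a246_ntS
open Pool.Agent.Lib.MP_44a246_ntF
open Pool.Agent.Lib.MP_44a246_ntO
open Pool.Agent.Lib.MP_44a246_ntA
open Pool.Agent.Lib.MP_44a246_ntSH
open Pool.Agent.Lib.MP_44a246_ntK (piece mem_piece ht_piece)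
open Pool.Agent.Lib.MP_e52354_nt
open WithZero Module

universe u

/-- **The data for the rows, with the ramification.** As `RowU`, where `U` is spanned by the rows
of the point and by `c` additional rows `r k`; at the place `w` the derivation `D s - cc w s • dw w`
has poles of order at most `δ' w`, where `cc w s` is a constant, and the derivation `dw w` has
poles of order at most `δ' w + ρ w` if `w ∈ S`. Modulo the rows of the point, the additional row
`r k` is at `w` the sum of a vector of size at most `exp (δ' w)` and of `β` times the constant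
vector `cc w`. -/
structure RowT (κ : Type*) {L : Type*} [Field κ] [Field L] [Algebra κ L] (n c : ℕ)
    (σ : Type*) [Fintype σ] extends RowU κ (L := L) n c σ where
  δ' : Place κ L → ℕ
  hδ' : (Function.support δ').Finite
  S : Finset (Place κ L)
  ρ : Place κ L → ℕ
  cc : Place κ L → σ → κ
  dw : Place κ L → Derivation ℤ L L
  hcc : ∀ w ∉ S, cc w = 0
  hDc : ∀ (w : Place κ L) s y, w.1 y ≤ 1 →
    w.1 (D s y - algebraMap κ L (cc w s) * dw w y) ≤ exp (δ' w : ℤ)
  hdw : ∀ w ∈ S, ∀ y, w.1 y ≤ 1 → w.1 (dw w y) ≤ exp ((δ' w : ℤ) + ρ w)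
  hA' : ∀ (w : Place κ L) s i j, w.1 (A s i j) ≤ exp (δ' w : ℤ)
  r : Fin c → σ → L
  hU1 : U = U1 x D A ⊔ Submodule.span L (Set.range r)
  hrow : ∀ (w : Place κ L) k, ∃ u ∈ U1 x D A, ∃ β : L,
    (∀ s, w.1 (r k s - u s - algebraMap κ L (cc w s) * β) ≤ exp (δ' w : ℤ)) ∧
      (w ∈ S → w.1 β ≤ exp ((δ' w : ℤ) + ρ w))

/-- a matrix with given images of a family with pivots -/
theorem exists_mat_piv {L : Type*} [Field L] (v : Valuation L ℤᵐ⁰) {E : Type*} [Fintype E] {r : ℕ}
    {q w : Fin r → E → L} {p : Fin r → E} (hp : ∀ i j, q i (p j) = if i = j then 1 else 0) :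
    ∃ T : Matrix E E L, (∀ τ : ℤ, (∀ i J, v (w i J) ≤ exp τ) → ∀ J J', v (T J J') ≤ exp τ) ∧
      ∀ c : Fin r → L, T.mulVec (∑ i, c i • q i) = ∑ i, c i • w i := by
  classical
  refine ⟨Matrix.of fun J K => ∑ i, if K = p i then w i J else 0, ?_, ?_⟩
  · intro τ hτ J K
    rw [Matrix.of_apply]
    refine v.map_sum_le fun i _ => ?_
    by_cases h1 : K = p i
    · rw [if_pos h1]
      exact hτ i J
    · rw [if_neg h1, map_zero]
      exact zero_le
  · intro c
    funext J
    rw [Finset.sum_apply]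
    unfold Matrix.mulVec dotProduct
    have h1 : ∀ K, (Matrix.of fun J K => ∑ i, if K = p i then w i J else 0) J K *
        (∑ i, c i • q i) K = ∑ i, if K = p i then w i J * (∑ j, c j * q j K) else 0 := by
      intro K
      rw [Matrix.of_apply, Finset.sum_mul, Finset.sum_apply]
      refine Finset.sum_congr rfl fun i _ => ?_
      simp only [Pi.smul_apply, smul_eq_mul]
      split_ifs
      · rfl
      · rw [zero_mul]
    rw [Finset.sum_congr rfl fun K _ => h1 K, Finset.sum_comm]
    refine Finset.sum_congr rfl fun i _ => ?_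
    rw [Finset.sum_ite_eq' Finset.univ (p i), if_pos (Finset.mem_univ _)]
    have h2 : ∑ j, c j * q j (p i) = c i := by
      rw [Finset.sum_eq_single i]
      · rw [hp, if_pos rfl, mul_one]
      · intro j _ hj
        rw [hp, if_neg hj, mul_zero]
      · intro h
        exact absurd (Finset.mem_univ _) h
    rw [h2, Pi.smul_apply, smul_eq_mul, mul_comm]

theorem gla_boundT {L : Type*} [Field L] (v : Valuation L ℤᵐ⁰) {n e : ℕ} {D : ℤ}
    {B : Matrix (Fin n) (Fin n) L} (hB : ∀ i j, v (B i j) ≤ exp D)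
    {q : EX n (e + 1) → L} (hq : ∀ J, v (q J) ≤ 1) (J : EX n (e + 1)) :
    v (gla B q J) ≤ exp D := by
  rw [gla_apply]
  refine v.map_sum_le fun i _ => ?_
  rw [map_mul]
  have h1 : v (B.mulVec (cm (dn i J) q) i) ≤ exp D := by
    unfold Matrix.mulVec dotProduct
    refine v.map_sum_le fun l _ => ?_
    rw [map_mul, cm_apply]
    calc v (B i l) * v (q (up l (dn i J))) ≤ exp D * 1 := mul_le_mul' (hB i l) (hq _)
      _ = _ := mul_one _
  calc v ((J.1 i : ℕ) : L) * v (B.mulVec (cm (dn i J) q) i) ≤ 1 * exp D :=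
        mul_le_mul' (v_nat v _) h1
    _ = _ := one_mul _

namespace RowT

variable {κ : Type*} {K : Type u} [Field κ] [IsAlgClosed κ] [CharZero κ] [Field K] [Algebra κ K]
  {n c e : ℕ} {σ : Type*} [Fintype σ] (X : RowT κ (L := K) n c σ)

/-- the total size of the poles without the ramification -/
noncomputable def Δ' : ℤ := ∑ᶠ w, (X.δ' w : ℤ)

/-- the ramification -/
def R : ℤ := ∑ w ∈ X.S, (X.ρ w : ℤ)

omit [IsAlgClosed κ] [CharZero κ] in
theorem Δ'_nonneg : 0 ≤ X.Δ' := finsum_nonneg fun _ => Int.natCast_nonneg _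

/-- **The linear data of the rows.** Proof: as `RowU.exists_lin` (RL3). For the local part: with a
reduced basis `q'` of `Λ` at `v` (`exists_red`) and its pivots (as in the proof of
`RowU.exists_Tw`, RV4) let `Tv s` be the matrix which maps `q' i` to
`dd (X.D s) (X.A s) (q' i) - cc v s • ∂ (q' i)` and `T0` the matrix which maps `q' i` to
`∂ (q' i)`, where `∂ = X.dw v` acts on the coordinates; both kill the non-pivot coordinates. -/
theorem exists_linT {Λ Λ' : Submodule K (EX (n + 1) (e + 1) → K)}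
    (hle : Λ ≤ Λ') (hx : xm (e + 1) X.x ∈ Λ) :
    ∃ T : σ → Matrix (EX (n + 1) (e + 1)) (EX (n + 1) (e + 1)) K,
      X.W Λ Λ' = X.U ⊔ Submodule.span K
        {u | ∃ q ∈ Λ, ∃ G ∈ orth Λ', u = fun s => ∑ J, G J * (T s).mulVec q J} ∧
      (∀ F ∈ orth X.U, (∑ s, F s • T s).mulVec (xm (e + 1) X.x) ∈ Λ') ∧
      ∀ v : Place κ K, ∃ (Tv : σ → Matrix (EX (n + 1) (e + 1)) (EX (n + 1) (e + 1)) K)
        (T0 : Matrix (EX (n + 1) (e + 1)) (EX (n + 1) (e + 1)) K),
        (∀ s J J', v.1 (Tv s J J') ≤ exp (X.δ' v : ℤ)) ∧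
        (v ∈ X.S → ∀ J J', v.1 (T0 J J') ≤ exp ((X.δ' v : ℤ) + X.ρ v)) ∧
          ∀ s, ∀ b ∈ Λ, (Tv s).mulVec b + algebraMap κ K (X.cc v s) • T0.mulVec b -
            (T s).mulVec b ∈ Λ' := by
  classical
  obtain ⟨q, hq, hqs⟩ := SB2b_basis Λ
  have hqΛ : ∀ i, q i ∈ Λ := fun i => by
    have h1 : q i ∈ Submodule.span K (Set.range q) := Submodule.subset_span ⟨i, rfl⟩
    rwa [hqs] at h1
  have hcomb : ∀ b ∈ Λ, ∃ c : Fin (finrank K Λ) → K, ∑ i, c i • q i = b := by
    intro b hb
    rw [← hqs] at hb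
    exact (Submodule.mem_span_range_iff_exists_fun K).1 hb
  have hT : ∀ s, ∃ T : (EX (n + 1) (e + 1) → K) →ₗ[K] (EX (n + 1) (e + 1) → K),
      ∀ i, T (q i) = dd (X.D s) (X.A s) (q i) := by
    intro s
    obtain ⟨T, hT⟩ := LinearMap.exists_extend
      ((Finsupp.linearCombination K fun i => dd (X.D s) (X.A s) (q i)).comp
        (hq.repr : Submodule.span K (Set.range q) →ₗ[K] (Fin (finrank K Λ) →₀ K)))
    refine ⟨T, fun i => ?_⟩
    have h1 : q i ∈ Submodule.span K (Set.range q) := Submodule.subset_span ⟨i, rfl⟩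
    have h2 := congrArg (fun f => f ⟨q i, h1⟩) hT
    simp only [LinearMap.comp_apply, Submodule.subtype_apply] at h2
    rw [h2]
    have h3 : (hq.repr : Submodule.span K (Set.range q) →ₗ[K] (Fin (finrank K Λ) →₀ K))
        ⟨q i, h1⟩ = Finsupp.single i 1 := hq.repr_eq_single i ⟨q i, h1⟩ rfl
    rw [h3, Finsupp.linearCombination_single, one_smul]
  choose T₀ hT₀ using hT
  obtain ⟨T, hTd⟩ : ∃ T : σ → Matrix (EX (n + 1) (e + 1)) (EX (n + 1) (e + 1)) K,
      ∀ s b, (T s).mulVec b = T₀ s b :=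
    ⟨fun s => LinearMap.toMatrix' (T₀ s), fun s b => LinearMap.toMatrix'_mulVec _ _⟩
  have h1 : ∀ s, ∀ b ∈ Λ, dd (X.D s) (X.A s) b - (T s).mulVec b ∈ Λ := by
    intro s b hb
    obtain ⟨c, rfl⟩ := hcomb b hb
    rw [hTd, map_sum]
    have h2 : ∑ i, T₀ s (c i • q i) = ∑ i, c i • dd (X.D s) (X.A s) (q i) :=
      Finset.sum_congr rfl fun i _ => by rw [map_smul, hT₀]
    rw [h2]
    exact dd_comb _ _ _ hqΛ
  refine ⟨T, ?_, ?_, ?_⟩
  · unfold RowU.W
    congr 2
    ext u
    have h2 : ∀ b ∈ Λ, ∀ G ∈ orth Λ', X.r2 b G = fun s => ∑ J, G J * (T s).mulVec b J := by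
      intro b hb G hG
      funext s
      have h3 := hG _ (hle (h1 s b hb))
      rw [← sub_eq_zero]
      show ∑ J, G J * dd (X.D s) (X.A s) b J - ∑ J, G J * (T s).mulVec b J = 0
      rw [← Finset.sum_sub_distrib, ← h3]
      exact Finset.sum_congr rfl fun J _ => by rw [Pi.sub_apply]; ring
    constructor
    · rintro ⟨b, hb, G, hG, rfl⟩
      exact ⟨b, hb, G, hG, h2 b hb G hG⟩
    · rintro ⟨b, hb, G, hG, rfl⟩
      exact ⟨b, hb, G, hG, (h2 b hb G hG).symm⟩
  · intro F hF
    have h2 : X.dF F (xm (e + 1) X.x) ∈ Λ := by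
      have h3 := X.dF_xm_mem (e := e) (F := F) fun y hy => hF _ (X.hr y hy)
      refine (Submodule.span_le.2 ?_) h3
      rw [Set.singleton_subset_iff]
      exact hx
    have h3 : (∑ s, F s • T s).mulVec (xm (e + 1) X.x) = X.dF F (xm (e + 1) X.x) -
        ∑ s, F s • (dd (X.D s) (X.A s) (xm (e + 1) X.x) - (T s).mulVec (xm (e + 1) X.x)) := by
      funext J
      rw [Matrix.sum_mulVec, Pi.sub_apply, Finset.sum_apply, Finset.sum_apply]
      show _ = ∑ s, F s * dd (X.D s) (X.A s) (xm (e + 1) X.x) J - _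
      rw [← Finset.sum_sub_distrib]
      refine Finset.sum_congr rfl fun s _ => ?_
      rw [Matrix.smul_mulVec, Pi.smul_apply, Pi.smul_apply, Pi.sub_apply, smul_eq_mul,
        smul_eq_mul]
      ring
    rw [h3]
    refine hle (Submodule.sub_mem _ h2 (Submodule.sum_mem _ fun s _ => ?_))
    exact Submodule.smul_mem _ _ (h1 s _ hx)
  · intro v
    obtain ⟨g, p, hg, hred⟩ := exists_red v.1 hq
    obtain ⟨q', hq'⟩ : ∃ q' : Fin (finrank K Λ) → EX (n + 1) (e + 1) → K,
        q' = fun i k => ∑ j, g i j * q j k := ⟨_, rfl⟩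
    rw [← hq'] at hred
    obtain ⟨T0, hT01, hT02⟩ := exists_mat_piv v.1 (q := q')
      (w := fun i J => X.dw v (q' i J)) hred.piv
    have hTw : ∀ s, ∃ Tw : Matrix (EX (n + 1) (e + 1)) (EX (n + 1) (e + 1)) K,
        (∀ J J', v.1 (Tw J J') ≤ exp (X.δ' v : ℤ)) ∧
        ∀ c : Fin (finrank K Λ) → K, Tw.mulVec (∑ i, c i • q' i) +
          algebraMap κ K (X.cc v s) • T0.mulVec (∑ i, c i • q' i) =
          ∑ i, c i • dd (X.D s) (X.A s) (q' i) := by
      intro s
      obtain ⟨Tw, hTw1, hTw2⟩ := exists_mat_piv v.1 (q := q')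
        (w := fun i J => dd (X.D s) (X.A s) (q' i) J -
          algebraMap κ K (X.cc v s) * X.dw v (q' i J)) hred.piv
      refine ⟨Tw, hTw1 _ fun i J => ?_, fun c => ?_⟩
      · have h2 : dd (X.D s) (X.A s) (q' i) J - algebraMap κ K (X.cc v s) * X.dw v (q' i J) =
            (X.D s (q' i J) - algebraMap κ K (X.cc v s) * X.dw v (q' i J)) -
              gla (X.A s) (q' i) J := by
          unfold dd
          ring
        rw [h2]
        exact (v.1.map_sub _ _).trans (max_le (X.hDc v s _ (hred.int i J))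
          (gla_boundT v.1 (X.hA' v s) (hred.int i) J))
      · rw [hTw2, hT02, Finset.smul_sum, ← Finset.sum_add_distrib]
        refine Finset.sum_congr rfl fun i _ => ?_
        funext J
        simp only [Pi.add_apply, Pi.smul_apply, smul_eq_mul]
        ring
    choose Tv hTv1 hTv2 using hTw
    refine ⟨Tv, T0, hTv1, fun hv => hT01 _ fun i J => X.hdw v hv _ (hred.int i J),
      fun s b hb => hle ?_⟩
    have hq'j : ∀ i, q' i = ∑ j, g i j • q j := by
      intro i
      funext k
      rw [hq', Finset.sum_apply]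
      exact Finset.sum_congr rfl fun j _ => rfl
    have hq'Λ : ∀ i, q' i ∈ Λ := fun i => by
      rw [hq'j]
      exact Submodule.sum_mem _ fun j _ => Submodule.smul_mem _ _ (hqΛ j)
    obtain ⟨c, hc⟩ := hcomb b hb
    obtain ⟨c', hc'⟩ : ∃ c' : Fin (finrank K Λ) → K, ∑ i, c' i • q' i = b := by
      refine ⟨fun i => ∑ j, c j * g⁻¹ j i, ?_⟩
      rw [← hc]
      have h4 : ∀ i, (∑ j, c j * g⁻¹ j i) • q' i = ∑ k, (∑ j, c j * g⁻¹ j i * g i k) • q k := by
        intro i
        rw [hq'j, Finset.smul_sum]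
        refine Finset.sum_congr rfl fun k _ => ?_
        rw [smul_smul, Finset.sum_mul]
      rw [Finset.sum_congr rfl fun i _ => h4 i, Finset.sum_comm]
      refine Finset.sum_congr rfl fun k _ => ?_
      rw [← Finset.sum_smul]
      congr 1
      rw [Finset.sum_comm]
      have h5 : ∀ j, ∑ i, c j * g⁻¹ j i * g i k = c j * (g⁻¹ * g) j k := by
        intro j
        rw [Matrix.mul_apply, Finset.mul_sum]
        exact Finset.sum_congr rfl fun i _ => by ring
      rw [Finset.sum_congr rfl fun j _ => h5 j,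
        Matrix.nonsing_inv_mul g (isUnit_iff_ne_zero.2 hg)]
      simp [Matrix.one_apply]
    have h4 : (Tv s).mulVec b + algebraMap κ K (X.cc v s) • T0.mulVec b -
        dd (X.D s) (X.A s) b ∈ Λ := by
      rw [← hc', hTv2, ← neg_sub]
      exact Submodule.neg_mem _ (dd_comb _ _ _ hq'Λ)
    have h5 : (Tv s).mulVec b + algebraMap κ K (X.cc v s) • T0.mulVec b - (T s).mulVec b =
        ((Tv s).mulVec b + algebraMap κ K (X.cc v s) • T0.mulVec b - dd (X.D s) (X.A s) b) +
        (dd (X.D s) (X.A s) b - (T s).mulVec b) := by abel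
    rw [h5]
    exact Submodule.add_mem _ h4 (h1 s b hb)

/-- the linear data of the rows of the point. Proof: as `ht_U1_le` (RV2), with the derivations
`D s - cc v s • ∂` and `∂`, `∂ = X.dw v`. -/
theorem exists_linU :
    ∃ G : Matrix σ (Fin (n + 1)) K,
      U1 X.x X.D X.A = (orth (Submodule.span K {X.x})).map G.mulVecLin ∧
      ∀ v : Place κ K, ∃ (Gv : Matrix σ (Fin (n + 1)) K) (α : Fin (n + 1) → K),
        (∀ s i, v.1 (Gv s i) ≤ exp (log (vmax v.1 X.x) + X.δ' v)) ∧
        (v ∈ X.S → ∀ i, v.1 (α i) ≤ exp (log (vmax v.1 X.x) + X.δ' v + X.ρ v)) ∧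
          ∀ b ∈ orth (Submodule.span K {X.x}), ∀ s,
            Gv.mulVec b s + algebraMap κ K (X.cc v s) * ∑ i, α i * b i = G.mulVec b s := by
  classical
  refine ⟨Matrix.of fun s i => dv (X.D s) (X.A s) X.x i, ?_, ?_⟩
  · rw [U1]
    congr 1
    ext y s
    simp only [LinearMap.comp_apply, Matrix.mulVecLin_apply, r1L_apply, Matrix.mulVec, dotProduct,
      Matrix.of_apply]
    exact Finset.sum_congr rfl fun i _ => mul_comm _ _
  · intro v
    obtain ⟨j, hj0, hjv, hjm⟩ := exists_vmax v.1 X.hx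
    obtain ⟨q, hq⟩ : ∃ q : Fin (n + 1) → K, q = fun l => X.x l / X.x j := ⟨_, rfl⟩
    have hxq : X.x = X.x j • q := by
      funext l
      rw [Pi.smul_apply, smul_eq_mul, hq]
      simp only
      rw [mul_div_cancel₀ _ hj0]
    have hq1 : ∀ l, v.1 (q l) ≤ 1 := by
      intro l
      rw [hq]
      simp only
      rw [map_div₀]
      exact div_le_one_of_le₀ (hjm l) zero_le
    have hv0 : vmax v.1 X.x ≠ 0 := by
      rw [Ne, vmax_eq_zero_iff]
      exact X.hx
    refine ⟨Matrix.of fun s i => X.x j * (dv (X.D s) (X.A s) q i -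
      algebraMap κ K (X.cc v s) * X.dw v (q i)), fun i => X.x j * X.dw v (q i), ?_, ?_, ?_⟩
    · intro s i
      have h1 : v.1 (dv (X.D s) (X.A s) q i -
          algebraMap κ K (X.cc v s) * X.dw v (q i)) ≤ exp (X.δ' v : ℤ) := by
        have h2 : dv (X.D s) (X.A s) q i - algebraMap κ K (X.cc v s) * X.dw v (q i) =
            (X.D s (q i) - algebraMap κ K (X.cc v s) * X.dw v (q i)) -
              (X.A s).mulVec q i := by
          unfold dv
          ring
        rw [h2]
        refine (v.1.map_sub _ _).trans (max_le (X.hDc v s _ (hq1 i)) ?_)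
        unfold Matrix.mulVec dotProduct
        refine v.1.map_sum_le fun l _ => ?_
        rw [map_mul]
        calc v.1 (X.A s i l) * v.1 (q l) ≤ exp (X.δ' v : ℤ) * 1 :=
              mul_le_mul' (X.hA' v s i l) (hq1 l)
          _ = _ := mul_one _
      simp only [Matrix.of_apply]
      rw [map_mul, exp_add, exp_log hv0, hjv]
      exact mul_le_mul' le_rfl h1
    · intro hv i
      simp only
      rw [map_mul, add_assoc, exp_add, exp_log hv0, hjv]
      exact mul_le_mul' le_rfl (X.hdw v hv _ (hq1 i))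
    · intro b hb s
      have hb' := mem_orth_single.1 hb
      unfold Matrix.mulVec dotProduct
      simp only [Matrix.of_apply]
      have h1 : ∀ i, dv (X.D s) (X.A s) X.x i =
          X.x j * dv (X.D s) (X.A s) q i + X.D s (X.x j) * q i := by
        intro i
        have h2 : (X.A s).mulVec X.x i = X.x j * (X.A s).mulVec q i := by
          conv_lhs => rw [hxq]
          rw [Matrix.mulVec_smul, Pi.smul_apply, smul_eq_mul]
        have h3 : X.D s (X.x i) = X.x j * X.D s (q i) + q i * X.D s (X.x j) := by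
          have h4 : X.x i = X.x j * q i := by
            conv_lhs => rw [hxq]
            rfl
          rw [h4, Derivation.leibniz, smul_eq_mul, smul_eq_mul]
        unfold dv
        rw [h2, h3]
        ring
      have h4 : ∑ i, b i * q i = 0 := by
        have h5 : X.x j * ∑ i, b i * q i = 0 := by
          rw [Finset.mul_sum, ← hb']
          refine Finset.sum_congr rfl fun i _ => ?_
          have h6 : X.x i = X.x j * q i := by
            conv_lhs => rw [hxq]
            rfl
          rw [h6]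
          ring
        exact (mul_eq_zero.1 h5).resolve_left hj0
      have h5 : ∑ i, dv (X.D s) (X.A s) X.x i * b i =
          ∑ i, X.x j * dv (X.D s) (X.A s) q i * b i := by
        have h6 : ∑ i, dv (X.D s) (X.A s) X.x i * b i =
            ∑ i, X.x j * dv (X.D s) (X.A s) q i * b i + X.D s (X.x j) * ∑ i, b i * q i := by
          rw [Finset.mul_sum, ← Finset.sum_add_distrib]
          refine Finset.sum_congr rfl fun i _ => ?_
          rw [h1 i]
          ring
        rw [h6, h4, mul_zero, add_zero]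
      rw [h5, Finset.mul_sum, ← Finset.sum_add_distrib]
      refine Finset.sum_congr rfl fun i _ => ?_
      ring

end RowT

end Pool.Agent.Lib.MP_44a246_ntVT
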