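import Mathlib
import Pool.Agent.Lib.MP_44a246_ntSH.RL3
import Pool.Agent.Lib.MP_44a246_ntSH.RV2
import Pool.Agent.Lib.MP_44a246_ntVT.VT00
import Pool.Agent.Lib.MP_44a246_ntVT.VC4
import Pool.Agent.Lib.MP_44a246_ntVT.VC5a

/-!
# The rows with constant vectors modulo the ramification (version 2: with additional rows)
-/

namespace Pool.Agent.Lib.MP_44a246_ntVT

open Pool.Agent.Lib.MP_44a246_nt
open Pool.Agent.Lib.MP_44a246_ntL
open Pool.Agent.Lib.MP_44a246_ntS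
open Pool.Agent.Lib.MP_44a246_ntF
open Pool.Agent.Lib.MP_44a246_ntO
open Pool.Agent.Lib.MP_44a246_ntA
open Pool.Agent.Lib.MP_44a246_ntSH
open Pool.Agent.Lib.MP_44a246_ntK (piece mem_piece ht_piece)
open Pool.Agent.Lib.MP_e52354_nt
open WithZero Module

universe u

namespace RowT

variable {κ : Type*} {K : Type u} [Field κ] [IsAlgClosed κ] [CharZero κ] [Field K] [Algebra κ K]
  {n c e : ℕ} {σ : Type*} [Fintype σ] (X : RowT κ (L := K) n c σ)

/-- **(3a) with the ramification.** Proof: `ht_W_hat` (VC4) with `exists_linT`, `exists_linU`,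
`X.hrow`; `ht B = height x` for `B = orth (span {x})` (`ht_orth`, `ht_single`),
`finrank U1 ≤ n` (`finrank_U1_le`). -/
theorem ht_W_le_T (h : IsFF κ K) {t t' : ℝ} {Λ Λ' : Submodule K (EX (n + 1) (e + 1) → K)}
    (hΛ : HasSl κ t (xm (e + 1) X.x) Λ) (hle : Λ ≤ Λ')
    (hΛ' : ∀ Γ, Λ' ≤ Γ → (ht κ Λ' : ℝ) - ht κ Γ ≤ t' * ((finrank K Γ : ℝ) - finrank K Λ')) :
    (ht κ (X.W Λ Λ') : ℝ) + (t - t') * ((finrank K (X.W Λ Λ') : ℝ) - finrank K X.U) ≤
      (n + 1) * height κ X.x + (n + c) * X.Δ' + X.R +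
        ((finrank K (X.W Λ Λ') : ℝ) - finrank K X.U) * X.Δ' := by
  classical
  have hμf : (Function.support fun v : Place κ K => (X.δ' v : ℤ)).Finite :=
    X.hδ'.subset fun w hw => by
      rw [Function.mem_support] at hw ⊢
      exact fun h => hw (by rw [h, Nat.cast_zero])
  obtain ⟨μ, hμ⟩ : ∃ μ : Place κ K → ℤ, μ = fun v => log (vmax v.1 X.x) + X.δ' v := ⟨_, rfl⟩
  have hμfin : (Function.support μ).Finite := by
    rw [hμ]
    exact ((h.vmax_support X.hx).union hμf).subset (Function.support_add _ _)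
  obtain ⟨G, hG1, hG2⟩ := X.exists_linU
  obtain ⟨T, hW, hξ, hT⟩ := X.exists_linT hle hΛ.mem
  have key := ht_W_hat h X.S X.ρ X.cc X.hcc (U := X.U) hG1 X.hU1 hW hΛ hΛ' hξ hμfin X.hδ'
    (fun v => by
      obtain ⟨Gv, α, h1, h2, h3⟩ := hG2 v
      refine ⟨Gv, α, fun s i => ?_, fun hv i => ?_, h3⟩
      · rw [hμ]
        exact h1 s i
      · rw [hμ]
        exact h2 hv i) X.hrow hT
  have hsum : ∑ᶠ v, μ v = height κ X.x + X.Δ' := by
    rw [hμ, finsum_add_distrib (h.vmax_support X.hx) hμf]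
    rfl
  rw [hsum, ht_orth h, ht_single h X.hx] at key
  have e2 : (∑ v ∈ X.S, (X.ρ v : ℝ)) = X.R := by
    unfold RowT.R
    push_cast
    rfl
  have e3 : ((∑ᶠ v, (X.δ' v : ℤ) : ℤ) : ℝ) = X.Δ' := rfl
  rw [e2, e3] at key
  push_cast at key
  have h2 : (finrank K (U1 X.x X.D X.A) : ℝ) ≤ n := by
    exact_mod_cast finrank_U1_le X.hx X.D X.A
  have hh : (0 : ℝ) ≤ height κ X.x := by exact_mod_cast h.height_nonneg X.hx
  have hΔ : (0 : ℝ) ≤ X.Δ' := by exact_mod_cast X.Δ'_nonneg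
  have h3 := mul_le_mul_of_nonneg_right h2 (add_nonneg hh hΔ)
  linarith

end RowT

/-- **The rows for `p` blocks with the ramification.** Proof: as `rowsP_of_data_abs` (RL3). -/
theorem rowsG_of_data {κ : Type*} {K : Type u} [Field κ] [IsAlgClosed κ] [CharZero κ]
    [Field K] [CharZero K] [Algebra κ K] (h : IsFF κ K) {n c p : ℕ} {d : Fin p → ℕ}
    (X : RowT κ (L := K) n c (Σ j : Fin p, EX (n + 1) (d j)))
    (hxm : ∀ j, xmj d X.x j ∈ X.U) :
    RowsG κ X.x d c (((∑ j, d j : ℕ) - (n : ℝ) - 1) * height κ X.x - X.R)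
      ((n + c + Fintype.card (Σ j : Fin p, EX (n + 1) (d j))) * X.Δ') := by
  intro Λ Λ' t t' ht0 hlt hΛ hle hΛ'
  have hUW : X.U ≤ X.W Λ Λ' := le_sup_left
  have h0 : finrank K X.U ≤ finrank K (X.W Λ Λ') := Submodule.finrank_mono hUW
  have hΔ : 0 ≤ X.Δ' := X.Δ'_nonneg
  obtain ⟨ν, hν⟩ := Nat.exists_eq_add_of_le h0
  have h1 := X.hU
  have h3 := X.ht_W_le_T h hΛ hle hΛ'
  obtain ⟨hp1, hp2⟩ := ht_piece h (X.W Λ Λ')
  have hνc : ν ≤ Fintype.card (Σ j : Fin p, EX (n + 1) (d j)) := by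
    have h4 := Submodule.finrank_le (X.W Λ Λ')
    rw [Module.finrank_fintype_fun_eq_card] at h4
    omega
  refine ⟨ν, piece κ (X.W Λ Λ'), fun j => xm_mem_piece κ (hUW (hxm j)), by omega, ?_, ?_⟩
  · have e1 : (finrank K (X.W Λ Λ') : ℝ) - finrank K X.U = ν := by
      rw [hν]; push_cast; ring
    rw [e1] at h3
    have h5 : (ν : ℝ) * X.Δ' ≤ Fintype.card (Σ j : Fin p, EX (n + 1) (d j)) * X.Δ' :=
      mul_le_mul_of_nonneg_right (by exact_mod_cast hνc) (by exact_mod_cast hΔ)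
    have h6 : ∑ j, ((d j : ℝ) * (height κ X.x : ℝ) - (ht κ (piece κ (X.W Λ Λ') j) : ℝ)) =
        (∑ j, (d j : ℝ)) * height κ X.x - ∑ j, (ht κ (piece κ (X.W Λ Λ') j) : ℝ) := by
      rw [Finset.sum_sub_distrib, Finset.sum_mul]
    have h7 : (∑ j, (ht κ (piece κ (X.W Λ Λ') j) : ℝ)) ≤ ht κ (X.W Λ Λ') := by
      exact_mod_cast hp1
    rw [h6]
    push_cast
    linarith
  · intro q hq
    have h4 := X.finrank_glm_le (Λ := Λ) (Λ' := Λ') hq
    have h5 := two_rank_le q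
    have h6 : finrank K (LinearMap.range (glm q)) ≤ ν + finrank K Λ' + n + c := by
      have key : ∀ a b w f : ℕ, w = b + ν → b ≤ n + c → a ≤ w + f → a ≤ ν + f + n + c := by
        intro a b w f h1 h2 h3
        omega
      exact key _ _ _ _ hν h1 h4
    rw [finrank_lam_one q]
    have h7 : 2 * ((n : ℝ) + 1) * finrank K (spn (K ∙ q)) ≤
        2 * finrank K (LinearMap.range (glm q)) +
          (finrank K (spn (K ∙ q)) : ℝ) * ((finrank K (spn (K ∙ q)) : ℝ) - 1) := by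
      rcases Nat.eq_zero_or_pos (finrank K (spn (K ∙ q))) with h8 | h8
      · rw [h8]
        push_cast
        have : (0 : ℝ) ≤ finrank K (LinearMap.range (glm q)) := Nat.cast_nonneg _
        linarith
      · have h9 : ((finrank K (spn (K ∙ q)) - 1 : ℕ) : ℝ) = (finrank K (spn (K ∙ q)) : ℝ) - 1 := by
          rw [Nat.cast_sub h8, Nat.cast_one]
        rw [← h9]
        exact_mod_cast h5
    have h6R : (finrank K (LinearMap.range (glm q)) : ℝ) ≤ ν + finrank K Λ' + n + c := by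
      exact_mod_cast h6
    linarith

end Pool.Agent.Lib.MP_44a246_ntVT
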