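import Mathlib
import Pool.Agent.Lib.MP_44a246_ntL.LSum
import Pool.Agent.Lib.MP_44a246_ntX.XP2

/-!
# Derivations over a finite extension: the polar part at the good places (version 2)

`L` a finite extension of the function field `K`, `D s` derivations of `K` with the extensions
`D' s` to `L`. At a place `w` where the `D s` have no poles, `D' s = cc s ∂ + (a derivation
without pole, also for logarithmic derivatives)`, where `∂` is the derivation with respect to a
uniformizer of `K` (which kills the constants) and `cc s` is a constant.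
-/

namespace Pool.Agent.Lib.MP_44a246_ntVT

open Pool.Agent.Lib.MP_44a246_nt
open Pool.Agent.Lib.MP_44a246_ntL
open Pool.Agent.Lib.MP_44a246_ntX
open Pool.Agent.Lib.MP_e52354_nt
open WithZero Module

private theorem vd1_le_exp {x : ℤᵐ⁰} (h : x < 1) : x ≤ exp (-1 : ℤ) := by
  by_cases h7 : x = 0
  · rw [h7]
    exact zero_le
  · rw [← exp_log h7] at h ⊢
    rw [← exp_zero, exp_lt_exp] at h
    rw [exp_le_exp]
    omega

/-- a derivation without pole which kills an element of positive order has logarithmic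
derivatives without pole -/
private theorem vd1_log {κ L : Type*} [Field κ] [CharZero κ] [Field L] [Algebra κ L]
    (w : Place κ L) (F : Derivation ℤ L L) (hF : ∀ y, w.1 y ≤ 1 → w.1 (F y) ≤ 1) {t : L} {e : ℕ}
    (he : 1 ≤ e) (ht : w.1 t = exp (-(e : ℤ))) (hFt : F t = 0) {z : L} (hz : z ≠ 0) :
    w.1 (F z / z) ≤ 1 := by
  have ht0 : t ≠ 0 := by
    rintro rfl
    rw [map_zero] at ht
    exact exp_ne_zero ht.symm
  obtain ⟨k, hk⟩ : ∃ k : ℤ, w.1 z = exp k :=
    ⟨log (w.1 z), (exp_log ((w.1.ne_zero_iff).mpr hz)).symm⟩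
  set u := z ^ e * t ^ k with hu
  have hu1 : w.1 u = 1 := by
    rw [hu, map_mul, map_zpow₀, map_pow, hk, ht, ← exp_zsmul, ← exp_nsmul, ← exp_add, ← exp_zero]
    congr 1
    rw [nsmul_eq_mul, zsmul_eq_mul, Int.cast_id]
    ring
  have htk : t ^ k ≠ 0 := zpow_ne_zero _ ht0
  have hze : z ^ e ≠ 0 := pow_ne_zero _ hz
  have h1 : F u / u = (e : L) * (F z / z) := by
    have h2 : F u = t ^ k * ((e : L) * z ^ (e - 1) * F z) := by
      rw [hu, Derivation.leibniz, Derivation.leibniz_zpow, Derivation.leibniz_pow, hFt]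
      simp only [smul_eq_mul, zsmul_eq_mul, nsmul_eq_mul, mul_zero, zero_add]
      ring
    have h3 : z ^ e = z ^ (e - 1) * z := by
      rw [← pow_succ]
      congr 1
      omega
    have h4 : z ^ (e - 1) ≠ 0 := pow_ne_zero _ hz
    rw [h2, hu, h3]
    field_simp
  have h5 : w.1 (e : L) = 1 := by
    have h6 := w.2.2 (e : κ) (by
      rw [Nat.cast_ne_zero]
      omega)
    rwa [map_natCast] at h6
  have h7 : w.1 (F z / z) = w.1 (F u / u) := by
    rw [h1, map_mul, h5, one_mul]
  rw [h7, map_div₀, hu1, div_one]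
  exact hF u hu1.le

/-- **The polar part of derivations over a finite extension.**

Proof. Let `B (below K w) = 0`. `D₀`, `B₀` as in `exists_kder`, `D₀'` an extension of `D₀` to `L`
(`exists_extension`), `τ` as in `below_uniformizer`, `dw w = (D₀ τ)⁻¹ • D₀'`, bound by `uder_le`;
`D s τ` has value at most `1` at `below K w`, so there is a constant `cc w s` with
`|D s τ - cc w s| ≤ exp (-1)` at `below K w` (residue field `κ`), so
`|D s τ - cc w s|_w ≤ exp (- ramIdx)`. `F s := D' s - D s τ • dw w` has no pole (`tder_le`) and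
`F s τ = 0`, so `|F s z / z|_w ≤ 1` for all `z ≠ 0`: `z ^ ramIdx = τ ^ m * u` with `|u|_w = 1`,
`ramIdx * F s z / z = F s u / u`. `|dw w z / z| ≤ exp (ramIdx)` for all `z ≠ 0` (`log_der_bound`).
`D' s - cc s • dw w = F s + (D s τ - cc s) • dw w`.
For the other places `cc w = 0`, `dw w = 0`. -/
theorem exists_polar {κ K L : Type*} [Field κ] [IsAlgClosed κ] [CharZero κ] [Field K]
    [Algebra κ K] [Field L] [Algebra κ L] [Algebra K L] [IsScalarTower κ K L]
    [FiniteDimensional K L] (hK : IsFF κ K) {σ : Type*} {D : σ → Derivation ℤ K K}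
    {B : Place κ K → ℕ} (hB : ∀ s, PoleBound κ (D s) B) {D' : σ → Derivation ℤ L L}
    (hD' : ∀ s y, D' s (algebraMap K L y) = algebraMap K L (D s y)) :
    ∃ (cc : Place κ L → σ → κ) (dw : Place κ L → Derivation ℤ L L), ∀ w : Place κ L,
      (B (below K w) ≠ 0 → cc w = 0) ∧
      (B (below K w) = 0 →
        (∀ s y, w.1 y ≤ 1 → w.1 (D' s y - algebraMap κ L (cc w s) * dw w y) ≤ 1) ∧
        (∀ s z, z ≠ 0 → w.1 ((D' s z - algebraMap κ L (cc w s) * dw w z) / z) ≤ 1) ∧
        (∀ y, w.1 y ≤ 1 → w.1 (dw w y) ≤ exp ((ramIdx K w.1 - 1 : ℕ) : ℤ))) := by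
  classical
  have hcK : CharZero K := charZero_of_injective_algebraMap (algebraMap κ K).injective
  have hL : IsFF κ L := hK.of_finite
  obtain ⟨D₀, B₀, h0, hB₀⟩ := exists_kder hK
  obtain ⟨D₀', hD₀'⟩ := exists_extension (K := K) (L := L) (D₀.restrictScalars ℤ)
  have hD₀'' : ∀ y, D₀' (algebraMap K L y) = algebraMap K L (D₀ y) := hD₀'
  choose τ hτ hwτ using fun w : Place κ L => below_uniformizer (K := K) w
  have hτle : ∀ w : Place κ L, (below K w).1 (τ w) ≤ 1 := by
    intro w
    rw [hτ, ← exp_zero, exp_le_exp]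
    omega
  -- the constants
  have hc : ∀ (w : Place κ L) (s : σ), ∃ c : κ, B (below K w) = 0 →
      (below K w).1 (D s (τ w) - algebraMap κ K c) < 1 := by
    intro w s
    by_cases hw : B (below K w) = 0
    · have h1 : (below K w).1 (D s (τ w)) ≤ 1 := by
        refine (hB s (below K w) (τ w) (hτle w)).trans ?_
        rw [hw, Nat.cast_zero, exp_zero]
      obtain ⟨c, hc⟩ := hK.place_residue (below K w) h1
      exact ⟨c, fun _ => hc⟩
    · exact ⟨0, fun h => absurd h hw⟩
  choose c₀ hc₀ using hc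
  refine ⟨fun w => if B (below K w) = 0 then c₀ w else 0,
    fun w => if B (below K w) = 0 then (algebraMap K L (D₀ (τ w)))⁻¹ • D₀' else 0, fun w => ⟨?_, ?_⟩⟩
  · intro hw
    simp only [if_neg hw]
  · intro hw
    simp only [if_pos hw]
    have he := one_le_ramIdx (K := K) w.1 w.2.1
    set dw : Derivation ℤ L L := (algebraMap K L (D₀ (τ w)))⁻¹ • D₀' with hdw
    have hdwy : ∀ y, dw y = (algebraMap K L (D₀ (τ w)))⁻¹ * D₀' y := fun y => rfl
    have hu : ∀ y, w.1 y ≤ 1 → w.1 (dw y) ≤ exp ((ramIdx K w.1 - 1 : ℕ) : ℤ) := fun y hy =>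
      uder_le hK h0 hB₀ hD₀'' w (hτ w) (hwτ w) hy
    have hc4 : ∀ s, w.1 (algebraMap K L (D s (τ w) - algebraMap κ K (c₀ w s))) ≤
        exp (-(ramIdx K w.1 : ℤ)) := by
      intro s
      rw [below_pow]
      calc (below K w).1 (D s (τ w) - algebraMap κ K (c₀ w s)) ^ ramIdx K w.1 ≤
            exp (-1 : ℤ) ^ ramIdx K w.1 := pow_le_pow_left' (vd1_le_exp (hc₀ w s hw)) _
        _ = exp (-(ramIdx K w.1 : ℤ)) := by
            rw [← exp_nsmul, nsmul_eq_mul]
            congr 1
            ring
    -- the part which kills the uniformizer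
    have hF : ∀ s y, w.1 y ≤ 1 →
        w.1 ((D' s - algebraMap K L (D s (τ w)) • dw) y) ≤ 1 := by
      intro s y hy
      have h1 := tder_le hK h0 hB₀ hD₀'' (hB s) (hD' s) w (hτ w) (hwτ w) hy
      rw [hw, mul_zero, Nat.cast_zero, exp_zero] at h1
      exact h1
    have hFτ : ∀ s, (D' s - algebraMap K L (D s (τ w)) • dw) (algebraMap K L (τ w)) = 0 := by
      intro s
      have hDτ := kder_ne_zero hK h0 (below K w) (hτ w)
      have hDτ' : algebraMap K L (D₀ (τ w)) ≠ 0 := (_root_.map_ne_zero _).mpr hDτ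
      have h1 : (D' s - algebraMap K L (D s (τ w)) • dw) (algebraMap K L (τ w)) =
          D' s (algebraMap K L (τ w)) - algebraMap K L (D s (τ w)) *
            ((algebraMap K L (D₀ (τ w)))⁻¹ * D₀' (algebraMap K L (τ w))) := rfl
      rw [h1, hD', hD₀'', inv_mul_cancel₀ hDτ', mul_one, sub_self]
    have hsplit : ∀ s y, D' s y - algebraMap κ L (c₀ w s) * dw y =
        (D' s - algebraMap K L (D s (τ w)) • dw) y +
          algebraMap K L (D s (τ w) - algebraMap κ K (c₀ w s)) * dw y := by
      intro s y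
      have h1 : (D' s - algebraMap K L (D s (τ w)) • dw) y =
          D' s y - algebraMap K L (D s (τ w)) * dw y := rfl
      rw [h1, map_sub, ← IsScalarTower.algebraMap_apply κ K L]
      ring
    refine ⟨?_, ?_, hu⟩
    · intro s y hy
      rw [hsplit]
      refine (Valuation.map_add _ _ _).trans (max_le (hF s y hy) ?_)
      rw [map_mul]
      calc w.1 (algebraMap K L (D s (τ w) - algebraMap κ K (c₀ w s))) * w.1 (dw y) ≤
            exp (-(ramIdx K w.1 : ℤ)) * exp ((ramIdx K w.1 - 1 : ℕ) : ℤ) :=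
              mul_le_mul' (hc4 s) (hu y hy)
        _ ≤ exp (0 : ℤ) := by
            rw [← exp_add, exp_le_exp]
            omega
        _ = 1 := exp_zero
    · intro s z hz
      rw [hsplit, add_div]
      refine (Valuation.map_add _ _ _).trans (max_le
        (vd1_log w _ (hF s) he (hwτ w) (hFτ s) hz) ?_)
      rw [mul_div_assoc, map_mul]
      calc w.1 (algebraMap K L (D s (τ w) - algebraMap κ K (c₀ w s))) * w.1 (dw z / z) ≤
            exp (-(ramIdx K w.1 : ℤ)) * exp (((ramIdx K w.1 - 1 : ℕ) : ℤ) + 1) :=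
              mul_le_mul' (hc4 s) (log_der_bound w dw hu hz).1
        _ = exp (0 : ℤ) := by
            rw [← exp_add]
            congr 1
            omega
        _ = 1 := exp_zero

end Pool.Agent.Lib.MP_44a246_ntVT
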