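import Mathlib
import Pool.Agent.Lib.MP_44a246_ntSH.RV9
import Pool.Agent.Lib.MP_44a246_ntSH.RV10
import Pool.Agent.Lib.MP_44a246_ntVT.VC5
import Pool.Agent.Lib.MP_44a246_ntVT.VD1

/-!
# The data for the rows with the ramification, from the generic coefficients (version 2)
-/

namespace Pool.Agent.Lib.MP_44a246_ntVT

open Pool.Agent.Lib.MP_44a246_nt
open Pool.Agent.Lib.MP_44a246_ntL
open Pool.Agent.Lib.MP_44a246_ntS
open Pool.Agent.Lib.MP_44a246_ntX
open Pool.Agent.Lib.MP_44a246_ntG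
open Pool.Agent.Lib.MP_44a246_ntK
open Pool.Agent.Lib.MP_44a246_ntF
open Pool.Agent.Lib.MP_44a246_ntO
open Pool.Agent.Lib.MP_44a246_ntA
open Pool.Agent.Lib.MP_44a246_ntSH
open Pool.Agent.Lib.MP_e52354_nt
open WithZero Module

universe u v w

section

variable {L : Type*} [Field L] {n p : ℕ}

/-- the corrected derivations -/
noncomputable def DG (d : Fin p → ℕ) (a : Fin p → (Fin (n + 1) →₀ ℕ) → L)
    (D : (Σ j : Fin p, EX (n + 1) (d j)) → Derivation ℤ L L)
    (B : (Σ j : Fin p, EX (n + 1) (d j)) → Matrix (Fin (n + 1)) (Fin (n + 1)) L)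
    (s : Σ j : Fin p, EX (n + 1) (d j)) : Derivation ℤ L L :=
  D s - ∑ s' : Σ j : Fin p, EX (n + 1) (d j), MJ d a (B s) s' • D s'

variable {d : Fin p → ℕ} (a : Fin p → (Fin (n + 1) →₀ ℕ) → L)
  (D : (Σ j : Fin p, EX (n + 1) (d j)) → Derivation ℤ L L)
  (B : (Σ j : Fin p, EX (n + 1) (d j)) → Matrix (Fin (n + 1)) (Fin (n + 1)) L)

theorem DG_apply (s : Σ j : Fin p, EX (n + 1) (d j)) (y : L) :
    DG d a D B s y = D s y - ∑ s' : Σ j : Fin p, EX (n + 1) (d j), MJ d a (B s) s' * D s' y := by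
  unfold DG
  rw [Derivation.sub_apply]
  congr 1
  rw [← Derivation.coeFnAddMonoidHom_apply, map_sum, Finset.sum_apply]
  rfl

/-- the action on the coefficients -/
theorem DG_coef (hDa : ∀ s : Σ j : Fin p, EX (n + 1) (d j), ∀ (j : Fin p) (I : EX (n + 1) (d j)),
      D s (a j I.1) = if s = ⟨j, I⟩ then 1 else 0)
    (s : Σ j : Fin p, EX (n + 1) (d j)) (j : Fin p) (I : EX (n + 1) (d j)) :
    DG d a D B s (a j I.1) = (if s = ⟨j, I⟩ then 1 else 0) - MJ d a (B s) ⟨j, I⟩ := by
  classical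
  rw [DG_apply, hDa, Finset.sum_congr rfl fun s' _ => by rw [hDa s']]
  simp

/-- **The row of the gradient.** -/
theorem grad_DG (hDa : ∀ s : Σ j : Fin p, EX (n + 1) (d j), ∀ (j : Fin p) (I : EX (n + 1) (d j)),
      D s (a j I.1) = if s = ⟨j, I⟩ then 1 else 0) (x : Fin (n + 1) → L)
    (s : Σ j : Fin p, EX (n + 1) (d j)) (j : Fin p) :
    ∑ i, grad (d j) (a j) x i * dv (DG d a D B s) (B s) x i =
      DG d a D B s (Fval (d j) (a j) x) - xmj d x j s := by
  classical
  have h1 := D_Fval (d j) (a j) (DG d a D B s) x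
  have h2 : ∑ I ∈ expo (Fin (n + 1)) (d j), DG d a D B s (a j I) * mon x I =
      xmj d x j s - ∑ i, grad (d j) (a j) x i * (B s).mulVec x i := by
    rw [← MJ_mon, ← Finset.sum_coe_sort (expo (Fin (n + 1)) (d j))
      (fun I => DG d a D B s (a j I) * mon x I)]
    have h3 : ∀ I : EX (n + 1) (d j), DG d a D B s (a j I.1) * mon x I.1 =
        (if s = ⟨j, I⟩ then mon x I.1 else 0) - MJ d a (B s) ⟨j, I⟩ * mon x I.1 := by
      intro I
      rw [DG_coef a D B hDa, sub_mul]
      congr 1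
      split_ifs
      · rw [one_mul]
      · rw [zero_mul]
    refine (Finset.sum_congr rfl fun I _ => h3 I).trans ?_
    rw [Finset.sum_sub_distrib]
    congr 1
    unfold xmj
    obtain ⟨j', I'⟩ := s
    by_cases hj : j' = j
    · subst hj
      rw [if_pos rfl, Finset.sum_eq_single I']
      · rw [if_pos rfl]
      · intro I _ hI
        rw [if_neg]
        intro h4
        cases h4
        exact hI rfl
      · intro h
        exact absurd (Finset.mem_univ _) h
    · rw [if_neg hj]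
      refine Finset.sum_eq_zero fun I _ => ?_
      rw [if_neg]
      intro h4
      cases h4
      exact hj rfl
  rw [h1, h2]
  unfold dv
  simp only [mul_sub, Finset.sum_sub_distrib]
  ring

/-- the poles of the corrected derivations -/
theorem DG_pole {κ : Type*} [Field κ] [Algebra κ L] {b τ : Place κ L → ℕ}
    (hD : ∀ s, PoleBound κ (D s) b)
    (ha : ∀ (w : Place κ L) j, ∀ I ∈ expo (Fin (n + 1)) (d j), w.1 (a j I) ≤ exp (τ w : ℤ))
    (hB : ∀ (w : Place κ L) s i l, w.1 (B s i l) ≤ exp (τ w : ℤ))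
    (s : Σ j : Fin p, EX (n + 1) (d j)) :
    PoleBound κ (DG d a D B s) (fun w => b w + 2 * τ w) := by
  intro w y hy
  have hMA : ∀ s' : Σ j : Fin p, EX (n + 1) (d j),
      w.1 (MJ d a (B s) s') ≤ exp ((2 * τ w : ℕ) : ℤ) := by
    intro s'
    refine (val_MJ_le w.1 (ha w) (hB w s) s').trans (le_of_eq ?_)
    rw [← exp_add]
    congr 1
    push_cast
    ring
  rw [DG_apply]
  refine (Valuation.map_sub _ _ _).trans (max_le ?_ ?_)
  · refine (hD s w y hy).trans ?_
    rw [exp_le_exp]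
    push_cast
    omega
  · refine Valuation.map_sum_le _ fun s' _ => ?_
    rw [map_mul]
    refine (mul_le_mul' (hMA s') (hD s' w y hy)).trans (le_of_eq ?_)
    rw [← exp_add]
    congr 1
    push_cast
    ring

/-- `∑ s, (M B)_s D s = 0` for the corrected derivations -/
theorem sum_MJ_DG {j₀ : Fin p} {P : EX (n + 1) (d j₀) → Matrix (Fin (n + 1)) (Fin (n + 1)) L}
    (hP : ∀ i l i' l', ∑ J, mm (a j₀) i l J.1 * P J i' l' = if i = i' ∧ l = l' then 1 else 0)
    (C : Matrix (Fin (n + 1)) (Fin (n + 1)) L) :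
    ∑ s, MJ d a C s • DG d a D (PJ d j₀ P) s = 0 := by
  unfold DG
  simp only [smul_sub, Finset.sum_sub_distrib, Finset.smul_sum, smul_smul]
  rw [Finset.sum_comm (s := (Finset.univ : Finset (Σ j : Fin p, EX (n + 1) (d j))))]
  simp only [← Finset.sum_smul]
  have h1 : ∀ s' : Σ j : Fin p, EX (n + 1) (d j),
      ∑ s : Σ j : Fin p, EX (n + 1) (d j), MJ d a C s * MJ d a (PJ d j₀ P s) s' =
        MJ d a C s' := by
    intro s'
    have h2 := congrArg (MJ d a) (MJ_right a hP C)
    rw [map_sum] at h2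
    have h3 := congrFun h2 s'
    rw [Finset.sum_apply] at h3
    rw [← h3]
    refine Finset.sum_congr rfl fun s _ => ?_
    rw [map_smul, Pi.smul_apply, smul_eq_mul]
  simp only [h1]
  rw [sub_self]

end

section

variable {K L : Type*} [Field K] [Field L] [Algebra K L] {n p : ℕ} {d : Fin p → ℕ}

/-- the matrices of the block over the extension -/
theorem PJ_map {j₀ : Fin p} (P : EX (n + 1) (d j₀) → Matrix (Fin (n + 1)) (Fin (n + 1)) K)
    (s : Σ j : Fin p, EX (n + 1) (d j)) :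
    PJ d j₀ (fun J => (P J).map (algebraMap K L)) s = (PJ d j₀ P s).map (algebraMap K L) := by
  by_cases h : s.1 = j₀
  · obtain ⟨j, J⟩ := s
    have h' : j = j₀ := h
    subst h'
    rw [PJ_self, PJ_self]
  · rw [PJ_ne _ h, PJ_ne _ h]
    ext i l
    rw [Matrix.map_apply, Matrix.zero_apply, Matrix.zero_apply, map_zero]

theorem mm_map (a : (Fin (n + 1) →₀ ℕ) → K) (i l : Fin (n + 1)) (J : Fin (n + 1) →₀ ℕ) :
    mm (fun I => algebraMap K L (a I)) i l J = algebraMap K L (mm a i l J) := by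
  unfold mm
  split_ifs
  · rw [map_zero]
  · rw [map_mul, map_natCast]

theorem MJ_map (a : Fin p → (Fin (n + 1) →₀ ℕ) → K)
    (B : Matrix (Fin (n + 1)) (Fin (n + 1)) K) (s : Σ j : Fin p, EX (n + 1) (d j)) :
    MJ d (fun j I => algebraMap K L (a j I)) (B.map (algebraMap K L)) s =
      algebraMap K L (MJ d a B s) := by
  rw [MJ_apply, MJ_apply, map_sum]
  refine Finset.sum_congr rfl fun i _ => ?_
  rw [map_sum]
  refine Finset.sum_congr rfl fun l _ => ?_
  rw [map_mul, Matrix.map_apply, mm_map]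

/-- the corrected derivations over the extension extend those over the base field -/
theorem DG_map (a : Fin p → (Fin (n + 1) →₀ ℕ) → K)
    (D : (Σ j : Fin p, EX (n + 1) (d j)) → Derivation ℤ K K)
    (B : (Σ j : Fin p, EX (n + 1) (d j)) → Matrix (Fin (n + 1)) (Fin (n + 1)) K)
    {D' : (Σ j : Fin p, EX (n + 1) (d j)) → Derivation ℤ L L}
    (hD' : ∀ s y, D' s (algebraMap K L y) = algebraMap K L (D s y))
    {B' : (Σ j : Fin p, EX (n + 1) (d j)) → Matrix (Fin (n + 1)) (Fin (n + 1)) L}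
    (hB' : ∀ s, B' s = (B s).map (algebraMap K L))
    (s : Σ j : Fin p, EX (n + 1) (d j)) (y : K) :
    DG d (fun j I => algebraMap K L (a j I)) D' B' s (algebraMap K L y) =
      algebraMap K L (DG d a D B s y) := by
  rw [DG_apply, DG_apply, map_sub, map_sum, hD']
  congr 1
  refine Finset.sum_congr rfl fun s' _ => ?_
  rw [hB', MJ_map, hD', map_mul]

end

section

variable {L : Type*} [Field L] {n p : ℕ} {d : Fin p → ℕ}

/-- the additional row of the form `k` at a place with the largest coordinate `i₀` -/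
theorem row_eq {x : Fin (n + 1) → L} (D : (Σ j : Fin p, EX (n + 1) (d j)) → Derivation ℤ L L)
    (A : (Σ j : Fin p, EX (n + 1) (d j)) → Matrix (Fin (n + 1)) (Fin (n + 1)) L)
    {ξ : Fin (n + 1) → L} (hξ : ∑ i, ξ i * x i = 1) {i₀ : Fin (n + 1)} (hi0 : x i₀ ≠ 0) (m : ℕ)
    {v : L} (hv : v ≠ 0) : ∃ u ∈ U1 x D A, ∀ s,
      (m : L) * r1L x D A ξ s - D s v / v - u s =
        - (D s (v / x i₀ ^ m) / (v / x i₀ ^ m)) -
          m * (A s).mulVec (fun i => x i / x i₀) i₀ := by
  obtain ⟨y, hy⟩ : ∃ y : Fin (n + 1) → L, y = (m : L) •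
      (ξ - (x i₀)⁻¹ • Pi.single i₀ 1) := ⟨_, rfl⟩
  have hyx : ∑ i, y i * x i = 0 := by
    have h3 : ∑ i, y i * x i = (m : L) * ((∑ i, ξ i * x i) -
        (x i₀)⁻¹ * ∑ i, (Pi.single i₀ 1 : Fin (n + 1) → L) i * x i) := by
      rw [Finset.mul_sum, ← Finset.sum_sub_distrib, Finset.mul_sum]
      refine Finset.sum_congr rfl fun i _ => ?_
      rw [hy, Pi.smul_apply, Pi.sub_apply, Pi.smul_apply, smul_eq_mul, smul_eq_mul]
      ring
    rw [h3, hξ, Finset.sum_eq_single i₀]
    · rw [Pi.single_eq_same, one_mul, inv_mul_cancel₀ hi0, sub_self, mul_zero]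
    · intro i _ hi
      rw [Pi.single_eq_of_ne hi, zero_mul]
    · intro h
      exact absurd (Finset.mem_univ _) h
  refine ⟨_, ⟨y, mem_orth_single.2 hyx, rfl⟩, fun s => ?_⟩
  have h1 : r1L x D A (Pi.single i₀ 1) s = dv (D s) (A s) x i₀ := by
    rw [r1L_apply, Finset.sum_eq_single i₀]
    · rw [Pi.single_eq_same, one_mul]
    · intro i _ hi
      rw [Pi.single_eq_of_ne hi, zero_mul]
    · intro h
      exact absurd (Finset.mem_univ _) h
  obtain ⟨z, hz⟩ : ∃ z : L, z = v / x i₀ ^ m := ⟨_, rfl⟩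
  have hz0 : z ≠ 0 := by
    rw [hz]
    exact div_ne_zero hv (pow_ne_zero _ hi0)
  have h2 : D s z / z = D s v / v - m * (D s (x i₀) / x i₀) := by
    have h3 : v = z * x i₀ ^ m := by
      rw [hz, div_mul_cancel₀ _ (pow_ne_zero _ hi0)]
    rw [h3, Derivation.leibniz, Derivation.leibniz_pow]
    simp only [smul_eq_mul, nsmul_eq_mul]
    rcases Nat.eq_zero_or_pos m with hd | hd
    · rw [hd]
      simp
    · obtain ⟨e, he⟩ : ∃ e, m = e + 1 := ⟨m - 1, by omega⟩
      rw [he, Nat.add_sub_cancel]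
      field_simp
      ring
  have h4 : (A s).mulVec x i₀ = x i₀ * (A s).mulVec (fun i => x i / x i₀) i₀ := by
    have h5 : x = x i₀ • (fun i => x i / x i₀) := by
      funext i
      rw [Pi.smul_apply, smul_eq_mul, mul_div_cancel₀ _ hi0]
    conv_lhs => rw [h5]
    rw [Matrix.mulVec_smul, Pi.smul_apply, smul_eq_mul]
  rw [← hz, h2, hy, map_smul, map_sub, map_smul, Pi.smul_apply, Pi.sub_apply, Pi.smul_apply, h1]
  simp only [smul_eq_mul]
  unfold dv
  rw [h4]
  field_simp
  ring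

/-- the size of the part of the row with the matrices -/
theorem val_row_le {x : Fin (n + 1) → L} (v : Valuation L ℤᵐ⁰)
    (A : Matrix (Fin (n + 1)) (Fin (n + 1)) L) {c : ℤᵐ⁰} (hA : ∀ i l, v (A i l) ≤ c)
    {i₀ : Fin (n + 1)} (him : ∀ l, v (x l) ≤ v (x i₀)) (m : ℕ) :
    v ((m : L) * A.mulVec (fun i => x i / x i₀) i₀) ≤ c := by
  rw [map_mul]
  have h9 : v (A.mulVec (fun i => x i / x i₀) i₀) ≤ c := by
    unfold Matrix.mulVec dotProduct
    refine v.map_sum_le fun l _ => ?_
    rw [map_mul, map_div₀]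
    calc v (A i₀ l) * (v (x l) / v (x i₀)) ≤ c * 1 :=
          mul_le_mul' (hA i₀ l) (div_le_one_of_le₀ (him l) zero_le)
      _ = _ := mul_one _
  calc v ((m : ℕ) : L) * v (A.mulVec (fun i => x i / x i₀) i₀) ≤
        1 * c := mul_le_mul' (val_nat_le v _) h9
    _ = c := one_mul _

end

/-- **The data for the rows with the ramification.** `T` contains the places of contact with the
hypersurfaces which do not contain the point.

Proof: as the proofs of `exists_rowU` (RV9) and of `exists_datSC` (RV10). Over `K`: `exists_baseS'`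
(with `k = ℚ`) gives the derivations `X.D s` dual to the coefficients and their pole bound `X.B`,
`exists_right_inverse` gives `P`, `exists_polesA` gives `A` with `|a|, |P| ≤ exp (A v)`. The
corrected derivations `D₁ s = X.D s - ∑ s', MJ d a (PJ d j₀ P s) s' • X.D s'` over `K` have poles
of order at most `B₁ v = X.B v + 2 A v`; put `B₂ v = B₁ v + A v`. Extend the `X.D s` to `L`
(`exists_extension`) and let `D s = D' s - ∑ s', MJ d a (PJ d j₀ P s) s' • D' s'` (over `L`), which
extends `D₁ s`; `exists_polar` (VD1) for `D₁`, `B₂` gives `cc₀`, `dw`.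
Good places: `B₂ (below K w) = 0`. `S` = the good places with `2 ≤ ramIdx` or `w ∈ T`,
`cc w = cc₀ w` for `w ∈ S` and `0` otherwise, `ρ w = (ramIdx - 1) + (1 if w ∈ T)`,
`δ' w = 3 * ramIdx * B₂ (below K w)` (bad places: poles of order at most
`ramIdx * B₂ + (ramIdx - 1)`, `polar_over`, plus one for logarithmic derivatives).
The additional rows: `l` a coordinate with `x l ≠ 0`, `z k = F_k(x) / x l ^ d k`,
`r k s = - D s (z k) / z k - d k * (A s x)_l / x l` if `F_k(x) ≠ 0`, and `0` otherwise (this is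
`d k * r1L (e_l / x l) - D s (v k) / v k`, see RV9). At a place `w` with the largest coordinate
`i₀`: as in RV9 modulo `U1` the row is `- D s (z') / z' - d k * (A s q)_{i₀}`,
`z' = F_k(x) / x i₀ ^ d k`, `q = x / x i₀`; for `w` good `|z'| ≤ 1`, `D s z' / z'` is by
`exists_polar` the sum of a vector of size `≤ 1` and of `cc₀ w s * β`, `β = dw w z' / z'`,
`|β| ≤ exp (ramIdx - 1)` if `|z'| = 1` (`w ∉ T`, `hT`), `≤ exp ramIdx` always (`log_der_bound`).
`w ∉ S` good: `ramIdx = 1`, `|z'| = 1`, `D s` has no pole (`polar_over`). The total of `ρ` is at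
most `ramDeg + T.card` (`mason_sum_ram`), the total of `δ'` at most `C * finrank`
(`mason_sum_over`). `xmj d x j ∈ U`: as in `exists_rowU` (`grad_DJ`; there the derivations come from
a `DatC`, so copy `DJ_coef`, `grad_DJ`). -/
theorem exists_rowT {κ : Type u} {K : Type v} [Field κ] [IsAlgClosed κ] [CharZero κ] [Field K]
    [CharZero K] [Algebra κ K] (hK : IsFF κ K) (htr : Cardinal.aleph0 ≤ Algebra.trdeg ℚ κ)
    {n p : ℕ} {d : Fin p → ℕ} {j₀ : Fin p} (hd : 3 ≤ d j₀) {a : Fin p → (Fin (n + 1) →₀ ℕ) → K}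
    (ha : AlgebraicIndependent ℚ
      (fun s : {s : Fin p × (Fin (n + 1) →₀ ℕ) // s ∈ jexpo n d} => a s.1.1 s.1.2)) :
    ∃ C : ℕ, ∀ (L : Type w) [Field L] [Algebra K L] [FiniteDimensional K L]
      [Algebra κ L] [IsScalarTower κ K L] (x : Fin (n + 1) → L), x ≠ 0 →
      ∀ T : Finset (Place κ L),
      (∀ w ∉ T, ∀ j, Fval (d j) (fun I => algebraMap K L (a j I)) x ≠ 0 →
        w.1 (Fval (d j) (fun I => algebraMap K L (a j I)) x) = vmax w.1 x ^ d j) →
      ∃ R : RowT κ (L := L) n p (Σ j : Fin p, EX (n + 1) (d j)), R.x = x ∧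
        R.Δ' ≤ C * finrank K L ∧ R.R ≤ ramDeg κ L K + T.card ∧ (∀ j, xmj d R.x j ∈ R.U) := by
  classical
  have hk : Algebra.trdeg ℚ ℚ < Cardinal.aleph0 := by
    rw [trdeg_eq_zero]
    exact Cardinal.aleph0_pos
  obtain ⟨X, hXa, -, -⟩ := exists_baseS' (k := ℚ) hK htr hk (S := jexpo n d)
    (a := fun s => a s.1 s.2) ha
  have ha₀ : AlgebraicIndependent ℚ (fun I : EX (n + 1) (d j₀) => a j₀ I.1) := by
    have h1 := ha.comp (fun I : EX (n + 1) (d j₀) =>
      (⟨(j₀, I.1), mem_jexpo.2 I.2⟩ : {s : Fin p × (Fin (n + 1) →₀ ℕ) // s ∈ jexpo n d})) (by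
        intro I J h2
        have h3 := congrArg (fun s => s.1.2) h2
        exact Subtype.ext h3)
    exact h1
  obtain ⟨P, hP⟩ := exists_right_inverse hd ha₀
  obtain ⟨A, hAs, hA⟩ := Pool.Agent.Lib.MP_44a246_ntV.exists_polesA hK
    (Sum.elim (fun s : {s : Fin p × (Fin (n + 1) →₀ ℕ) // s ∈ jexpo n d} => a s.1.1 s.1.2)
      (fun t : EX (n + 1) (d j₀) × (Fin (n + 1) × Fin (n + 1)) => P t.1 t.2.1 t.2.2))
  -- the derivations over `K`
  obtain ⟨D₀, hD₀⟩ : ∃ D₀ : (Σ j : Fin p, EX (n + 1) (d j)) → Derivation ℤ K K,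
      D₀ = fun s => X.D (s.1, s.2.1) := ⟨_, rfl⟩
  have hD₀B : ∀ s, PoleBound κ (D₀ s) X.B := by
    intro s
    rw [hD₀]
    exact X.hD _ (mem_jexpo.2 s.2.2)
  have hD₀a : ∀ s : Σ j : Fin p, EX (n + 1) (d j), ∀ (j : Fin p) (I : EX (n + 1) (d j)),
      D₀ s (a j I.1) = if s = ⟨j, I⟩ then 1 else 0 := by
    intro s j I
    have h2 := X.hDa (s.1, s.2.1) (mem_jexpo.2 s.2.2) (j, I.1) (mem_jexpo.2 I.2)
    rw [hXa] at h2
    rw [hD₀]
    refine h2.trans (if_congr ?_ rfl rfl)
    obtain ⟨j', I'⟩ := s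
    rw [Prod.mk.injEq]
    constructor
    · rintro ⟨h2, h3⟩
      dsimp only at h2
      subst h2
      have h4 : I' = I := Subtype.ext h3
      rw [h4]
    · intro h2
      cases h2
      exact ⟨rfl, rfl⟩
  obtain ⟨B₁, hB₁⟩ : ∃ B₁ : Place κ K → ℕ, B₁ = fun v => X.B v + 2 * A v := ⟨_, rfl⟩
  have hB₁s : (Function.support B₁).Finite := by
    refine (X.hB.union hAs).subset fun v hv => ?_
    rw [Function.mem_support, hB₁] at hv
    by_contra hcon
    simp only [Set.mem_union, Function.mem_support, not_or, not_not] at hcon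
    apply hv
    simp only [hcon.1, hcon.2, mul_zero, add_zero]
  have hD₁B : ∀ s, PoleBound κ (DG d a D₀ (PJ d j₀ P) s) B₁ := by
    intro s
    rw [hB₁]
    refine DG_pole a D₀ (PJ d j₀ P) hD₀B ?_ ?_ s
    · intro v j I hI
      exact hA (Sum.inl ⟨(j, I), mem_jexpo.2 hI⟩) v
    · intro v s i l
      exact val_PJ_le v.1 (fun J i l => hA (Sum.inr (J, (i, l))) v) s i l
  obtain ⟨B₂, hB₂⟩ : ∃ B₂ : Place κ K → ℕ, B₂ = fun v => B₁ v + A v := ⟨_, rfl⟩
  have hB₂s : (Function.support B₂).Finite := by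
    rw [hB₂]
    exact (hB₁s.union hAs).subset (Function.support_add _ _)
  have hD₂B : ∀ s, PoleBound κ (DG d a D₀ (PJ d j₀ P) s) B₂ := by
    intro s v y hy
    refine (hD₁B s v y hy).trans ?_
    rw [exp_le_exp, Nat.cast_le, hB₂]
    exact Nat.le_add_right _ _
  refine ⟨3 * ∑ᶠ v, B₂ v, ?_⟩
  intro L _ _ _ _ _ x hx T hT
  have hL : IsFF κ L := hK.of_finite
  have hchar : CharZero L := charZero_of_injective_algebraMap (algebraMap K L).injective
  choose D' hD' using fun s => exists_extension (L := L) (D₀ s)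
  obtain ⟨PL, hPLd⟩ : ∃ PL : EX (n + 1) (d j₀) → Matrix (Fin (n + 1)) (Fin (n + 1)) L,
      PL = fun J => (P J).map (algebraMap K L) := ⟨_, rfl⟩
  obtain ⟨aL, haL⟩ : ∃ aL : Fin p → (Fin (n + 1) →₀ ℕ) → L,
      aL = fun j I => algebraMap K L (a j I) := ⟨_, rfl⟩
  have hPL : ∀ i l i' l', ∑ J : EX (n + 1) (d j₀), mm (aL j₀) i l J.1 * PL J i' l' =
      if i = i' ∧ l = l' then 1 else 0 := by
    intro i l i' l'
    have h2 := congrArg (algebraMap K L) (hP i l i' l')
    rw [map_sum] at h2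
    rw [show (if i = i' ∧ l = l' then (1 : L) else 0) =
      algebraMap K L (if i = i' ∧ l = l' then 1 else 0) by split_ifs <;> simp, ← h2]
    refine Finset.sum_congr rfl fun J _ => ?_
    rw [map_mul, haL, hPLd, mm_map]
    rfl
  have hPJL : ∀ s, PJ d j₀ PL s = (PJ d j₀ P s).map (algebraMap K L) := by
    intro s
    rw [hPLd]
    exact PJ_map P s
  obtain ⟨DL, hDL⟩ : ∃ DL : (Σ j : Fin p, EX (n + 1) (d j)) → Derivation ℤ L L,
      DL = DG d aL D' (PJ d j₀ PL) := ⟨_, rfl⟩
  have hDLK : ∀ s y, DL s (algebraMap K L y) =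
      algebraMap K L (DG d a D₀ (PJ d j₀ P) s y) := by
    intro s y
    rw [hDL, haL]
    exact DG_map a D₀ (PJ d j₀ P) hD' hPJL s y
  have hD'a : ∀ s : Σ j : Fin p, EX (n + 1) (d j), ∀ (j : Fin p) (I : EX (n + 1) (d j)),
      D' s (aL j I.1) = if s = ⟨j, I⟩ then 1 else 0 := by
    intro s j I
    rw [haL]
    dsimp only
    rw [hD', hD₀a]
    split_ifs <;> simp
  obtain ⟨cc₀, dw, hpol⟩ := exists_polar (L := L) hK hD₂B hDLK
  obtain ⟨hB1, hB2⟩ := mason_sum_over (L := L) hL hB₂s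
  obtain ⟨hR1, hR2⟩ := mason_sum_ram (κ := κ) (K := K) (L := L) hL
  obtain ⟨δ', hδ'd⟩ : ∃ δ' : Place κ L → ℕ,
      δ' = fun w => 3 * (ramIdx K w.1 * B₂ (below K w)) := ⟨_, rfl⟩
  obtain ⟨ρ, hρd⟩ : ∃ ρ : Place κ L → ℕ,
      ρ = fun w => (ramIdx K w.1 - 1) + if w ∈ T then 1 else 0 := ⟨_, rfl⟩
  obtain ⟨S, hSd⟩ : ∃ S : Finset (Place κ L),
      S = (hR1.toFinset ∪ T).filter (fun w => B₂ (below K w) = 0) := ⟨_, rfl⟩
  have hSmem : ∀ w, w ∈ S ↔ ((ramIdx K w.1 - 1 ≠ 0 ∨ w ∈ T) ∧ B₂ (below K w) = 0) := by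
    intro w
    rw [hSd, Finset.mem_filter, Finset.mem_union, Set.Finite.mem_toFinset, Function.mem_support]
    norm_cast
  have hfs1 : (Function.support fun w : Place κ L => ramIdx K w.1 * B₂ (below K w)).Finite := by
    refine hB1.subset ?_
    intro w hw
    rw [Function.mem_support] at hw ⊢
    exact_mod_cast hw
  have hδ' : (Function.support δ').Finite := by
    refine hfs1.subset fun w hw => ?_
    rw [Function.mem_support] at hw ⊢
    intro h0
    apply hw
    rw [hδ'd]
    simp only [h0, mul_zero]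
  have hρ : (Function.support fun w : Place κ L => ramIdx K w.1 - 1).Finite := by
    refine hR1.subset ?_
    intro w hw
    rw [Function.mem_support] at hw ⊢
    exact_mod_cast hw
  have hδ : (Function.support fun w => δ' w + (ramIdx K w.1 - 1)).Finite :=
    (hδ'.union hρ).subset (Function.support_add _ _)
  -- the poles of the derivations
  have hpole : ∀ s (w : Place κ L) y, w.1 y ≤ 1 →
      w.1 (DL s y) ≤ exp ((ramIdx K w.1 * B₂ (below K w) + (ramIdx K w.1 - 1) : ℕ) : ℤ) :=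
    fun s w y hy => polar_over (K := K) hL (hDLK s) (hD₂B s) w hy
  have hD : ∀ s, PoleBound κ (DL s) (fun w => δ' w + (ramIdx K w.1 - 1)) := by
    intro s w y hy
    refine (hpole s w y hy).trans ?_
    rw [exp_le_exp, Nat.cast_le, hδ'd]
    dsimp only
    omega
  have hA' : ∀ (w : Place κ L) s i l, w.1 (PJ d j₀ PL s i l) ≤ exp (δ' w : ℤ) := by
    intro w s i l
    have h5 : w.1 (PJ d j₀ PL s i l) ≤ exp ((ramIdx K w.1 * A (below K w) : ℕ) : ℤ) := by
      rw [hPJL, Matrix.map_apply]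
      refine coef_le A (fun v => ?_) w
      exact val_PJ_le v.1 (fun J i l => hA (Sum.inr (J, (i, l))) v) s i l
    refine h5.trans ?_
    rw [exp_le_exp, Nat.cast_le, hδ'd, hB₂]
    dsimp only
    have h6 : ramIdx K w.1 * A (below K w) ≤
        ramIdx K w.1 * (B₁ (below K w) + A (below K w)) :=
      Nat.mul_le_mul le_rfl (by omega)
    omega
  -- bad places, and good places outside `S`
  have hout : ∀ w : Place κ L, w ∉ S →
      (B₂ (below K w) ≠ 0 ∧ ramIdx K w.1 * B₂ (below K w) + (ramIdx K w.1 - 1) + 1 ≤ δ' w) ∨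
        (ramIdx K w.1 = 1 ∧ w ∉ T ∧ B₂ (below K w) = 0) := by
    intro w hw
    have he := one_le_ramIdx (K := K) w.1 w.2.1
    by_cases hb : B₂ (below K w) = 0
    · right
      rw [hSmem, not_and_or, not_or] at hw
      rcases hw with ⟨h1, h2⟩ | h1
      · exact ⟨by omega, h2, hb⟩
      · exact absurd hb h1
    · left
      refine ⟨hb, ?_⟩
      have h3 : ramIdx K w.1 * 1 ≤ ramIdx K w.1 * B₂ (below K w) :=
        Nat.mul_le_mul le_rfl (Nat.one_le_iff_ne_zero.2 hb)
      rw [hδ'd]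
      dsimp only
      omega
  -- the additional rows
  obtain ⟨v, hvd⟩ : ∃ v : Fin p → L, v = fun j => Fval (d j) (aL j) x := ⟨_, rfl⟩
  have hTv : ∀ w ∉ T, ∀ j, v j ≠ 0 → w.1 (v j) = vmax w.1 x ^ d j := by
    intro w hw j hj
    rw [hvd, haL] at hj ⊢
    exact hT w hw j hj
  obtain ⟨l, hl⟩ : ∃ l, x l ≠ 0 := by
    by_contra hcon
    push Not at hcon
    exact hx (funext hcon)
  obtain ⟨ξ, hξd⟩ : ∃ ξ : Fin (n + 1) → L, ξ = Pi.single l (x l)⁻¹ := ⟨_, rfl⟩
  have hξ : ∑ i, ξ i * x i = 1 := by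
    rw [hξd, Finset.sum_eq_single l]
    · rw [Pi.single_eq_same, inv_mul_cancel₀ hl]
    · intro i _ hi
      rw [Pi.single_eq_of_ne hi, zero_mul]
    · intro h
      exact absurd (Finset.mem_univ _) h
  obtain ⟨r, hr⟩ : ∃ r : Fin p → (Σ j : Fin p, EX (n + 1) (d j)) → L,
      r = fun j s => if v j = 0 then 0 else
        (d j : L) * r1L x DL (PJ d j₀ PL) ξ s - DL s (v j) / v j := ⟨_, rfl⟩
  obtain ⟨U, hU⟩ : ∃ U : Submodule L ((Σ j : Fin p, EX (n + 1) (d j)) → L),
      U = U1 x DL (PJ d j₀ PL) ⊔ Submodule.span L (Set.range r) := ⟨_, rfl⟩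
  have hUU : U1 x DL (PJ d j₀ PL) ≤ U := by rw [hU]; exact le_sup_left
  have hmem1 : ∀ y, ∑ i, y i * x i = 0 → r1L x DL (PJ d j₀ PL) y ∈ U1 x DL (PJ d j₀ PL) :=
    fun y hy => ⟨y, mem_orth_single.2 hy, rfl⟩
  have hxm : ∀ j, xmj d x j ∈ U := by
    intro j
    have h1 : ∀ s, r1L x DL (PJ d j₀ PL) (grad (d j) (aL j) x) s =
        DL s (v j) - xmj d x j s := by
      intro s
      rw [r1L_apply, hDL, grad_DG aL D' (PJ d j₀ PL) hD'a x s j, hvd]
    have h2 : ∑ i, grad (d j) (aL j) x i * x i = d j * v j := by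
      rw [hvd]
      exact sum_grad_mul _ _ _
    by_cases hv : v j = 0
    · have h3 : xmj d x j = - r1L x DL (PJ d j₀ PL) (grad (d j) (aL j) x) := by
        funext s
        rw [Pi.neg_apply, h1, hv, map_zero]
        ring
      rw [h3]
      refine Submodule.neg_mem _ (hUU (hmem1 _ ?_))
      rw [h2, hv, mul_zero]
    · obtain ⟨y, hy⟩ : ∃ y : Fin (n + 1) → L, y = grad (d j) (aL j) x -
          ((d j : L) * v j) • ξ := ⟨_, rfl⟩
      have hyx : ∑ i, y i * x i = 0 := by
        have h3 : ∑ i, y i * x i = (∑ i, grad (d j) (aL j) x i * x i) -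
            ((d j : L) * v j) * ∑ i, ξ i * x i := by
          rw [Finset.mul_sum, ← Finset.sum_sub_distrib]
          refine Finset.sum_congr rfl fun i _ => ?_
          rw [hy, Pi.sub_apply, Pi.smul_apply, smul_eq_mul]
          ring
        rw [h3, h2, hξ, mul_one, sub_self]
      have h4 : xmj d x j = - r1L x DL (PJ d j₀ PL) y - v j • r j := by
        funext s
        rw [Pi.sub_apply, Pi.neg_apply, Pi.smul_apply, smul_eq_mul, hr, hy, map_sub, map_smul,
          Pi.sub_apply, Pi.smul_apply, smul_eq_mul, h1]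
        simp only [if_neg hv]
        field_simp
        ring
      rw [h4]
      refine Submodule.sub_mem _ (Submodule.neg_mem _ (hUU (hmem1 _ hyx)))
        (Submodule.smul_mem _ _ ?_)
      rw [hU]
      exact Submodule.mem_sup_right (Submodule.subset_span ⟨j, rfl⟩)
  have hfU : finrank L U ≤ n + p := by
    rw [hU]
    refine (Submodule.finrank_add_le_finrank_add_finrank _ _).trans (add_le_add ?_ ?_)
    · exact finrank_U1_le hx _ _
    · refine (finrank_range_le_card r).trans ?_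
      rw [Fintype.card_fin]
  refine ⟨{ x := x
            D := DL
            A := PJ d j₀ PL
            M := MJ d aL
            δ := fun w => δ' w + (ramIdx K w.1 - 1)
            hδ := hδ
            hD := hD
            hA := ?_
            hx := hx
            U := U
            hU := hfU
            hr := fun y hy => hUU ⟨y, hy, rfl⟩
            hMD := fun B _ => by rw [hDL]; exact sum_MJ_DG aL D' hPL B
            hMA := fun B _ => MJ_right aL hPL B
            δ' := δ'
            hδ' := hδ'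
            S := S
            ρ := ρ
            cc := fun w => if w ∈ S then cc₀ w else 0
            dw := dw
            hcc := ?_
            hDc := ?_
            hdw := ?_
            hA' := hA'
            r := r
            hU1 := hU
            hrow := ?_ }, rfl, ?_, ?_, hxm⟩
  · intro w s i l
    refine (hA' w s i l).trans ?_
    rw [exp_le_exp]
    push_cast
    omega
  · intro w hw
    exact if_neg hw
  · intro w s y hy
    by_cases hw : w ∈ S
    · simp only [if_pos hw]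
      have hb := ((hSmem w).1 hw).2
      refine (((hpol w).2 hb).1 s y hy).trans ?_
      rw [← exp_zero, exp_le_exp]
      exact Int.natCast_nonneg _
    · simp only [if_neg hw, Pi.zero_apply, map_zero, zero_mul, sub_zero]
      refine (hpole s w y hy).trans ?_
      rw [exp_le_exp, Nat.cast_le]
      rcases hout w hw with ⟨-, h1⟩ | ⟨h1, -, h3⟩
      · omega
      · rw [h1, h3]
        omega
  · intro w hw y hy
    have hb := ((hSmem w).1 hw).2
    refine (((hpol w).2 hb).2.2 y hy).trans ?_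
    rw [exp_le_exp, hρd]
    push_cast
    split_ifs <;> omega
  · intro w k
    by_cases hv : v k = 0
    · refine ⟨0, Submodule.zero_mem _, 0, fun s => ?_, fun _ => ?_⟩
      · rw [hr]
        simp only [if_pos hv, Pi.zero_apply, sub_zero, mul_zero, map_zero]
        exact zero_le
      · rw [map_zero]
        exact zero_le
    obtain ⟨i₀, hi0, hiv, him⟩ := exists_vmax w.1 hx
    obtain ⟨u, hu, hus⟩ := row_eq DL (PJ d j₀ PL) hξ hi0 (d k) hv
    obtain ⟨z, hz⟩ : ∃ z : L, z = v k / x i₀ ^ d k := ⟨_, rfl⟩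
    have hz0 : z ≠ 0 := by
      rw [hz]
      exact div_ne_zero hv (pow_ne_zero _ hi0)
    have hz1 : w ∉ T → w.1 z = 1 := by
      intro hwT
      rw [hz, map_div₀, map_pow, hTv w hwT k hv, hiv]
      refine div_self (pow_ne_zero _ ?_)
      exact (Valuation.ne_zero_iff _).2 hi0
    have hAz : ∀ s, w.1 (((d k : ℕ) : L) * (PJ d j₀ PL s).mulVec (fun i => x i / x i₀) i₀) ≤
        exp (δ' w : ℤ) := fun s => val_row_le w.1 (PJ d j₀ PL s) (hA' w s) him (d k)
    have hrs : ∀ s, r k s - u s = - (DL s z / z) -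
        (d k : L) * (PJ d j₀ PL s).mulVec (fun i => x i / x i₀) i₀ := by
      intro s
      rw [hz, ← hus s, hr]
      simp only [if_neg hv]
    by_cases hw : w ∈ S
    · have hb := ((hSmem w).1 hw).2
      obtain ⟨-, h2, h3⟩ := (hpol w).2 hb
      refine ⟨u, hu, - (dw w z / z), fun s => ?_, fun _ => ?_⟩
      · have h4 : r k s - u s - algebraMap κ L ((if w ∈ S then cc₀ w else 0) s) *
            (- (dw w z / z)) = - ((DL s z - algebraMap κ L (cc₀ w s) * dw w z) / z) -
              (d k : L) * (PJ d j₀ PL s).mulVec (fun i => x i / x i₀) i₀ := by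
          rw [hrs, if_pos hw]
          ring
        rw [h4]
        refine (Valuation.map_sub _ _ _).trans (max_le ?_ (hAz s))
        rw [Valuation.map_neg]
        refine (h2 s z hz0).trans ?_
        rw [← exp_zero, exp_le_exp]
        exact Int.natCast_nonneg _
      · rw [Valuation.map_neg]
        obtain ⟨h6, h7⟩ := log_der_bound w (dw w) h3 hz0
        rw [hρd]
        dsimp only
        by_cases hwT : w ∈ T
        · refine h6.trans ?_
          rw [exp_le_exp, if_pos hwT]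
          push_cast
          omega
        · refine (h7 (hz1 hwT)).trans ?_
          rw [exp_le_exp, if_neg hwT]
          push_cast
          omega
    · refine ⟨u, hu, 0, fun s => ?_, fun h => absurd h hw⟩
      rw [mul_zero, sub_zero, hrs]
      refine (Valuation.map_sub _ _ _).trans (max_le ?_ (hAz s))
      rw [Valuation.map_neg]
      obtain ⟨h6, h7⟩ := log_der_bound w (DL s) (fun y hy => hpole s w y hy) hz0
      rcases hout w hw with ⟨-, h1⟩ | ⟨h1, h2, h3⟩
      · refine h6.trans ?_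
        rw [exp_le_exp]
        exact_mod_cast h1
      · refine (h7 (hz1 h2)).trans ?_
        rw [exp_le_exp, Nat.cast_le, h1, h3]
        omega
  · show ∑ᶠ w, (δ' w : ℤ) ≤ ((3 * ∑ᶠ v, B₂ v : ℕ) : ℤ) * finrank K L
    have h5 : ∑ᶠ w, (δ' w : ℤ) =
        3 * ∑ᶠ w : Place κ L, ((ramIdx K w.1 * B₂ (below K w) : ℕ) : ℤ) := by
      rw [mul_finsum _ 3]
      refine finsum_congr fun w => ?_
      rw [hδ'd]
      push_cast
      ring
    rw [h5, hB2]
    push_cast
    exact le_of_eq (by ring)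
  · show ∑ w ∈ S, (ρ w : ℤ) ≤ _
    have h1 : ∑ w ∈ S, ((ramIdx K w.1 - 1 : ℕ) : ℤ) ≤ (ramDeg κ L K : ℤ) := by
      rw [← hR2, finsum_eq_sum_of_support_subset _ (s := hR1.toFinset ∪ T)
        (by rw [Finset.coe_union, Set.Finite.coe_toFinset]; exact Set.subset_union_left), hSd]
      exact Finset.sum_le_sum_of_subset_of_nonneg (Finset.filter_subset _ _)
        (fun w _ _ => Int.natCast_nonneg _)
    have h2 : ∑ w ∈ S, (if w ∈ T then (1 : ℤ) else 0) ≤ (T.card : ℤ) := by
      rw [← Finset.sum_filter, Finset.sum_const, nsmul_eq_mul, mul_one, Nat.cast_le]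
      refine Finset.card_le_card fun w hw => (Finset.mem_filter.1 hw).2
    have h3 : ∑ w ∈ S, (ρ w : ℤ) =
        ∑ w ∈ S, ((ramIdx K w.1 - 1 : ℕ) : ℤ) + ∑ w ∈ S, (if w ∈ T then (1 : ℤ) else 0) := by
      rw [← Finset.sum_add_distrib]
      refine Finset.sum_congr rfl fun w _ => ?_
      rw [hρd]
      push_cast
      rfl
    rw [h3]
    exact add_le_add h1 h2

end Pool.Agent.Lib.MP_44a246_ntVT
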