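import Mathlib
import Pool.Agent.Lib.MP_44a246_ntK.K10

/-!
# The coefficients of a subfamily of generic forms
-/

namespace Pool.Agent.Lib.MP_44a246_ntVT

open Pool.Agent.Lib.MP_44a246_ntL
open Pool.Agent.Lib.MP_44a246_ntS
open Pool.Agent.Lib.MP_44a246_ntG
open Pool.Agent.Lib.MP_44a246_ntK

/-- algebraic independence of the coefficients of a subfamily of the forms -/
theorem algInd_sub {K : Type*} [Field K] [CharZero K] {n p p' : ℕ} {d : Fin p → ℕ}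
    {a : Fin p → (Fin (n + 1) →₀ ℕ) → K}
    (ha : AlgebraicIndependent ℚ (fun s : {s : Fin p × (Fin (n + 1) →₀ ℕ) // s ∈ jexpo n d} =>
      a s.1.1 s.1.2)) {f : Fin p' → Fin p} (hf : Function.Injective f) :
    AlgebraicIndependent ℚ
      (fun s : {s : Fin p' × (Fin (n + 1) →₀ ℕ) // s ∈ jexpo n (fun i => d (f i))} =>
        a (f s.1.1) s.1.2) := by
  have h1 : (fun s : {s : Fin p' × (Fin (n + 1) →₀ ℕ) // s ∈ jexpo n (fun i => d (f i))} =>
      a (f s.1.1) s.1.2) =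
      (fun s : {s : Fin p × (Fin (n + 1) →₀ ℕ) // s ∈ jexpo n d} => a s.1.1 s.1.2) ∘
      (fun s : {s : Fin p' × (Fin (n + 1) →₀ ℕ) // s ∈ jexpo n (fun i => d (f i))} =>
        ⟨(f s.1.1, s.1.2), mem_jexpo.2 (mem_jexpo (d := fun i => d (f i)).1 s.2)⟩) := rfl
  rw [h1]
  apply ha.comp
  rintro ⟨⟨i, I⟩, h⟩ ⟨⟨i', I'⟩, h'⟩ heq
  simp only [Subtype.mk.injEq, Prod.mk.injEq] at heq
  obtain ⟨h2, h3⟩ := heq
  have h4 := hf h2
  subst h3
  subst h4
  rfl

end Pool.Agent.Lib.MP_44a246_ntVT
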