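import Mathlib
import Pool.Agent.Lib.MP_44a246_nt.PolyMain
import Pool.Agent.Lib.MP_44a246_nt.Instances
import Pool.Agent.Lib.MP_44a246_nt.RamPoint
import Pool.Agent.Lib.MP_44a246_ntSH.CW07a

/-!
# A generic form of large degree
-/

namespace Pool.Agent.Lib.MP_44a246_ntVT

open Pool.Agent.Lib.MP_44a246_nt
open MvPolynomial

universe u v w

/-- **Points on a generic hypersurface of degree `d`**: `(d - 2 n) h ≤ R + C [L : K]`. -/
theorem form_large {κ : Type u} {K : Type v} [Field κ] [IsAlgClosed κ] [CharZero κ] [Field K]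
    [CharZero K] [Algebra κ K] {t : K} (ht : Transcendental κ t)
    (hfin : FiniteDimensional (IntermediateField.adjoin κ {t}) K) {n d : ℕ} (hd : 1 ≤ d)
    {F : MvPolynomial (Fin (n + 1)) K} (hF : F.IsHomogeneous d)
    (hgen : AlgebraicIndependent ℚ
      (fun I : {I : Fin (n + 1) →₀ ℕ // I.degree = d} => F.coeff I.1)) :
    ∃ C : ℕ, ∀ (L : Type w) [Field L] [Algebra K L] [FiniteDimensional K L] [Algebra κ L]
      [IsScalarTower κ K L] (x : Fin (n + 1) → L), x ≠ 0 → aeval x F = 0 →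
      ((d : ℤ) - 2 * n) * height κ x ≤ ramDeg κ L K + C * (Module.finrank K L : ℤ) := by
  classical
  refine with_instances ht ?_
  intro _ _ _ _ _ _ _ h1 h2
  have hgen' : AlgebraicIndependent ℚ
      (fun θ : Σ _ : Unit, {I : Fin (n + 1) →₀ ℕ // I.degree = d} => F.coeff θ.2.1) := by
    have h3 : (fun θ : Σ _ : Unit, {I : Fin (n + 1) →₀ ℕ // I.degree = d} => F.coeff θ.2.1) =
        (fun I : {I : Fin (n + 1) →₀ ℕ // I.degree = d} => F.coeff I.1) ∘ (fun θ => θ.2) := rfl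
    rw [h3]
    apply hgen.comp
    rintro ⟨⟨⟩, I⟩ ⟨⟨⟩, J⟩ h
    simp only at h
    subst h
    rfl
  obtain ⟨C, hC⟩ := poly_main.{w} (k₀ := ℚ) (ι := Unit) h1 h2 (fun _ => d) (fun _ => F)
    (fun _ => hF) hgen' (m := 1) le_rfl (fun _ => hd) ∅ Set.finite_empty
  refine ⟨C, ?_⟩
  intro L _ _ _ _ _ x hx hFx
  have hcL : CharZero L := charZero_of_injective_algebraMap (algebraMap K L).injective
  obtain ⟨h3, h4, h5⟩ := hC L x hx n (trdeg_pointField_le hx)
  have h6 : Nat.card {i : Unit // aeval x ((fun _ : Unit => F) i) = 0} = 1 := by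
    rw [Nat.card_eq_one_iff_unique]
    exact ⟨⟨fun a b => Subtype.ext rfl⟩, ⟨⟨(), hFx⟩⟩⟩
  have h7 : truncCount κ (fun _ : Unit => F) (fun _ => d) ∅ x = 0 := by
    unfold truncCount
    have h8 : {w : Place κ L | (∀ v ∈ (∅ : Set (Place κ K)),
        ¬ (w.1.comap (algebraMap K L)).IsEquiv v.1) ∧
        ∃ i : Unit, aeval x ((fun _ : Unit => F) i) ≠ 0 ∧
          w.1 (aeval x ((fun _ : Unit => F) i)) < vmax w.1 x ^ (fun _ : Unit => d) i} = ∅ := by
      ext w
      simp only [Set.mem_ofPred_eq, Set.mem_empty_iff_false, iff_false, not_and, not_exists]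
      intro _ i h9
      exact absurd hFx h9
    rw [h8, Set.ncard_empty]
  rw [h6] at h3 h4
  rw [h7] at h4
  have h8 : ∑ _i : Unit, (d : ℤ) = d := by simp
  rw [h8] at h4
  have h9 : (1 : ℤ) ≤ n := by exact_mod_cast h3
  have h10 : ((n : ℤ) - 1) * (mu κ 1 x : ℤ) ≤ ((n : ℤ) - 1) * height κ x :=
    mul_le_mul_of_nonneg_left h5 (by linarith)
  push_cast at h4
  have h11 : ((d : ℤ) - 2 * n) * height κ x = (d - n - 1) * height κ x -
    ((n : ℤ) - 1) * height κ x := by ring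
  rw [h11]
  linarith

end Pool.Agent.Lib.MP_44a246_ntVT
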