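import Mathlib
import Pool.Agent.Lib.MP_44a246_ntSH.CW10a
import Pool.Agent.Lib.MP_44a246_ntVT.VE0
import Pool.Agent.Lib.MP_44a246_ntVT.VF01

/-!
# The sharp Vojta inequality for all but finitely many types of complete intersections
-/

namespace Pool.Agent.Lib.MP_44a246_ntVT

open Pool.Agent.Lib.MP_44a246_nt
open Pool.Agent.Lib.MP_44a246_ntL
open Pool.Agent.Lib.MP_44a246_ntS
open Pool.Agent.Lib.MP_44a246_ntG
open Pool.Agent.Lib.MP_44a246_ntK
open Pool.Agent.Lib.MP_44a246_ntU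
open Pool.Agent.Lib.MP_44a246_ntSH
open Pool.Agent.Lib.MP_e52354_nt
open MvPolynomial

universe u v w

/-- **The sharp Vojta inequality** for the points `x` of `X = {F_j = 0, j ∈ A}`, outside of a proper
closed subset, over the finite extensions with `R ≤ q h(x)`. -/
def VojtaAt (κ : Type u) {K : Type v} [Field κ] [Field K] [Algebra κ K] {n p : ℕ}
    (d : Fin p → ℕ) (A : Finset (Fin p)) (F : Fin p → MvPolynomial (Fin (n + 1)) K)
    (S : Set (Place κ K)) (q : ℕ) (ε : ℝ) : Prop :=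
  ∃ G : MvPolynomial (Fin (n + 1)) K, (∃ e, G.IsHomogeneous e) ∧
    (∃ z : Fin (n + 1) → AlgebraicClosure K, z ≠ 0 ∧ (∀ j ∈ A, aeval z (F j) = 0) ∧
      aeval z G ≠ 0) ∧
    ∃ C : ℕ, ∀ (L : Type w) [Field L] [Algebra K L] [FiniteDimensional K L] [Algebra κ L]
      [IsScalarTower κ K L] (x : Fin (n + 1) → L), x ≠ 0 → (∀ j ∈ A, aeval x (F j) = 0) →
      (ramDeg κ L K : ℤ) ≤ q * height κ x →
        (((∑ j, d j : ℕ) : ℝ) - n - 1 - ε) * height κ x ≤
            truncCount κ F d S x + ramDeg κ L K + C * Module.finrank K L ∨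
          aeval x G = 0

/-- the type of `X` -/
private theorem mem_types {p n₀ q n : ℕ} {d : Fin p → ℕ} {A : Finset (Fin p)} (hn : n < n₀)
    (hA : ∀ j ∈ A, d j ≤ 2 * n + q) :
    (n, A, fun j => if j ∈ A then d j else 0) ∈ (Finset.range n₀) ×ˢ
      ((Finset.univ : Finset (Finset (Fin p))) ×ˢ
        (Fintype.piFinset fun _ : Fin p => Finset.range (2 * n₀ + q))) := by
  rw [Finset.mem_product, Finset.mem_product, Finset.mem_range, Fintype.mem_piFinset]
  refine ⟨hn, Finset.mem_univ _, fun j => ?_⟩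
  show (if j ∈ A then d j else 0) ∈ Finset.range (2 * n₀ + q)
  rw [Finset.mem_range]
  split_ifs with h
  · have := hA j h
    omega
  · omega

/-- The case of a form of large degree which vanishes on `X`. -/
theorem vojtaAt_of_large {κ : Type u} {K : Type v} [Field κ] [IsAlgClosed κ] [CharZero κ]
    [Field K] [CharZero K] [Algebra κ K] {t : K} (ht : Transcendental κ t)
    (hfin : FiniteDimensional (IntermediateField.adjoin κ {t}) K) {n p q : ℕ}
    {d : Fin p → ℕ} (hd : ∀ j, 1 ≤ d j) {A : Finset (Fin p)} (hA : A.card < n)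
    {F : Fin p → MvPolynomial (Fin (n + 1)) K} (hF : ∀ j, (F j).IsHomogeneous (d j))
    (hgen : AlgebraicIndependent ℚ
      (fun I : {I : Fin p × (Fin (n + 1) →₀ ℕ) // I.2.degree = d I.1} => (F I.1.1).coeff I.1.2))
    (S : Set (Place κ K)) {j : Fin p} (hj : j ∈ A) (hjd : 2 * n + q < d j) {ε : ℝ} (hε : 0 < ε) :
    VojtaAt.{u, v, w} κ d A F S q ε := by
  classical
  have hK : IsFF κ K := ⟨t, ht, hfin⟩
  have hgenj : AlgebraicIndependent ℚ
      (fun I : {I : Fin (n + 1) →₀ ℕ // I.degree = d j} => (F j).coeff I.1) := by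
    have h3 : (fun I : {I : Fin (n + 1) →₀ ℕ // I.degree = d j} => (F j).coeff I.1) =
        (fun I : {I : Fin p × (Fin (n + 1) →₀ ℕ) // I.2.degree = d I.1} =>
          (F I.1.1).coeff I.1.2) ∘ (fun I => ⟨(j, I.1), I.2⟩) := rfl
    rw [h3]
    apply hgen.comp
    rintro ⟨I, hI⟩ ⟨J, hJ⟩ h
    simp only [Subtype.mk.injEq, Prod.mk.injEq, true_and] at h
    subst h
    rfl
  obtain ⟨C, hC⟩ := form_large.{u, v, w} ht hfin (hd j) (hF j) hgenj
  -- a point of `X`
  obtain ⟨p', hp'⟩ : ∃ p', p' = A.card := ⟨_, rfl⟩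
  obtain ⟨f, hf, hfA⟩ : ∃ f : Fin p' → Fin p, Function.Injective f ∧
      ∀ j, j ∈ A ↔ ∃ i, f i = j := by
    refine ⟨A.orderEmbOfFin hp'.symm, (A.orderEmbOfFin hp'.symm).injective, fun j => ?_⟩
    have h1 := Finset.range_orderEmbOfFin A hp'.symm
    constructor
    · intro hj
      have h2 : j ∈ Set.range (A.orderEmbOfFin hp'.symm) := by
        rw [h1]
        exact hj
      exact h2
    · rintro ⟨i, rfl⟩
      exact Finset.orderEmbOfFin_mem A hp'.symm i
  obtain ⟨R, hR⟩ : ∃ R, R + 2 + p' = n + 1 := ⟨n - 1 - p', by omega⟩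
  obtain ⟨e, he⟩ : ∃ e : Fin (R + 1) → Fin (n + 1), ∀ i, (e i).1 = i.1 + 1 :=
    ⟨fun i => ⟨i.1 + 1, by omega⟩, fun _ => rfl⟩
  have hei : Function.Injective e := by
    intro i i' hii
    have h1 := he i
    rw [hii, he i'] at h1
    exact Fin.ext (by omega)
  have he0 : ∀ i, e i ≠ 0 := by
    intro i h0
    have h1 := he i
    rw [h0] at h1
    simp at h1
  have ha' : AlgebraicIndependent ℚ
      (fun s : {s : Fin p' × (Fin (n + 1) →₀ ℕ) // s ∈ jexpo n (fun i => d (f i))} =>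
        (F (f s.1.1)).coeff s.1.2) :=
    algInd_sub (a := fun j I => (F j).coeff I) (algInd_jexpo hgen) hf
  obtain ⟨a', ha'e⟩ : ∃ a' : Fin p' → (Fin (n + 1) →₀ ℕ) → K,
    a' = fun i I => (F (f i)).coeff I := ⟨_, rfl⟩
  have ha'' : AlgebraicIndependent ℚ
      (fun s : {s : Fin p' × (Fin (n + 1) →₀ ℕ) // s ∈ jexpo n (fun i => d (f i))} =>
        a' s.1.1 s.1.2) := by
    rw [ha'e]
    exact ha'
  obtain ⟨z, hz1, hzF, -⟩ := exists_zero_neΩ (k := ℚ) (Ω := AlgebraicClosure K) hR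
    (d := fun i => d (f i)) (fun i => hd (f i)) ha'' hei he0
    (one_ne_zero : (1 : MvPolynomial (Fin (R + 1)) K) ≠ 0)
  refine ⟨1, ⟨0, isHomogeneous_one _ _⟩, ⟨z, ?_, fun i hi => ?_, ?_⟩, C * ∑ j, d j, ?_⟩
  · intro h0
    rw [h0] at hz1
    exact zero_ne_one hz1
  · obtain ⟨i', rfl⟩ := (hfA i).1 hi
    rw [aeval_eq_Fval (F (f i')) (hF (f i'))]
    have h1 := hzF i'
    rw [ha'e] at h1
    exact h1
  · rw [map_one]
    exact one_ne_zero
  intro L _ _ _ _ _ x hx hFx hR'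
  left
  have hL : IsFF κ L := hK.of_finite
  have hh0 : 0 ≤ height κ x := hL.height_nonneg hx
  have h1 := hC L x hx (hFx j hj)
  have h2 : height κ x ≤ C * (Module.finrank K L : ℤ) := by
    have h3 : ((q : ℤ) + 1) * height κ x ≤ ((d j : ℤ) - 2 * n) * height κ x := by
      refine mul_le_mul_of_nonneg_right ?_ hh0
      have : 2 * n + q + 1 ≤ d j := hjd
      have h4 : (2 * (n : ℤ) + q + 1) ≤ d j := by exact_mod_cast this
      linarith
    linarith
  have h2R : (height κ x : ℝ) ≤ C * (Module.finrank K L : ℝ) := by exact_mod_cast h2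
  have hh0R : (0 : ℝ) ≤ height κ x := by exact_mod_cast hh0
  have hn0 : (0 : ℝ) ≤ n := Nat.cast_nonneg _
  have hs0 : (0 : ℝ) ≤ ((∑ j, d j : ℕ) : ℝ) := Nat.cast_nonneg _
  have h5 : (((∑ j, d j : ℕ) : ℝ) - n - 1 - ε) * height κ x ≤
      ((∑ j, d j : ℕ) : ℝ) * height κ x := mul_le_mul_of_nonneg_right (by linarith) hh0R
  have h6 : ((∑ j, d j : ℕ) : ℝ) * height κ x ≤
      ((∑ j, d j : ℕ) : ℝ) * (C * (Module.finrank K L : ℝ)) :=
    mul_le_mul_of_nonneg_left h2R hs0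
  have h7 : ((C * ∑ j, d j : ℕ) : ℝ) * Module.finrank K L =
      ((∑ j, d j : ℕ) : ℝ) * (C * (Module.finrank K L : ℝ)) := by
    push_cast
    ring
  have h8 : (0 : ℝ) ≤ truncCount κ F d S x := Nat.cast_nonneg _
  have h9 : (0 : ℝ) ≤ ramDeg κ L K := Nat.cast_nonneg _
  rw [h7]
  linarith

/-- **The sharp Vojta inequality for all but finitely many types of complete intersections**, from
the theorem for large `n`. -/
theorem vojta_all_of {p q : ℕ} {ε : ℝ} (hε : 0 < ε)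
    (main : ∃ n₀ : ℕ, ∀ (n : ℕ) (d : Fin p → ℕ) (A : Finset (Fin p)), n₀ ≤ n →
      (∀ j, 1 ≤ d j) → n + 2 ≤ ∑ j ∈ A, d j →
      ∀ (κ : Type u) (K : Type v) [Field κ] [IsAlgClosed κ] [CharZero κ] [Field K] [CharZero K]
        [Algebra κ K] (_ : Cardinal.aleph0 ≤ Algebra.trdeg ℚ κ) (t : K) (_ : Transcendental κ t)
        (_ : FiniteDimensional (IntermediateField.adjoin κ {t}) K)
        (F : Fin p → MvPolynomial (Fin (n + 1)) K) (_ : ∀ j, (F j).IsHomogeneous (d j))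
        (_ : AlgebraicIndependent ℚ
          (fun I : {I : Fin p × (Fin (n + 1) →₀ ℕ) // I.2.degree = d I.1} =>
            (F I.1.1).coeff I.1.2))
        (S : Set (Place κ K)) (_ : S.Finite), VojtaAt.{u, v, w} κ d A F S q ε) :
    ∃ E : Finset (ℕ × Finset (Fin p) × (Fin p → ℕ)),
      (∀ e ∈ E, ∀ j ∈ e.2.1, e.2.2 j ≤ 2 * e.1 + q) ∧
      ∀ (n : ℕ) (d : Fin p → ℕ) (A : Finset (Fin p)), (∀ j, 1 ≤ d j) → n + 2 ≤ ∑ j ∈ A, d j →
      A.card < n → (n, A, fun j => if j ∈ A then d j else 0) ∉ E →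
      ∀ (κ : Type u) (K : Type v) [Field κ] [IsAlgClosed κ] [CharZero κ] [Field K] [CharZero K]
        [Algebra κ K] (_ : Cardinal.aleph0 ≤ Algebra.trdeg ℚ κ) (t : K) (_ : Transcendental κ t)
        (_ : FiniteDimensional (IntermediateField.adjoin κ {t}) K)
        (F : Fin p → MvPolynomial (Fin (n + 1)) K) (_ : ∀ j, (F j).IsHomogeneous (d j))
        (_ : AlgebraicIndependent ℚ
          (fun I : {I : Fin p × (Fin (n + 1) →₀ ℕ) // I.2.degree = d I.1} =>
            (F I.1.1).coeff I.1.2))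
        (S : Set (Place κ K)) (_ : S.Finite), VojtaAt.{u, v, w} κ d A F S q ε := by
  classical
  obtain ⟨n₀, hmain⟩ := main
  refine ⟨((Finset.range n₀) ×ˢ ((Finset.univ : Finset (Finset (Fin p))) ×ˢ
        (Fintype.piFinset fun _ : Fin p => Finset.range (2 * n₀ + q)))).filter
      (fun e => ∀ j ∈ e.2.1, e.2.2 j ≤ 2 * e.1 + q),
    fun e he => (Finset.mem_filter.1 he).2, ?_⟩
  intro n d A hd1 hd hA hE κ K _ _ _ _ _ _ htr t ht hfin F hF hgen S hS
  rcases le_or_gt n₀ n with hn | hn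
  · exact hmain n d A hn hd1 hd κ K htr t ht hfin F hF hgen S hS
  by_cases hj : ∃ j ∈ A, 2 * n + q < d j
  · obtain ⟨j, hj, hjd⟩ := hj
    exact vojtaAt_of_large ht hfin hd1 hA hF hgen S hj hjd hε
  push Not at hj
  exfalso
  apply hE
  rw [Finset.mem_filter]
  refine ⟨mem_types hn hj, fun j hjA => ?_⟩
  show (if j ∈ A then d j else 0) ≤ 2 * n + q
  rw [if_pos hjA]
  exact hj j hjA

end Pool.Agent.Lib.MP_44a246_ntVT
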