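import Mathlib
import Pool.Agent.Lib.MP_44a246_ntL.LMain
import Pool.Agent.Lib.MP_44a246_ntVT.VA6
import Pool.Agent.Lib.MP_44a246_ntVT.VB2
import Pool.Agent.Lib.MP_44a246_ntVT.VB3
import Pool.Agent.Lib.MP_44a246_ntVT.VC5
import Pool.Agent.Lib.MP_44a246_ntVT.VD2

/-!
# The sharp Vojta inequality over the base field, or a certificate
-/

namespace Pool.Agent.Lib.MP_44a246_ntVT

open Pool.Agent.Lib.MP_44a246_nt
open Pool.Agent.Lib.MP_44a246_ntL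
open Pool.Agent.Lib.MP_44a246_ntS
open Pool.Agent.Lib.MP_44a246_ntX
open Pool.Agent.Lib.MP_44a246_ntG
open Pool.Agent.Lib.MP_44a246_ntK
open Pool.Agent.Lib.MP_44a246_ntC
open Pool.Agent.Lib.MP_44a246_ntE
open Pool.Agent.Lib.MP_44a246_ntF
open Pool.Agent.Lib.MP_44a246_ntO
open Pool.Agent.Lib.MP_44a246_ntSH
open Pool.Agent.Lib.MP_44a246_ntI (SmallI)
open Pool.Agent.Lib.MP_44a246_ntR (genus)
open Pool.Agent.Lib.MP_e52354_nt
open WithZero Module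

universe u v w

/-- the indicator function of the contact places -/
private theorem sum_indicator {κ L : Type*} [Field κ] [Field L] [Algebra κ L]
    (T : Finset (Place κ L)) : ∃ ε : Place κ L → ℕ, (Function.support ε).Finite ∧
      (∀ w ∈ T, 1 ≤ ε w) ∧ ∑ᶠ w, (ε w : ℤ) = T.card := by
  classical
  obtain ⟨ε, hε⟩ : ∃ ε : Place κ L → ℕ, ∀ w, ε w = if w ∈ T then 1 else 0 := ⟨_, fun _ => rfl⟩
  have hsub : ∀ w, ε w ≠ 0 → w ∈ T := by
    intro w hw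
    by_contra h
    rw [hε, if_neg h] at hw
    exact hw rfl
  refine ⟨ε, T.finite_toSet.subset fun w hw => hsub w hw, fun w hw => ?_, ?_⟩
  · rw [hε, if_pos hw]
  · rw [finsum_eq_sum_of_support_subset (s := T) _ (fun w hw => hsub w (by
      rw [Function.mem_support] at hw
      exact_mod_cast hw))]
    rw [Finset.sum_congr rfl fun w hw => by rw [hε, if_pos hw]]
    simp

private theorem nn1 (S n p : ℕ) :
    (0 : ℤ) ≤ 27 * (S : ℤ) ^ 2 + (n + 1) * ((n + 1) * (n + 1) + p + 1) := by positivity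

private theorem nn2 (S n : ℕ) : (0 : ℤ) ≤ (S : ℤ) + 8 * (n + 1) := by positivity

private theorem nn3 (m : ℕ) : (0 : ℤ) ≤ 9 * (m : ℤ) := by positivity

private theorem nn4 (m : ℕ) : (0 : ℤ) ≤ 2 * (m : ℤ) := by positivity

private theorem nn5 (n : ℕ) : (0 : ℤ) ≤ 4 * ((n : ℤ) + 1) := by positivity

private theorem nn6 (n : ℕ) : (0 : ℤ) ≤ ((n : ℤ) + 2) ^ 20 := by positivity

private theorem nn7 (n p c : ℕ) : (0 : ℤ) ≤ (n : ℤ) + p + c := by positivity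

private theorem nn8 (C n : ℕ) {h : ℤ} (hh : (0 : ℝ) < h) : (0 : ℝ) ≤ C * h / n :=
  div_nonneg (mul_nonneg (Nat.cast_nonneg _) hh.le) (Nat.cast_nonneg _)

private theorem nn9 (C n : ℕ) {h t : ℝ} {f : ℝ} (hn : (0 : ℝ) < n)
    (hh : (n : ℝ) * (h - t) ≤ C * h * f) : h - t ≤ C * h / n * f := by
  rw [div_mul_eq_mul_div, le_div_iff₀ hn]
  linarith

/-- **The sharp Vojta inequality over the base field**, or a certificate. -/
theorem vojta_base (p q Q : ℕ) (hQ : Q = p * (4 * p + 1) * (q + 3)) {ε : ℝ} (hε : 0 < ε)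
    (hε1 : ε ≤ 1) : ∃ n₀ C₁ : ℕ, ∀ (n : ℕ) (d : Fin p → ℕ), n₀ ≤ n → (∀ j, 2 ≤ d j) →
    ∀ (κ : Type u) (K : Type v) [Field κ] [IsAlgClosed κ] [CharZero κ] [Field K] [CharZero K]
      [Algebra κ K] (_ : IsFF κ K) (_ : Cardinal.aleph0 ≤ Algebra.trdeg ℚ κ)
      (a : Fin p → (Fin (n + 1) →₀ ℕ) → K)
      (_ : AlgebraicIndependent ℚ
        (fun s : {s : Fin p × (Fin (n + 1) →₀ ℕ) // s ∈ jexpo n d} => a s.1.1 s.1.2)),
    ∃ C : ℕ, ∀ (L : Type w) [Field L] [Algebra K L] [FiniteDimensional K L]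
      [Algebra κ L] [IsScalarTower κ K L] (x : Fin (n + 1) → L), x ≠ 0 →
      ∀ T : Finset (Place κ L),
      (∀ w ∉ T, ∀ j, Fval (d j) (fun I => algebraMap K L (a j I)) x ≠ 0 →
        w.1 (Fval (d j) (fun I => algebraMap K L (a j I)) x) = vmax w.1 x ^ d j) →
      (∀ θ : ℝ, θ ≤ q → θ + ε ≤ ((∑ j, d j : ℕ) : ℝ) - n - 1 →
        θ * height κ x ≤ ramDeg κ L K + T.card + C * finrank K L) ∨
      ∀ {ι : Type} (f : ι → Fin p),
        (∀ i, Fval (d (f i)) (fun I => algebraMap K L (a (f i) I)) x = 0) →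
        CertSP (fun i => d (f i)) (fun i I => algebraMap K L (a (f i) I)) (C₁ * n)
          (n / (4000 * Q) + 1) x ∨
        CertSP (fun i => d (f i)) (fun i I => algebraMap K L (a (f i) I)) (n / (400 * Q)) 1 x := by
  classical
  rcases Nat.eq_zero_or_pos p with hp | hp
  · subst hp
    refine ⟨0, 0, fun n d _ _ κ K _ _ _ _ _ _ hK htr a ha => ⟨0, fun L _ _ _ _ _ x hx T hT =>
      Or.inl fun θ _ hθ => ?_⟩⟩
    have hL : IsFF κ L := hK.of_finite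
    have h0 : 0 ≤ height κ x := hL.height_nonneg hx
    have h0R : (0 : ℝ) ≤ height κ x := by exact_mod_cast h0
    rw [Finset.univ_eq_empty, Finset.sum_empty, Nat.cast_zero] at hθ
    have h1 : (0 : ℝ) ≤ n := Nat.cast_nonneg _
    have h2 : θ * height κ x ≤ 0 := mul_nonpos_of_nonpos_of_nonneg (by linarith) h0R
    refine h2.trans ?_
    positivity
  have hQ1 : 1 ≤ Q := by
    rw [hQ]
    exact Nat.mul_pos (Nat.mul_pos hp (by omega)) (by omega)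
  have hQp : 15 * p ≤ Q := by
    rw [hQ]
    have h1 : 5 * 3 ≤ (4 * p + 1) * (q + 3) := Nat.mul_le_mul (by omega) (by omega)
    calc 15 * p = p * (5 * 3) := by ring
      _ ≤ p * ((4 * p + 1) * (q + 3)) := Nat.mul_le_mul_left _ h1
      _ = _ := by ring
  have hQq : q ≤ Q := by
    rw [hQ]
    have h1 : 1 ≤ p * (4 * p + 1) := Nat.mul_pos hp (by omega)
    calc q ≤ 1 * (q + 3) := by omega
      _ ≤ _ := Nat.mul_le_mul_right _ h1
  obtain ⟨C₀, hC₀⟩ : ∃ C₀ : ℕ, C₀ = 2000 * Q := ⟨_, rfl⟩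
  obtain ⟨C₈r, hC₈r, hP⟩ := plane_of_hypG.{u, w} p p (C₀ : ℝ) ε (by
    have : 1000 ≤ C₀ := by omega
    exact_mod_cast this) hε hε1
  obtain ⟨C₈, hC₈⟩ : ∃ C₈ : ℕ, C₈r ≤ C₈ := exists_nat_ge _
  obtain ⟨C₁, hC₁⟩ : ∃ C₁ : ℕ, 1664 / ε ≤ C₁ := exists_nat_ge _
  obtain ⟨nD, hnD⟩ : ∃ nD : ℕ, nD = 20 * (C₁ + 1) * (C₈ + 1) := ⟨_, rfl⟩
  refine ⟨nD + 20000 * Q + p * C₀ + C₀ + q + 1000, C₁,
    fun n d hn hd2 κ K _ _ _ _ _ _ hK htr a ha => ?_⟩
  have hnD' : nD ≤ n := by omega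
  have hnQ : 20000 * Q ≤ n := by omega
  have hn1000 : 1000 ≤ n := by omega
  have hpC : p * C₀ ≤ n := by omega
  have hn4 : ¬ n < C₀ + q + 3 := by omega
  clear hn
  have hnC₈ : C₈r ≤ n := by
    refine hC₈.trans ?_
    have : C₈ ≤ n := by
      have h1 : 1 * (C₈ + 1) ≤ 20 * (C₁ + 1) * (C₈ + 1) := Nat.mul_le_mul_right _ (by omega)
      omega
    exact_mod_cast this
  by_cases hd : n + 2 ≤ ∑ j, d j
  swap
  · refine ⟨0, fun L _ _ _ _ _ x hx T hT => Or.inl fun θ _ hθ => ?_⟩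
    have hL : IsFF κ L := hK.of_finite
    have h0 : 0 ≤ height κ x := hL.height_nonneg hx
    have h0R : (0 : ℝ) ≤ height κ x := by exact_mod_cast h0
    have h1 : ((∑ j, d j : ℕ) : ℝ) ≤ n + 1 := by
      have : ∑ j, d j ≤ n + 1 := by omega
      exact_mod_cast this
    have h2 : θ * height κ x ≤ 0 := mul_nonpos_of_nonpos_of_nonneg (by linarith) h0R
    refine h2.trans ?_
    positivity
  -- a form of degree at least three
  obtain ⟨j₀, hj₀⟩ : ∃ j₀, 3 ≤ d j₀ := by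
    by_contra hcon
    push Not at hcon
    have h1 : ∑ j, d j ≤ ∑ _j : Fin p, 2 := Finset.sum_le_sum fun j _ => by
      have := hcon j
      omega
    rw [Finset.sum_const, Finset.card_univ, Fintype.card_fin, smul_eq_mul] at h1
    omega
  obtain ⟨C₂, hC₂⟩ := exists_datSC.{u, v, w} hK htr (n := n) (d := d) (j₀ := j₀) hj₀ ha
  obtain ⟨C₃, hC₃⟩ := exists_rowT.{u, v, w} hK htr (n := n) (d := d) (j₀ := j₀) hj₀ ha
  obtain ⟨S, hS⟩ : ∃ S : ℕ, S = ∑ j, d j := ⟨_, rfl⟩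
  obtain ⟨b, hb⟩ : ∃ b : ℕ, b = n / (400 * Q) := ⟨_, rfl⟩
  have hb1 : 400 * Q * b ≤ n := by
    rw [hb]
    exact Nat.mul_div_le n (400 * Q)
  have hb2 : n < 400 * Q * (b + 1) := by
    rw [hb, mul_add, mul_one]
    have := Nat.div_add_mod n (400 * Q)
    have h2 := Nat.mod_lt n (show 0 < 400 * Q by omega)
    omega
  have hb50 : 50 ≤ b := by
    rw [hb, Nat.le_div_iff_mul_le (by omega)]
    omega
  obtain ⟨c, hc⟩ : ∃ c : ℕ, c = Fintype.card (Σ j : Fin p, EX (n + 1) (d j)) := ⟨_, rfl⟩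
  obtain ⟨c₁, hc₁⟩ : ∃ c₁ : ℕ,
    c₁ = (27 * S ^ 2 + (n + 1) * ((n + 1) * (n + 1) + p + 1)) * C₂ := ⟨_, rfl⟩
  obtain ⟨c₂, hc₂⟩ : ∃ c₂ : ℕ, c₂ = 2 * ((S + 8 * (n + 1)) * C₂ + b * C₂) := ⟨_, rfl⟩
  obtain ⟨c₃, hc₃⟩ : ∃ c₃ : ℕ, c₃ = 9 * (C₁ * n) * C₂ := ⟨_, rfl⟩
  obtain ⟨c₄, hc₄⟩ : ∃ c₄ : ℕ, c₄ = 2 * (C₁ * n) * C₂ := ⟨_, rfl⟩
  obtain ⟨c₅, hc₅⟩ : ∃ c₅ : ℕ, c₅ = 4 * (n + 1) * C₂ := ⟨_, rfl⟩
  obtain ⟨c₆, hc₆⟩ : ∃ c₆ : ℕ, c₆ = ((n + p + c) * C₃ + C₂ + 1) * (n + 2) ^ 20 := ⟨_, rfl⟩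
  refine ⟨(q + 1) * (c₁ + c₂ + c₃ + c₄ + c₅ + c₆), ?_⟩
  intro L _ _ _ _ _ x hx T hT
  rw [or_iff_not_imp_left]
  intro hcon
  push Not at hcon
  obtain ⟨θ, hθq, hθ, hlt⟩ := hcon
  intro ι f hF
  have hL : IsFF κ L := hK.of_finite
  have hchar : CharZero L := charZero_of_injective_algebraMap (algebraMap K L).injective
  have hH0 : 0 ≤ height κ x := hL.height_nonneg hx
  have hH0R : (0 : ℝ) ≤ height κ x := by exact_mod_cast hH0
  obtain ⟨D, hD⟩ : ∃ D : ℤ, D = (finrank K L : ℤ) := ⟨_, rfl⟩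
  have hD1 : 1 ≤ D := by rw [hD]; exact_mod_cast Module.finrank_pos (R := K) (M := L)
  have hD1R : (1 : ℝ) ≤ D := by exact_mod_cast hD1
  have hDR : (D : ℝ) = finrank K L := by rw [hD]; push_cast; rfl
  have hr0 : (0 : ℝ) ≤ ramDeg κ L K := Nat.cast_nonneg _
  have hT0 : (0 : ℝ) ≤ T.card := Nat.cast_nonneg _
  -- the height is large
  obtain ⟨Cs, hCs⟩ : ∃ Cs : ℕ, Cs = c₁ + c₂ + c₃ + c₄ + c₅ + c₆ := ⟨_, rfl⟩
  rw [← hCs, ← hDR] at hlt
  have hCD : (0 : ℝ) ≤ (((q + 1) * Cs : ℕ) : ℝ) * D :=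
    mul_nonneg (Nat.cast_nonneg _) (by linarith)
  have hθH : (ramDeg κ L K : ℝ) + T.card < θ * height κ x := by linarith
  have hqH : θ * height κ x ≤ q * height κ x := mul_le_mul_of_nonneg_right hθq hH0R
  have hRq : (ramDeg κ L K : ℝ) + T.card ≤ q * height κ x := by linarith
  have hHpos : (0 : ℝ) < height κ x := by
    by_contra h0
    have h1 : (height κ x : ℝ) = 0 := le_antisymm (not_lt.1 h0) hH0R
    rw [h1, mul_zero] at hθH
    linarith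
  have hgain : ε * height κ x ≤
      (((∑ j, d j : ℕ) : ℝ) - n - 1) * height κ x - (ramDeg κ L K + T.card) := by
    have h1 : (θ + ε) * height κ x ≤ (((∑ j, d j : ℕ) : ℝ) - n - 1) * height κ x :=
      mul_le_mul_of_nonneg_right hθ hH0R
    linarith
  have hRk : (ramDeg κ L K : ℝ) + T.card ≤
      (((∑ j, d j : ℕ) : ℝ) - n - 1) * height κ x := by
    have : 0 ≤ ε * height κ x := mul_nonneg hε.le hH0R
    linarith
  have hCsD : ((Cs : ℕ) : ℤ) * D < height κ x := by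
    have h1 : (((q + 1) * Cs : ℕ) : ℝ) * D < (q + 1) * height κ x := by
      have : (0 : ℝ) < height κ x := hHpos
      linarith
    have h2 : ((q : ℝ) + 1) * ((Cs : ℝ) * D) < (q + 1) * height κ x := by
      refine lt_of_le_of_lt (le_of_eq ?_) h1
      push_cast
      ring
    have h3 : (Cs : ℝ) * D < height κ x := lt_of_mul_lt_mul_left h2
      (add_nonneg (Nat.cast_nonneg _) zero_le_one)
    exact_mod_cast h3
  -- the data
  obtain ⟨X, t, τ, ht0, hXx, hXa, hh, hτ, hτa, hΔ, hXR, hτs, -, -⟩ := hC₂ L x hx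
  have hXF : ∀ j, Fval (d j) (X.a j) X.x =
      t ^ d j * Fval (d j) (fun I => algebraMap K L (a j I)) x := by
    intro j
    rw [hXx, hXa, Fval_smul]
  have hXF0 : ∀ i, Fval (d (f i)) (X.a (f i)) X.x = 0 := fun i => by
    rw [hXF, hF i, mul_zero]
  have hXT : ∀ w ∉ T, ∀ j, Fval (d j) (X.a j) X.x ≠ 0 →
      w.1 (Fval (d j) (X.a j) X.x) = vmax w.1 X.x ^ d j := by
    intro w hw j hj
    rw [hXF] at hj ⊢
    rw [map_mul, map_pow, hT w hw j (right_ne_zero_of_mul hj), hXx, vmax_smul, mul_pow]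
  have hXT' : ∀ w ∉ T, ∀ j, Fval (d j) (fun I => algebraMap K L (a j I)) X.x ≠ 0 →
      w.1 (Fval (d j) (fun I => algebraMap K L (a j I)) X.x) = vmax w.1 X.x ^ d j := by
    intro w hw j hj
    have h1 := hXT w hw j
    rw [hXa] at h1
    exact h1 hj
  obtain ⟨R, hRx, hRΔ, hRR, hRU⟩ := hC₃ L X.x X.x_ne_zero T hXT'
  obtain ⟨e, he, heT, hesum⟩ := sum_indicator T
  have hveT : ∀ w : Place κ L, (∀ j, X.toDatC.v j ≠ 0 →
      w.1 (X.toDatC.v j) = vmax w.1 X.x ^ d j) ∨ 1 ≤ e w := by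
    intro w
    by_cases hw : w ∈ T
    · exact Or.inr (heT w hw)
    · exact Or.inl fun j hj => hXT w hw j hj
  rw [← hh] at hCsD hH0R hθH hRq hHpos hgain hRk
  have hC20 : (0 : ℤ) ≤ C₂ := Int.natCast_nonneg _
  have hD0 : (0 : ℤ) ≤ D := by linarith
  rw [← hD] at hΔ hτs hRΔ
  have hΔ0 := X.toDatC.Δ_nonneg
  have hτ0 : 0 ≤ ∑ᶠ w, (τ w : ℤ) := finsum_nonneg fun w => Int.natCast_nonneg _
  -- the six parts of the constant
  have p1 : (0 : ℤ) ≤ (c₁ : ℤ) * D := mul_nonneg (Int.natCast_nonneg _) hD0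
  have p2 : (0 : ℤ) ≤ (c₂ : ℤ) * D := mul_nonneg (Int.natCast_nonneg _) hD0
  have p3 : (0 : ℤ) ≤ (c₃ : ℤ) * D := mul_nonneg (Int.natCast_nonneg _) hD0
  have p4 : (0 : ℤ) ≤ (c₄ : ℤ) * D := mul_nonneg (Int.natCast_nonneg _) hD0
  have p5 : (0 : ℤ) ≤ (c₅ : ℤ) * D := mul_nonneg (Int.natCast_nonneg _) hD0
  have p6 : (0 : ℤ) ≤ (c₆ : ℤ) * D := mul_nonneg (Int.natCast_nonneg _) hD0
  have hsum : (c₁ : ℤ) * D + (c₂ : ℤ) * D + (c₃ : ℤ) * D + (c₄ : ℤ) * D + (c₅ : ℤ) * D +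
      (c₆ : ℤ) * D < height κ X.x := by
    refine lt_of_le_of_lt (le_of_eq ?_) hCsD
    rw [hCs]
    push_cast
    ring
  have hpos : 0 < height κ X.x := by exact_mod_cast hHpos
  have b1 : (27 * ((∑ j, d j : ℕ) : ℤ) ^ 2 + (n + 1) * ((n + 1) * (n + 1) + p + 1)) *
      X.toDatC.Δ < height κ X.x := by
    rw [← hS]
    have h1 : (27 * (S : ℤ) ^ 2 + (n + 1) * ((n + 1) * (n + 1) + p + 1)) * X.toDatC.Δ ≤
        (27 * (S : ℤ) ^ 2 + (n + 1) * ((n + 1) * (n + 1) + p + 1)) * (C₂ * D) :=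
      mul_le_mul_of_nonneg_left hΔ (nn1 S n p)
    have h2 : (27 * (S : ℤ) ^ 2 + (n + 1) * ((n + 1) * (n + 1) + p + 1)) * (C₂ * D) =
        (c₁ : ℤ) * D := by
      rw [hc₁]
      push_cast
      ring
    linarith
  have b2 : 2 * ((((∑ j, d j : ℕ) : ℤ) + 8 * (n + 1)) * X.toDatC.Δ +
      b * ∑ᶠ w, (τ w : ℤ)) < height κ X.x := by
    rw [← hS]
    have h1 : ((S : ℤ) + 8 * (n + 1)) * X.toDatC.Δ ≤ ((S : ℤ) + 8 * (n + 1)) * (C₂ * D) :=
      mul_le_mul_of_nonneg_left hΔ (nn2 S n)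
    have h3 : (b : ℤ) * ∑ᶠ w, (τ w : ℤ) ≤ b * (C₂ * D) :=
      mul_le_mul_of_nonneg_left hτs (Int.natCast_nonneg _)
    have h2 : 2 * (((S : ℤ) + 8 * (n + 1)) * (C₂ * D) + b * (C₂ * D)) = (c₂ : ℤ) * D := by
      rw [hc₂]
      push_cast
      ring
    linarith
  have b3 : 9 * ((C₁ * n : ℕ) : ℤ) * X.toDatC.Δ ≤ height κ X.x := by
    have h1 : 9 * ((C₁ * n : ℕ) : ℤ) * X.toDatC.Δ ≤ 9 * ((C₁ * n : ℕ) : ℤ) * (C₂ * D) :=
      mul_le_mul_of_nonneg_left hΔ (nn3 _)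
    have h2 : 9 * ((C₁ * n : ℕ) : ℤ) * (C₂ * D) = (c₃ : ℤ) * D := by
      rw [hc₃]
      push_cast
      ring
    linarith
  have b4 : 2 * ((C₁ * n : ℕ) : ℤ) * ∑ᶠ w, (τ w : ℤ) ≤ height κ X.x := by
    have h1 : 2 * ((C₁ * n : ℕ) : ℤ) * ∑ᶠ w, (τ w : ℤ) ≤ 2 * ((C₁ * n : ℕ) : ℤ) * (C₂ * D) :=
      mul_le_mul_of_nonneg_left hτs (nn4 _)
    have h2 : 2 * ((C₁ * n : ℕ) : ℤ) * (C₂ * D) = (c₄ : ℤ) * D := by
      rw [hc₄]
      push_cast
      ring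
    linarith
  have b5 : 4 * ((n : ℤ) + 1) * X.toDatC.Δ ≤ height κ X.x := by
    have h1 : 4 * ((n : ℤ) + 1) * X.toDatC.Δ ≤ 4 * ((n : ℤ) + 1) * (C₂ * D) :=
      mul_le_mul_of_nonneg_left hΔ (nn5 n)
    have h2 : 4 * ((n : ℤ) + 1) * (C₂ * D) = (c₅ : ℤ) * D := by
      rw [hc₅]
      push_cast
      ring
    linarith
  -- the error term
  obtain ⟨E, hE⟩ : ∃ E : ℤ, E = (n + p + c) * R.Δ' + X.toDatC.Δ + 1 := ⟨_, rfl⟩
  have hRΔ0 : 0 ≤ R.Δ' := R.Δ'_nonneg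
  have hnpc : (0 : ℤ) ≤ (n : ℤ) + p + c := nn7 n p c
  have hE1 : 1 ≤ E := by
    rw [hE]
    have : 0 ≤ ((n : ℤ) + p + c) * R.Δ' := mul_nonneg hnpc hRΔ0
    linarith
  have b6 : (E : ℝ) * ((n : ℝ) + 2) ^ 20 ≤ height κ X.x := by
    have h1 : E ≤ ((n + p + c) * C₃ + C₂ + 1) * D := by
      have k1 : ((n : ℤ) + p + c) * R.Δ' ≤ (n + p + c) * (C₃ * D) :=
        mul_le_mul_of_nonneg_left hRΔ hnpc
      rw [hE]
      have k3 : (((n : ℤ) + p + c) * C₃ + C₂ + 1) * D =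
          (n + p + c) * (C₃ * D) + C₂ * D + D := by
        ring
      linarith
    have h2 : E * ((n : ℤ) + 2) ^ 20 ≤ ((n + p + c) * C₃ + C₂ + 1) * D * ((n : ℤ) + 2) ^ 20 :=
      mul_le_mul_of_nonneg_right h1 (nn6 n)
    have h3 : (((n : ℤ) + p + c) * C₃ + C₂ + 1) * D * ((n : ℤ) + 2) ^ 20 = (c₆ : ℤ) * D := by
      rw [hc₆]
      push_cast
      ring
    have h4 : E * ((n : ℤ) + 2) ^ 20 ≤ height κ X.x := by linarith
    exact_mod_cast h4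
  -- Step 0
  have hbn : 400 * p * (b * (4 * p + 1)) * (q + 3) ≤ n := by
    refine le_trans (le_of_eq ?_) hb1
    rw [hQ]
    ring
  have hbC : 42 * (20 * n + 9 * C₀) ≤ 180 * (C₀ * b) := by
    have h1 : C₀ * b = 5 * (400 * Q * b) := by
      rw [hC₀]
      ring
    have h2 : 400 * Q * (b + 1) = 400 * Q * b + 400 * Q := by ring
    have h3 : 400 * Q * 50 ≤ 400 * Q * b := Nat.mul_le_mul_left _ hb50
    rw [h2] at hb2
    rw [h1]
    omega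
  have hRqZ : X.toDatC.R + ∑ᶠ w, (e w : ℤ) ≤ q * height κ X.x := by
    rw [hXR, hesum]
    exact_mod_cast hRq
  have hRkZ : X.toDatC.R + ∑ᶠ w, (e w : ℤ) ≤
      ((∑ j, (d j : ℤ)) - n - 1) * height κ X.x := by
    rw [hXR, hesum]
    have h1 := hRk
    push_cast at h1
    exact_mod_cast h1
  have hRq1 : X.toDatC.R ≤ q * height κ X.x := by
    have : 0 ≤ ∑ᶠ w, (e w : ℤ) := finsum_nonneg fun w => Int.natCast_nonneg _
    linarith
  have hC1n : ∀ y : ℕ, (y : ℝ) ≤ 1664 * n / ε → y ≤ C₁ * n := by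
    intro y hy
    have h1 : 1664 * (n : ℝ) / ε = 1664 / ε * n := by ring
    have h2 : (1664 / ε) * (n : ℝ) ≤ C₁ * n := mul_le_mul_of_nonneg_right hC₁ (Nat.cast_nonneg _)
    have h3 : (y : ℝ) ≤ ((C₁ * n : ℕ) : ℝ) := by
      push_cast
      linarith
    exact_mod_cast h3
  rcases step0VL hL (b := b) (C₀ := C₀) (q := q) X.toDatC he hveT (by omega)
    (fun j => le_trans (by norm_num) (hd2 j)) hd (by omega) hbn (by omega) hpC hbC hRqZ hRkZ b1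
    with ⟨hdn, hsl⟩ | ⟨j, hmax, hnd, hsm⟩
  · left
    have hnR : (0 : ℝ) < n := by
      have : 0 < n := by omega
      exact_mod_cast this
    have hyp : HypG κ X.toP.x d p C₀ (C₀ * height κ X.x / n) E ε := by
      refine ⟨X.x_ne_zero, fun Q₁ hQ₁ => ?_, nn8 C₀ n hHpos, ?_, hd, hd2, ?_,
        by exact_mod_cast hE1, b6, hε, hε1⟩
      · have h1 := hsl Q₁ hQ₁
        exact nn9 C₀ n hnR h1
      · show (C₀ * (height κ X.x : ℝ) / n) * n ≤ C₀ * height κ X.x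
        rw [div_mul_cancel₀ _ hnR.ne']
      · show RowsG κ X.x d p (ε * height κ X.x) E
        have h1 := rowsG_of_data hL R hRU
        rw [hRx, ← hc] at h1
        refine h1.mono ?_ ?_
        · rw [hE]
          push_cast
          have h2 : (0 : ℝ) ≤ X.toDatC.Δ := by exact_mod_cast hΔ0
          linarith
        · refine hgain.trans ?_
          have h2 : (R.R : ℝ) ≤ ramDeg κ L K + T.card := by exact_mod_cast hRR
          linarith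
    have hΔE : (X.toP.Δ : ℝ) ≤ (E : ℝ) := by
      have h1 : X.toP.Δ = X.toDatC.Δ := rfl
      have h2 : X.toDatC.Δ ≤ E := by
        rw [hE]
        have h3 : 0 ≤ ((n : ℤ) + p + c) * R.Δ' := mul_nonneg hnpc hRΔ0
        linarith
      rw [h1]
      exact_mod_cast h2
    obtain ⟨g, P, hg, hP0, hPh, hPe, hPs⟩ := hP n d hnC₈ κ L hL X.toP _ _ hyp hΔE
    have hPs' : (polyHeight κ P : ℝ) * n ^ 2 ≤ C₈ * height κ X.x :=
      hPs.trans (mul_le_mul_of_nonneg_right hC₈ hHpos.le)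
    have h1 := certSP_of_slopeVL hL X f hXF0 j₀ (C₀ := C₀) (C₁ := C₁) (C₈ := C₈) (by omega)
      (by omega) (by omega) hsl hτ hτa (hC1n g hg) hP0 hPh hPe hPs' hpos b3 b4 b5
    rw [hXx, show 2 * C₀ = 4000 * Q by rw [hC₀]; ring] at h1
    have h2 : (fun i => X.a (f i)) = fun i I => algebraMap K L (a (f i) I) := by
      rw [hXa]
    rw [h2] at h1
    exact (certSP_smul ht0).1 h1
  · right
    have h1 := certSP_of_smallIVL hL X f hXF0 (by omega) hbn hτ hτa hmax hnd hsm hRq1 b2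
    rw [hXx] at h1
    have h2 : (fun i => X.a (f i)) = fun i I => algebraMap K L (a (f i) I) := by
      rw [hXa]
    rw [h2] at h1
    rw [← hb]
    exact (certSP_smul ht0).1 h1

end Pool.Agent.Lib.MP_44a246_ntVT
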