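import Mathlib
import Pool.Agent.Lib.MP_44a246_ntSH.SU3
import Pool.Agent.Lib.MP_44a246_ntSH.SU4

/-!
# Sharp Vojta inequality: step 0, a copy of `ntSH/SU1`, `ntSH/SU3`, `ntSH/SU4` with large `R`

In the old step 0 the ramification `R` is much smaller than the height `H`. Here only `R ≤ q H` and
`R ≤ (∑ d j - n - 1) H` are known. `pairHyp_datC` (SU2) with `k = ∑ d j - n - 2` has the error
`(n + 1) ^ 2 Δ + R`, and `k H - R ≥ - H`: so `PairHyp κ x d p n 0 0 (H + (n + 1) ^ 2 Δ)` holds. The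
extra `H` does not matter: in `lemmaP_steepP` (SU1) the cost is at least `36 H - (H + E) = 35 H - E`,
which is exactly what `block_abs` needs, and `numU` (SU3) has a lot of room. The curve is then
improved in the block `j` of MAXIMAL degree (`X.pt` does not depend on the block) by `smallI_block`
with `E₀ = 0` and this `q`.
-/

namespace Pool.Agent.Lib.MP_44a246_ntVT

open Pool.Agent.Lib.MP_44a246_nt
open Pool.Agent.Lib.MP_44a246_ntL
open Pool.Agent.Lib.MP_44a246_ntS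
open Pool.Agent.Lib.MP_44a246_ntX
open Pool.Agent.Lib.MP_44a246_ntG
open Pool.Agent.Lib.MP_44a246_ntK
open Pool.Agent.Lib.MP_44a246_ntF
open Pool.Agent.Lib.MP_44a246_ntA
open Pool.Agent.Lib.MP_44a246_ntC
open Pool.Agent.Lib.MP_44a246_ntI
open Pool.Agent.Lib.MP_44a246_ntSH
open Pool.Agent.Lib.MP_44a246_ntO (PairHyp one_le_finrank_aux cost_le_aux block_abs exists_slope)
open Pool.Agent.Lib.MP_e52354_nt
open WithZero Module

/-- **Lemma P from a steep subspace**, with the error `H + E`. Proof: `lemmaP_steepP` (SU1). -/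
theorem lemmaP_steepV {κ K : Type*} [Field κ] [IsAlgClosed κ] [CharZero κ] [Field K] [Algebra κ K]
    {n : ℕ} (h : IsFF κ K) (hn : 2 ≤ n) {x : Fin n → K} (hx : x ≠ 0) {p : ℕ}
    {d : Fin p → ℕ} {ρ r : ℕ} (hρ : 1 ≤ ρ) {E : ℝ} (hE : 0 ≤ E)
    (hP : PairHyp κ x d ρ r 0 0 (height κ x + E))
    {C₀ : ℕ} (hC : 360 * ρ + 10 ≤ C₀) {E₁ : Submodule K (Fin n → K)} (hxE : x ∈ E₁)
    (hE2 : 2 ≤ finrank K E₁)
    (hsl : (C₀ : ℝ) * height κ x * ((finrank K E₁ : ℝ) - 1) ≤ r * ((height κ x : ℝ) - ht κ E₁))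
    (hEH : n * E ≤ height κ x) (hH : 0 < height κ x) :
    ∃ P : Submodule K (Fin n → K), x ∈ P ∧ 20 * ht κ P ≤ height κ x ∧
      9 * (C₀ : ℝ) * ((finrank K P : ℝ) - 1) ≤ 20 * r := by
  obtain ⟨E', M, hxE', hE2', hEM, hM⟩ := exists_slope h hx (by rw [Fintype.card_fin]; exact hn)
  have hHR : (0 : ℝ) < height κ x := by exact_mod_cast hH
  have hr0 : (0 : ℝ) ≤ r := Nat.cast_nonneg r
  have hρR : (1 : ℝ) ≤ ρ := by exact_mod_cast hρ
  have hCR : 360 * (ρ : ℝ) + 10 ≤ C₀ := by exact_mod_cast hC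
  have hE2R : (2 : ℝ) ≤ finrank K E₁ := by exact_mod_cast hE2
  have hE2R' : (2 : ℝ) ≤ finrank K E' := by exact_mod_cast hE2'
  have hE1ht : (0 : ℝ) ≤ ht κ E' := by exact_mod_cast ht_nonneg h E'
  have hnR : (2 : ℝ) ≤ n := by exact_mod_cast hn
  have hEH1 : E ≤ height κ x / 2 := by nlinarith
  -- `r M ≥ C₀ H`
  have hrM : (C₀ : ℝ) * height κ x ≤ r * M := by
    have h1 := hM E₁ hxE
    have h2 : (C₀ : ℝ) * height κ x * ((finrank K E₁ : ℝ) - 1) ≤
        r * M * ((finrank K E₁ : ℝ) - 1) := by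
      refine hsl.trans ((mul_le_mul_of_nonneg_left h1 hr0).trans (le_of_eq ?_))
      ring
    exact le_of_mul_le_mul_right h2 (by linarith)
  have hCH : 0 < (C₀ : ℝ) * height κ x := mul_pos (by linarith) hHR
  have hM0 : 0 < M := by
    by_contra hM0
    have h1 : (r : ℝ) * M ≤ 0 := mul_nonpos_of_nonneg_of_nonpos hr0 (not_lt.1 hM0)
    linarith
  have hMH : M ≤ height κ x := by
    have h1 : M * 1 ≤ M * ((finrank K E' : ℝ) - 1) :=
      mul_le_mul_of_nonneg_left (by linarith) hM0.le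
    linarith
  obtain ⟨j, U, hU, hle⟩ := hP E' hxE' (9 / 20 * M) (by linarith)
  have hU0 : (0 : ℝ) ≤ ht κ U := by exact_mod_cast ht_nonneg h U
  have hU1 : (1 : ℝ) ≤ finrank K U := by
    exact_mod_cast one_le_finrank_aux (xm_ne_zero hx) hU
  have hcost' : 35 * (height κ x : ℝ) - E ≤
      (d j : ℝ) * height κ x - ht κ U - 9 / 20 * M * ((finrank K U : ℝ) - 1) := by
    have h2 : 0 ≤ ((finrank K E' : ℝ) - 2) * (M * r) :=
      mul_nonneg (by linarith) (mul_nonneg hM0.le hr0)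
    have h3 : 36 * ρ * (height κ x : ℝ) + height κ x ≤ r * M / 10 := by
      have h4 : (360 * ρ + 10) * (height κ x : ℝ) ≤ C₀ * height κ x :=
        mul_le_mul_of_nonneg_right hCR hHR.le
      linarith
    have h30 : 0 ≤ 36 * ρ * (height κ x : ℝ) := by positivity
    have h4 : 0 ≤ ((finrank K E' : ℝ) - 2) * (r * M / 10 - height κ x) :=
      mul_nonneg (by linarith) (by linarith)
    generalize (d j : ℝ) * height κ x - ht κ U - 9 / 20 * M * ((finrank K U : ℝ) - 1) = c at hle ⊢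
    have h5 : (ρ : ℝ) * (35 * height κ x - E) ≤ ρ * c := by
      have h6 : 36 * ρ * (height κ x : ℝ) - (height κ x + E) ≤ ρ * c := by
        push_cast at hle
        nlinarith
      have h7 : height κ x + E ≤ ρ * (height κ x + E) :=
        le_mul_of_one_le_left (by linarith) hρR
      nlinarith
    exact le_of_mul_le_mul_left h5 (by linarith)
  have hD0 : 1 ≤ d j := by
    by_contra hcon
    have h1 : (d j : ℝ) = 0 := by
      have : d j = 0 := by omega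
      exact_mod_cast this
    rw [h1] at hcost'
    have h3 : 0 ≤ 9 / 20 * M * ((finrank K U : ℝ) - 1) := mul_nonneg (by linarith) (by linarith)
    linarith
  have hD : 36 ≤ d j := by
    by_contra hcon
    have h1 : (d j : ℝ) ≤ 35 := by
      have : d j ≤ 35 := by omega
      exact_mod_cast this
    have h2 : (d j : ℝ) * height κ x ≤ 35 * height κ x := mul_le_mul_of_nonneg_right h1 hHR.le
    have h3 := cost_le_aux h hx hM hD0 hU
    linarith
  obtain ⟨P, hxP, hP1, hP2⟩ := block_abs h hx hM0 hMH hM hD hU hE hEH hcost'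
  refine ⟨P, hxP, hP1, ?_⟩
  have hP3 : (1 : ℝ) ≤ finrank K P := by exact_mod_cast one_le_finrank_aux hx hxP
  have h3 : (r : ℝ) * (9 / 20 * M * ((finrank K P : ℝ) - 1)) ≤ r * height κ x :=
    mul_le_mul_of_nonneg_left hP2 hr0
  have h4 : (C₀ : ℝ) * height κ x * ((finrank K P : ℝ) - 1) ≤ r * M * ((finrank K P : ℝ) - 1) :=
    mul_le_mul_of_nonneg_right hrM (by linarith)
  have h5 : (9 * (C₀ : ℝ) * ((finrank K P : ℝ) - 1)) * height κ x ≤ (20 * r) * height κ x := by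
    nlinarith
  exact le_of_mul_le_mul_right h5 hHR

/-- the numerical contradiction -/
private theorem numV {H y E z l : ℝ} {n ρ b m C₀ : ℕ} (hH : 0 < H) (hE : E < 2 * H) (hρ : 1 ≤ ρ)
    (hb : 6 ≤ b) (hm : 1 ≤ m) (hbn : 400 * ρ * (b * m) ≤ n) (hC : 0 < C₀)
    (hbC : 42 * (20 * n + 9 * C₀) ≤ 180 * (C₀ * b)) (hy : 20 * y ≤ H)
    (hl : 9 * (C₀ : ℝ) * (l - 1) ≤ 20 * n)
    (h1 : (0 - (l - 1)) * H + n * (H - y) - 21 * H / (20 * b) * (l * n) - E ≤ ρ * z)
    (h2 : 4 * (ρ * z) ≤ n * H ∨ z ≤ (12 * (b * m) + 2 * b - 1) * H + 21 * H / (20 * b)) :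
    False := by
  have hC0 : (0 : ℝ) < C₀ := by exact_mod_cast hC
  have hbCR : 42 * (20 * (n : ℝ) + 9 * C₀) ≤ 180 * (C₀ * b) := by exact_mod_cast hbC
  have hb6 : (6 : ℝ) ≤ b := by exact_mod_cast hb
  have hbr : (0 : ℝ) < b := by linarith
  have hρR : (1 : ℝ) ≤ ρ := by exact_mod_cast hρ
  have hmR : (1 : ℝ) ≤ m := by exact_mod_cast hm
  have hbnR : 400 * (ρ : ℝ) * (b * m) ≤ n := by exact_mod_cast hbn
  have hn0 : (0 : ℝ) ≤ n := Nat.cast_nonneg n
  -- `42 l ≤ 20 b`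
  have hl42 : 42 * l ≤ 20 * b := by
    have h3 : (9 * (C₀ : ℝ)) * (42 * l) ≤ (9 * C₀) * (20 * b) := by nlinarith
    exact le_of_mul_le_mul_left h3 (by linarith)
  set q : ℝ := 21 * H / (20 * b) with hq
  have hqb : q * b = 21 * H / 20 := by
    rw [hq]
    field_simp
  have hq0 : 0 ≤ q := by positivity
  have hql : q * l ≤ H / 2 := by
    have h3 := mul_le_mul_of_nonneg_left hl42 hq0
    nlinarith
  have hqln : q * (l * n) ≤ H / 2 * n := by
    have := mul_le_mul_of_nonneg_right hql hn0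
    linarith
  have hny : (n : ℝ) * (19 * H) ≤ 20 * (n * (H - y)) := by
    have := mul_le_mul_of_nonneg_left (by linarith : 19 * H ≤ 20 * (H - y)) hn0
    linarith
  have hlH : l * H ≤ 20 * b / 42 * H := mul_le_mul_of_nonneg_right (by linarith) hH.le
  have hbm : (b : ℝ) ≤ b * m := le_mul_of_one_le_right hbr.le hmR
  have hbmρ : (b : ℝ) * m ≤ ρ * (b * m) := le_mul_of_one_le_left (by positivity) hρR
  have hbH : 400 * (b * H) ≤ n * H := by
    have : 400 * (b : ℝ) ≤ n := by linarith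
    have h3 := mul_le_mul_of_nonneg_right this hH.le
    linarith
  have hb6H : 6 * H ≤ b * H := mul_le_mul_of_nonneg_right hb6 hH.le
  have hlow : (n : ℝ) * H < 4 * (ρ * z) := by
    have h3 : (n : ℝ) * (H - y) - q * (l * n) - (l - 1) * H - 2 * H < ρ * z := by linarith
    nlinarith
  rcases h2 with h2 | h2
  · linarith
  · have hq1 : q ≤ 21 * H / 120 := by
      have h3 : q * 6 ≤ q * b := mul_le_mul_of_nonneg_left hb6 hq0
      linarith
    have h3 : (ρ : ℝ) * z ≤ ρ * ((12 * (b * m) + 2 * b - 1) * H + q) :=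
      mul_le_mul_of_nonneg_left h2 (by linarith)
    have h4 : (12 * (b * m) + 2 * b - 1) * H + q ≤ 14 * (b * m) * H := by
      have h5 : (b : ℝ) * H ≤ b * m * H := mul_le_mul_of_nonneg_right hbm hH.le
      nlinarith
    have h5 : (ρ : ℝ) * ((12 * (b * m) + 2 * b - 1) * H + q) ≤ ρ * (14 * (b * m) * H) :=
      mul_le_mul_of_nonneg_left h4 (by linarith)
    have h6 : 400 * (ρ : ℝ) * (b * m) * H ≤ n * H := mul_le_mul_of_nonneg_right hbnR hH.le
    have h7 : (0 : ℝ) ≤ ρ * (b * m) * H := by positivity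
    nlinarith

/-- **The curve**, from a subspace of small height and small dimension. Proof: `curve_steepP` (SU3),
the numerical lemma `numU` there has to be copied with `E < 2 H`. -/
theorem curve_steepV {κ L : Type*} [Field κ] [IsAlgClosed κ] [CharZero κ] [Field L] [CharZero L]
    [Algebra κ L] (h : IsFF κ L) {n p ρ b m C₀ : ℕ} {d : Fin p → ℕ} (X : DatC κ (L := L) n d)
    (hρ : 1 ≤ ρ) (hb : 6 ≤ b) (hm : 1 ≤ m) (hbn : 400 * ρ * (b * m) ≤ n) (hC : 0 < C₀)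
    (hbC : 42 * (20 * n + 9 * C₀) ≤ 180 * (C₀ * b))
    (hH : 0 < height κ X.x) {E : ℝ} (hE : E < 2 * height κ X.x)
    (hP : PairHyp κ X.x d ρ n 0 0 E)
    {P : Submodule L (Fin (n + 1) → L)} (hxP : X.x ∈ P) (hPH : 20 * ht κ P ≤ height κ X.x)
    (hPd : 9 * (C₀ : ℝ) * ((finrank L P : ℝ) - 1) ≤ 20 * n) :
    ∃ (j : Fin p) (a : ℕ) (A : MvPolynomial (Fin 3) L), n ≤ 4 * ρ * d j ∧ a ≤ b ∧ A ≠ 0 ∧
      A.IsHomogeneous a ∧ MvPolynomial.eval X.pt A = 0 ∧
      21 * (a * (m * polyHeight κ A)) ≤ height κ X.x := by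
  have hHr : (0 : ℝ) < (height κ X.x : ℝ) := by exact_mod_cast hH
  have hb6 : (6 : ℝ) ≤ b := by exact_mod_cast hb
  have hbr : (0 : ℝ) < b := by linarith
  have hx0 : X.x ≠ 0 := by
    intro h1
    have h2 := X.h0
    rw [h1] at h2
    simp at h2
  obtain ⟨j, U, hU, h1⟩ := hP P hxP (21 * height κ X.x / (20 * b)) (by positivity)
  have hy : 20 * (ht κ P : ℝ) ≤ (height κ X.x : ℝ) := by exact_mod_cast hPH
  have h1' : (0 - ((finrank L P : ℝ) - 1)) * height κ X.x + n * ((height κ X.x : ℝ) - ht κ P) -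
      21 * height κ X.x / (20 * b) * ((finrank L P : ℝ) * n) - E ≤
      ρ * ((d j : ℝ) * height κ X.x - ht κ U -
        21 * height κ X.x / (20 * b) * ((finrank L U : ℝ) - 1)) := by
    push_cast at h1
    rw [add_zero] at h1
    exact h1
  rcases Nat.lt_or_ge (4 * ρ * d j) n with hj | hj
  · exfalso
    refine numV hHr hE hρ hb hm hbn hC hbC hy hPd h1' (Or.inl ?_)
    have hU0 : (0 : ℝ) ≤ ht κ U := by exact_mod_cast ht_nonneg h U
    have hU1 : (1 : ℝ) ≤ finrank L U := by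
      exact_mod_cast one_le_finrank_aux (xm_ne_zero hx0) hU
    have h3 : 0 ≤ 21 * (height κ X.x : ℝ) / (20 * b) * ((finrank L U : ℝ) - 1) :=
      mul_nonneg (by positivity) (by linarith)
    have h4 : 4 * (ρ : ℝ) * d j ≤ n := by exact_mod_cast hj.le
    have h5 := mul_le_mul_of_nonneg_right h4 hHr.le
    have h6 : (ρ : ℝ) * ((d j : ℝ) * height κ X.x - ht κ U -
        21 * height κ X.x / (20 * b) * ((finrank L U : ℝ) - 1)) ≤ ρ * (d j * height κ X.x) :=
      mul_le_mul_of_nonneg_left (by linarith) (Nat.cast_nonneg _)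
    linarith
  · have hdj : 14 * (b * m) ≤ d j := by
      have h2 : 4 * ρ * (100 * (b * m)) ≤ 4 * ρ * d j := by
        refine le_trans (le_of_eq ?_) (hbn.trans hj)
        ring
      have h3 : 100 * (b * m) ≤ d j := Nat.le_of_mul_le_mul_left h2 (by omega)
      omega
    rcases plane_block4 h (X.blk j) (by omega) hm hdj hH (U := U) hU with
      ⟨a, A, g1, g2, g3, g4, g5⟩ | h2
    · exact ⟨j, a, A, hj, g1, g2, g3, g4, g5⟩
    · exact (numV hHr hE hρ hb hm hbn hC hbC hy hPd h1' (Or.inr h2)).elim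

/-- the error of the pair hypothesis and the number `k` -/
private theorem pairHyp_change {κ L : Type*} [Field κ] [Field L] [Algebra κ L] {n p : ℕ}
    {x : Fin n → L} {d : Fin p → ℕ} {ρ r k k' : ℕ} {E E' : ℝ} (hP : PairHyp κ x d ρ r 0 k E)
    (hE : (k' : ℝ) * height κ x + E ≤ k * height κ x + E') :
    PairHyp κ x d ρ r 0 k' E' := by
  intro Λ hx t ht0
  obtain ⟨j, U, hU, hle⟩ := hP Λ hx t ht0
  exact ⟨j, U, hU, by linarith⟩

/-- The sum of the degrees, if all the slopes are small; the error may contain `q H`. -/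
private theorem sum_le_of_slopeV {κ K : Type*} [Field κ] [IsAlgClosed κ] [CharZero κ] [Field K]
    [Algebra κ K] {n : ℕ} (h : IsFF κ K) (hn : 1 ≤ n) {x : Fin n → K} (hx : x ≠ 0) {p : ℕ}
    {d : Fin p → ℕ} (hd : ∀ j, 1 ≤ d j) {ρ r k q : ℕ} {E : ℝ} (hE : 0 ≤ E)
    (hP : PairHyp κ x d ρ r 0 k (E + q * height κ x)) {C₀ : ℕ}
    (hsl : ∀ E₁ : Submodule K (Fin n → K), x ∈ E₁ →
      r * ((height κ x : ℝ) - ht κ E₁) ≤ C₀ * height κ x * ((finrank K E₁ : ℝ) - 1))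
    (hEH : n * E < height κ x) (hr : 1 ≤ r) : k ≤ C₀ + q := by
  have hE' : 0 ≤ (n : ℝ) * E := mul_nonneg (Nat.cast_nonneg _) hE
  have hHR : (0 : ℝ) < height κ x := lt_of_le_of_lt hE' hEH
  have hrR : (1 : ℝ) ≤ r := by exact_mod_cast hr
  have hr0 : (0 : ℝ) < r := by linarith
  have hnR : (1 : ℝ) ≤ n := by exact_mod_cast hn
  have hEH1 : E < height κ x := by nlinarith
  obtain ⟨M, hM⟩ : ∃ M : ℝ, M = C₀ * height κ x / r := ⟨_, rfl⟩
  have hM0 : 0 ≤ M := by rw [hM]; positivity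
  have hMr : M * r = C₀ * height κ x := by rw [hM]; field_simp
  have hslM : ∀ E₁ : Submodule K (Fin n → K), x ∈ E₁ →
      (height κ x : ℝ) - ht κ E₁ ≤ M * ((finrank K E₁ : ℝ) - 1) := by
    intro E₁ hE₁
    have h1 := hsl E₁ hE₁
    refine le_of_mul_le_mul_left (h1.trans (le_of_eq ?_)) hr0
    rw [← hMr]
    ring
  obtain ⟨j, U, hU, hle⟩ := hP (K ∙ x) (Submodule.mem_span_singleton_self x) M hM0
  rw [finrank_span_singleton hx, ht_single h hx] at hle
  have h1 := cost_le_aux h hx hslM (hd j) hU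
  have h2 : (ρ : ℝ) * ((d j : ℝ) * height κ x - ht κ U - M * ((finrank K U : ℝ) - 1)) ≤ 0 :=
    mul_nonpos_of_nonneg_of_nonpos (Nat.cast_nonneg _) (by linarith)
  have h3 : (k : ℝ) * height κ x < (C₀ + q + 1) * height κ x := by
    push_cast at hle
    nlinarith
  have h4 : (k : ℝ) < C₀ + q + 1 := lt_of_mul_lt_mul_right h3 hHR.le
  have h5 : k < C₀ + q + 1 := by exact_mod_cast h4
  omega

/-- **Step 0.** Proof: `step0P` (SU3). For the sum of the degrees: `sum_le_of_slope` (SU1) with the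
error `(n + 1) ^ 2 Δ + R ≤ (n + 1) ^ 2 Δ + q H` (copy its proof: `k H ≤ C₀ H + E`, so
`k < C₀ + q + 1` for `k = ∑ d j - n - 2`). For the curve: `lemmaP_steepV`, `curve_steepV` with
`m = 4 p + 1`, then `j` of maximal degree (`n ≤ 4 p d j` remains true), `smallI_block` with `q`,
`E₀ = 0`: `100 (b (4 p + 1)) (q + 3) ≤ d j` by `hbn`. -/
theorem step0V {κ L : Type*} [Field κ] [IsAlgClosed κ] [CharZero κ] [Field L] [CharZero L]
    [Algebra κ L] (h : IsFF κ L) {n p b C₀ q : ℕ} {d : Fin p → ℕ} (X : DatC κ (L := L) n d)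
    (hF : ∀ j, Fval (d j) (X.a j) X.x = 0) (hn : 1 ≤ n) (hd1 : ∀ j, 1 ≤ d j)
    (hd : n + 2 ≤ ∑ j, d j) (hb : 6 ≤ b) (hbn : 400 * p * (b * (4 * p + 1)) * (q + 3) ≤ n)
    (hC : 360 * p + 10 ≤ C₀) (hbC : 42 * (20 * n + 9 * C₀) ≤ 180 * (C₀ * b))
    (hRq : X.R ≤ q * height κ X.x) (hRk : X.R ≤ ((∑ j, (d j : ℤ)) - n - 1) * height κ X.x)
    (hbig : (27 * ((∑ j, d j : ℕ) : ℤ) ^ 2 + (n + 1) * ((n + 1) * (n + 1))) * X.Δ <
      height κ X.x) :
    (∑ j, d j ≤ n + C₀ + q + 2 ∧ ∀ E₁ : Submodule L (Fin (n + 1) → L), X.x ∈ E₁ →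
      n * ((height κ X.x : ℝ) - ht κ E₁) ≤ C₀ * height κ X.x * ((finrank L E₁ : ℝ) - 1)) ∨
    ∃ j, (∀ i, d i ≤ d j) ∧ n ≤ 4 * p * d j ∧ SmallI (X.blk j) b q := by
  classical
  have hp : 1 ≤ p := by
    by_contra hcon
    have h1 : p = 0 := by omega
    subst h1
    rw [Finset.univ_eq_empty, Finset.sum_empty] at hd
    omega
  have hΔ := X.Δ_nonneg
  have hR := X.R_nonneg
  have hH : 0 < height κ X.x := lt_of_le_of_lt (mul_nonneg (by positivity) hΔ) hbig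
  have hHr : (0 : ℝ) < height κ X.x := by exact_mod_cast hH
  have hx0 : X.x ≠ 0 := by
    intro h1
    have h2 := X.h0
    rw [h1] at h2
    simp at h2
  set E : ℝ := (((((n + 1) * (n + 1) : ℕ) : ℤ) * X.Δ : ℤ) : ℝ) with hE
  have hE0 : 0 ≤ E := by
    rw [hE]
    exact_mod_cast mul_nonneg (Int.natCast_nonneg _) hΔ
  have hEH : ((n + 1 : ℕ) : ℝ) * E < height κ X.x := by
    have h1 : ((n + 1 : ℕ) : ℤ) * (((((n + 1) * (n + 1) : ℕ) : ℤ)) * X.Δ) < height κ X.x := by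
      have h3 : 0 ≤ 27 * ((∑ j, d j : ℕ) : ℤ) ^ 2 * X.Δ := mul_nonneg (by positivity) hΔ
      push_cast at h3 hbig ⊢
      linarith
    rw [hE]
    exact_mod_cast h1
  have hn1 : (1 : ℝ) ≤ n := by exact_mod_cast hn
  have hEH' : E < height κ X.x := by
    have h1 : E ≤ ((n + 1 : ℕ) : ℝ) * E := by
      push_cast
      nlinarith
    linarith
  have hRqr : (X.R : ℝ) ≤ q * height κ X.x := by exact_mod_cast hRq
  obtain ⟨k, hk⟩ : ∃ k, k + n + 2 = ∑ j, d j := ⟨∑ j, d j - (n + 2), by omega⟩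
  have hPk := pairHyp_datC h X hF hp hk.le
  have hEE : (((((n + 1) * (n + 1) : ℕ) : ℤ) * X.Δ + X.R : ℤ) : ℝ) = E + X.R := by
    rw [hE]
    push_cast
    ring
  rw [hEE] at hPk
  have hRkr : (X.R : ℝ) ≤ (k + 1) * height κ X.x := by
    have h1 : X.R ≤ ((k : ℤ) + 1) * height κ X.x := by
      refine hRk.trans (le_of_eq ?_)
      have h2 : (∑ j, (d j : ℤ)) = k + n + 2 := by exact_mod_cast hk.symm
      rw [h2]
      ring
    exact_mod_cast h1
  by_cases hall : ∀ E₁ : Submodule L (Fin (n + 1) → L), X.x ∈ E₁ →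
      n * ((height κ X.x : ℝ) - ht κ E₁) ≤ C₀ * height κ X.x * ((finrank L E₁ : ℝ) - 1)
  · refine Or.inl ⟨?_, hall⟩
    have h1 := sum_le_of_slopeV h (n := n + 1) (k := k) (q := q) (by omega) hx0 hd1 hE0
      (pairHyp_change hPk (by linarith)) hall hEH hn
    omega
  right
  obtain ⟨E₁, hE₁⟩ := not_forall.1 hall
  obtain ⟨hxE, hsl⟩ := Classical.not_imp.1 hE₁
  rw [not_le] at hsl
  -- the dimension of the steep space
  have hE2 : 2 ≤ finrank L E₁ := by
    have h1 := one_le_finrank_aux hx0 hxE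
    by_contra hcon
    have h2 : finrank L E₁ = 1 := by omega
    have h3 : E₁ = L ∙ X.x := by
      symm
      refine Submodule.eq_of_le_of_finrank_eq
        ((Submodule.span_singleton_le_iff_mem _ _).2 hxE) ?_
      rw [finrank_span_singleton hx0, h2]
    rw [h3, finrank_span_singleton hx0, ht_single h hx0] at hsl
    simp at hsl
  have hP : PairHyp κ X.x d p n 0 0 (height κ X.x + E) := by
    refine pairHyp_change hPk ?_
    push_cast
    linarith
  obtain ⟨P, hxP, hPH, hPd⟩ := lemmaP_steepV h (n := n + 1) (by omega) hx0 (d := d) (r := n)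
    hp hE0 hP hC hxE hE2 hsl.le hEH.le hH
  have hbn1 : 400 * p * (b * (4 * p + 1)) ≤ n :=
    (Nat.le_mul_of_pos_right _ (by omega)).trans hbn
  obtain ⟨j₀, a, A, hj₀, h1, h2, h3, h4, h5⟩ := curve_steepV h X (b := b) (C₀ := C₀) hp hb
    (by omega) hbn1 (by omega) hbC hH (by linarith : (height κ X.x : ℝ) + E < 2 * height κ X.x)
    hP hxP hPH hPd
  -- the block of maximal degree
  obtain ⟨j, -, hmax⟩ := Finset.exists_max_image Finset.univ d ⟨j₀, Finset.mem_univ j₀⟩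
  have hmax' : ∀ i, d i ≤ d j := fun i => hmax i (Finset.mem_univ i)
  have hj : n ≤ 4 * p * d j := hj₀.trans (Nat.mul_le_mul_left _ (hmax' j₀))
  refine ⟨j, hmax', hj, ?_⟩
  have hdj3 : 100 * (b * (4 * p + 1)) * (q + 3) ≤ d j := by
    have h6 : 4 * p * (100 * (b * (4 * p + 1)) * (q + 3)) ≤ 4 * p * d j := by
      refine le_trans (le_of_eq ?_) (hbn.trans hj)
      ring
    exact Nat.le_of_mul_le_mul_left h6 (by omega)
  have hdj : 100 * (b * (4 * p + 1)) ≤ d j :=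
    (Nat.le_mul_of_pos_right _ (by omega)).trans hdj3
  have hbq : 50 * (b * (q + 3)) + 5 * Fintype.card (Fin 0) ≤ 2 * d j := by
    rw [Fintype.card_fin]
    have h6 : 100 * (b * (q + 3)) ≤ 100 * (b * (4 * p + 1)) * (q + 3) := by
      have h7 : 100 * (b * (4 * p + 1)) * (q + 3) = 100 * (b * (q + 3)) * (4 * p + 1) := by ring
      rw [h7]
      exact Nat.le_mul_of_pos_right _ (by omega)
    omega
  have hnd : n + 1 ≤ (4 * p + 1) * d j := by
    have h6 : (4 * p + 1) * d j = 4 * p * d j + d j := by ring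
    have h7 : 1 ≤ d j := hd1 j
    omega
  have hv0 : (X.blk j).v = 0 := hF j
  have hrow0 : (X.blk j).row (X.blk j).v = 0 := by
    rw [hv0]
    funext K
    exact map_zero _
  have hr₀ : finrank L (X.blk j).Ux ≤ n + 1 := by
    refine (finrank_range_le_card (R := L)
      (fun i : Fin (n + 1) => (X.blk j).row ((X.blk j).x i))).trans ?_
    rw [Fintype.card_fin]
  refine smallI_block h (m := 4 * p + 1) (r := n + 1) (r₀ := n + 1) (q := q) (Λ := Fin 0)
    (γ := Fin 0) (by omega) hb hdj hbq hnd (X.blk j)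
    (finVJ h (X.blk j))
    (β := Fin.elim0) (fun t => t.elim0) (η := Fin.elim0) (fun t => t.elim0) (t := Fin.elim0)
    (ε := fun _ => 0) (by simp) (fun w => Or.inl fun t => t.elim0)
    (by rw [hrow0]; exact Submodule.zero_mem _) hr₀
    (by rw [Fintype.card_fin]) (E₀ := 0) le_rfl (by simp; exact hRq)
    ⟨a, A, h1, h2, h3, h4, h5⟩ ?_
  have h6 : 0 ≤ ((n : ℤ) + 1) * ((n + 1) * (n + 1)) * X.Δ :=
    mul_nonneg (by positivity) hΔ
  have h7 : (d j : ℤ) ≤ ((∑ j, d j : ℕ) : ℤ) := by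
    exact_mod_cast Finset.single_le_sum (f := d) (fun _ _ => Nat.zero_le _) (Finset.mem_univ j)
  have h8 : (d j : ℤ) ^ 2 ≤ ((∑ j, d j : ℕ) : ℤ) ^ 2 :=
    pow_le_pow_left₀ (Int.natCast_nonneg _) h7 2
  have h9 : 27 * (d j : ℤ) ^ 2 * X.Δ ≤ 27 * ((∑ j, d j : ℕ) : ℤ) ^ 2 * X.Δ :=
    mul_le_mul_of_nonneg_right (by linarith) hΔ
  have h10 : (X.blk j).Δ = X.Δ := rfl
  have h11 : height κ (X.blk j).x = height κ X.x := rfl
  rw [h10, h11, add_zero]
  linarith

/-- **The certificate of a curve of small degree.** Proof: `certSP_of_smallI` (SU4). With `D = d j`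
(maximal), `g = gh κ A`: `3 D ^ 2 g ≤ D ^ 2 Δ + 23 R`, `R ≤ q H`, `3000 (q + 3) ≤ D` and
`n ≤ 4 p D`, `600 (4 p + 1) (q + 3) ≤ D`: so `D g ≤ D Δ + H / 300` and
`2 (n + 1) (3 g + Δ) ≤ 4 (n + 1) Δ + H / 5`. -/
theorem certSP_of_smallIV {κ L : Type*} [Field κ] [IsAlgClosed κ] [CharZero κ] [Field L]
    [CharZero L] [Algebra κ L] (h : IsFF κ L) {n p b q : ℕ} {d : Fin p → ℕ}
    (X : DatSC κ (L := L) n d) (hF : ∀ j, Fval (d j) (X.a j) X.x = 0) (hb : 6 ≤ b)
    (hbn : 400 * p * (b * (4 * p + 1)) * (q + 3) ≤ n)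
    {τ : Place κ L → ℕ} (hτ : (Function.support τ).Finite)
    (ha : ∀ (w : Place κ L) j, ∀ I ∈ expo (Fin (n + 1)) (d j), w.1 (X.a j I) ≤ exp (τ w : ℤ))
    {j : Fin p} (hmax : ∀ i, d i ≤ d j) (hnd : n ≤ 4 * p * d j) (hS : SmallI (X.blk j) b q)
    (hRq : X.R ≤ q * height κ X.x)
    (hbig : 2 * ((((∑ j, d j : ℕ) : ℤ) + 8 * (n + 1)) * X.Δ + b * ∑ᶠ w, (τ w : ℤ)) <
      height κ X.x) :
    CertSP d X.a b 1 X.x := by
  have hp : 1 ≤ p := Nat.one_le_iff_ne_zero.2 fun h0 => by subst h0; exact j.elim0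
  obtain ⟨a, A, P, h1, h2, h3, -, -, -, h7, -, h9⟩ := hS
  have hΔ : 0 ≤ X.Δ := X.Δ_nonneg
  have hR : 0 ≤ X.R := X.R_nonneg
  have e1 : (X.blk j).Δ = X.Δ := rfl
  have e2 : (X.blk j).R = X.R := rfl
  rw [e1] at h7
  rw [e1, e2] at h9
  have hΘ : 0 ≤ ∑ᶠ w, (τ w : ℤ) := finsum_nonneg fun w => Int.natCast_nonneg _
  have hgA : 0 ≤ gh κ A := gh_nonneg h h3.irr.ne_zero
  have hx0 := X.x_ne_zero
  have hH : 0 < height κ X.x := by
    refine lt_of_le_of_lt ?_ hbig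
    have k1 : 0 ≤ (((∑ j, d j : ℕ) : ℤ) + 8 * (n + 1)) * X.Δ := mul_nonneg (by positivity) hΔ
    have k2 : 0 ≤ (b : ℤ) * ∑ᶠ w, (τ w : ℤ) := mul_nonneg (Int.natCast_nonneg _) hΘ
    linarith
  -- the degree `d j`
  have hD0 : 100 * (b * (4 * p + 1)) * (q + 3) ≤ d j := by
    have h6 : 4 * p * (100 * (b * (4 * p + 1)) * (q + 3)) ≤ 4 * p * d j := by
      refine le_trans (le_of_eq ?_) (hbn.trans hnd)
      ring
    exact Nat.le_of_mul_le_mul_left h6 (by omega)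
  have hD1 : 600 * ((4 * p + 1) * (q + 3)) ≤ d j := by
    refine le_trans ?_ hD0
    have h6 : 100 * (b * (4 * p + 1)) * (q + 3) = 100 * b * ((4 * p + 1) * (q + 3)) := by ring
    rw [h6]
    exact Nat.mul_le_mul_right _ (by omega)
  have hD2 : 3000 * (q + 3) ≤ d j := by
    refine le_trans ?_ hD1
    have h6 : 600 * ((4 * p + 1) * (q + 3)) = 600 * (4 * p + 1) * (q + 3) := by ring
    rw [h6]
    exact Nat.mul_le_mul_right _ (by omega)
  have hD1z : 600 * ((4 * (p : ℤ) + 1) * (q + 3)) ≤ d j := by exact_mod_cast hD1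
  have hD2z : 3000 * ((q : ℤ) + 3) ≤ d j := by exact_mod_cast hD2
  have hq0 : (0 : ℤ) ≤ q := Int.natCast_nonneg _
  have hp0 : (0 : ℤ) ≤ p := Int.natCast_nonneg _
  have hDpos : (0 : ℤ) < d j := by linarith
  have hn1 : (n : ℤ) + 1 ≤ (4 * p + 1) * d j := by
    have h6 : n + 1 ≤ (4 * p + 1) * d j := by
      have h7 : (4 * p + 1) * d j = 4 * p * d j + d j := by ring
      omega
    exact_mod_cast h6
  -- the height of the curve
  have h9' : 3 * ((d j : ℤ) ^ 2 * gh κ A) ≤ (d j : ℤ) ^ 2 * X.Δ + 23 * (q * height κ X.x) := by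
    linarith
  have hDg : 300 * ((d j : ℤ) * gh κ A) ≤ 300 * (d j * X.Δ) + height κ X.x := by
    refine le_of_mul_le_mul_left ?_ hDpos
    have k1 : 2300 * ((q : ℤ) * height κ X.x) ≤ d j * height κ X.x := by
      have k2 : 2300 * (q : ℤ) ≤ d j := by linarith
      have k3 := mul_le_mul_of_nonneg_right k2 hH.le
      linarith
    have k4 : 0 ≤ (d j : ℤ) ^ 2 * X.Δ := mul_nonneg (by positivity) hΔ
    have k5 : (d j : ℤ) * (300 * ((d j : ℤ) * gh κ A)) = 100 * (3 * ((d j : ℤ) ^ 2 * gh κ A)) := by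
      ring
    have k6 : (d j : ℤ) * (300 * (d j * X.Δ) + height κ X.x) =
        300 * ((d j : ℤ) ^ 2 * X.Δ) + d j * height κ X.x := by ring
    rw [k5, k6]
    linarith
  have hng : 30 * (((n : ℤ) + 1) * gh κ A) ≤ 10 * ((n + 1) * X.Δ) + height κ X.x := by
    have hDD : (0 : ℤ) < (d j : ℤ) ^ 2 := by positivity
    refine le_of_mul_le_mul_left ?_ hDD
    have k1 : 230 * (((n : ℤ) + 1) * q) ≤ (d j : ℤ) ^ 2 := by
      have k2 : 230 * (((n : ℤ) + 1) * q) ≤ 230 * (((4 * p + 1) * d j) * q) := by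
        have := mul_le_mul_of_nonneg_right hn1 hq0
        linarith
      have k3 : 230 * ((4 * (p : ℤ) + 1) * q) ≤ d j := by
        have k4 : 0 ≤ (4 * (p : ℤ) + 1) * q := by positivity
        linarith
      have k5 := mul_le_mul_of_nonneg_right k3 hDpos.le
      have k6 : 230 * ((4 * (p : ℤ) + 1) * q) * d j = 230 * (((4 * p + 1) * d j) * q) := by ring
      rw [k6] at k5
      linarith [sq (d j : ℤ)]
    have k7 := mul_le_mul_of_nonneg_right k1 hH.le
    have k8 := mul_le_mul_of_nonneg_left h9' (by positivity : (0 : ℤ) ≤ 10 * ((n : ℤ) + 1))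
    have k9 : (d j : ℤ) ^ 2 * (30 * (((n : ℤ) + 1) * gh κ A)) =
        10 * ((n : ℤ) + 1) * (3 * ((d j : ℤ) ^ 2 * gh κ A)) := by ring
    rw [k9]
    refine k8.trans ?_
    have k10 : 10 * ((n : ℤ) + 1) * ((d j : ℤ) ^ 2 * X.Δ + 23 * (q * height κ X.x)) =
        (d j : ℤ) ^ 2 * (10 * ((n + 1) * X.Δ)) + 230 * (((n : ℤ) + 1) * q) * height κ X.x := by ring
    rw [k10]
    linarith
  have hab : (a : ℤ) ≤ b := by exact_mod_cast h2
  have haΘ : (a : ℤ) * ∑ᶠ w, (τ w : ℤ) ≤ b * ∑ᶠ w, (τ w : ℤ) :=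
    mul_le_mul_of_nonneg_right hab hΘ
  have hbΘ : 0 ≤ (b : ℤ) * ∑ᶠ w, (τ w : ℤ) := mul_nonneg (Int.natCast_nonneg _) hΘ
  have hnΔ : 0 ≤ ((n : ℤ) + 1) * X.Δ := mul_nonneg (by positivity) hΔ
  have hdS : (d j : ℤ) * X.Δ ≤ ((∑ j, d j : ℕ) : ℤ) * X.Δ := by
    refine mul_le_mul_of_nonneg_right ?_ hΔ
    exact_mod_cast Finset.single_le_sum (f := d) (fun _ _ => Nat.zero_le _) (Finset.mem_univ j)
  have hdS0 : 0 ≤ (d j : ℤ) * X.Δ := mul_nonneg hDpos.le hΔ
  refine certSP_mono h2 (stepCSP (X.blk j) h3 h X.hEκ hτ (fun i I hI w => ha w i I hI) hF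
    (fun Q hQ _ => one_le_finrank_aux hx0 hQ) h7 (fun i => ?_) ?_)
  · have k1 : (d i : ℤ) ≤ d j := by exact_mod_cast hmax i
    have k2 : (d i : ℤ) * gh κ A ≤ d j * gh κ A := mul_le_mul_of_nonneg_right k1 hgA
    show (d i : ℤ) * gh κ A + a * ∑ᶠ w, (τ w : ℤ) < height κ X.x
    linarith
  · show 2 * ((n : ℤ) + 1) * (3 * gh κ A + X.Δ) ≤ height κ X.x
    have k1 : 2 * ((n : ℤ) + 1) * (3 * gh κ A + X.Δ) =
        6 * (((n : ℤ) + 1) * gh κ A) + 2 * ((n + 1) * X.Δ) := by ring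
    have k2 : 0 ≤ ((∑ j, d j : ℕ) : ℤ) * X.Δ := mul_nonneg (Int.natCast_nonneg _) hΔ
    rw [k1]
    linarith

end Pool.Agent.Lib.MP_44a246_ntVT
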