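import Mathlib
import Pool.Agent.Lib.MP_44a246_ntVT.VF02
import Pool.Agent.Lib.MP_44a246_nt.Instances
import Pool.Agent.Lib.MP_44a246_nt.RamPoint

/-!
# The sharp Vojta inequality for all but finitely many types: points of bounded degree
-/

namespace Pool.Agent.Lib.MP_44a246_ntVT

open Pool.Agent.Lib.MP_44a246_nt
open Pool.Agent.Lib.MP_e52354_nt
open MvPolynomial

universe u v w

/-- The ramification of the field of definition of a point. -/
theorem ram_of_pointField {κ : Type u} {K : Type v} [Field κ] [IsAlgClosed κ] [CharZero κ]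
    [Field K] [Algebra κ K] {t : K} (ht : Transcendental κ t)
    (hfin : FiniteDimensional (IntermediateField.adjoin κ {t}) K) {L : Type w} [Field L]
    [Algebra K L] [FiniteDimensional K L] [Algebra κ L] [IsScalarTower κ K L] {n q : ℕ}
    {x : Fin (n + 1) → L} (hx : x ≠ 0) (hgen : pointField K x = ⊤)
    (hq : 2 * Module.finrank K L ≤ q + 2) : (ramDeg κ L K : ℤ) ≤ q * height κ x := by
  have key : (ramDeg κ L K : ℤ) ≤ 2 * ((Module.finrank K L : ℤ) - 1) * height κ x ∧
      0 ≤ height κ x := by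
    refine with_instances ht ?_
    intro _ _ _ _ _ _ _ h1 h2
    exact ram_point (κ := κ) x hx hgen
  obtain ⟨h1, h2⟩ := key
  have h3 : 2 * ((Module.finrank K L : ℤ) - 1) ≤ q := by
    have : (2 * (Module.finrank K L : ℤ)) ≤ q + 2 := by exact_mod_cast hq
    linarith
  exact h1.trans (mul_le_mul_of_nonneg_right h3 h2)

/-- `VojtaAt` for the points of bounded degree. -/
theorem VojtaAt.points {κ : Type u} {K : Type v} [Field κ] [IsAlgClosed κ] [CharZero κ]
    [Field K] [Algebra κ K] {t : K} (ht : Transcendental κ t)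
    (hfin : FiniteDimensional (IntermediateField.adjoin κ {t}) K) {n p q : ℕ}
    {d : Fin p → ℕ} {A : Finset (Fin p)} {F : Fin p → MvPolynomial (Fin (n + 1)) K}
    {S : Set (Place κ K)} {ε : ℝ} (h : VojtaAt.{u, v, w} κ d A F S q ε) :
    ∃ G : MvPolynomial (Fin (n + 1)) K, (∃ e, G.IsHomogeneous e) ∧
      (∃ z : Fin (n + 1) → AlgebraicClosure K, z ≠ 0 ∧
        (∀ j ∈ A, MvPolynomial.aeval z (F j) = 0) ∧ MvPolynomial.aeval z G ≠ 0) ∧
      ∃ C : ℕ, ∀ (L : Type w) [Field L] [Algebra K L] [FiniteDimensional K L] [Algebra κ L]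
        [IsScalarTower κ K L] (x : Fin (n + 1) → L), x ≠ 0 →
        (∀ j ∈ A, MvPolynomial.aeval x (F j) = 0) →
        ((ramDeg κ L K : ℤ) ≤ q * height κ x ∨
          pointField K x = ⊤ ∧ 2 * Module.finrank K L ≤ q + 2) →
        ((∑ j, d j : ℕ) - n - 1 - ε) * height κ x ≤
            truncCount κ F d S x + ramDeg κ L K + C * Module.finrank K L ∨
          MvPolynomial.aeval x G = 0 := by
  obtain ⟨G, hG1, hG2, C, hC⟩ := h
  refine ⟨G, hG1, hG2, C, fun L _ _ _ _ _ x hx hFx hR => ?_⟩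
  refine hC L x hx hFx ?_
  rcases hR with hR | ⟨hR1, hR2⟩
  · exact hR
  · exact ram_of_pointField ht hfin hx hR1 hR2

end Pool.Agent.Lib.MP_44a246_ntVT
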