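import Mathlib
import Pool.Agent.Lib.MP_44a246_nt.PolyMain
import Pool.Agent.Lib.MP_44a246_nt.Instances

/-!
# All points: the inequality up to the dimension
-/

namespace Pool.Agent.Lib.MP_44a246_ntVT

open Pool.Agent.Lib.MP_44a246_nt
open MvPolynomial

universe u v w

/-- **All points**: `(∑ d_j - 2 n - 1 + #{j : F_j(x) = 0}) h ≤ N + R + C [L : K]`. -/
theorem all_points {κ : Type u} {K : Type v} [Field κ] [IsAlgClosed κ] [CharZero κ] [Field K]
    [CharZero K] [Algebra κ K] {t : K} (ht : Transcendental κ t)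
    (hfin : FiniteDimensional (IntermediateField.adjoin κ {t}) K) {n p : ℕ} {d : Fin p → ℕ}
    (hd : ∀ j, 1 ≤ d j) {F : Fin p → MvPolynomial (Fin (n + 1)) K}
    (hF : ∀ j, (F j).IsHomogeneous (d j))
    (hgen : AlgebraicIndependent ℚ
      (fun I : {I : Fin p × (Fin (n + 1) →₀ ℕ) // I.2.degree = d I.1} => (F I.1.1).coeff I.1.2))
    {S : Set (Place κ K)} (hS : S.Finite) :
    ∃ C : ℕ, ∀ (L : Type w) [Field L] [Algebra K L] [FiniteDimensional K L] [Algebra κ L]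
      [IsScalarTower κ K L] (x : Fin (n + 1) → L), x ≠ 0 →
      ((∑ j, d j : ℕ) + (Nat.card {j // aeval x (F j) = 0} : ℕ) - 2 * n - 1 : ℤ) * height κ x ≤
        truncCount κ F d S x + ramDeg κ L K + C * Module.finrank K L := by
  classical
  refine with_instances ht ?_
  intro _ _ _ _ _ _ _ h1 h2
  have hgen' : AlgebraicIndependent ℚ
      (fun θ : Σ j, {I : Fin (n + 1) →₀ ℕ // I.degree = d j} => (F θ.1).coeff θ.2.1) := by
    have h3 : (fun θ : Σ j, {I : Fin (n + 1) →₀ ℕ // I.degree = d j} => (F θ.1).coeff θ.2.1) =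
        (fun I : {I : Fin p × (Fin (n + 1) →₀ ℕ) // I.2.degree = d I.1} =>
          (F I.1.1).coeff I.1.2) ∘ (fun θ => ⟨(θ.1, θ.2.1), θ.2.2⟩) := rfl
    rw [h3]
    apply hgen.comp
    rintro ⟨i, ⟨I, hI⟩⟩ ⟨j, ⟨J, hJ⟩⟩ h
    simp only [Subtype.mk.injEq, Prod.mk.injEq] at h
    obtain ⟨rfl, rfl⟩ := h
    rfl
  obtain ⟨C, hC⟩ := poly_main.{w} (k₀ := ℚ) h1 h2 d F hF hgen' (m := 1) le_rfl hd S hS
  refine ⟨C, ?_⟩
  intro L _ _ _ _ _ x hx
  have hcL : CharZero L := charZero_of_injective_algebraMap (algebraMap K L).injective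
  obtain ⟨h3, h4, h5⟩ := hC L x hx n (trdeg_pointField_le hx)
  obtain ⟨q, hq⟩ : ∃ q : ℕ, q = Nat.card {j // aeval x (F j) = 0} := ⟨_, rfl⟩
  rw [← hq] at h3 h4 ⊢
  have h6 : (q : ℤ) ≤ n := by exact_mod_cast h3
  have h7 : ((n : ℤ) - q) * (mu κ 1 x : ℤ) ≤ ((n : ℤ) - q) * height κ x :=
    mul_le_mul_of_nonneg_left h5 (by linarith)
  have h8 : ((∑ j, d j : ℕ) : ℤ) = ∑ j, (d j : ℤ) := by push_cast; rfl
  rw [h8]
  have h9 : ((∑ j, (d j : ℤ)) + q - 2 * n - 1) * height κ x =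
      ((∑ j, (d j : ℤ)) - n - 1) * height κ x - ((n : ℤ) - q) * height κ x := by ring
  rw [h9]
  linarith

end Pool.Agent.Lib.MP_44a246_ntVT
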