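import Mathlib
import Pool.Agent.Lib.MP_44a246_ntVT.VF03
import Pool.Agent.Lib.MP_44a246_ntVT.VF04

/-!
# The sharp Vojta inequality: the final statement
-/

namespace Pool.Agent.Lib.MP_44a246_ntVT

open Pool.Agent.Lib.MP_44a246_nt

universe u v w

/-- The final statement, from the theorem for large `n`. -/
theorem final_of {p q : ℕ} {ε : ℝ} (hε : 0 < ε)
    (main : ∃ n₀ : ℕ, ∀ (n : ℕ) (d : Fin p → ℕ) (A : Finset (Fin p)), n₀ ≤ n →
      (∀ j, 1 ≤ d j) → n + 2 ≤ ∑ j ∈ A, d j →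
      ∀ (κ : Type u) (K : Type v) [Field κ] [IsAlgClosed κ] [CharZero κ] [Field K] [CharZero K]
        [Algebra κ K] (_ : Cardinal.aleph0 ≤ Algebra.trdeg ℚ κ) (t : K) (_ : Transcendental κ t)
        (_ : FiniteDimensional (IntermediateField.adjoin κ {t}) K)
        (F : Fin p → MvPolynomial (Fin (n + 1)) K) (_ : ∀ j, (F j).IsHomogeneous (d j))
        (_ : AlgebraicIndependent ℚ
          (fun I : {I : Fin p × (Fin (n + 1) →₀ ℕ) // I.2.degree = d I.1} =>
            (F I.1.1).coeff I.1.2))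
        (S : Set (Place κ K)) (_ : S.Finite), VojtaAt.{u, v, w} κ d A F S q ε) :
    ∃ E : Finset (ℕ × Finset (Fin p) × (Fin p → ℕ)),
      (∀ e ∈ E, ∀ j ∈ e.2.1, e.2.2 j ≤ 2 * e.1 + q) ∧
      ∀ (n : ℕ) (d : Fin p → ℕ) (A : Finset (Fin p)), (∀ j, 1 ≤ d j) →
      ∀ (κ : Type u) (K : Type v) [Field κ] [IsAlgClosed κ] [CharZero κ] [Field K] [CharZero K]
        [Algebra κ K] (_ : Cardinal.aleph0 ≤ Algebra.trdeg ℚ κ) (t : K) (_ : Transcendental κ t)
        (_ : FiniteDimensional (IntermediateField.adjoin κ {t}) K)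
        (F : Fin p → MvPolynomial (Fin (n + 1)) K) (_ : ∀ j, (F j).IsHomogeneous (d j))
        (_ : AlgebraicIndependent ℚ
          (fun I : {I : Fin p × (Fin (n + 1) →₀ ℕ) // I.2.degree = d I.1} =>
            (F I.1.1).coeff I.1.2))
        (S : Set (Place κ K)) (_ : S.Finite),
        (n + 2 ≤ ∑ j ∈ A, d j → A.card < n → (n, A, fun j => if j ∈ A then d j else 0) ∉ E →
          ∃ G : MvPolynomial (Fin (n + 1)) K, (∃ e, G.IsHomogeneous e) ∧
          (∃ z : Fin (n + 1) → AlgebraicClosure K, z ≠ 0 ∧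
            (∀ j ∈ A, MvPolynomial.aeval z (F j) = 0) ∧ MvPolynomial.aeval z G ≠ 0) ∧
          ∃ C : ℕ, ∀ (L : Type w) [Field L] [Algebra K L] [FiniteDimensional K L] [Algebra κ L]
            [IsScalarTower κ K L] (x : Fin (n + 1) → L), x ≠ 0 →
            (∀ j ∈ A, MvPolynomial.aeval x (F j) = 0) →
            ((ramDeg κ L K : ℤ) ≤ q * height κ x ∨
              pointField K x = ⊤ ∧ 2 * Module.finrank K L ≤ q + 2) →
            ((∑ j, d j : ℕ) - n - 1 - ε) * height κ x ≤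
                truncCount κ F d S x + ramDeg κ L K + C * Module.finrank K L ∨
              MvPolynomial.aeval x G = 0) ∧
        ∃ C : ℕ, ∀ (L : Type w) [Field L] [Algebra K L] [FiniteDimensional K L] [Algebra κ L]
          [IsScalarTower κ K L] (x : Fin (n + 1) → L), x ≠ 0 →
          ((∑ j, d j : ℕ) + (Nat.card {j // MvPolynomial.aeval x (F j) = 0} : ℕ) - 2 * n - 1 : ℤ) *
              height κ x ≤
            truncCount κ F d S x + ramDeg κ L K + C * Module.finrank K L := by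
  obtain ⟨E, hE1, hE2⟩ := vojta_all_of hε main
  refine ⟨E, hE1, fun n d A hd1 κ K _ _ _ _ _ _ htr t ht hfin F hF hgen S hS => ⟨?_, ?_⟩⟩
  · intro hd hA hnE
    exact (hE2 n d A hd1 hd hA hnE κ K htr t ht hfin F hF hgen S hS).points ht hfin
  · exact all_points ht hfin hd1 hF hgen hS

end Pool.Agent.Lib.MP_44a246_ntVT
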